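import Mathlib

/-!
Module Alg1 (project AC, helper18; proofs helper3).  Multi-quadratic functions which vanish on equal
columns are combinations of products of minors.
-/

namespace AC


/-- `f` satisfies the parallelogram law in each column, is symmetric in the columns and vanishes on
equal columns. -/
structure MQ {J Λ V : Type} [AddCommGroup Λ] [AddCommGroup V] [DecidableEq J] (f : (J → Λ) → V) :
    Prop where
  par : ∀ (c : J → Λ) (j : J) (x y : Λ), f (Function.update c j (x + y)) +
    f (Function.update c j (x - y)) = 2 • f (Function.update c j x) + 2 • f (Function.update c j y)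
  symm : ∀ (π : Equiv.Perm J) (c : J → Λ), f (fun j => c (π j)) = f c
  eqcol : ∀ (c : J → Λ) (i j : J), i ≠ j → c i = c j → f c = 0

/-- the minor of the matrix `N` (given by its columns) with the rows `I` -/
def minor {J ι : Type} [Fintype J] [DecidableEq J] (N : J → ι → ℤ) (I : J → ι) : ℤ :=
  Matrix.det (fun j l : J => N l (I j))

section Slot

variable {Λ V : Type} [AddCommGroup Λ] [AddCommGroup V] [Module ℚ V]

theorem two_cancel {x y : V} (h : x + x = y + y) : x = y := by
  have h1 : (2 : ℚ) • x = (2 : ℚ) • y := by rw [two_smul, two_smul, h]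
  have h2 := congrArg (fun z => (2⁻¹ : ℚ) • z) h1
  simpa [smul_smul] using h2

theorem slot_zero {q : Λ → V} (hq : ∀ x y, q (x + y) + q (x - y) = 2 • q x + 2 • q y) :
    q 0 = 0 := by
  have h := hq 0 0
  simp only [add_zero, sub_zero] at h
  have h1 : q 0 + q 0 = 0 + 0 := by
    have : q 0 + q 0 + (q 0 + q 0) = (q 0 + q 0) + 0 := by
      rw [add_zero]
      calc q 0 + q 0 + (q 0 + q 0) = 2 • q 0 + 2 • q 0 := by rw [two_nsmul]
        _ = q 0 + q 0 := h.symm
    rw [add_zero]
    exact add_left_cancel this
  exact two_cancel h1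

theorem slot_neg {q : Λ → V} (hq : ∀ x y, q (x + y) + q (x - y) = 2 • q x + 2 • q y) (y : Λ) :
    q (-y) = q y := by
  have h := hq 0 y
  rw [slot_zero hq, zero_add, zero_sub, smul_zero, zero_add, two_nsmul] at h
  exact add_left_cancel h

theorem slot_two {q : Λ → V} (hq : ∀ x y, q (x + y) + q (x - y) = 2 • q x + 2 • q y) (y : Λ) :
    q (y + y) = 4 • q y := by
  have h := hq y y
  rw [sub_self, slot_zero hq, add_zero] at h
  rw [h, ← add_nsmul]

/-- polarisation -/
def pb (q : Λ → V) (x y : Λ) : V := q (x + y) - q (x - y)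

theorem pb_symm {q : Λ → V} (hq : ∀ x y, q (x + y) + q (x - y) = 2 • q x + 2 • q y) (x y : Λ) :
    pb q x y = pb q y x := by
  unfold pb
  rw [add_comm x y, ← neg_sub y x, slot_neg hq]

omit [Module ℚ V] in
theorem pb_star {q : Λ → V} (hq : ∀ x y, q (x + y) + q (x - y) = 2 • q x + 2 • q y)
    (x x' y : Λ) : pb q (x + x') y + pb q (x - x') y = pb q x y + pb q x y := by
  have h1 := hq (x + y) x'
  have h2 := hq (x - y) x'
  unfold pb
  have e1 : x + x' + y = x + y + x' := by abel
  have e2 : x + x' - y = x - y + x' := by abel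
  have e3 : x - x' + y = x + y - x' := by abel
  have e4 : x - x' - y = x - y - x' := by abel
  rw [e1, e2, e3, e4]
  have h3 : q (x + y + x') - q (x - y + x') + (q (x + y - x') - q (x - y - x'))
      = (q (x + y + x') + q (x + y - x')) - (q (x - y + x') + q (x - y - x')) := by abel
  rw [h3, h1, h2, two_nsmul, two_nsmul, two_nsmul]
  abel

theorem pb_zero {q : Λ → V} (hq : ∀ x y, q (x + y) + q (x - y) = 2 • q x + 2 • q y)
    (y : Λ) : pb q 0 y = 0 := by
  unfold pb
  rw [zero_add, zero_sub, slot_neg hq, sub_self]

theorem pb_two {q : Λ → V} (hq : ∀ x y, q (x + y) + q (x - y) = 2 • q x + 2 • q y)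
    (x y : Λ) : pb q (x + x) y = pb q x y + pb q x y := by
  have h := pb_star hq x x y
  rwa [sub_self, pb_zero hq, add_zero] at h

theorem pb_add {q : Λ → V} (hq : ∀ x y, q (x + y) + q (x - y) = 2 • q x + 2 • q y)
    (a b y : Λ) : pb q (a + b) y = pb q a y + pb q b y := by
  have h := pb_star hq (a + b) (a - b) y
  have e1 : a + b + (a - b) = a + a := by abel
  have e2 : a + b - (a - b) = b + b := by abel
  rw [e1, e2, pb_two hq, pb_two hq] at h
  apply two_cancel
  rw [← h]
  abel

theorem pb_add' {q : Λ → V} (hq : ∀ x y, q (x + y) + q (x - y) = 2 • q x + 2 • q y)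
    (y a b : Λ) : pb q y (a + b) = pb q y a + pb q y b := by
  rw [pb_symm hq, pb_add hq, pb_symm hq a, pb_symm hq b]

/-- rule R1 for a form in four variables -/
theorem ruleR1 {T : Λ → Λ → Λ → Λ → V}
    (a1 : ∀ x y b c d, T (x + y) b c d = T x b c d + T y b c d)
    (s12 : ∀ a b c d, T a b c d = T b a c d)
    (s34 : ∀ a b c d, T a b c d = T a b d c)
    (ex : ∀ a b c d, T a b c d = T c d a b)
    (h0 : ∀ x, T x x x x = 0) (u w z : Λ) :
    T u w u z + T u w u z = - T u u w z := by
  have a2 : ∀ x y a c d, T a (x + y) c d = T a x c d + T a y c d := fun x y a c d => by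
    rw [s12, a1, s12 x, s12 y]
  have a3 : ∀ x y a b d, T a b (x + y) d = T a b x d + T a b y d := fun x y a b d => by
    rw [ex, a1, ex x, ex y]
  have a4 : ∀ x y a b c, T a b c (x + y) = T a b c x + T a b c y := fun x y a b c => by
    rw [s34, a3, s34 _ _ x, s34 _ _ y]
  have n1 : ∀ x b c d, T (-x) b c d = - T x b c d := fun x b c d => by
    have h := a1 x (-x) b c d
    have h' : T 0 b c d = 0 := by
      have := a1 0 0 b c d
      rw [add_zero] at this
      exact (add_eq_left.1 this.symm)
    rw [add_neg_cancel, h'] at h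
    exact (neg_eq_of_add_eq_zero_right h.symm).symm
  have n2 : ∀ a x c d, T a (-x) c d = - T a x c d := fun a x c d => by
    rw [s12, n1, s12 x]
  have n3 : ∀ a b x d, T a b (-x) d = - T a b x d := fun a b x d => by
    rw [ex, n1, ex x]
  have n4 : ∀ a b c x, T a b c (-x) = - T a b c x := fun a b c x => by
    rw [s34, n3, s34 _ _ x]
  -- step 1
  have key : ∀ a b, T a b a b + T a b a b = - T a a b b := fun a b => by
    have h1 := h0 (a + b)
    have h2 := h0 (a + -b)
    simp only [a1, a2, a3, a4, n1, n2, n3, n4, h0] at h1 h2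
    rw [s12 b a a b, s12 b a a a, s12 b a b a, s12 b a b b, s34 a b b a, ex b b a a, s34 a a b a] at h1 h2
    apply two_cancel
    apply two_cancel
    have h3 := congrArg₂ (· + ·) h1 h2
    simp only [neg_neg, add_zero, zero_add] at h3
    have h4 : (T a b a b + T a b a b + (T a b a b + T a b a b) +
      (T a b a b + T a b a b + (T a b a b + T a b a b))) - (-T a a b b + -T a a b b + (-T a a b b + -T a a b b)) = 0 := by
      rw [← h3]
      abel
    exact sub_eq_zero.1 h4
  have k1 := key u (w + z)
  have k2 := key u w
  have k3 := key u z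
  simp only [a2, a4, a3] at k1
  rw [ex u z u w, s34 u u z w] at k1
  apply two_cancel
  have k4 : T u u w w = -(T u w u w + T u w u w) := by rw [k2, neg_neg]
  have k5 : T u u z z = -(T u z u z + T u z u z) := by rw [k3, neg_neg]
  rw [k4, k5] at k1
  have h4 := sub_eq_zero.2 k1
  apply sub_eq_zero.1
  rw [← h4]
  abel

end Slot


section Pol

variable {J Λ V : Type} [Fintype J] [DecidableEq J] [AddCommGroup Λ] [AddCommGroup V]

/-- the columns `c j + ε j • d j` -/
def col (c d : J → Λ) (ε : J → ℤˣ) : J → Λ := fun j => c j + (ε j : ℤ) • d j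

/-- the full polarisation -/
def pol (f : (J → Λ) → V) (c d : J → Λ) : V :=
  ∑ ε : J → ℤˣ, ((∏ j, ε j : ℤˣ) : ℤ) • f (col c d ε)

omit [Fintype J] in
theorem col_update (c d : J → Λ) (ε : J → ℤˣ) (i : J) (x y z : Λ) :
    Function.update (col (Function.update c i x) (Function.update d i y) ε) i z =
      Function.update (col c d ε) i z := by
  funext j
  by_cases hj : j = i
  · subst hj
    simp
  · simp [col, Function.update_of_ne hj]

omit [Fintype J] in
theorem col_update_eq (c d : J → Λ) (ε : J → ℤˣ) (i : J) (x y : Λ) :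
    col (Function.update c i x) (Function.update d i y) ε =
      Function.update (col c d ε) i (x + (ε i : ℤ) • y) := by
  funext j
  by_cases hj : j = i
  · subst hj
    simp [col]
  · simp [col, Function.update_of_ne hj]

omit [Fintype J] in
theorem col_eps (c d : J → Λ) (ε : J → ℤˣ) (i : J) (e : ℤˣ) (x : Λ) :
    Function.update (col c d (Function.update ε i e)) i x =
      Function.update (col c d ε) i x := by
  funext j
  by_cases hj : j = i
  · subst hj
    simp
  · simp [col, Function.update_of_ne hj]

/-- flipping the `i`-th sign -/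
def flip (i : J) : (J → ℤˣ) ≃ (J → ℤˣ) where
  toFun ε := Function.update ε i (- ε i)
  invFun ε := Function.update ε i (- ε i)
  left_inv ε := by simp
  right_inv ε := by simp

theorem prod_flip (i : J) (ε : J → ℤˣ) : ∏ j, flip i ε j = - ∏ j, ε j := by
  have h1 := Fintype.prod_eq_mul_prod_compl i (fun j => flip i ε j)
  have h2 := Fintype.prod_eq_mul_prod_compl i (fun j => ε j)
  rw [h1, h2]
  have h3 : ∏ j ∈ ({i}ᶜ : Finset J), flip i ε j = ∏ j ∈ ({i}ᶜ : Finset J), ε j := by
    apply Finset.prod_congr rfl
    intro j hj
    have : j ≠ i := by simpa using hj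
    simp [flip, Function.update_of_ne this]
  rw [h3]
  simp [flip]

theorem pol_slot (f : (J → Λ) → V) (c d : J → Λ) (i : J) (x y : Λ) :
    pol f (Function.update c i x) (Function.update d i y) +
      pol f (Function.update c i x) (Function.update d i y) =
    ∑ ε : J → ℤˣ, (((∏ j, ε j) * ε i : ℤˣ) : ℤ) •
      pb (fun z => f (Function.update (col c d ε) i z)) x y := by
  have h1 : pol f (Function.update c i x) (Function.update d i y) =
      ∑ ε : J → ℤˣ, (-((∏ j, ε j : ℤˣ) : ℤ)) •
        f (Function.update (col c d ε) i (x + (-(ε i : ℤ)) • y)) := by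
    unfold pol
    rw [← Equiv.sum_comp (flip i)]
    apply Finset.sum_congr rfl
    intro ε _
    rw [prod_flip, col_update_eq]
    have h2 : Function.update (col c d (flip i ε)) i (x + ((flip i ε i : ℤˣ) : ℤ) • y) =
        Function.update (col c d ε) i (x + ((flip i ε i : ℤˣ) : ℤ) • y) := col_eps _ _ _ _ _ _
    rw [h2]
    simp [flip]
  have h2 : pol f (Function.update c i x) (Function.update d i y) =
      ∑ ε : J → ℤˣ, (((∏ j, ε j : ℤˣ) : ℤ)) •
        f (Function.update (col c d ε) i (x + (ε i : ℤ) • y)) := by
    unfold pol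
    apply Finset.sum_congr rfl
    intro ε _
    rw [col_update_eq]
  calc pol f (Function.update c i x) (Function.update d i y) +
      pol f (Function.update c i x) (Function.update d i y) =
      (∑ ε : J → ℤˣ, (((∏ j, ε j : ℤˣ) : ℤ)) •
        f (Function.update (col c d ε) i (x + (ε i : ℤ) • y))) +
      ∑ ε : J → ℤˣ, (-((∏ j, ε j : ℤˣ) : ℤ)) •
        f (Function.update (col c d ε) i (x + (-(ε i : ℤ)) • y)) := by
        rw [← h1, ← h2]
    _ = _ := by
        rw [← Finset.sum_add_distrib]
        apply Finset.sum_congr rfl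
        intro ε _
        unfold pb
        rcases Int.units_eq_one_or (ε i) with h | h
        · rw [h]
          simp only [Units.val_one, one_smul, neg_smul, mul_one, smul_sub]
          rw [← sub_eq_add_neg, ← sub_eq_add_neg]
        · rw [h]
          simp only [Units.val_neg, Units.val_one, one_smul, neg_smul, mul_neg, mul_one, smul_sub,
            neg_neg]
          rw [← sub_eq_add_neg]
          abel_nf

variable [Module ℚ V]

theorem pol_addL {f : (J → Λ) → V} (hf : MQ f) (c d : J → Λ) (i : J) (x x' y : Λ) :
    pol f (Function.update c i (x + x')) (Function.update d i y) =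
      pol f (Function.update c i x) (Function.update d i y) +
      pol f (Function.update c i x') (Function.update d i y) := by
  apply two_cancel
  have h : pol f (Function.update c i x) (Function.update d i y) +
      pol f (Function.update c i x') (Function.update d i y) +
      (pol f (Function.update c i x) (Function.update d i y) +
      pol f (Function.update c i x') (Function.update d i y)) =
      (pol f (Function.update c i x) (Function.update d i y) +
      pol f (Function.update c i x) (Function.update d i y)) +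
      (pol f (Function.update c i x') (Function.update d i y) +
      pol f (Function.update c i x') (Function.update d i y)) := by abel
  rw [h, pol_slot, pol_slot, pol_slot, ← Finset.sum_add_distrib]
  apply Finset.sum_congr rfl
  intro ε _
  rw [← smul_add, pb_add (fun a b => hf.par (col c d ε) i a b)]

theorem pol_slotsymm {f : (J → Λ) → V} (hf : MQ f) (c d : J → Λ) (i : J) (x y : Λ) :
    pol f (Function.update c i x) (Function.update d i y) =
      pol f (Function.update c i y) (Function.update d i x) := by
  apply two_cancel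
  rw [pol_slot, pol_slot]
  apply Finset.sum_congr rfl
  intro ε _
  rw [pb_symm (fun a b => hf.par (col c d ε) i a b)]

theorem pol_addR {f : (J → Λ) → V} (hf : MQ f) (c d : J → Λ) (i : J) (x y y' : Λ) :
    pol f (Function.update c i x) (Function.update d i (y + y')) =
      pol f (Function.update c i x) (Function.update d i y) +
      pol f (Function.update c i x) (Function.update d i y') := by
  rw [pol_slotsymm hf, pol_addL hf, pol_slotsymm hf _ _ _ y, pol_slotsymm hf _ _ _ y']

omit [Module ℚ V] in
theorem pol_perm {f : (J → Λ) → V} (hf : MQ f) (c d : J → Λ) (π : Equiv.Perm J) :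
    pol f (fun j => c (π j)) (fun j => d (π j)) = pol f c d := by
  unfold pol
  rw [← Equiv.sum_comp (Equiv.arrowCongr π.symm (Equiv.refl ℤˣ))]
  apply Finset.sum_congr rfl
  intro ε _
  have h1 : ∏ j, (Equiv.arrowCongr π.symm (Equiv.refl ℤˣ)) ε j = ∏ j, ε j := by
    simp only [Equiv.arrowCongr_apply, Equiv.symm_symm, Equiv.coe_refl, Function.comp, id]
    exact Equiv.prod_comp π ε
  rw [h1, ← hf.symm π (col c d ε)]
  rfl

omit [Fintype J] in
theorem MQ.zero_col {f : (J → Λ) → V} (hf : MQ f) (c : J → Λ) (i : J) (h : c i = 0) :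
    f c = 0 := by
  have := slot_zero (q := fun z => f (Function.update c i z)) (fun a b => hf.par c i a b)
  rwa [← h, Function.update_eq_self] at this

theorem pol_vanish {f : (J → Λ) → V} (hf : MQ f) (c d : J → Λ) (i j : J) (hij : i ≠ j) (x : Λ)
    (h1 : c i = x) (h2 : d i = x) (h3 : c j = x) (h4 : d j = x) : pol f c d = 0 := by
  unfold pol
  apply Finset.sum_eq_zero
  intro ε _
  have h5 : f (col c d ε) = 0 := by
    rcases Int.units_eq_one_or (ε i) with hi | hi
    · rcases Int.units_eq_one_or (ε j) with hj | hj
      · apply hf.eqcol _ i j hij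
        simp [col, hi, hj, h1, h2, h3, h4]
      · apply hf.zero_col _ j
        simp [col, hj, h3, h4]
    · apply hf.zero_col _ i
      simp [col, hi, h1, h2]
  rw [h5, smul_zero]

omit [Fintype J] in
theorem double {f : (J → Λ) → V} (hf : MQ f) (c : J → Λ) (s : Finset J) :
    f (fun j => if j ∈ s then c j + c j else c j) = (4 ^ s.card) • f c := by
  induction s using Finset.induction_on with
  | empty => simp
  | insert a s ha ih =>
    have h := slot_two
      (q := fun z => f (Function.update (fun j => if j ∈ s then c j + c j else c j) a z))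
      (fun x y => hf.par (fun j => if j ∈ s then c j + c j else c j) a x y) (c a)
    have e1 : Function.update (fun j => if j ∈ s then c j + c j else c j) a (c a + c a) =
        (fun j => if j ∈ insert a s then c j + c j else c j) := by
      funext j
      by_cases hj : j = a
      · subst hj; simp
      · simp [hj]
    have e2 : Function.update (fun j => if j ∈ s then c j + c j else c j) a (c a) =
        (fun j => if j ∈ s then c j + c j else c j) := by
      funext j
      by_cases hj : j = a
      · subst hj; simp [ha]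
      · simp [Function.update_of_ne hj]
    rw [e1, e2, ih] at h
    rw [h, Finset.card_insert_of_notMem ha, pow_succ', mul_smul]

theorem pol_diag {f : (J → Λ) → V} (hf : MQ f) (c : J → Λ) :
    pol f c c = (4 ^ Fintype.card J) • f c := by
  unfold pol
  rw [Finset.sum_eq_single (fun _ => 1)]
  · have h := double hf c Finset.univ
    simp only [Finset.mem_univ, if_true, Finset.card_univ] at h
    rw [← h]
    simp only [Finset.prod_const_one, Units.val_one, one_smul]
    congr 1
    funext j
    simp [col]
  · intro ε _ hε
    obtain ⟨j, hj⟩ : ∃ j, ε j ≠ 1 := by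
      by_contra hcon
      push Not at hcon
      exact hε (funext hcon)
    have hj' : ε j = -1 := by
      rcases Int.units_eq_one_or (ε j) with h | h
      · exact absurd h hj
      · exact h
    have : f (col c c ε) = 0 := by
      apply hf.zero_col _ j
      simp [col, hj']
    rw [this, smul_zero]
  · intro h
    exact absurd (Finset.mem_univ _) h


omit [Fintype J] [AddCommGroup Λ] in
theorem swap_upd (c : J → Λ) (i j : J) (hij : i ≠ j) (x y : Λ) :
    (fun l => Function.update (Function.update c j y) i x (Equiv.swap i j l)) =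
      Function.update (Function.update c i y) j x := by
  funext l
  by_cases h1 : l = i
  · subst h1
    rw [Equiv.swap_apply_left, Function.update_of_ne hij.symm, Function.update_self,
      Function.update_of_ne hij, Function.update_self]
  · by_cases h2 : l = j
    · subst h2
      rw [Equiv.swap_apply_right, Function.update_self, Function.update_self]
    · rw [Equiv.swap_apply_of_ne_of_ne h1 h2, Function.update_of_ne h1,
        Function.update_of_ne h2, Function.update_of_ne h2, Function.update_of_ne h1]

/-- the transposition step -/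
theorem pol_step {f : (J → Λ) → V} (hf : MQ f) (σ : Equiv.Perm J) (i j : J) (hij : i ≠ j)
    (hσ : σ i = j) (c : J → Λ) :
    pol f c (fun l => c (σ l)) + pol f c (fun l => c (σ l)) =
      - pol f c (fun l => c ((σ * Equiv.swap i j) l)) := by
  set T : Λ → Λ → Λ → Λ → V := fun x1 x2 x3 x4 =>
    pol f (Function.update (Function.update c i x1) j x3)
      (Function.update (Function.update (fun l => c (σ l)) i x2) j x4) with hT
  have hT' : ∀ x1 x2 x3 x4, T x1 x2 x3 x4 =
      pol f (Function.update (Function.update c j x3) i x1)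
      (Function.update (Function.update (fun l => c (σ l)) j x4) i x2) := by
    intro x1 x2 x3 x4
    rw [hT]
    simp only [Function.update_comm hij]
  have a1 : ∀ x y b c d, T (x + y) b c d = T x b c d + T y b c d := by
    intro x y b c' d
    rw [hT', hT', hT', pol_addL hf]
  have s12 : ∀ a b c d, T a b c d = T b a c d := by
    intro a b c' d
    rw [hT', hT', pol_slotsymm hf]
  have s34 : ∀ a b c d, T a b c d = T a b d c := by
    intro a b c' d
    rw [hT]
    exact pol_slotsymm hf _ _ _ _ _
  have ex : ∀ a b c d, T a b c d = T c d a b := by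
    intro a b c' d
    rw [hT', hT]
    dsimp only
    rw [← pol_perm hf _ _ (Equiv.swap i j)]
    rw [swap_upd _ i j hij, swap_upd _ i j hij]
  have h0 : ∀ x, T x x x x = 0 := by
    intro x
    rw [hT]
    apply pol_vanish hf _ _ i j hij x
    · rw [Function.update_of_ne hij, Function.update_self]
    · rw [Function.update_of_ne hij, Function.update_self]
    · rw [Function.update_self]
    · rw [Function.update_self]
  have e1 : pol f c (fun l => c (σ l)) = T (c i) (c j) (c j) (c (σ j)) := by
    rw [hT]
    dsimp only
    rw [Function.update_eq_self, Function.update_eq_self]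
    have : Function.update (Function.update (fun l => c (σ l)) i (c j)) j (c (σ j)) =
        fun l => c (σ l) := by
      rw [← hσ]
      rw [Function.update_eq_self]
      funext l
      by_cases h2 : l = σ i
      · rw [h2, Function.update_self]
      · rw [Function.update_of_ne h2]
    rw [this]
  have e2 : pol f c (fun l => c ((σ * Equiv.swap i j) l)) = T (c i) (c (σ j)) (c j) (c j) := by
    rw [hT]
    dsimp only
    rw [Function.update_eq_self, Function.update_eq_self]
    congr 1
    funext l
    rw [Equiv.Perm.mul_apply]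
    by_cases h2 : l = j
    · rw [h2, Equiv.swap_apply_right, Function.update_self, hσ]
    · by_cases h1 : l = i
      · rw [h1, Equiv.swap_apply_left, Function.update_of_ne hij, Function.update_self]
      · rw [Equiv.swap_apply_of_ne_of_ne h1 h2, Function.update_of_ne h2,
            Function.update_of_ne h1]
  rw [e1, e2]
  have h := ruleR1 a1 s12 s34 ex h0 (c j) (c i) (c (σ j))
  rw [s12 (c j) (c i), ex (c j) (c j)] at h
  exact h

/-- the value at a permutation -/
theorem pol_sign {f : (J → Λ) → V} (hf : MQ f) : ∀ (n : ℕ) (σ : Equiv.Perm J),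
    σ.support.card ≤ n → ∃ q : ℚ, 0 < q ∧ ∀ c : J → Λ,
      ((Equiv.Perm.sign σ : ℤˣ) : ℤ) • pol f c (fun l => c (σ l)) = q • pol f c c := by
  intro n
  induction n with
  | zero =>
    intro σ hσ
    have : σ = 1 := by
      rw [← Equiv.Perm.support_eq_empty_iff, ← Finset.card_eq_zero]
      omega
    refine ⟨1, one_pos, fun c => ?_⟩
    simp [this]
  | succ n ih =>
    intro σ hσ
    by_cases h1 : σ = 1
    · refine ⟨1, one_pos, fun c => ?_⟩
      simp [h1]
    · obtain ⟨i, hi⟩ : ∃ i, σ i ≠ i := by
        by_contra hcon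
        push Not at hcon
        exact h1 (Equiv.ext hcon)
      have hcard : (σ * Equiv.swap i (σ i)).support.card ≤ n := by
        rw [Equiv.mul_swap_eq_swap_mul]
        have h2 : σ (σ i) ≠ σ i := fun h => hi (σ.injective h)
        have := Equiv.Perm.card_support_swap_mul h2
        omega
      obtain ⟨q, hq, h⟩ := ih _ hcard
      refine ⟨q / 2, by positivity, fun c => ?_⟩
      have h2 := h c
      have h3 := pol_step hf σ i (σ i) hi.symm rfl c
      rw [Equiv.Perm.sign_mul, Equiv.Perm.sign_swap hi.symm] at h2
      have h4 : (((Equiv.Perm.sign σ * -1 : ℤˣ)) : ℤ) = -((Equiv.Perm.sign σ : ℤˣ) : ℤ) := by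
        simp
      rw [h4, neg_smul, ← smul_neg, ← h3, smul_add] at h2
      apply two_cancel
      rw [h2, ← add_smul, add_halves]

/-- the alternating sum -/
def alt (f : (J → Λ) → V) (c d : J → Λ) : V :=
  ∑ σ : Equiv.Perm J, ((Equiv.Perm.sign σ : ℤˣ) : ℤ) • pol f c (fun l => d (σ l))

theorem alt_diag {f : (J → Λ) → V} (hf : MQ f) :
    ∃ q : ℚ, 0 < q ∧ ∀ c : J → Λ, alt f c c = q • f c := by
  choose q hq h using fun σ : Equiv.Perm J => pol_sign hf _ σ le_rfl
  refine ⟨(∑ σ, q σ) * (4 ^ Fintype.card J : ℕ), ?_, fun c => ?_⟩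
  · apply mul_pos
    · exact Finset.sum_pos (fun σ _ => hq σ) ⟨1, Finset.mem_univ _⟩
    · positivity
  · unfold alt
    simp only [h, pol_diag hf]
    rw [← Finset.sum_smul, mul_smul, Nat.cast_smul_eq_nsmul]

omit [Module ℚ V] in
theorem alt_permR {f : (J → Λ) → V} (c d : J → Λ) (τ : Equiv.Perm J) :
    alt f c (fun l => d (τ l)) = ((Equiv.Perm.sign τ : ℤˣ) : ℤ) • alt f c d := by
  unfold alt
  rw [← Equiv.sum_comp (Equiv.mulLeft τ⁻¹), Finset.smul_sum]
  apply Finset.sum_congr rfl
  intro σ _
  simp only [Equiv.coe_mulLeft, Equiv.Perm.sign_mul, Units.val_mul, Equiv.Perm.mul_apply,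
    Equiv.Perm.sign_inv]
  have e : ∀ x, τ (τ⁻¹ x) = x := fun x => Equiv.apply_symm_apply τ x
  simp only [e]
  rw [smul_smul]

omit [Module ℚ V] in
theorem alt_permL {f : (J → Λ) → V} (hf : MQ f) (c d : J → Λ) (τ : Equiv.Perm J) :
    alt f (fun l => c (τ l)) d = ((Equiv.Perm.sign τ : ℤˣ) : ℤ) • alt f c d := by
  unfold alt
  rw [← Equiv.sum_comp (Equiv.mulRight τ), Finset.smul_sum]
  apply Finset.sum_congr rfl
  intro σ _
  simp only [Equiv.coe_mulRight, Equiv.Perm.sign_mul, Units.val_mul, Equiv.Perm.mul_apply]
  rw [pol_perm hf c (fun l => d (σ l)) τ, smul_smul, mul_comm]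

theorem alt_addL {f : (J → Λ) → V} (hf : MQ f) (c d : J → Λ) (i : J) (x y : Λ) :
    alt f (Function.update c i (x + y)) d =
      alt f (Function.update c i x) d + alt f (Function.update c i y) d := by
  unfold alt
  rw [← Finset.sum_add_distrib]
  apply Finset.sum_congr rfl
  intro σ _
  rw [← smul_add]
  congr 1
  have h := pol_addL hf c (fun l => d (σ l)) i x y (d (σ i))
  have e : Function.update (fun l => d (σ l)) i (d (σ i)) = fun l => d (σ l) :=
    Function.update_eq_self i (fun l => d (σ l))
  rwa [e] at h

theorem alt_addR {f : (J → Λ) → V} (hf : MQ f) (c d : J → Λ) (i : J) (x y : Λ) :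
    alt f c (Function.update d i (x + y)) =
      alt f c (Function.update d i x) + alt f c (Function.update d i y) := by
  unfold alt
  rw [← Finset.sum_add_distrib]
  apply Finset.sum_congr rfl
  intro σ _
  rw [← smul_add]
  congr 1
  have e : ∀ z, (fun l => Function.update d i z (σ l)) =
      Function.update (fun l => d (σ l)) (σ.symm i) z := by
    intro z
    funext l
    by_cases hl : σ l = i
    · have : l = σ.symm i := by rw [← hl, Equiv.symm_apply_apply]
      rw [hl, Function.update_self, this, Function.update_self]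
    · have : l ≠ σ.symm i := fun h => hl (by rw [h, Equiv.apply_symm_apply])
      rw [Function.update_of_ne hl, Function.update_of_ne this]
  rw [e, e, e]
  have h := pol_addR hf c (fun l => d (σ l)) (σ.symm i) (c (σ.symm i)) x y
  rwa [Function.update_eq_self] at h

end Pol


section Expand

variable {J ι V : Type} [Fintype J] [dJ : DecidableEq J] [Fintype ι] [DecidableEq ι]
  [AddCommGroup V]

theorem expand_minor (g : (J → ι → ℤ) → V)
    (hadd : ∀ (c : J → ι → ℤ) (i : J) (x y : ι → ℤ), g (Function.update c i (x + y)) =
      g (Function.update c i x) + g (Function.update c i y))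
    (hsgn : ∀ (τ : Equiv.Perm J) (c : J → ι → ℤ),
      g (fun l => c (τ l)) = ((Equiv.Perm.sign τ : ℤˣ) : ℤ) • g c) (N : J → ι → ℤ) :
    (Fintype.card (Equiv.Perm J)) • g N =
      ∑ I : J → ι, minor N I • g (fun l => Pi.single (I l) 1) := by
  have hsm : ∀ (c : J → ι → ℤ) (i : J) (x : ℤ) (y : ι → ℤ), g (Function.update c i (x • y)) =
      x • g (Function.update c i y) := by
    intro c i
    let k : (ι → ℤ) →+ V :=
      { toFun := fun z => g (Function.update c i z)
        map_zero' := by
          have := hadd c i 0 0
          rw [add_zero] at this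
          exact add_eq_left.1 this.symm
        map_add' := fun z w => hadd c i z w }
    exact fun x y => map_zsmul k x y
  let h : MultilinearMap ℤ (fun _ : J => ι → ℤ) V :=
    { toFun := g
      map_update_add' := by
        intro inst c i x y
        rw [Subsingleton.elim inst dJ]
        exact hadd c i x y
      map_update_smul' := by
        intro inst c i x y
        rw [Subsingleton.elim inst dJ]
        exact hsm c i x y }
  have hN : N = fun j => ∑ i : ι, N j i • (Pi.single i 1 : ι → ℤ) := by
    funext j
    exact pi_eq_sum_univ' (N j)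
  have h1 : g N = ∑ r : J → ι, (∏ j, N j (r j)) • g (fun l => Pi.single (r l) 1) := by
    have h2 : g N = h (fun j => ∑ i : ι, N j i • (Pi.single i 1 : ι → ℤ)) := by
      rw [← hN]
      rfl
    rw [h2, MultilinearMap.map_sum]
    apply Finset.sum_congr rfl
    intro r _
    rw [MultilinearMap.map_smul_univ]
    rfl
  have h3 : ∀ τ : Equiv.Perm J, g N = ∑ r : J → ι,
      (((Equiv.Perm.sign τ : ℤˣ) : ℤ) * ∏ j, N j (r (τ j))) •
        g (fun l => Pi.single (r l) 1) := by
    intro τ
    rw [h1, ← Equiv.sum_comp (Equiv.arrowCongr τ.symm (Equiv.refl ι))]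
    apply Finset.sum_congr rfl
    intro r _
    have := hsgn τ (fun l => Pi.single (r l) 1)
    simp only [Equiv.arrowCongr_apply, Equiv.symm_symm, Equiv.coe_refl, Function.comp, id]
    rw [this, smul_smul, mul_comm]
  have h4 : (Fintype.card (Equiv.Perm J)) • g N = ∑ τ : Equiv.Perm J, g N := by
    rw [Finset.sum_const, Finset.card_univ]
  rw [h4, Finset.sum_congr rfl (fun τ _ => h3 τ), Finset.sum_comm]
  apply Finset.sum_congr rfl
  intro r _
  rw [← Finset.sum_smul]
  congr 1
  exact (Matrix.det_apply' (Matrix.of fun j l : J => N l (r j))).symm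

end Expand

theorem alg1 {J ι V : Type} [Fintype J] [DecidableEq J] [Fintype ι] [DecidableEq ι]
    [AddCommGroup V] [Module ℚ V] (f : (J → ι → ℤ) → V) (hf : MQ f) :
    ∃ C : (J → ι) → (J → ι) → V, ∀ N : J → ι → ℤ,
      f N = ∑ I, ∑ K, (minor N I * minor N K) • C I K := by
  obtain ⟨q, hq, h⟩ := alt_diag hf
  set n : ℕ := Fintype.card (Equiv.Perm J) with hn
  have hn0 : n ≠ 0 := Fintype.card_ne_zero
  have h1 : ∀ c N : J → ι → ℤ, n • alt f c N =
      ∑ I : J → ι, minor N I • alt f c (fun l => Pi.single (I l) 1) := fun c N =>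
    expand_minor (fun d => alt f c d) (fun d i x y => alt_addR hf c d i x y)
      (fun τ d => alt_permR c d τ) N
  have h2 : ∀ d N : J → ι → ℤ, n • alt f N d =
      ∑ I : J → ι, minor N I • alt f (fun l => Pi.single (I l) 1) d := fun d N =>
    expand_minor (fun c => alt f c d) (fun c i x y => alt_addL hf c d i x y)
      (fun τ c => alt_permL hf c d τ) N
  refine ⟨fun I K => (q⁻¹ * ((n : ℚ)⁻¹ * (n : ℚ)⁻¹)) •
    alt f (fun l => Pi.single (I l) 1) (fun l => Pi.single (K l) 1), fun N => ?_⟩
  have h3 : n • n • alt f N N = ∑ I, ∑ K, (minor N I * minor N K) •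
      alt f (fun l => Pi.single (I l) 1) (fun l => Pi.single (K l) 1) := by
    rw [h2, Finset.smul_sum]
    apply Finset.sum_congr rfl
    intro I _
    rw [smul_comm, h1, Finset.smul_sum]
    apply Finset.sum_congr rfl
    intro K _
    rw [smul_smul]
  have h4 : f N = (q⁻¹ * ((n : ℚ)⁻¹ * (n : ℚ)⁻¹)) • (n • n • alt f N N) := by
    rw [h N, ← Nat.cast_smul_eq_nsmul ℚ, ← Nat.cast_smul_eq_nsmul ℚ, smul_smul, smul_smul,
      smul_smul]
    have hn1 : (n : ℚ) ≠ 0 := Nat.cast_ne_zero.2 hn0
    have : q⁻¹ * ((n : ℚ)⁻¹ * (n : ℚ)⁻¹) * (n : ℚ) * (n : ℚ) * q = 1 := by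
      field_simp
    rw [this, one_smul]
  rw [h4, h3, Finset.smul_sum]
  apply Finset.sum_congr rfl
  intro I _
  rw [Finset.smul_sum]
  apply Finset.sum_congr rfl
  intro K _
  rw [smul_comm]

end AC
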