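import Pool.Agent.H18.AC.Alg1

/-!
Module Alg2 (project AC, helper18).  The same for a function with one additional linear slot.  Read the header of Alg1 first.
PROOF.  For b : A and v : Λ = ι → ℤ put g(c; v)(b) = g c (fun i => v i • b): MQ in c, additive in v and in b, and g(c; c_j)(b) = 0.
F(c; d; v) = full polarisation in the columns.  RULE R1 as in Alg1 (for each v).  RULE R2: F(.. slot j = (u,w) ..; u) = -(1/2) F(.. slot j = (u,u) ..; w)
(polarise F(.. slot j = (u,u)..; u) = 0 in u).
For σ ∈ Perm (Option J), x : Option J → Λ, x none = v, x (some j) = c j: value(σ) = F(slot j = (x (σ (some j)), c j); x (σ none)).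
value(1) = g(c; v).  σ ≠ 1.  If σ none = some j: R2 in the slot j with u = c j gives value(σ) = -(1/2) value(σ * swap none (some j)).
If σ none = none: some i with σ (some i) = some j ≠ some i: R1 with u = c j and exchange of the slots i, j:
value(σ) = -(1/2) value(σ * swap (some i) (some j)).  In both cases the new permutation moves fewer elements.  So
sign σ * value(σ) = q(σ) g(c; v), q(σ) > 0.
G(x; d) = ∑_σ sign σ F(slot j = (x (σ (some j)), d j); x (σ none)); G((v,c); c) = κ g(c; v), κ > 0; alternating in x : Option J → Λ and in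
d : J → Λ.  Expand in the basis e_i as in Alg1 (5):
g(c; v)(b) = ∑_{I : Option J → ι} ∑_{K : J → ι} det [v | c]_I * minor c K • C I K b.
Finally g c q = ∑ i, g c (fun l => (e_i l) • q i) = ∑ i g(c; e_i)(q i), and minorA N q I = ∑ i, det [e_i | N]_I • q i.
-/

namespace AC
namespace A2

section Bil
variable {Λ W : Type} [AddCommGroup Λ] [AddCommGroup W] [Module ℚ W]

/-- parallelogram law -/
def Par (q : Λ → W) : Prop := ∀ x y : Λ, q (x + y) + q (x - y) = 2 • q x + 2 • q y

theorem two_cancel {a b : W} (h : 2 • a = 2 • b) : a = b := by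
  have h2 : ((2 : ℚ) : ℚ) • a = (2 : ℚ) • b := by
    have e1 : (2 : ℚ) • a = 2 • a := by rw [two_nsmul, two_smul]
    have e2 : (2 : ℚ) • b = 2 • b := by rw [two_nsmul, two_smul]
    rw [e1, e2, h]
  have := congrArg (fun z => (1/2 : ℚ) • z) h2
  simpa [smul_smul] using this

theorem Par.zero {q : Λ → W} (h : Par q) : q 0 = 0 := by
  have h0 := h 0 0
  simp only [add_zero, sub_zero] at h0
  have : (2 : ℕ) • q 0 = 2 • (0 : W) := by
    rw [smul_zero]
    have : q 0 + q 0 = (q 0 + q 0) + (q 0 + q 0) := by simpa [two_nsmul] using h0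
    have h3 := left_eq_add.mp this
    rw [two_nsmul]; exact h3
  exact two_cancel this

theorem Par.neg {q : Λ → W} (h : Par q) (x : Λ) : q (-x) = q x := by
  have h0 := h 0 x
  rw [h.zero, zero_add, zero_sub, smul_zero, zero_add, two_nsmul] at h0
  exact add_left_cancel h0

theorem Par.dbl {q : Λ → W} (h : Par q) (x : Λ) : q (x + x) = 4 • q x := by
  have h0 := h x x
  rw [sub_self, h.zero, add_zero] at h0
  rw [h0]; abel

/-- the polar form (without the factor) -/
def pol (q : Λ → W) (x y : Λ) : W := q (x + y) - q (x - y)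

theorem pol_symm {q : Λ → W} (h : Par q) (x y : Λ) : pol q x y = pol q y x := by
  unfold pol
  rw [add_comm y x, ← h.neg (y - x), neg_sub]

theorem pol_add_left {q : Λ → W} (h : Par q) (x x' y : Λ) :
    pol q (x + x') y = pol q x y + pol q x' y := by
  have h1 := h (x + y) x'
  have h2 := h (x - y) x'
  have h3 := h (x' + y) x
  have h4 := h (x' - y) x
  have e1 : q (x' - y - x) = q (x + y - x') := by rw [← h.neg]; congr 1; abel
  have e2 : q (x' + y - x) = q (x - y - x') := by rw [← h.neg]; congr 1; abel
  have e3 : x' + y + x = x + y + x' := by abel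
  have e4 : x' - y + x = x - y + x' := by abel
  rw [e1, e4] at h4
  rw [e2, e3] at h3
  have e5 : x + x' + y = x + y + x' := by abel
  have e6 : x + x' - y = x - y + x' := by abel
  unfold pol
  rw [e5, e6]
  apply two_cancel
  have := congrArg₂ (fun a b : W => a - b) (congrArg₂ (fun a b : W => a + b) h1 h3)
    (congrArg₂ (fun a b : W => a + b) h2 h4)
  have l : 2 • (q (x + y + x') - q (x - y + x')) =
    q (x + y + x') + q (x + y - x') + (q (x + y + x') + q (x - y - x')) -
    (q (x - y + x') + q (x - y - x') + (q (x - y + x') + q (x + y - x'))) := by abel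
  rw [l, this]; abel

theorem pol_add_right {q : Λ → W} (h : Par q) (x y y' : Λ) :
    pol q x (y + y') = pol q x y + pol q x y' := by
  rw [pol_symm h, pol_add_left h, pol_symm h y, pol_symm h y']

theorem pol_unit {q : Λ → W} (x y : Λ) (e : ℤˣ) :
    pol q x ((e : ℤ) • y) = (e : ℤ) • pol q x y := by
  rcases Int.units_eq_one_or e with rfl | rfl
  · simp
  · simp only [pol, sub_eq_add_neg, Units.val_neg, Units.val_one, neg_smul, one_smul, neg_neg]
    abel

end Bil

section Quart
variable {Λ W : Type} [AddCommGroup Λ] [AddCommGroup W] [Module ℚ W]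

theorem six_zero {a : W} (h : 6 • a = 0) : a = 0 := by
  have h2 : (6 : ℚ) • a = 0 := by
    have e1 : (6 : ℚ) • a = 6 • a := by
      rw [show (6 : ℚ) = ((6 : ℕ) : ℚ) by norm_num, Nat.cast_smul_eq_nsmul]
    rw [e1, h]
  have := congrArg (fun z => (1/6 : ℚ) • z) h2
  simpa [smul_smul] using this

theorem eight_zero {a : W} (h : 8 • a = 0) : a = 0 := by
  have h2 : (8 : ℚ) • a = 0 := by
    have e1 : (8 : ℚ) • a = 8 • a := by
      rw [show (8 : ℚ) = ((8 : ℕ) : ℚ) by norm_num, Nat.cast_smul_eq_nsmul]
    rw [e1, h]
  have := congrArg (fun z => (1/8 : ℚ) • z) h2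
  simpa [smul_smul] using this

theorem quart (T : Λ → Λ → Λ → Λ → W)
    (a1 : ∀ u v y z t, T (u + v) y z t = T u y z t + T v y z t)
    (s12 : ∀ x y z t, T x y z t = T y x z t)
    (s : ∀ x y z t, T x y z t = T z t x y)
    (h0 : ∀ x, T x x x x = 0) (x w : Λ) : T x w x x = 0 := by
  have a2 : ∀ u v x z t, T x (u + v) z t = T x u z t + T x v z t := by
    intro u v x z t; rw [s12, a1, s12 u, s12 v]
  have a3 : ∀ u v x y t, T x y (u + v) t = T x y u t + T x y v t := by
    intro u v x y t; rw [s, a1, s u, s v]
  have a4 : ∀ u v x y z, T x y z (u + v) = T x y z u + T x y z v := by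
    intro u v x y z; rw [s, a2, s z u, s z v]
  have n1 : ∀ u y z t, T (-u) y z t = - T u y z t := by
    intro u y z t
    have := a1 (-u) u y z t
    have h00 := a1 0 0 y z t
    rw [add_zero, left_eq_add] at h00
    rw [neg_add_cancel, h00] at this
    exact eq_neg_of_add_eq_zero_left this.symm
  have n2 : ∀ u x z t, T x (-u) z t = - T x u z t := by
    intro u x z t; rw [s12, n1, s12]
  have n3 : ∀ u x y t, T x y (-u) t = - T x y u t := by
    intro u x y t; rw [s, n1, s]
  have n4 : ∀ u x y z, T x y z (-u) = - T x y z u := by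
    intro u x y z; rw [s, n2, s]
  have key : ∀ x w, T x w x x + T w x w w = 0 := by
    intro x w
    have h1 := h0 (x + w)
    have h2 := h0 (x + -w)
    simp only [a1, a2, a3, a4, n1, n2, n3, n4] at h1 h2
    have e1 : T w x x x = T x w x x := s12 _ _ _ _
    have e2 : T x x w x = T x w x x := by rw [s, s12]
    have e3 : T x x x w = T x w x x := by rw [s]
    have f1 : T x w w w = T w x w w := s12 _ _ _ _
    have f2 : T w w x w = T w x w w := by rw [s, s12]
    have f3 : T w w w x = T w x w w := by rw [s]
    rw [e1, e2, e3, f1, f2, f3] at h1 h2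
    apply eight_zero
    have h3 := congrArg₂ (fun a b : W => a - b) h1 h2
    simp only [sub_zero] at h3
    rw [← h3]
    abel
  have k1 := key x w
  have k2 := key (x + x) w
  simp only [a1, a2, a3, a4] at k2
  apply six_zero
  have e : 6 • T x w x x = (T x w x x + T x w x x + (T x w x x + T x w x x) +
    (T x w x x + T x w x x + (T x w x x + T x w x x)) + (T w x w w + T w x w w)) -
    2 • (T x w x x + T w x w w) := by abel
  rw [e, k2, k1]; simp

/-- linearisation of a function vanishing on the diagonal -/
theorem tri (S : Λ → Λ → Λ → W)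
    (a1 : ∀ u v y z, S (u + v) y z = S u y z + S v y z)
    (a2 : ∀ u v x z, S x (u + v) z = S x u z + S x v z)
    (s23 : ∀ x y z, S x y z = S x z y)
    (h0 : ∀ x, S x x x = 0) (x z : Λ) : S x z x = (-(1/2) : ℚ) • S z x x := by
  have a3 : ∀ u v x y, S x y (u + v) = S x y u + S x y v := by
    intro u v x y; rw [s23, a2, s23 x u, s23 x v]
  have n1 : ∀ u y z, S (-u) y z = - S u y z := by
    intro u y z
    have := a1 (-u) u y z
    have h00 := a1 0 0 y z
    rw [add_zero, left_eq_add] at h00
    rw [neg_add_cancel, h00] at this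
    exact eq_neg_of_add_eq_zero_left this.symm
  have n2 : ∀ u x z, S x (-u) z = - S x u z := by
    intro u x z
    have := a2 (-u) u x z
    have h00 := a2 0 0 x z
    rw [add_zero, left_eq_add] at h00
    rw [neg_add_cancel, h00] at this
    exact eq_neg_of_add_eq_zero_left this.symm
  have n3 : ∀ u x y, S x y (-u) = - S x y u := by
    intro u x y; rw [s23, n2, s23]
  have h1 := h0 (x + z)
  have h2 := h0 (x + -z)
  have hz := h0 z
  simp only [a1, a2, a3, n1, n2, n3] at h1 h2
  have e1 : S x x z = S x z x := s23 _ _ _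
  rw [e1, hz] at h1 h2
  have h3 : (2 : ℕ) • (S z x x + 2 • S x z x) = 2 • 0 := by
    rw [smul_zero]
    have h4 := congrArg₂ (fun a b : W => a - b) h1 h2
    simp only [sub_zero] at h4
    rw [← h4]; abel
  have h5 := two_cancel h3
  have h6 : S z x x = -(2 • S x z x) := eq_neg_of_add_eq_zero_left h5
  rw [h6, ← Nat.cast_smul_eq_nsmul ℚ, smul_neg, neg_smul, neg_neg, smul_smul]
  norm_num

end Quart

section Full
variable {J Λ W : Type} [Fintype J] [DecidableEq J] [AddCommGroup Λ] [AddCommGroup W] [Module ℚ W]

/-- the hypotheses on `h` -/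
structure HQ (h : (J → Λ) → Λ → W) : Prop where
  par : ∀ (c : J → Λ) (j : J) (v : Λ), Par (fun x => h (Function.update c j x) v)
  add : ∀ (c : J → Λ) (u v : Λ), h c (u + v) = h c u + h c v
  symm : ∀ (π : Equiv.Perm J) (c : J → Λ) (v : Λ), h (fun j => c (π j)) v = h c v
  eqcol : ∀ (c : J → Λ) (v : Λ) (i j : J), i ≠ j → c i = c j → h c v = 0
  col : ∀ (c : J → Λ) (j : J), h c (c j) = 0

/-- full polarisation (without the factor) -/
def F (h : (J → Λ) → Λ → W) (x : Option J → Λ) (d : J → Λ) : W :=
  ∑ ε : J → ℤˣ, ((∏ j, ε j : ℤˣ) : ℤ) •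
    h (fun j => x (some j) + ((ε j : ℤˣ) : ℤ) • d j) (x none)

/-- change of one sign -/
def flip (i : J) (ε : J → ℤˣ) : J → ℤˣ := Function.update ε i (-ε i)

theorem flip_flip (i : J) (ε : J → ℤˣ) : flip i (flip i ε) = ε := by
  unfold flip; simp

/-- change of one sign as a permutation -/
def flipE (i : J) : Equiv.Perm (J → ℤˣ) where
  toFun := flip i
  invFun := flip i
  left_inv := flip_flip i
  right_inv := flip_flip i

theorem prod_flip (i : J) (ε : J → ℤˣ) : (∏ j, flip i ε j) = - ∏ j, ε j := by
  rw [← Finset.mul_prod_erase Finset.univ (flip i ε) (Finset.mem_univ i),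
    ← Finset.mul_prod_erase Finset.univ ε (Finset.mem_univ i)]
  rw [Finset.prod_congr rfl (g := ε)]
  · simp [flip]
  · intro j hj
    simp [flip, Finset.ne_of_mem_erase hj]

theorem F_slot (h : (J → Λ) → Λ → W) (x : Option J → Λ) (d : J → Λ) (i : J)
    (u w : Λ) : 2 • F h (Function.update x (some i) u) (Function.update d i w) =
    ∑ ε : J → ℤˣ, ((∏ j, ε j : ℤˣ) : ℤ) • ((ε i : ℤˣ) : ℤ) •
      pol (fun z => h (Function.update (fun j => x (some j) + ((ε j : ℤˣ) : ℤ) • d j) i z) (x none))
        u w := by
  have e : ∀ ε : J → ℤˣ, (fun j => Function.update x (some i) u (some j) +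
      ((ε j : ℤˣ) : ℤ) • Function.update d i w j) =
      Function.update (fun j => x (some j) + ((ε j : ℤˣ) : ℤ) • d j) i
        (u + ((ε i : ℤˣ) : ℤ) • w) := by
    intro ε
    funext j
    by_cases hj : j = i
    · subst hj; simp
    · simp [hj]
  have e1 : F h (Function.update x (some i) u) (Function.update d i w) =
      ∑ ε : J → ℤˣ, ((∏ j, ε j : ℤˣ) : ℤ) •
        h (Function.update (fun j => x (some j) + ((ε j : ℤˣ) : ℤ) • d j) i
        (u + ((ε i : ℤˣ) : ℤ) • w)) (x none) := by
    unfold F
    apply Finset.sum_congr rfl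
    intro ε _
    rw [e ε]
    simp
  have e2 : F h (Function.update x (some i) u) (Function.update d i w) =
      ∑ ε : J → ℤˣ, -(((∏ j, ε j : ℤˣ) : ℤ) •
        h (Function.update (fun j => x (some j) + ((ε j : ℤˣ) : ℤ) • d j) i
        (u - ((ε i : ℤˣ) : ℤ) • w)) (x none)) := by
    rw [e1, ← Equiv.sum_comp (flipE i)]
    apply Finset.sum_congr rfl
    intro ε _
    change ((∏ j, flip i ε j : ℤˣ) : ℤ) • h (Function.update (fun j => x (some j) +
      ((flip i ε j : ℤˣ) : ℤ) • d j) i (u + ((flip i ε i : ℤˣ) : ℤ) • w)) (x none) = _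
    rw [prod_flip]
    have e3 : Function.update (fun j => x (some j) + ((flip i ε j : ℤˣ) : ℤ) • d j) i
        (u + ((flip i ε i : ℤˣ) : ℤ) • w) =
        Function.update (fun j => x (some j) + ((ε j : ℤˣ) : ℤ) • d j) i
        (u - ((ε i : ℤˣ) : ℤ) • w) := by
      funext j
      by_cases hj : j = i
      · subst hj; simp [flip, sub_eq_add_neg]
      · simp [flip, hj]
    rw [e3]
    simp
  rw [two_nsmul]
  nth_rewrite 1 [e1]
  rw [e2, ← Finset.sum_add_distrib]
  apply Finset.sum_congr rfl
  intro ε _
  rw [← pol_unit]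
  unfold pol
  rw [smul_sub]
  exact (sub_eq_add_neg _ _).symm

theorem F_symm {h : (J → Λ) → Λ → W} (hh : HQ h) (x : Option J → Λ) (d : J → Λ) (i : J)
    (u w : Λ) : F h (Function.update x (some i) u) (Function.update d i w) =
      F h (Function.update x (some i) w) (Function.update d i u) := by
  apply two_cancel
  rw [F_slot, F_slot]
  apply Finset.sum_congr rfl
  intro ε _
  rw [pol_symm (hh.par _ _ _)]

theorem F_add_left {h : (J → Λ) → Λ → W} (hh : HQ h) (x : Option J → Λ) (d : J → Λ)
    (p : Option J) (u v : Λ) : F h (Function.update x p (u + v)) d =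
      F h (Function.update x p u) d + F h (Function.update x p v) d := by
  cases p with
  | none =>
    unfold F
    rw [← Finset.sum_add_distrib]
    apply Finset.sum_congr rfl
    intro ε _
    simp only [Function.update_self, ne_eq, reduceCtorEq, not_false_eq_true,
      Function.update_of_ne]
    rw [hh.add, smul_add]
  | some i =>
    have hd : d = Function.update d i (d i) := by simp
    apply two_cancel
    rw [hd, smul_add, F_slot, F_slot, F_slot, ← Finset.sum_add_distrib]
    apply Finset.sum_congr rfl
    intro ε _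
    rw [pol_add_left (hh.par _ _ _), smul_add, smul_add]

theorem F_add_right {h : (J → Λ) → Λ → W} (hh : HQ h) (x : Option J → Λ) (d : J → Λ)
    (i : J) (u v : Λ) : F h x (Function.update d i (u + v)) =
      F h x (Function.update d i u) + F h x (Function.update d i v) := by
  have hx : x = Function.update x (some i) (x (some i)) := by simp
  rw [hx, F_symm hh, F_add_left hh, F_symm hh, F_symm hh _ _ _ v]

theorem F_perm {h : (J → Λ) → Λ → W} (hh : HQ h) (x : Option J → Λ) (d : J → Λ)
    (τ : Equiv.Perm J) : F h (fun p => x (τ.optionCongr p)) (fun j => d (τ j)) = F h x d := by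
  unfold F
  let E : Equiv.Perm (J → ℤˣ) := Equiv.arrowCongr τ.symm (Equiv.refl _)
  rw [← Equiv.sum_comp E]
  apply Finset.sum_congr rfl
  intro ε _
  have hE : ∀ j, E ε j = ε (τ j) := by intro j; rfl
  have h1 : ∏ j, E ε j = ∏ j, ε j := by
    simp only [hE]
    exact Equiv.prod_comp τ ε
  rw [h1]
  congr 1
  simp only [hE]
  have := hh.symm τ (fun j => x (some j) + ((ε j : ℤˣ) : ℤ) • d j) (x none)
  simpa using this

theorem h_zero {h : (J → Λ) → Λ → W} (hh : HQ h) (c : J → Λ) (v : Λ) (j : J) (hc : c j = 0) :
    h c v = 0 := by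
  have := (hh.par c j v).zero
  have e : Function.update c j 0 = c := by rw [← hc]; simp
  simpa only [e] using this

/-- the diagonal value is zero for two slots -/
theorem F_diag {h : (J → Λ) → Λ → W} (hh : HQ h) (x : Option J → Λ) (d : J → Λ) (i j : J)
    (hij : i ≠ j) (h1 : x (some i) = d i) (h2 : x (some j) = d j) (h3 : d i = d j) :
    F h x d = 0 := by
  unfold F
  apply Finset.sum_eq_zero
  intro ε _
  have key : h (fun j => x (some j) + ((ε j : ℤˣ) : ℤ) • d j) (x none) = 0 := by
    rcases Int.units_eq_one_or (ε i) with hi | hi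
    · rcases Int.units_eq_one_or (ε j) with hj | hj
      · apply hh.eqcol _ _ i j hij
        simp [hi, hj, h1, h2, h3]
      · apply h_zero hh _ _ j
        simp [hj, h2]
    · apply h_zero hh _ _ i
      simp [hi, h1]
  rw [key, smul_zero]

theorem F_diag0 {h : (J → Λ) → Λ → W} (hh : HQ h) (x : Option J → Λ) (d : J → Λ) (j : J)
    (h2 : x (some j) = d j) (h3 : x none = d j) : F h x d = 0 := by
  unfold F
  apply Finset.sum_eq_zero
  intro ε _
  have key : h (fun j => x (some j) + ((ε j : ℤˣ) : ℤ) • d j) (x none) = 0 := by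
    rcases Int.units_eq_one_or (ε j) with hj | hj
    · have := hh.col (fun j => x (some j) + ((ε j : ℤˣ) : ℤ) • d j) j
      simp only [hj, h2, Units.val_one, one_smul] at this
      rw [hh.add] at this
      rw [h3]
      apply two_cancel
      rw [two_nsmul, smul_zero]
      exact this
    · apply h_zero hh _ _ j
      simp [hj, h2]
  rw [key, smul_zero]

theorem F_diag1 {h : (J → Λ) → Λ → W} (hh : HQ h) (y : Option J → Λ) (d : J → Λ) (i j : J)
    (hij : i ≠ j) (x : Λ) :
    F h (Function.update (Function.update y (some i) x) (some j) x) (Function.update d j x) = 0 := by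
  have hij' : (some i : Option J) ≠ some j := by simpa using hij
  have hji' : (some j : Option J) ≠ some i := fun e => hij' e.symm
  have key := quart (fun x1 x2 x3 x4 => F h
    (Function.update (Function.update y (some i) x1) (some j) x3)
    (Function.update (Function.update d i x2) j x4)) ?_ ?_ ?_ ?_ x (d i)
  · simpa using key
  · intro u v a b c
    rw [Function.update_comm hij', F_add_left hh, Function.update_comm hji',
      Function.update_comm hji']
  · intro a b c e
    rw [Function.update_comm hij', Function.update_comm hij, F_symm hh,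
      Function.update_comm hji', Function.update_comm (Ne.symm hij)]
  · intro a b c e
    rw [← F_perm hh _ _ (Equiv.swap i j)]
    congr 1
    · funext p
      cases p with
      | none =>
        have e0 : Equiv.swap (some i) (some j) (none : Option J) = none :=
          Equiv.swap_apply_of_ne_of_ne (by simp) (by simp)
        simp [e0]
      | some l =>
        by_cases h1 : l = i
        · subst h1; simp [hij]
        · by_cases h2 : l = j
          · subst h2; simp [hij]
          · have e0 : Equiv.swap (some i) (some j) (some l) = some l :=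
              Equiv.swap_apply_of_ne_of_ne (by simpa using h1) (by simpa using h2)
            simp [e0, h1, h2]
    · funext l
      by_cases h1 : l = i
      · subst h1; simp [hij]
      · by_cases h2 : l = j
        · subst h2; simp [hij, hij.symm]
        · simp [Equiv.swap_apply_of_ne_of_ne h1 h2, h1, h2]
  · intro a
    apply F_diag hh _ _ i j hij <;> simp [hij]

theorem F_ex {h : (J → Λ) → Λ → W} (hh : HQ h) (y : Option J → Λ) (d : J → Λ)
    (p : Option J) (j : J) (hp : p ≠ some j) (hy : y p = d j) :
    F h y d = (-(1/2) : ℚ) • F h (y ∘ Equiv.swap p (some j)) d := by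
  have key := tri (fun z a b => F h
    (Function.update (Function.update y p z) (some j) a) (Function.update d j b)) ?_ ?_ ?_ ?_
    (d j) (y (some j))
  · have e1 : Function.update (Function.update y p (d j)) (some j) (y (some j)) = y := by
      rw [← hy]; simp
    have e2 : Function.update (Function.update y p (y (some j))) (some j) (d j) =
        y ∘ Equiv.swap p (some j) := by
      funext q
      by_cases h1 : q = p
      · subst h1; simp [hp]
      · by_cases h2 : q = some j
        · subst h2; simp [hy]
        · simp [Equiv.swap_apply_of_ne_of_ne h1 h2, h1, h2]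
    simp only [e1, e2, Function.update_eq_self] at key
    exact key
  · intro u v a b
    rw [Function.update_comm hp, F_add_left hh, Function.update_comm hp.symm,
      Function.update_comm hp.symm]
  · intro u v a b
    rw [F_add_left hh]
  · intro a b c
    rw [F_symm hh]
  · intro a
    cases p with
    | none =>
      apply F_diag0 hh _ _ j <;> simp
    | some i =>
      have hij : i ≠ j := by simpa using hp
      exact F_diag1 hh _ _ i j hij a

theorem F_sgn {h : (J → Λ) → Λ → W} (hh : HQ h) : ∀ (n : ℕ) (σ : Equiv.Perm (Option J)),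
    σ.support.card = n → ∃ q : ℚ, 0 < q ∧ ∀ (x : Option J → Λ) (d : J → Λ),
      (∀ j, x (some j) = d j) →
      ((Equiv.Perm.sign σ : ℤˣ) : ℤ) • F h (x ∘ σ) d = q • F h x d := by
  intro n
  induction n using Nat.strong_induction_on with
  | _ n ih =>
    intro σ hσ
    by_cases h1 : σ = 1
    · subst h1
      refine ⟨1, one_pos, ?_⟩
      intro x d _
      simp
    · obtain ⟨p, hp1, hp2⟩ : ∃ p, σ p ≠ p ∧ σ p ≠ none := by
        have : ∃ p, σ p ≠ p := by
          by_contra hcon
          push Not at hcon
          exact h1 (Equiv.ext hcon)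
        obtain ⟨p, hp⟩ := this
        by_cases h2 : σ p = none
        · refine ⟨none, ?_, ?_⟩
          · intro h3
            rw [← h3] at h2
            have := σ.injective h2
            rw [this] at hp
            exact hp h3
          · intro h3
            rw [← h3] at h2
            have := σ.injective h2
            rw [this] at hp
            exact hp h3
        · exact ⟨p, hp, h2⟩
      obtain ⟨j, hj⟩ := Option.ne_none_iff_exists'.mp hp2
      have hlt : (σ * Equiv.swap p (some j)).support.card < n := by
        rw [Equiv.mul_swap_eq_swap_mul, ← hσ, hj]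
        apply Equiv.Perm.card_support_swap_mul
        intro h3
        rw [← hj] at h3
        exact hp1 (σ.injective h3)
      obtain ⟨q, hq, hq2⟩ := ih _ hlt _ rfl
      refine ⟨q / 2, by positivity, ?_⟩
      intro x d hx
      have hpj : p ≠ some j := by rw [← hj]; exact fun e => hp1 e.symm
      have hy : (x ∘ σ) p = d j := by
        simp only [Function.comp_apply]
        rw [hj, hx]
      rw [F_ex hh _ _ p j hpj hy]
      have e2 := hq2 x d hx
      rw [Equiv.Perm.sign_mul, Equiv.Perm.sign_swap hpj] at e2
      have e3 : (x ∘ σ) ∘ Equiv.swap p (some j) = x ∘ (σ * Equiv.swap p (some j)) := rfl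
      rw [e3]
      simp only [mul_neg, mul_one, Units.val_neg, neg_smul] at e2
      have e4 : (q / 2) • F h x d = (1/2 : ℚ) • q • F h x d := by
        rw [smul_smul]; congr 1; ring
      rw [e4, ← e2, smul_comm, neg_smul, smul_neg]

theorem F_self {h : (J → Λ) → Λ → W} (hh : HQ h) (x : Option J → Λ) (d : J → Λ)
    (hx : ∀ j, x (some j) = d j) : F h x d = 4 ^ (Fintype.card J) • h d (x none) := by
  unfold F
  rw [Finset.sum_eq_single 1]
  · simp only [Pi.one_apply, Finset.prod_const_one, Units.val_one, one_smul, hx]
    have key : ∀ s : Finset J, h (fun j => if j ∈ s then d j + d j else d j) (x none) =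
        4 ^ s.card • h d (x none) := by
      intro s
      induction s using Finset.induction_on with
      | empty => simp
      | insert i s hi ih =>
        have e1 : (fun j => if j ∈ insert i s then d j + d j else d j) =
            Function.update (fun j => if j ∈ s then d j + d j else d j) i (d i + d i) := by
          funext j
          by_cases hj : j = i
          · subst hj; simp
          · simp [hj]
        have e2 : (fun j => if j ∈ s then d j + d j else d j) =
            Function.update (fun j => if j ∈ s then d j + d j else d j) i (d i) := by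
          funext j
          by_cases hj : j = i
          · subst hj; simp [hi]
          · simp [hj]
        rw [e1, (hh.par _ i (x none)).dbl, ← e2, ih, Finset.card_insert_of_notMem hi, smul_smul,
          pow_succ, mul_comm]
    have := key Finset.univ
    simpa using this
  · intro ε _ hε
    have : ∃ j, ε j ≠ 1 := by
      by_contra hcon
      push Not at hcon
      exact hε (funext hcon)
    obtain ⟨j, hj⟩ := this
    have hj2 : ε j = -1 := (Int.units_eq_one_or (ε j)).resolve_left hj
    rw [h_zero hh _ _ j, smul_zero]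
    simp [hj2, hx]
  · intro hcon
    exact absurd (Finset.mem_univ _) hcon

end Full

section Expand
variable {J ι W : Type} [Fintype J] [DecidableEq J] [Fintype ι] [DecidableEq ι] [AddCommGroup W]
  [Module ℚ W]

/-- the basis vectors -/
def e (i : ι) : ι → ℤ := Pi.single i 1

theorem expand_one {P : Type} [Fintype P] [DecidableEq P] (f : (P → ι → ℤ) → W)
    (hf : ∀ (x : P → ι → ℤ) (p : P) (u v : ι → ℤ), f (Function.update x p (u + v)) =
      f (Function.update x p u) + f (Function.update x p v)) (x : P → ι → ℤ) :
    f x = ∑ I : P → ι, (∏ p, x p (I p)) • f (fun p => e (I p)) := by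
  let M : MultilinearMap ℤ (fun _ : P => ι → ℤ) W := MultilinearMap.mk' f hf (by
    intro m p c u
    let φ : (ι → ℤ) →+ W := AddMonoidHom.mk' (fun z => f (Function.update m p z)) (hf m p)
    exact map_zsmul φ c u)
  have hx : x = fun p => ∑ i : ι, x p i • e i := by
    funext p
    funext i
    simp [e, Finset.sum_apply, Pi.single_apply]
  have h1 : f x = M (fun p => ∑ i : ι, x p i • e i) := by
    rw [← hx]
    rfl
  rw [h1, MultilinearMap.map_sum]
  apply Finset.sum_congr rfl
  intro I _
  rw [MultilinearMap.map_smul_univ]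
  rfl

theorem main {h : (J → ι → ℤ) → (ι → ℤ) → W} (hh : HQ h) :
    ∃ C : (Option J → ι) → (J → ι) → W, ∀ (x : Option J → ι → ℤ) (c : J → ι → ℤ),
      (∀ j, x (some j) = c j) → h c (x none) =
        ∑ I : Option J → ι, ∑ K : J → ι, (minor c K *
          Matrix.det (fun r s : Option J => x s (I r))) • C I K := by
  choose q hq0 hq using fun σ : Equiv.Perm (Option J) => F_sgn hh _ σ rfl
  let κ : ℚ := ∑ σ : Equiv.Perm (Option J), q σ
  have hκ : 0 < κ := Finset.sum_pos (fun σ _ => hq0 σ) Finset.univ_nonempty
  let m : ℕ := Fintype.card J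
  have hN : (0 : ℚ) < m.factorial := by exact_mod_cast Nat.factorial_pos m
  obtain ⟨Φ, hΦ⟩ : ∃ Φ : (Option J → ι) → (J → ι) → W, ∀ I K,
      F h (fun p => e (I p)) (fun j => e (K j)) = Φ I K := ⟨_, fun _ _ => rfl⟩
  refine ⟨fun I K => (m.factorial * κ * 4 ^ m)⁻¹ • Φ I K, ?_⟩
  intro x c hx
  have h1 : ∑ σ : Equiv.Perm (Option J), ((Equiv.Perm.sign σ : ℤˣ) : ℤ) • F h (x ∘ σ) c =
      (κ * 4 ^ m) • h c (x none) := by
    rw [Finset.sum_congr rfl (fun σ _ => hq σ x c hx), ← Finset.sum_smul, F_self hh x c hx,
      mul_smul]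
    congr 1
    rw [← Nat.cast_smul_eq_nsmul ℚ]
    push_cast
    rfl
  have h2 : ∀ τ : Equiv.Perm J, ((Equiv.Perm.sign τ : ℤˣ) : ℤ) •
      ∑ σ : Equiv.Perm (Option J), ((Equiv.Perm.sign σ : ℤˣ) : ℤ) • F h (x ∘ σ) (c ∘ τ) =
      (κ * 4 ^ m) • h c (x none) := by
    intro τ
    rw [← h1, ← Equiv.sum_comp (Equiv.mulRight τ.optionCongr), Finset.smul_sum]
    apply Finset.sum_congr rfl
    intro σ _
    have e1 : F h (x ∘ (σ * τ.optionCongr : Equiv.Perm (Option J))) (c ∘ τ) = F h (x ∘ σ) c :=
      F_perm hh (x ∘ σ) c τ
    have e2 : (Equiv.mulRight τ.optionCongr) σ = σ * τ.optionCongr := rfl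
    rw [e2, e1, Equiv.Perm.sign_mul, Equiv.optionCongr_sign, smul_smul]
    congr 1
    rcases Int.units_eq_one_or (Equiv.Perm.sign τ) with h3 | h3 <;> simp [h3]
  have h4 : ∑ τ : Equiv.Perm J, ((Equiv.Perm.sign τ : ℤˣ) : ℤ) •
      ∑ σ : Equiv.Perm (Option J), ((Equiv.Perm.sign σ : ℤˣ) : ℤ) • F h (x ∘ σ) (c ∘ τ) =
      (m.factorial * κ * 4 ^ m) • h c (x none) := by
    rw [Finset.sum_congr rfl (fun τ _ => h2 τ), Finset.sum_const, Finset.card_univ,
      Fintype.card_perm, ← Nat.cast_smul_eq_nsmul ℚ, smul_smul, mul_assoc]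
  have h5 : ∀ (y : Option J → ι → ℤ) (d : J → ι → ℤ), F h y d =
      ∑ I : Option J → ι, ∑ K : J → ι, ((∏ p, y p (I p)) * (∏ j, d j (K j))) •
        Φ I K := by
    intro y d
    rw [expand_one (fun y => F h y d) (fun y p u v => F_add_left hh y d p u v)]
    apply Finset.sum_congr rfl
    intro I _
    rw [expand_one (fun d => F h (fun p => e (I p)) d) (fun d j u v => F_add_right hh _ d j u v),
      Finset.smul_sum]
    apply Finset.sum_congr rfl
    intro K _
    rw [mul_smul, hΦ]
  have h6 : ∑ τ : Equiv.Perm J, ((Equiv.Perm.sign τ : ℤˣ) : ℤ) •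
      ∑ σ : Equiv.Perm (Option J), ((Equiv.Perm.sign σ : ℤˣ) : ℤ) • F h (x ∘ σ) (c ∘ τ) =
      ∑ I : Option J → ι, ∑ K : J → ι, (minor c K *
          Matrix.det (fun r s : Option J => x s (I r))) • Φ I K := by
    have e1 : ∀ I : Option J → ι, Matrix.det (fun r s : Option J => x s (I r)) =
        ∑ σ : Equiv.Perm (Option J), ((Equiv.Perm.sign σ : ℤˣ) : ℤ) * ∏ p, x (σ p) (I p) := by
      intro I
      rw [← Matrix.det_transpose, Matrix.det_apply']
      rfl
    have e2 : ∀ K : J → ι, minor c K =
        ∑ τ : Equiv.Perm J, ((Equiv.Perm.sign τ : ℤˣ) : ℤ) * ∏ j, c (τ j) (K j) := by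
      intro K
      unfold minor
      rw [← Matrix.det_transpose, Matrix.det_apply']
      rfl
    simp only [h5, e1, e2, Finset.smul_sum, Finset.sum_mul_sum, Finset.sum_smul]
    rw [Finset.sum_congr rfl (fun τ _ => Finset.sum_comm)]
    rw [Finset.sum_comm]
    apply Finset.sum_congr rfl
    intro I _
    rw [Finset.sum_congr rfl (fun τ _ => Finset.sum_comm)]
    rw [Finset.sum_comm]
    apply Finset.sum_congr rfl
    intro K _
    apply Finset.sum_congr rfl
    intro τ _
    apply Finset.sum_congr rfl
    intro σ _
    rw [smul_smul, smul_smul]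
    congr 1
    simp only [Function.comp_apply]
    ring
  have h7 : (m.factorial * κ * 4 ^ m) • h c (x none) = ∑ I : Option J → ι, ∑ K : J → ι,
      (minor c K * Matrix.det (fun r s : Option J => x s (I r))) • Φ I K := h4.symm.trans h6
  have hne : (m.factorial * κ * 4 ^ m) ≠ 0 := by positivity
  have h8 : h c (x none) = (m.factorial * κ * 4 ^ m)⁻¹ • (m.factorial * κ * 4 ^ m) •
      h c (x none) := by
    rw [smul_smul, inv_mul_cancel₀ hne, one_smul]
  rw [h8, h7, Finset.smul_sum]
  apply Finset.sum_congr rfl
  intro I _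
  rw [Finset.smul_sum]
  apply Finset.sum_congr rfl
  intro K _
  rw [smul_comm]

end Expand
end A2

/-- the minor with the rows `I` of the matrix `[q | N]` with first column `q : ι → A` -/
def minorA {J ι A : Type} [Fintype J] [DecidableEq J] [Fintype ι] [DecidableEq ι] [AddCommGroup A]
    (N : J → ι → ℤ) (q : ι → A) (I : Option J → ι) : A :=
  ∑ i : ι, (Matrix.det (fun r c : Option J =>
    c.elim (if I r = i then (1 : ℤ) else 0) (fun l => N l (I r)))) • q i

theorem alg2 {J ι V A : Type} [Fintype J] [DecidableEq J] [Fintype ι] [DecidableEq ι]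
    [AddCommGroup V] [Module ℚ V] [AddCommGroup A] (g : (J → ι → ℤ) → (ι → A) →+ V)
    (hg : ∀ q : ι → A, MQ (fun N => g N q))
    (hcol : ∀ (N : J → ι → ℤ) (j : J) (b : A), g N (fun i => N j i • b) = 0) :
    ∃ C : (Option J → ι) → (J → ι) → (A →+ V), ∀ (N : J → ι → ℤ) (q : ι → A),
      g N q = ∑ I : Option J → ι, ∑ K : J → ι, minor N K • C I K (minorA N q I) := by
  let h : (J → ι → ℤ) → (ι → ℤ) → (A →+ V) := fun c v =>
    { toFun := fun b => g c (fun i => v i • b)
      map_zero' := by
        have : (fun i => v i • (0 : A)) = 0 := by funext i; simp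
        rw [this, map_zero]
      map_add' := by
        intro a b
        have : (fun i => v i • (a + b)) = (fun i => v i • a) + (fun i => v i • b) := by
          funext i; simp
        rw [this, map_add] }
  have hap : ∀ c v b, h c v b = g c (fun i => v i • b) := fun _ _ _ => rfl
  have hh : A2.HQ h :=
    { par := by
        intro c j v x y
        ext b
        have := (hg (fun i => v i • b)).par c j x y
        simpa [hap] using this
      add := by
        intro c u v
        ext b
        rw [AddMonoidHom.add_apply, hap, hap, hap, ← map_add]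
        congr 1
        funext i
        simp [add_smul]
      symm := by
        intro π c v
        ext b
        exact (hg (fun i => v i • b)).symm π c
      eqcol := by
        intro c v i j hij hc
        ext b
        exact (hg (fun i => v i • b)).eqcol c i j hij hc
      col := by
        intro c j
        ext b
        exact hcol c j b }
  obtain ⟨C, hC⟩ := A2.main hh
  refine ⟨C, ?_⟩
  intro N q
  have h1 : g N q = ∑ i : ι, h N (A2.e i) (q i) := by
    have : q = ∑ i : ι, (fun l => A2.e i l • q i) := by
      funext l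
      simp [A2.e, Finset.sum_apply, Pi.single_apply]
    conv_lhs => rw [this]
    rw [map_sum]
    rfl
  have h2 : ∀ i : ι, h N (A2.e i) = ∑ I : Option J → ι, ∑ K : J → ι, (minor N K *
      Matrix.det (fun r c : Option J =>
        c.elim (if I r = i then (1 : ℤ) else 0) (fun l => N l (I r)))) • C I K := by
    intro i
    have := hC (fun p => p.elim (A2.e i) N) N (fun j => rfl)
    simp only [Option.elim_none] at this
    rw [this]
    apply Finset.sum_congr rfl
    intro I _
    apply Finset.sum_congr rfl
    intro K _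
    congr 3
    funext r s
    cases s with
    | none => simp [A2.e, Pi.single_apply]
    | some l => rfl
  rw [h1]
  simp only [h2]
  simp only [AddMonoidHom.finsetSum_apply, AddMonoidHom.coe_smul, Pi.smul_apply]
  rw [Finset.sum_comm]
  apply Finset.sum_congr rfl
  intro I _
  rw [Finset.sum_comm]
  apply Finset.sum_congr rfl
  intro K _
  unfold minorA
  rw [map_sum, Finset.smul_sum]
  apply Finset.sum_congr rfl
  intro i _
  rw [map_zsmul, mul_smul]

end AC
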