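import Pool.Agent.H18.AC.Defs

/-!
Base change of points of the Legendre curves along homomorphisms of fields.
-/

namespace AC

open ZC WeierstrassCurve
open scoped Classical

theorem leg_map {F G : Type} [Field F] [Field G] (f : F →+* G) (a : F) :
    (leg a).map f = leg (f a) := by
  unfold leg WeierstrassCurve.map
  simp

theorem leg_ns_map {F G : Type} [Field F] [Field G] (f : F →+* G) {a : F} {b : G} (h : f a = b)
    {x y : F} (hxy : (leg a).toAffine.Nonsingular x y) :
    (leg b).toAffine.Nonsingular (f x) (f y) := by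
  subst h
  have := (WeierstrassCurve.Affine.map_nonsingular (W := (leg a).toAffine) (f := f)
    f.injective x y).2 hxy
  rw [← leg_map]
  exact this

/-- Base change of points along a homomorphism `f : F → G` of fields with `f a = b`. -/
noncomputable def bc {F G : Type} [Field F] [Field G] (f : F →+* G) {a : F} {b : G} (h : f a = b) :
    Pt a →+ Pt b where
  toFun P := match P with
    | .zero => .zero
    | .some x y hxy => .some (f x) (f y) (leg_ns_map f h hxy)
  map_zero' := rfl
  map_add' := by
    subst h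
    have hslope : ∀ x₁ x₂ y₁ y₂ : F, (leg (f a)).toAffine.slope (f x₁) (f x₂) (f y₁) (f y₂) =
        f ((leg a).toAffine.slope x₁ x₂ y₁ y₂) := by
      intro x₁ x₂ y₁ y₂
      rw [← leg_map]
      exact WeierstrassCurve.Affine.map_slope f x₁ x₂ y₁ y₂
    have hneg : ∀ x y : F, (leg (f a)).toAffine.negY (f x) (f y) = f ((leg a).toAffine.negY x y) := by
      intro x y
      rw [← leg_map]
      exact WeierstrassCurve.Affine.map_negY (W' := (leg a).toAffine) f x y
    have haddX : ∀ x₁ x₂ ℓ : F, (leg (f a)).toAffine.addX (f x₁) (f x₂) (f ℓ) =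
        f ((leg a).toAffine.addX x₁ x₂ ℓ) := by
      intro x₁ x₂ ℓ
      rw [← leg_map]
      exact WeierstrassCurve.Affine.map_addX (W' := (leg a).toAffine) f x₁ x₂ ℓ
    have haddY : ∀ x₁ x₂ y₁ ℓ : F, (leg (f a)).toAffine.addY (f x₁) (f x₂) (f y₁) (f ℓ) =
        f ((leg a).toAffine.addY x₁ x₂ y₁ ℓ) := by
      intro x₁ x₂ y₁ ℓ
      rw [← leg_map]
      exact WeierstrassCurve.Affine.map_addY (W' := (leg a).toAffine) f x₁ y₁ x₂ ℓ
    rintro (_ | ⟨x₁, y₁, h₁⟩) (_ | ⟨x₂, y₂, h₂⟩)
    any_goals rfl
    by_cases hxy : x₁ = x₂ ∧ y₁ = (leg a).toAffine.negY x₂ y₂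
    · rw [Affine.Point.add_of_Y_eq hxy.left hxy.right]
      symm
      exact Affine.Point.add_of_Y_eq (congr_arg _ hxy.left) (by rw [hxy.right, hneg])
    · rw [Affine.Point.add_some hxy]
      have hxy' : ¬ (f x₁ = f x₂ ∧ f y₁ = (leg (f a)).toAffine.negY (f x₂) (f y₂)) := by
        rintro ⟨h1, h2⟩
        rw [hneg] at h2
        exact hxy ⟨f.injective h1, f.injective h2⟩
      have := Affine.Point.add_some (h₁ := leg_ns_map f rfl h₁) (h₂ := leg_ns_map f rfl h₂) hxy'
      refine Eq.trans ?_ this.symm
      simp only [hslope, haddX, haddY]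

theorem bc_zero' {F G : Type} [Field F] [Field G] (f : F →+* G) {a : F} {b : G} (h : f a = b) :
    bc f h .zero = .zero := rfl

theorem bc_some {F G : Type} [Field F] [Field G] (f : F →+* G) {a : F} {b : G} (h : f a = b)
    {x y : F} (hxy : (leg a).toAffine.Nonsingular x y) :
    bc f h (.some x y hxy) = .some (f x) (f y) (leg_ns_map f h hxy) := rfl

theorem xc_bc {F G : Type} [Field F] [Field G] (f : F →+* G) {a : F} {b : G} (h : f a = b)
    (P : Pt a) : xc (bc f h P) = f (xc P) := by
  rcases P with _ | ⟨x, y, hxy⟩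
  · rw [bc_zero']; exact (map_zero f).symm
  · rfl

theorem yc_bc {F G : Type} [Field F] [Field G] (f : F →+* G) {a : F} {b : G} (h : f a = b)
    (P : Pt a) : yc (bc f h P) = f (yc P) := by
  rcases P with _ | ⟨x, y, hxy⟩
  · rw [bc_zero']; exact (map_zero f).symm
  · rfl

theorem bc_injective {F G : Type} [Field F] [Field G] (f : F →+* G) {a : F} {b : G} (h : f a = b) :
    Function.Injective (bc f h) := by
  rintro (_ | ⟨x, y, hxy⟩) (_ | ⟨x', y', hxy'⟩) hPQ
  · rfl
  · rw [bc_zero', bc_some] at hPQ; cases hPQ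
  · rw [bc_zero', bc_some] at hPQ; cases hPQ
  · rw [bc_some, bc_some, Affine.Point.some.injEq] at hPQ
    have h1 := f.injective hPQ.1
    have h2 := f.injective hPQ.2
    subst h1 h2
    rfl

theorem bc_bc {F G H : Type} [Field F] [Field G] [Field H] (f : F →+* G) (g : G →+* H)
    {a : F} {b : G} {c : H} (h : f a = b) (h' : g b = c) (h'' : (g.comp f) a = c) (P : Pt a) :
    bc g h' (bc f h P) = bc (g.comp f) h'' P := by
  rcases P with _ | ⟨x, y, hxy⟩ <;> rfl

theorem bc_congr {F G : Type} [Field F] [Field G] {f g : F →+* G} (hfg : f = g) {a : F} {b : G}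
    (h : f a = b) (h' : g a = b) (P : Pt a) : bc f h P = bc g h' P := by
  subst hfg; rfl

theorem bc_id {F : Type} [Field F] {a : F} (h : (RingHom.id F) a = a) (P : Pt a) :
    bc (RingHom.id F) h P = P := by
  rcases P with _ | ⟨x, y, hxy⟩ <;> rfl

/-- Base change of points from `k` to an extension field. -/
noncomputable def bca {k : Type} (F : Type) [Field k] [Field F] [Algebra k F] {a : k} :
    Pt a →+ Pt (algebraMap k F a) := bc (algebraMap k F) rfl

/-- Base change of points along a homomorphism of extensions of `k`. -/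
noncomputable def bcs {k F G : Type} [Field k] [Field F] [Field G] [Algebra k F] [Algebra k G]
    (σ : F →ₐ[k] G) {a : k} : Pt (algebraMap k F a) →+ Pt (algebraMap k G a) :=
  bc (σ : F →+* G) (show (σ : F →+* G) (algebraMap k F a) = algebraMap k G a from σ.commutes a)

theorem bcs_bca {k F G : Type} [Field k] [Field F] [Field G] [Algebra k F] [Algebra k G]
    (σ : F →ₐ[k] G) {a : k} (P : Pt a) : bcs σ (bca F P) = bca G P := by
  rcases P with _ | ⟨x, y, hxy⟩
  · rfl
  · have h1 : bca F (Affine.Point.some x y hxy) = .some (algebraMap k F x) (algebraMap k F y)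
        (leg_ns_map _ rfl hxy) := rfl
    have h2 : bca G (Affine.Point.some x y hxy) = .some (algebraMap k G x) (algebraMap k G y)
        (leg_ns_map _ rfl hxy) := rfl
    rw [h1, h2]
    unfold bcs
    refine (bc_some _ _ _).trans ?_
    rw [Affine.Point.some.injEq]
    exact ⟨σ.commutes x, σ.commutes y⟩

theorem bcs_bcs {k F G H : Type} [Field k] [Field F] [Field G] [Field H] [Algebra k F] [Algebra k G]
    [Algebra k H] (σ : F →ₐ[k] G) (τ : G →ₐ[k] H) {a : k} (P : Pt (algebraMap k F a)) :
    bcs τ (bcs σ P) = bcs (τ.comp σ) P := by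
  rcases P with _ | ⟨x, y, hxy⟩ <;> rfl

theorem bcs_injective {k F G : Type} [Field k] [Field F] [Field G] [Algebra k F] [Algebra k G]
    (σ : F →ₐ[k] G) {a : k} : Function.Injective (bcs σ (a := a)) := bc_injective _ _

theorem xc_bcs {k F G : Type} [Field k] [Field F] [Field G] [Algebra k F] [Algebra k G]
    (σ : F →ₐ[k] G) {a : k} (P : Pt (algebraMap k F a)) : xc (bcs σ P) = σ (xc P) := xc_bc _ _ P

theorem yc_bcs {k F G : Type} [Field k] [Field F] [Field G] [Algebra k F] [Algebra k G]
    (σ : F →ₐ[k] G) {a : k} (P : Pt (algebraMap k F a)) : yc (bcs σ P) = σ (yc P) := yc_bc _ _ P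

/-- The point `∑ j, N j • Q j` of `E ^ ι`. -/
noncomputable def lin {F : Type} [Field F] {b : F} {J ι : Type} [Fintype J] (N : J → ι → ℤ)
    (Q : J → Pt b) : ι → Pt b := fun i => ∑ j, N j i • Q j

/-- The point `∑ j, N j • Q j + p` of `E ^ ι`, `p` a point over the constants. -/
noncomputable def pt {k F : Type} [Field k] [Field F] [Algebra k F] {a : k} {J ι : Type} [Fintype J]
    (N : J → ι → ℤ) (Q : J → Pt (algebraMap k F a)) (p : ι → Pt a) : ι → Pt (algebraMap k F a) :=
  fun i => lin N Q i + bca F (p i)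

theorem bcs_pt {k F G : Type} [Field k] [Field F] [Field G] [Algebra k F] [Algebra k G]
    (σ : F →ₐ[k] G) {a : k} {J ι : Type} [Fintype J] (N : J → ι → ℤ)
    (Q : J → Pt (algebraMap k F a)) (p : ι → Pt a) (i : ι) :
    bcs σ (pt N Q p i) = pt N (fun j => bcs σ (Q j)) p i := by
  unfold pt lin
  rw [map_add, bcs_bca, map_sum]
  simp only [map_zsmul]

/-- A generic point of `E_a ^ m`: it generates the field and its `x`-coordinates are algebraically
independent. -/
structure IsGen (k : Type) {F : Type} [Field k] [Field F] [Algebra k F] {a : k} {m : ℕ}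
    (Q : Fin m → Pt (algebraMap k F a)) : Prop where
  indep : AlgebraicIndependent k (fun j => xc (Q j))
  gen : coordField k Q = ⊤

/-- The cycle attached to a point of `E_a ^ ι` over `F`. -/
noncomputable def cyc (k : Type) {F : Type} [Field k] [Field F] [Algebra k F] {a : k} {ι : Type}
    (y : ι → Pt (algebraMap k F a)) : CyclesM a ι :=
  Finsupp.single (locus y) (Module.finrank (coordField k y) F : ℤ)

/-- The Legendre cubic. -/
noncomputable def cub {F : Type} [Field F] (a : F) : Polynomial F :=
  Polynomial.X * (Polynomial.X - 1) * (Polynomial.X - Polynomial.C a)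

end AC
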