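import Pool.Agent.H18.AC.Bc

/-!
Module CycInv (project AC, helper18).  cyc and IsGen are invariant under isomorphisms over k.
PROOF.  locus: a place w : KPl k G k gives the place of F with valuation ring O.comap σ (ValuationSubring.comap) and ρ ∘ σ; values of points
correspond (cases on the points).  Symmetric.  coordField k (bcs σ ∘ y) = (coordField k y).map σ (xc_bcs, yc_bcs, IntermediateField.adjoin_map),
and finrank is invariant (Algebra.finrank_eq_of_equiv_equiv or LinearEquiv / Module.finrank with semilinear maps).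
-/

namespace AC

open ZC WeierstrassCurve
open scoped Classical

variable {k : Type} [Field k] {a : k} {F G : Type} [Field F] [Field G] [Algebra k F] [Algebra k G]

private noncomputable def pullPl (σ : F →ₐ[k] G) (w : KPl k G k) : KPl k F k where
  O := w.O.comap (σ : F →+* G)
  ρ := w.ρ.comp ((σ : F →+* G).restrict (w.O.comap (σ : F →+* G)).toSubring w.O.toSubring
    (fun _ hx => hx))
  surj := by
    intro c
    obtain ⟨h, hc⟩ := w.const c
    refine ⟨⟨algebraMap k F c, ?_⟩, ?_⟩
    · show (σ : F →+* G) (algebraMap k F c) ∈ w.O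
      have : (σ : F →+* G) (algebraMap k F c) = algebraMap k G c := σ.commutes c
      rw [this]; exact h
    · have h2 : ((σ : F →+* G).restrict (w.O.comap (σ : F →+* G)).toSubring w.O.toSubring
          (fun _ hx => hx)) ⟨algebraMap k F c, by
            show (σ : F →+* G) (algebraMap k F c) ∈ w.O
            have : (σ : F →+* G) (algebraMap k F c) = algebraMap k G c := σ.commutes c
            rw [this]; exact h⟩ = (⟨algebraMap k G c, h⟩ : w.O) := by
        apply Subtype.ext
        exact σ.commutes c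
      show w.ρ _ = c
      exact (congrArg w.ρ h2).trans hc
  const c := by
    obtain ⟨h, hc⟩ := w.const c
    have hm : algebraMap k F c ∈ w.O.comap (σ : F →+* G) := by
      show (σ : F →+* G) (algebraMap k F c) ∈ w.O
      have : (σ : F →+* G) (algebraMap k F c) = algebraMap k G c := σ.commutes c
      rw [this]; exact h
    refine ⟨hm, ?_⟩
    have h2 : ((σ : F →+* G).restrict (w.O.comap (σ : F →+* G)).toSubring w.O.toSubring
          (fun _ hx => hx)) ⟨algebraMap k F c, hm⟩ = (⟨algebraMap k G c, h⟩ : w.O) := by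
        apply Subtype.ext
        exact σ.commutes c
    exact (congrArg w.ρ h2).trans hc

private theorem pullPl_red (σ : F →ₐ[k] G) (w : KPl k G k) (P : Pt (algebraMap k F a)) (p : Pt a)
    (h : Red w (bcs σ P) p) : Red (pullPl σ w) P p := by
  rcases P with _ | ⟨X, Y, hP⟩ <;> rcases p with _ | ⟨x, y, hp⟩
  · trivial
  · exact h
  · exact h
  · obtain ⟨⟨h1, h2⟩, ⟨h3, h4⟩⟩ := h
    exact ⟨⟨h1, h2⟩, ⟨h3, h4⟩⟩

private theorem locus_bcs_le {ι : Type} (σ : F →ₐ[k] G) (y : ι → Pt (algebraMap k F a)) :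
    locus (fun i => bcs σ (y i)) ⊆ locus y := by
  rintro p ⟨w, hw⟩
  exact ⟨pullPl σ w, fun i => pullPl_red σ w (y i) (p i) (hw i)⟩

private theorem bcs_symm (σ : F ≃ₐ[k] G) (P : Pt (algebraMap k F a)) :
    bcs (σ.symm : G →ₐ[k] F) (bcs (σ : F →ₐ[k] G) P) = P := by
  rw [bcs_bcs]
  have : (σ.symm : G →ₐ[k] F).comp (σ : F →ₐ[k] G) = AlgHom.id k F := by
    ext x; simp
  rw [this]
  exact bc_id _ _

theorem locus_bcs {ι : Type} (σ : F ≃ₐ[k] G) (y : ι → Pt (algebraMap k F a)) :
    locus (fun i => bcs (σ : F →ₐ[k] G) (y i)) = locus y := by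
  apply Set.Subset.antisymm
  · exact locus_bcs_le _ y
  · have h := locus_bcs_le (σ.symm : G →ₐ[k] F) (fun i => bcs (σ : F →ₐ[k] G) (y i))
    have h2 : (fun i => bcs (σ.symm : G →ₐ[k] F) (bcs (σ : F →ₐ[k] G) (y i))) = y := by
      funext i
      exact bcs_symm σ (y i)
    rw [h2] at h
    exact h

private theorem coordField_bcs {ι : Type} (σ : F →ₐ[k] G) (y : ι → Pt (algebraMap k F a)) :
    coordField k (fun i => bcs σ (y i)) = (coordField k y).map σ := by
  unfold coordField
  rw [IntermediateField.adjoin_map, Set.image_union, ← Set.range_comp, ← Set.range_comp]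
  congr 2
  · congr 1
    funext i
    exact xc_bcs σ (y i)
  · congr 1
    funext i
    exact yc_bcs σ (y i)

theorem cyc_bcs {ι : Type} (σ : F ≃ₐ[k] G) (y : ι → Pt (algebraMap k F a)) :
    cyc k (fun i => bcs (σ : F →ₐ[k] G) (y i)) = cyc k y := by
  unfold cyc
  rw [locus_bcs]
  congr 2
  have h1 : Module.finrank (coordField k (fun i => bcs (σ : F →ₐ[k] G) (y i))) G =
      Module.finrank ((coordField k y).map (σ : F →ₐ[k] G)) G := by
    rw [coordField_bcs]
  rw [h1]
  exact (Algebra.finrank_eq_of_equiv_equiv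
    (IntermediateField.intermediateFieldMap σ (coordField k y)).toRingEquiv σ.toRingEquiv
    (by ext x; rfl)).symm

theorem isGen_bcs {m : ℕ} (σ : F ≃ₐ[k] G) {Q : Fin m → Pt (algebraMap k F a)} (hQ : IsGen k Q) :
    IsGen k (fun j => bcs (σ : F →ₐ[k] G) (Q j)) := by
  refine ⟨?_, ?_⟩
  · have h1 : (fun j => xc (bcs (σ : F →ₐ[k] G) (Q j))) =
        (σ : F →ₐ[k] G) ∘ (fun j => xc (Q j)) := by
      funext j
      exact xc_bcs _ _
    rw [h1]
    exact hQ.indep.map' σ.injective
  · rw [coordField_bcs, hQ.gen, ← AlgHom.fieldRange_eq_map]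
    exact AlgEquiv.fieldRange_eq_top σ

theorem isFF_congr {m : ℕ} (σ : F ≃ₐ[k] G) (h : IsFF k F m) : IsFF k G m := by
  obtain ⟨t, ht, hfin⟩ := h
  refine ⟨(σ : F →ₐ[k] G) ∘ t, ht.map' σ.injective, ?_⟩
  rw [Set.range_comp, ← IntermediateField.adjoin_map]
  exact Module.Finite.of_equiv_equiv
    (IntermediateField.intermediateFieldMap σ (IntermediateField.adjoin k (Set.range t))).toRingEquiv
    σ.toRingEquiv (by ext x; rfl)

end AC
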