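import Pool.Agent.ZC.Basic

/-!
# Algebraic cycles of dimension `m` on the powers of an elliptic curve

`k` is an algebraically closed field of characteristic zero and `E_a : y ^ 2 = x (x - 1) (x - a)` a
Legendre curve over `k`; `ι` is a finite type and `X = E_a ^ ι` (the product of copies of `E_a`).

* A closed subvariety `V` of `X` is given by its set of `k`-points, a subset of `ι → Pt a`.
* A morphism from (an open part of) a variety with function field `F` to `X` is a family of points of
  `E_a` over `F`, `y : ι → Pt (algebraMap k F a)`; the closure of its image is `locus y`.
* The push-forward of the divisor of a function `f` on a normal projective variety `W` of dimension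
  `m + 1` with function field `L` under a morphism `x : W → X` is the sum over the prime divisors of `W`,
  that is over the discrete valuations `w` of `L` with residue field `κ(w)` of transcendence degree `m`
  over `k`, of `ord_w f` times the degree `[κ(w) : k(x_w)]` times the closure of `x_w`, where `x_w` is
  the value of `x` at `w`, a point of `X` over `κ(w)`.  (If a discrete valuation `w` is not the valuation
  of a prime divisor of `W` then `k(x_w)` has transcendence degree smaller than `m` and the degree,
  `Module.finrank`, is zero.)
-/

namespace AC

open ZC WeierstrassCurve
open scoped Classical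

/-- A place of `L` over `k` with values in an extension `κ` of `k`: a valuation ring `O` of `L` with a
surjective ring homomorphism `ρ : O → κ` compatible with `k`. -/
structure KPl (k L κ : Type) [Field k] [Field L] [Field κ] [Algebra k L] [Algebra k κ] where
  /-- the valuation ring -/
  O : ValuationSubring L
  /-- the residue map -/
  ρ : O →+* κ
  surj : Function.Surjective ρ
  const : ∀ c : k, ∃ h : algebraMap k L c ∈ O, ρ ⟨algebraMap k L c, h⟩ = algebraMap k κ c

/-- `Red w P p`: the point `P` of the Legendre curve over `L` has the value `p` at the place `w`. -/
def Red {k L κ : Type} [Field k] [Field L] [Field κ] [Algebra k L] [Algebra k κ] (w : KPl k L κ)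
    {a : L} {b : κ} : Pt a → Pt b → Prop
  | .zero, .zero => True
  | .zero, .some _ _ _ => False
  | .some X _ _, .zero => X ∉ w.O
  | .some X Y _, .some x y _ =>
      (∃ h : X ∈ w.O, w.ρ ⟨X, h⟩ = x) ∧ (∃ h : Y ∈ w.O, w.ρ ⟨Y, h⟩ = y)

/-- The closure (a set of `k`-points of `E_a ^ ι`) of the image of a point `y` of `E_a ^ ι` over an
extension `F` of `k`: all values of `y` at places of `F` with values in `k`. -/
def locus {k F : Type} [Field k] [Field F] [Algebra k F] {a : k} {ι : Type}
    (y : ι → Pt (algebraMap k F a)) : Set (ι → Pt a) :=
  {p | ∃ w : KPl k F k, ∀ i, Red w (y i) (p i)}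

/-- The subfield `k(y)` generated by the coordinates of a point `y` of `E_b ^ ι` over `F`. -/
noncomputable def coordField (k : Type) {F : Type} [Field k] [Field F] [Algebra k F] {b : F}
    {ι : Type} (y : ι → Pt b) : IntermediateField k F :=
  IntermediateField.adjoin k (Set.range (fun i => xc (y i)) ∪ Set.range (fun i => yc (y i)))

section Residue

variable {k L : Type} [Field k] [Field L] [Algebra k L]

/-- The residue field of a place of `L` over `k`. -/
def Residue (w : Place k L) : Type := IsLocalRing.ResidueField w.v.valuationSubring

/-- The residue field of a place is a field. -/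
noncomputable def fieldResidue (w : Place k L) : Field (Residue w) :=
  IsLocalRing.ResidueField.field w.v.valuationSubring

noncomputable instance (w : Place k L) : Field (Residue w) := fieldResidue w

theorem algebraMap_mem (w : Place k L) (c : k) : algebraMap k L c ∈ w.v.valuationSubring := by
  rw [Valuation.mem_valuationSubring_iff]
  by_cases hc : c = 0
  · rw [hc, map_zero, map_zero]; exact zero_le_one
  · rw [w.triv c hc]

/-- The constants in the valuation ring of a place. -/
def constHom (w : Place k L) : k →+* w.v.valuationSubring :=
  (algebraMap k L).codRestrict w.v.valuationSubring (algebraMap_mem w)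

/-- The residue map of a place. -/
noncomputable def residueHom (w : Place k L) : w.v.valuationSubring →+* Residue w :=
  IsLocalRing.residue w.v.valuationSubring

noncomputable instance (w : Place k L) : Algebra k (Residue w) :=
  ((residueHom w).comp (constHom w)).toAlgebra

/-- The place of `L` with values in its residue field. -/
noncomputable def resPl (w : Place k L) : KPl k L (Residue w) where
  O := w.v.valuationSubring
  ρ := residueHom w
  surj := IsLocalRing.residue_surjective
  const c := ⟨algebraMap_mem w c, rfl⟩

end Residue

/-- `K` is a finitely generated field extension of `k` of transcendence degree `d`, that is the function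
field of a variety of dimension `d` over `k`. -/
def IsFF (k K : Type) [Field k] [Field K] [Algebra k K] (d : ℕ) : Prop :=
  ∃ t : Fin d → K, AlgebraicIndependent k t ∧
    FiniteDimensional (IntermediateField.adjoin k (Set.range t)) K

/-- The cycles on `E_a ^ ι` (of any dimension): formal combinations of closed subvarieties. -/
abbrev CyclesM {k : Type} [Field k] (a : k) (ι : Type) : Type := Set (ι → Pt a) →₀ ℤ

/-- The cycle `c` of dimension `m` on `E_a ^ ι` is the push-forward of the divisor of a function `f ≠ 0`
on a variety of dimension `m + 1` with function field `L` under a morphism `x` to `E_a ^ ι`. -/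
def IsPrincipalM {k : Type} [Field k] (a : k) (ι : Type) (m : ℕ) (c : CyclesM a ι) : Prop :=
  ∃ (L : Type) (_ : Field L) (_ : Algebra k L), IsFF k L (m + 1) ∧
    ∃ (x : ι → Pt (algebraMap k L a)) (f : L), f ≠ 0 ∧
      ∀ V : Set (ι → Pt a), c V =
        ∑ᶠ (w : Place k L) (y : ι → Pt (algebraMap k (Residue w) a))
          (_ : IsFF k (Residue w) m ∧ (∀ i, Red (resPl w) (x i) (y i)) ∧ locus y = V),
          w.ord f * (Module.finrank (coordField k y) (Residue w) : ℤ)

/-- The cycles of dimension `m` on `E_a ^ ι` rationally equivalent to zero. -/
noncomputable def ratM {k : Type} [Field k] (a : k) (ι : Type) (m : ℕ) :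
    AddSubgroup (CyclesM a ι) :=
  AddSubgroup.closure {c | IsPrincipalM a ι m c}

end AC
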