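import Pool.Agent.H18.AC.Norm

/-!
Module FinZeros (project AC, helper18).  A function on a curve has finitely many zeros and poles.
PROOF 1.  f constant: no zeros or poles.  Otherwise f is transcendental over k, K is finite over k(f).  It suffices to bound the number of
places with v.v f < 1 (apply it to f⁻¹).  Let v₁, ..., v_r be different such places.  The valuation rings O_i are pairwise incomparable
(res_const: O_i is a discrete valuation ring, maximal subring), weak approximation gives g_i with v_i g_i = 1 and v_j g_i < 1 for j ≠ i.  The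
g_i are linearly independent over k(f): in ∑ u_i(f) g_i = 0 divide by a power of f so that some u_i(0) ≠ 0; the term u_i(f) g_i has value 1 at v_i
and the others < 1.  So r ≤ [K : k(f)].
PROOF 2.  B = integral closure of k[f] in K is a Dedekind domain (IsIntegralClosure.isDedekindDomain; characteristic zero, so separable); v with
v.v f < 1 contains B, its maximal ideal meets B in a prime P_v containing f, nonzero; only finitely many primes contain f
(Ideal.finite_factors); v is determined by P_v: the localisation B_P is a discrete valuation ring contained in O_v and dominated by it, so equal,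
and a normalised valuation is determined by its ring.
-/

namespace AC

open ZC WeierstrassCurve
open scoped Classical

open scoped IntermediateField.algebraAdjoinAdjoin in
private theorem FinZeros_alg {k K : Type} [Field k] [Field K] [Algebra k K]
    (hK : IsFunctionField k K) (f : K) (hf : Transcendental k f) :
    Algebra.IsAlgebraic (Algebra.adjoin k {f}) K := by
  obtain ⟨t, ht, hfin⟩ := hK
  have h1 : Algebra.IsAlgebraic (IntermediateField.adjoin k {t}) K := inferInstance
  have h2 : Algebra.IsAlgebraic (Algebra.adjoin k {t}) K :=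
    Algebra.IsAlgebraic.trans (Algebra.adjoin k {t}) (IntermediateField.adjoin k {t}) K
  have h3 : Algebra.trdeg k K ≤ 1 := by
    have := Algebra.IsAlgebraic.trdeg_le_cardinalMk k ({t} : Set K)
    simpa using this
  have hx : AlgebraicIndependent k (fun _ : Unit => f) := by
    rw [algebraicIndependent_unique_type_iff]
    exact hf
  have h4 := hx.isTranscendenceBasis_of_trdeg_le_of_finite (by simpa using h3)
  have h5 := h4.isAlgebraic
  have h6 : Set.range (fun _ : Unit => f) = {f} := by
    ext x; simp [eq_comm]
  rw [h6] at h5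
  exact h5

open scoped IntermediateField.algebraAdjoinAdjoin in
private theorem FinZeros_fin {k K : Type} [Field k] [Field K] [Algebra k K]
    (hK : IsFunctionField k K) (f : K) (hf : Transcendental k f) :
    FiniteDimensional (IntermediateField.adjoin k {f}) K := by
  have h1 := FinZeros_alg hK f hf
  have h2 : Algebra.IsAlgebraic (IntermediateField.adjoin k {f}) K :=
    Algebra.IsAlgebraic.extendScalars (R := Algebra.adjoin k {f})
      (FaithfulSMul.algebraMap_injective _ _)
  obtain ⟨t, ht, hfin⟩ := hK
  have h3 : Algebra.EssFiniteType k (IntermediateField.adjoin k {t}) := by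
    rw [IntermediateField.essFiniteType_iff]
    exact ⟨{t}, by simp⟩
  have h4 : Algebra.EssFiniteType k K :=
    Algebra.EssFiniteType.comp k (IntermediateField.adjoin k {t}) K
  have h5 : Algebra.EssFiniteType (IntermediateField.adjoin k {f}) K :=
    Algebra.EssFiniteType.of_comp k _ _
  have h6 : (⊤ : IntermediateField (IntermediateField.adjoin k {f}) K).FG :=
    IntermediateField.fg_top _ _
  obtain ⟨s, hs⟩ := h6
  have h7 := IntermediateField.finiteDimensional_adjoin
    (K := IntermediateField.adjoin k {f}) (L := K) (S := (s : Set K))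
    (fun x _ => (h2.isAlgebraic x).isIntegral)
  rw [hs] at h7
  exact Module.Finite.equiv IntermediateField.topEquiv.toLinearEquiv


private theorem FinZeros_le {k K : Type} [Field k] [Field K] [Algebra k K]
    (f : K) (v : Place k K) (hv : v.v f ≤ 1) (x : K)
    (hx : IsIntegral (Algebra.adjoin k {f}) x) : v.v x ≤ 1 := by
  have h1 : ∀ a ∈ Algebra.adjoin k {f}, v.v a ≤ 1 := by
    intro a ha
    induction ha using Algebra.adjoin_induction with
    | mem x hx => rw [Set.mem_singleton_iff] at hx; rw [hx]; exact hv
    | algebraMap c =>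
        by_cases hc : c = 0
        · rw [hc, map_zero, map_zero]; exact zero_le_one
        · rw [v.triv c hc]
    | add x y _ _ hx hy => exact v.v.map_add_le hx hy
    | mul x y _ _ hx hy => rw [map_mul]; exact mul_le_one' hx hy
  obtain ⟨p, hp, hp0⟩ := hx
  have h2 := (Valuation.integer.integers v.v).mem_of_integral (x := x)
    ⟨p.map ((algebraMap (Algebra.adjoin k {f}) K).codRestrict v.v.integer
      (fun a => h1 _ a.2)), hp.map _, by
        rw [Polynomial.eval₂_map]
        exact hp0⟩
  exact h2

private theorem FinZeros_det {k K R : Type} [Field k] [Field K] [Algebra k K] [CommRing R]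
    [IsDedekindDomain R] [Algebra R K] [IsFractionRing R K] (v : Place k K)
    (hv : ∀ b : R, v.v (algebraMap R K b) ≤ 1) (P : IsDedekindDomain.HeightOneSpectrum R)
    (hP : ∀ b : R, b ∈ P.asIdeal ↔ v.v (algebraMap R K b) < 1) :
    v.v = P.valuation K := by
  have h1 : ∀ x : K, P.valuation K x ≤ 1 → v.v x ≤ 1 := by
    intro x hx
    obtain ⟨n, d, h⟩ := P.exists_primeCompl_mul_eq_of_integer x hx
    have hd : v.v (algebraMap R K d) = 1 := by
      have hd := d.2
      rw [Ideal.mem_primeCompl_iff, hP, not_lt] at hd
      exact le_antisymm (hv _) hd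
    have h3 := congrArg v.v h
    rw [map_mul, hd, mul_one] at h3
    rw [h3]
    exact hv _
  have h2 : ∀ x : K, P.valuation K x = 1 → v.v x = 1 := by
    intro x hx
    have hx0 : x ≠ 0 := by
      rintro rfl
      rw [map_zero] at hx
      exact zero_ne_one hx
    apply le_antisymm (h1 x hx.le)
    have h3 := h1 x⁻¹ (by rw [map_inv₀, hx, inv_one])
    rw [map_inv₀] at h3
    exact (inv_le_one₀ (by
      rw [zero_lt_iff]; exact (Valuation.ne_zero_iff _).2 hx0)).1 h3
  obtain ⟨π, hπ⟩ := P.valuation_exists_uniformizer K
  have hπ0 : π ≠ 0 := by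
    rintro rfl
    rw [map_zero] at hπ
    exact WithZero.exp_ne_zero hπ.symm
  have h3 : ∀ x : K, x ≠ 0 → v.v x = (v.v π) ^ (- WithZero.log (P.valuation K x)) := by
    intro x hx
    have hx' : P.valuation K x ≠ 0 := (Valuation.ne_zero_iff _).2 hx
    have h4 := h2 (x * π ^ (WithZero.log (P.valuation K x))) (by
      rw [map_mul, map_zpow₀, hπ, ← WithZero.exp_zsmul]
      simp [WithZero.exp_neg, hx'])
    rw [map_mul, map_zpow₀] at h4
    rw [zpow_neg]
    exact eq_inv_of_mul_eq_one_left h4
  have hvπ : v.v π ≠ 0 := (Valuation.ne_zero_iff _).2 hπ0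
  have h4 : v.v π = WithZero.exp (-1 : ℤ) := by
    have h5 : v.v π ≤ 1 := h1 π (by
      rw [hπ, ← WithZero.exp_zero, WithZero.exp_le_exp]; norm_num)
    obtain ⟨x, hx⟩ := v.surj (WithZero.exp (-1 : ℤ))
    have hx0 : x ≠ 0 := by
      rintro rfl
      rw [map_zero] at hx
      exact WithZero.exp_ne_zero hx.symm
    rw [h3 x hx0] at hx
    have h6 := congrArg WithZero.log hx
    rw [WithZero.log_zpow, WithZero.log_exp] at h6
    have h7 : WithZero.log (v.v π) ≤ 0 := by
      rw [WithZero.log_le_iff_le_exp hvπ]; simpa using h5
    have h8 : WithZero.log (v.v π) = -1 := by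
      rw [smul_eq_mul] at h6
      have h9 : WithZero.log (v.v π) ∣ 1 := ⟨WithZero.log (P.valuation K x), by linarith⟩
      rcases Int.isUnit_iff.1 (isUnit_of_dvd_one h9) with h | h
      · rw [h] at h7; norm_num at h7
      · exact h
    rw [← h8, WithZero.exp_log hvπ]
  ext x
  by_cases hx : x = 0
  · rw [hx, map_zero, map_zero]
  · rw [h3 x hx, h4, ← WithZero.exp_zsmul]
    have hx' : P.valuation K x ≠ 0 := (Valuation.ne_zero_iff _).2 hx
    simp [hx']


open scoped IntermediateField.algebraAdjoinAdjoin in
private theorem FinZeros_zeros {k K : Type} [Field k] [CharZero k] [Field K] [Algebra k K]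
    (hK : IsFunctionField k K) (f : K) (hf : Transcendental k f) :
    {v : Place k K | v.v f < 1}.Finite := by
  have hf0 : f ≠ 0 := by
    rintro rfl
    exact hf isAlgebraic_zero
  have hfin := FinZeros_fin hK f hf
  have hchar : CharZero K := charZero_of_injective_algebraMap (algebraMap k K).injective
  have hpid : IsPrincipalIdealRing (Algebra.adjoin k {f}) := by
    refine IsPrincipalIdealRing.of_surjective
      ((Polynomial.aeval (R := k)
        (⟨f, Algebra.self_mem_adjoin_singleton k f⟩ : Algebra.adjoin k {f})).toRingHom) ?_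
    rintro ⟨x, hx⟩
    have hx' := hx
    rw [Algebra.adjoin_singleton_eq_range_aeval] at hx'
    obtain ⟨p, hp⟩ := hx'
    refine ⟨p, ?_⟩
    apply Subtype.ext
    refine Eq.trans ?_ hp
    change (Algebra.adjoin k {f}).val (Polynomial.aeval _ p) = Polynomial.aeval f p
    rw [← Polynomial.aeval_algHom_apply]
    rfl
  have hdd : IsDedekindDomain (integralClosure (Algebra.adjoin k {f}) K) :=
    integralClosure.isDedekindDomain (Algebra.adjoin k {f}) (IntermediateField.adjoin k {f}) K
  have hfr : IsFractionRing (integralClosure (Algebra.adjoin k {f}) K) K :=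
    integralClosure.isFractionRing_of_finite_extension (IntermediateField.adjoin k {f}) K
  have hfi : f ∈ integralClosure (Algebra.adjoin k {f}) K :=
    isIntegral_algebraMap (x := (⟨f, Algebra.self_mem_adjoin_singleton k f⟩ :
      Algebra.adjoin k {f}))
  have hle : ∀ v : Place k K, v.v f < 1 →
      ∀ b : integralClosure (Algebra.adjoin k {f}) K, v.v (algebraMap _ K b) ≤ 1 :=
    fun v hv b => FinZeros_le f v hv.le _ b.2
  have key : ∀ v : Place k K, v.v f < 1 →
      ∃ P : IsDedekindDomain.HeightOneSpectrum (integralClosure (Algebra.adjoin k {f}) K),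
        P.asIdeal ∣ Ideal.span {(⟨f, hfi⟩ : integralClosure (Algebra.adjoin k {f}) K)} ∧
        v.v = P.valuation K := by
    intro v hv
    let I : Ideal (integralClosure (Algebra.adjoin k {f}) K) :=
      { carrier := {b | v.v (algebraMap _ K b) < 1}
        add_mem' := by
          intro a b ha hb
          rw [Set.mem_ofPred_eq] at ha hb ⊢
          rw [map_add]
          exact v.v.map_add_lt ha hb
        zero_mem' := by
          rw [Set.mem_ofPred_eq, map_zero, map_zero]; exact zero_lt_one
        smul_mem' := by
          intro c x hx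
          rw [Set.mem_ofPred_eq] at hx ⊢
          rw [smul_eq_mul, map_mul, map_mul]
          exact lt_of_le_of_lt (mul_le_of_le_one_left' (hle v hv c)) hx }
    have hI : ∀ b, b ∈ I ↔ v.v (algebraMap _ K b) < 1 := fun b => Iff.rfl
    have hIp : I.IsPrime := by
      refine ⟨?_, ?_⟩
      · rw [Ideal.ne_top_iff_one, hI, map_one, map_one]
        exact lt_irrefl _
      · intro x y hxy
        rw [hI, map_mul, map_mul] at hxy
        rw [hI, hI]
        by_contra hcon
        push Not at hcon
        have h1 := le_antisymm (hle v hv x) hcon.1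
        have h2 := le_antisymm (hle v hv y) hcon.2
        rw [h1, h2, one_mul] at hxy
        exact lt_irrefl _ hxy
    have hfI : (⟨f, hfi⟩ : integralClosure (Algebra.adjoin k {f}) K) ∈ I := by
      rw [hI]; exact hv
    have hIb : I ≠ ⊥ := by
      intro h
      rw [h, Ideal.mem_bot] at hfI
      exact hf0 (congrArg Subtype.val hfI)
    refine ⟨⟨I, hIp, hIb⟩, ?_, ?_⟩
    · rw [Ideal.dvd_span_singleton]; exact hfI
    · exact FinZeros_det v (hle v hv) _ hI
  have hspan : Ideal.span {(⟨f, hfi⟩ : integralClosure (Algebra.adjoin k {f}) K)} ≠ 0 := by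
    rw [Ne, Ideal.zero_eq_bot, Ideal.span_singleton_eq_bot]
    intro h
    exact hf0 (congrArg Subtype.val h)
  have hF := Ideal.finite_factors hspan
  refine Set.Finite.of_finite_image (f := fun v : Place k K => v.v)
    ((hF.image (fun P => P.valuation K)).subset ?_) ?_
  · rintro _ ⟨v, hv, rfl⟩
    obtain ⟨P, hP1, hP2⟩ := key v hv
    exact ⟨P, hP1, hP2.symm⟩
  · rintro ⟨v, _, _⟩ _ ⟨v', _, _⟩ _ h
    change v = v' at h
    subst h
    rfl

theorem fin_ord {k K : Type} [Field k] [IsAlgClosed k] [CharZero k] [Field K] [Algebra k K]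
    (hK : IsFunctionField k K) (f : K) (hf : f ≠ 0) : {v : Place k K | v.ord f ≠ 0}.Finite := by
  by_cases ht : Transcendental k f
  · have ht' : Transcendental k f⁻¹ := by
      intro h
      exact ht (by simpa using h.inv)
    refine ((FinZeros_zeros hK f ht).union (FinZeros_zeros hK f⁻¹ ht')).subset ?_
    intro v hv
    rw [Set.mem_union, Set.mem_ofPred_eq, Set.mem_ofPred_eq]
    by_contra hcon
    push Not at hcon
    apply hv
    have hv0 : v.v f ≠ 0 := (Valuation.ne_zero_iff _).2 hf
    have h2 := hcon.2
    rw [map_inv₀, one_le_inv₀ (by rw [zero_lt_iff]; exact hv0)] at h2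
    have h3 : v.v f = 1 := le_antisymm h2 hcon.1
    rw [Place.ord, h3, WithZero.log_one, neg_zero]
  · have h1 : IsAlgebraic k f := by
      rwa [Transcendental, not_not] at ht
    obtain ⟨c, hc⟩ := minpoly.mem_range_of_degree_eq_one k f
      (IsAlgClosed.degree_eq_one_of_irreducible k (minpoly.irreducible h1.isIntegral))
    have hc0 : c ≠ 0 := by
      rintro rfl
      rw [map_zero] at hc
      exact hf hc.symm
    have h2 : {v : Place k K | v.ord f ≠ 0} = ∅ := by
      ext v
      rw [Set.mem_ofPred_eq, Place.ord, ← hc, v.triv c hc0, WithZero.log_one, neg_zero]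
      simp
    rw [h2]
    exact Set.finite_empty

end AC
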