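import Pool.Agent.H18.AC.Bc

/-!
Module RedA (project AC, helper18).  Values of points at places: uniqueness, existence, zero, negation, constants.
PROOF.  Red.uniq: cases; ρ is a function and the proof component of `some` is irrelevant.
exists_red: P = .zero gives .zero.  P = .some X Y: if X ∉ O take .zero.  If X ∈ O then
Y ^ 2 = X (X - 1) (X - a) ∈ O (leg_equation; a ∈ O), hence Y ∈ O (ValuationSubring is integrally closed: if
Y ∉ O then Y⁻¹ ∈ O is a nonunit, Y⁻² * Y ^ 2 = 1 ...; or use valuation: O.valuation (Y ^ 2) ≤ 1 implies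
O.valuation Y ≤ 1).  Then x = ρ X, y = ρ Y satisfy y ^ 2 = x (x - 1) (x - b), and leg_nonsingular gives the
nonsingularity (2 ≠ 0 in κ because CharZero k and κ is a k-algebra).
Red.neg: -(some X Y) = some X (-Y) for Legendre curves (negY X Y = -Y because a₁ = a₃ = 0).
red_const: the coordinates of bca L p are constants, use w.const.
-/

namespace AC

open ZC WeierstrassCurve
open scoped Classical

variable {k : Type} [Field k] [CharZero k] {L κ : Type} [Field L] [Field κ] [Algebra k L] [Algebra k κ]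

omit [CharZero k] in
theorem Red.uniq {w : KPl k L κ} {a : L} {b : κ} {P : Pt a} {p p' : Pt b} (h : Red w P p)
    (h' : Red w P p') : p = p' := by
  rcases P with _ | ⟨X, Y, hXY⟩
  · rcases p with _ | ⟨x, y, hxy⟩
    · rcases p' with _ | ⟨x', y', hxy'⟩
      · rfl
      · exact h'.elim
    · exact h.elim
  · rcases p with _ | ⟨x, y, hxy⟩
    · rcases p' with _ | ⟨x', y', hxy'⟩
      · rfl
      · obtain ⟨⟨h1, _⟩, _⟩ := h'
        exact absurd h1 h
    · rcases p' with _ | ⟨x', y', hxy'⟩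
      · obtain ⟨⟨h1, _⟩, _⟩ := h
        exact absurd h1 h'
      · obtain ⟨⟨h1, h2⟩, ⟨h3, h4⟩⟩ := h
        obtain ⟨⟨h1', h2'⟩, ⟨h3', h4'⟩⟩ := h'
        have hx : x = x' := h2.symm.trans h2'
        have hy : y = y' := h4.symm.trans h4'
        subst hx hy
        rfl

omit [CharZero k] in
theorem Red.zero (w : KPl k L κ) {a : L} {b : κ} : Red w (0 : Pt a) (0 : Pt b) := trivial

theorem exists_red (w : KPl k L κ) {a : L} {b : κ} (hab : ∃ h : a ∈ w.O, w.ρ ⟨a, h⟩ = b)
    (hb0 : b ≠ 0) (hb1 : b ≠ 1) (P : Pt a) : ∃ p : Pt b, Red w P p := by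
  obtain ⟨ha, hb⟩ := hab
  rcases P with _ | ⟨X, Y, hXY⟩
  · exact ⟨.zero, trivial⟩
  · by_cases hX : X ∈ w.O
    · have heq : Y ^ 2 = X * (X - 1) * (X - a) := (leg_equation a X Y).1 hXY.1
      have hY2 : Y ^ 2 ∈ w.O := by
        rw [heq]
        exact mul_mem (mul_mem hX (sub_mem hX (one_mem _))) (sub_mem hX ha)
      have hY : Y ∈ w.O := by
        rw [← ValuationSubring.valuation_le_one_iff] at hY2 ⊢
        rw [map_pow] at hY2
        by_contra hcon
        push Not at hcon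
        exact absurd hY2 (not_le.2 (one_lt_pow₀ hcon two_ne_zero))
      have h2 : (2 : κ) ≠ 0 := by
        have h2k : (2 : k) ≠ 0 := two_ne_zero
        have : algebraMap k κ 2 ≠ 0 := by
          rw [Ne, map_eq_zero]; exact h2k
        rwa [map_ofNat] at this
      have heqO : (⟨Y, hY⟩ : w.O) ^ 2 = ⟨X, hX⟩ * (⟨X, hX⟩ - 1) * (⟨X, hX⟩ - ⟨a, ha⟩) :=
        Subtype.ext heq
      have hκ : (w.ρ ⟨Y, hY⟩) ^ 2 =
          w.ρ ⟨X, hX⟩ * (w.ρ ⟨X, hX⟩ - 1) * (w.ρ ⟨X, hX⟩ - b) := by
        have := congrArg w.ρ heqO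
        rw [map_pow, map_mul, map_mul, map_sub, map_sub, map_one, hb] at this
        exact this
      exact ⟨.some (w.ρ ⟨X, hX⟩) (w.ρ ⟨Y, hY⟩) ((leg_nonsingular b _ _ h2 hb0 hb1).2 hκ),
        ⟨hX, rfl⟩, ⟨hY, rfl⟩⟩
    · exact ⟨.zero, hX⟩

private theorem neg_some_leg {F : Type} [Field F] {a x y : F} (hxy : (leg a).toAffine.Nonsingular x y)
    (hxy' : (leg a).toAffine.Nonsingular x (-y)) :
    -(Affine.Point.some x y hxy : Pt a) = Affine.Point.some x (-y) hxy' := by
  rw [Affine.Point.neg_some, Affine.Point.some.injEq]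
  refine ⟨rfl, ?_⟩
  simp [Affine.negY, leg]

private theorem neg_ns_leg {F : Type} [Field F] {a x y : F} (hxy : (leg a).toAffine.Nonsingular x y) :
    (leg a).toAffine.Nonsingular x (-y) := by
  have h := (Affine.nonsingular_neg (W' := (leg a).toAffine) x y).2 hxy
  have h2 : (leg a).toAffine.negY x y = -y := by simp [Affine.negY, leg]
  rwa [h2] at h

omit [CharZero k] in
theorem Red.neg {w : KPl k L κ} {a : L} {b : κ} {P : Pt a} {p : Pt b} (h : Red w P p) :
    Red w (-P) (-p) := by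
  rcases P with _ | ⟨X, Y, hXY⟩
  · rcases p with _ | ⟨x, y, hxy⟩
    · exact trivial
    · exact h.elim
  · rw [neg_some_leg hXY (neg_ns_leg hXY)]
    rcases p with _ | ⟨x, y, hxy⟩
    · exact h
    · rw [neg_some_leg hxy (neg_ns_leg hxy)]
      obtain ⟨hx, ⟨h3, h4⟩⟩ := h
      refine ⟨hx, ⟨neg_mem h3, ?_⟩⟩
      have : (⟨-Y, neg_mem h3⟩ : w.O) = -⟨Y, h3⟩ := rfl
      rw [this, map_neg, h4]

omit [CharZero k] in
theorem red_const (w : KPl k L κ) {a : k} (p : Pt a) : Red w (bca L p) (bca κ p) := by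
  rcases p with _ | ⟨x, y, hxy⟩
  · exact trivial
  · exact ⟨w.const x, w.const y⟩

omit [CharZero k] in
/-- for places with values in `k` itself -/
theorem red_const' (w : KPl k L k) {a : k} (p : Pt a) : Red w (bca L p) p := by
  rcases p with _ | ⟨x, y, hxy⟩
  · exact trivial
  · exact ⟨w.const x, w.const y⟩

end AC
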