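import Pool.Agent.H18.AC.Bc
import Pool.Agent.H18.AC.RedA

/-!
Module Princ (project AC, helper18).  How to show that a cycle is principal.
PROOF.  Put c = ∑ w ∈ S, w.ord f • g w and check IsPrincipalM: for V, the inner sums over y (unique by Red.uniq, funext) give for w ∈ S
the value w.ord f * (g w) V (cyc k y = single (locus y) (finrank)), and for w ∉ S zero: either there is no y with the three conditions, or
w.ord f = 0, or finrank = 0.  Then the outer finsum is the sum over S (finsum_eq_sum_of_support_subset).  AddSubgroup.subset_closure.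
-/

namespace AC

open ZC WeierstrassCurve
open scoped Classical

variable {k : Type} [Field k] {a : k} {ι : Type} {m : ℕ}

theorem princ_mem {L : Type} [Field L] [Algebra k L] (hL : IsFF k L (m + 1))
    (x : ι → Pt (algebraMap k L a)) (f : L) (hf : f ≠ 0) (S : Finset (Place k L))
    (g : Place k L → CyclesM a ι)
    (h1 : ∀ w ∈ S, ∃ y : ι → Pt (algebraMap k (Residue w) a), IsFF k (Residue w) m ∧
      (∀ i, Red (resPl w) (x i) (y i)) ∧ cyc k y = g w)
    (h2 : ∀ w : Place k L, w ∉ S → ∀ y : ι → Pt (algebraMap k (Residue w) a),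
      IsFF k (Residue w) m → (∀ i, Red (resPl w) (x i) (y i)) → w.ord f ≠ 0 →
      Module.finrank (coordField k y) (Residue w) = 0) :
    ∑ w ∈ S, w.ord f • g w ∈ ratM a ι m := by
  apply AddSubgroup.subset_closure
  refine ⟨L, inferInstance, inferInstance, hL, x, f, hf, fun V => ?_⟩
  -- the inner sum for one place
  have inner : ∀ w : Place k L, ∀ y₀ : ι → Pt (algebraMap k (Residue w) a),
      IsFF k (Residue w) m → (∀ i, Red (resPl w) (x i) (y₀ i)) →
      (∑ᶠ (y : ι → Pt (algebraMap k (Residue w) a))
          (_ : IsFF k (Residue w) m ∧ (∀ i, Red (resPl w) (x i) (y i)) ∧ locus y = V),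
          w.ord f * (Module.finrank (coordField k y) (Residue w) : ℤ)) =
        w.ord f * (cyc k y₀) V := by
    intro w y₀ hF hy₀
    rw [finsum_eq_single _ y₀]
    · by_cases hV : locus y₀ = V
      · rw [finsum_eq_if, if_pos ⟨hF, hy₀, hV⟩]
        unfold cyc
        rw [← hV, Finsupp.single_eq_same]
      · rw [finsum_eq_if, if_neg (fun h => hV h.2.2)]
        unfold cyc
        rw [Finsupp.single_apply, if_neg hV, mul_zero]
    · intro y hy
      rw [finsum_eq_if, if_neg]
      rintro ⟨_, h, _⟩
      exact hy (funext fun i => Red.uniq (h i) (hy₀ i))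
  have inner0 : ∀ w : Place k L, w ∉ S →
      (∑ᶠ (y : ι → Pt (algebraMap k (Residue w) a))
          (_ : IsFF k (Residue w) m ∧ (∀ i, Red (resPl w) (x i) (y i)) ∧ locus y = V),
          w.ord f * (Module.finrank (coordField k y) (Residue w) : ℤ)) = 0 := by
    intro w hw
    apply finsum_eq_zero_of_forall_eq_zero
    intro y
    rw [finsum_eq_if]
    split_ifs with hc
    · obtain ⟨hF, hy, _⟩ := hc
      by_cases ho : w.ord f = 0
      · rw [ho, zero_mul]
      · rw [h2 w hw y hF hy ho, Nat.cast_zero, mul_zero]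
    · rfl
  rw [finsum_eq_sum_of_support_subset (s := S)]
  · rw [Finsupp.finsetSum_apply]
    refine Finset.sum_congr rfl fun w hw => ?_
    obtain ⟨y₀, hF, hy₀, hg⟩ := h1 w hw
    rw [inner w y₀ hF hy₀, hg, Finsupp.smul_apply, smul_eq_mul]
  · intro w hw
    by_contra hwS
    exact hw (inner0 w (fun h => hwS (Finset.mem_coe.2 h)))

end AC
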