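import Pool.Agent.H18.AC.Bc

/-!
Module GenTr (project AC, helper18).  Generic points and transcendence degree.
PROOF.  For any family q : Fin m → points over κ, κ₀ = adjoin k {xc (q j)} ⊆ coordField k q is an algebraic extension (each yc (q j) is 0
or satisfies yc² = xc (xc - 1)(xc - a)).  indep_of_alg: κ is algebraic over coordField k q, hence over κ₀, so the family xc (q j)
spans κ algebraically: a subfamily is a transcendence basis of κ over k, and its cardinality is the transcendence degree m (IsFF:
t is a transcendence basis indexed by Fin m because κ is finite over adjoin k (range t)); so the subfamily is everything and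
Fin m → κ, j ↦ xc (q j) is injective and algebraically independent.  Tools: IsTranscendenceBasis, exists_isTranscendenceBasis_subset /
exists_isTranscendenceBasis_between, IsTranscendenceBasis.mk_eq (cardinality), Algebra.trdeg, matroid version.
isGen_of_ff: special case coordField k Q = ⊤.   IsGen.isFF: t = fun j => xc (Q j); finite over adjoin k (range t) because generated
by the finitely many integral elements yc (Q j).
gen_of_iff: corollary for a point Q' with the same coordinate field.
-/

namespace AC

open ZC WeierstrassCurve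
open scoped Classical

variable {k : Type} [Field k] [CharZero k] {a : k}

private theorem yc_sq {κ : Type} [Field κ] {b : κ} (P : Pt b) :
    yc P ^ 2 = xc P * (xc P - 1) * (xc P - b) := by
  rcases P with _ | ⟨x, y, hxy⟩
  · simp [xc, yc]
  · exact (leg_equation b x y).1 hxy.1

omit [CharZero k] in
/-- the coordinate field is algebraic, even integral, over the field of the `x`-coordinates -/
private theorem yc_integral {κ : Type} [Field κ] [Algebra k κ] (P : Pt (algebraMap k κ a))
    (S : IntermediateField k κ) (hx : xc P ∈ S) : IsIntegral S (yc P) := by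
  have h1 : (⟨xc P, hx⟩ : S) * (⟨xc P, hx⟩ - 1) * (⟨xc P, hx⟩ - algebraMap k S a) =
      (⟨xc P * (xc P - 1) * (xc P - algebraMap k κ a),
        S.mul_mem (S.mul_mem hx (S.sub_mem hx S.one_mem)) (S.sub_mem hx (S.algebraMap_mem a))⟩ : S) :=
    rfl
  refine IsIntegral.of_pow (n := 2) (by norm_num) ?_
  rw [yc_sq]
  have : xc P * (xc P - 1) * (xc P - algebraMap k κ a) =
      algebraMap S κ ((⟨xc P, hx⟩ : S) * (⟨xc P, hx⟩ - 1) * (⟨xc P, hx⟩ - algebraMap k S a)) := rfl
  rw [this]
  exact isIntegral_algebraMap

/-- the field of the `x`-coordinates -/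
private noncomputable def xfield (k : Type) {κ : Type} [Field k] [Field κ] [Algebra k κ] {b : κ}
    {m : ℕ} (q : Fin m → Pt b) : IntermediateField k κ :=
  IntermediateField.adjoin k (Set.range (fun j => xc (q j)))

omit [CharZero k] in
private theorem xc_mem_xfield {κ : Type} [Field κ] [Algebra k κ] {m : ℕ}
    (q : Fin m → Pt (algebraMap k κ a)) (j : Fin m) : xc (q j) ∈ xfield k q :=
  IntermediateField.subset_adjoin _ _ ⟨j, rfl⟩

/-- if `κ` is algebraic over the coordinate field, then it is algebraic over the field of the
`x`-coordinates -/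
private theorem alg_xfield {κ : Type} [Field κ] [Algebra k κ] {m : ℕ}
    (q : Fin m → Pt (algebraMap k κ a)) (h : Algebra.IsAlgebraic (coordField k q) κ) :
    Algebra.IsAlgebraic (xfield k q) κ := by
  -- the algebraic closure of `xfield` in `κ` contains the coordinate field
  set C : IntermediateField (xfield k q) κ := algebraicClosure (xfield k q) κ with hC
  have hle : coordField k q ≤ C.restrictScalars k := by
    unfold coordField
    rw [IntermediateField.adjoin_le_iff]
    rintro z (⟨j, rfl⟩ | ⟨j, rfl⟩)
    · have : (algebraMap (xfield k q) κ ⟨xc (q j), xc_mem_xfield q j⟩) ∈ C := C.algebraMap_mem _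
      exact this
    · have : yc (q j) ∈ C := by
        rw [hC, mem_algebraicClosure_iff]
        exact (yc_integral (q j) (xfield k q) (xc_mem_xfield q j)).isAlgebraic
      exact this
  have hCalg : Algebra.IsAlgebraic (xfield k q) C := by rw [hC]; infer_instance
  have hκ : Algebra.IsAlgebraic C κ := by
    constructor
    intro z
    have hz : IsAlgebraic (coordField k q) z := h.isAlgebraic z
    obtain ⟨p, hp0, hp⟩ := hz
    let f : coordField k q →+* C := (IntermediateField.inclusion hle).toRingHom
    have hf : (algebraMap C κ).comp f = algebraMap (coordField k q) κ := rfl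
    refine ⟨p.map f, ?_, ?_⟩
    · intro h0
      exact hp0 (Polynomial.map_injective f f.injective (h0.trans (Polynomial.map_zero f).symm))
    · rw [Polynomial.aeval_def, Polynomial.eval₂_map, hf]
      exact hp
  exact Algebra.IsAlgebraic.trans (xfield k q) C κ

omit [CharZero k] in
private theorem trdeg_of_isFF {κ : Type} [Field κ] [Algebra k κ] {m : ℕ} (hκ : IsFF k κ m) :
    Algebra.trdeg k κ = (m : Cardinal) := by
  obtain ⟨t, ht, hfin⟩ := hκ
  have halg : Algebra.IsAlgebraic (IntermediateField.adjoin k (Set.range t)) κ :=
    Algebra.IsAlgebraic.of_finite _ _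
  have hb : IsTranscendenceBasis k t :=
    ht.isTranscendenceBasis_iff_isAlgebraic.2 (IntermediateField.isAlgebraic_adjoin_iff_top.1 halg)
  rw [← hb.cardinalMk_eq_trdeg]
  simp

theorem indep_of_alg {κ : Type} [Field κ] [Algebra k κ] {m : ℕ}
    (q : Fin m → Pt (algebraMap k κ a)) (hκ : IsFF k κ m)
    (h : Algebra.IsAlgebraic (coordField k q) κ) :
    AlgebraicIndependent k (fun j => xc (q j)) := by
  have h1 : Algebra.IsAlgebraic (xfield k q) κ := alg_xfield q h
  have h2 : Algebra.IsAlgebraic (Algebra.adjoin k (Set.range (fun j => xc (q j)))) κ :=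
    IntermediateField.isAlgebraic_adjoin_iff_top.1 h1
  have h3 : IsTranscendenceBasis k (fun j => xc (q j)) :=
    Algebra.IsAlgebraic.isTranscendenceBasis_of_le_trdeg_of_finite k (fun j => xc (q j))
      (by rw [trdeg_of_isFF hκ]; simp)
  exact h3.1

theorem isGen_of_ff {F : Type} [Field F] [Algebra k F] {m : ℕ} (Q : Fin m → Pt (algebraMap k F a))
    (hF : IsFF k F m) (h : coordField k Q = ⊤) : IsGen k Q := by
  refine ⟨indep_of_alg Q hF ?_, h⟩
  rw [h]
  constructor
  intro z
  exact isAlgebraic_algebraMap (⟨z, IntermediateField.mem_top⟩ : (⊤ : IntermediateField k F))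

theorem IsGen.isFF {F : Type} [Field F] [Algebra k F] {m : ℕ} {Q : Fin m → Pt (algebraMap k F a)}
    (h : IsGen k Q) : IsFF k F m := by
  refine ⟨fun j => xc (Q j), h.indep, ?_⟩
  change FiniteDimensional (xfield k Q) F
  -- `F` is generated over `xfield` by the finitely many integral elements `yc (Q j)`
  have hfin : FiniteDimensional (xfield k Q)
      (IntermediateField.adjoin (xfield k Q) (Set.range (fun j => yc (Q j)))) :=
    IntermediateField.finiteDimensional_adjoin (fun z hz => by
      obtain ⟨j, rfl⟩ := hz
      exact yc_integral (Q j) (xfield k Q) (xc_mem_xfield Q j))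
  have htop : IntermediateField.adjoin (xfield k Q) (Set.range (fun j => yc (Q j))) = ⊤ := by
    rw [eq_top_iff]
    intro z _
    have hz : z ∈ coordField k Q := by rw [h.gen]; trivial
    have hle : coordField k Q ≤
        (IntermediateField.adjoin (xfield k Q) (Set.range (fun j => yc (Q j)))).restrictScalars k := by
      unfold coordField
      rw [IntermediateField.adjoin_le_iff]
      rintro z (⟨j, rfl⟩ | ⟨j, rfl⟩)
      · exact (IntermediateField.adjoin (xfield k Q) (Set.range (fun j => yc (Q j)))).algebraMap_mem
          ⟨xc (Q j), xc_mem_xfield Q j⟩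
      · exact IntermediateField.subset_adjoin (xfield k Q) _ ⟨j, rfl⟩
    exact hle hz
  rw [htop] at hfin
  exact (IntermediateField.topEquiv (F := xfield k Q) (E := F)).toLinearEquiv.finiteDimensional

/-- the coordinate field of a linear combination of points is contained in the coordinate field of the
points -/
theorem coordField_le {κ : Type} [Field κ] [Algebra k κ] (ha0 : a ≠ 0) (ha1 : a ≠ 1) {J ι : Type}
    [Fintype J] (q : J → Pt (algebraMap k κ a)) (S : IntermediateField k κ)
    (hq : ∀ j, xc (q j) ∈ S ∧ yc (q j) ∈ S) (N : J → ι → ℤ) (p : ι → Pt a) :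
    coordField k (pt N q p) ≤ S := by
  have hlift : ∀ j, ∃ r : Pt (algebraMap k S a), bcs S.val r = q j := by
    intro j
    obtain ⟨hx, hy⟩ := hq j
    rcases hqj : q j with _ | ⟨x, y, hxy⟩
    · exact ⟨.zero, rfl⟩
    · rw [hqj] at hx hy
      change x ∈ S at hx
      change y ∈ S at hy
      have hns : (leg (algebraMap k S a)).toAffine.Nonsingular ⟨x, hx⟩ ⟨y, hy⟩ := by
        have h1 := (WeierstrassCurve.Affine.map_nonsingular (W := (leg (algebraMap k S a)).toAffine)
          (f := (S.val : S →+* κ)) (S.val : S →+* κ).injective ⟨x, hx⟩ ⟨y, hy⟩)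
        rw [← h1]
        have h3 : (leg (algebraMap k S a)).toAffine.map (S.val : S →+* κ) =
            (leg (algebraMap k κ a)).toAffine := leg_map (S.val : S →+* κ) (algebraMap k S a)
        rw [h3]
        exact hxy
      exact ⟨.some ⟨x, hx⟩ ⟨y, hy⟩ hns, rfl⟩
  choose r hr using hlift
  have hpt : ∀ i, pt N q p i = bcs S.val (pt N r p i) := by
    intro i
    rw [bcs_pt]
    have : (fun j => bcs S.val (r j)) = q := funext hr
    rw [this]
  unfold coordField
  rw [IntermediateField.adjoin_le_iff]
  rintro z (⟨i, rfl⟩ | ⟨i, rfl⟩)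
  · change xc (pt N q p i) ∈ S
    rw [hpt i, xc_bcs]
    exact (xc (pt N r p i)).2
  · change yc (pt N q p i) ∈ S
    rw [hpt i, yc_bcs]
    exact (yc (pt N r p i)).2

end AC
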