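import Pool.Agent.H18.AC.GenUniq
import Pool.Agent.H18.AC.CycInv
import Pool.Agent.H18.AC.GenTr
import Pool.Agent.ZC.Group

/-!
Module Psi (project AC, helper18).  The push-forward cycle Ψ(N, p) of E ^ m under Q ↦ N Q + p and its invariances.
PROOF.  Psi_eq: epsilon_spec gives F', Q' with IsGen and Psi = cyc k (pt N Q' p); gen_unique, bcs_pt, cyc_bcs.
psi_translate: Q generic (gen_exists) ⇒ Q + b (Q j + bca F (b j)) generic: the coordinate field is the same (coordField_le-type
argument both ways: IsGen by isGen_of_ff, IsGen.isFF), and pt N (Q + b) p = pt N Q (p + lin N b).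
psi_perm: Q ∘ π⁻¹ is generic.
psi_eq_col: N i₀ = N j₀, i₀ ≠ j₀.  For every t : Pt a, Q_t = Q with Q i₀ replaced by Q i₀ + t and Q j₀ by Q j₀ - t is generic and
pt N Q_t p = pt N Q p.  So there is an automorphism σ_t of F over k with bcs σ_t (Q j) = Q_t j (gen_unique), fixing the coordinates of
pt N Q p, i.e. σ_t ∈ Gal(F / coordField); the σ_t are pairwise different (bca is injective) and Pt a is infinite (ZC.infinite_Pt).  If
F were finite over the coordinate field the group F ≃ₐ[coordField] F would be finite.  So finrank = 0 (Module.finrank_of_infinite... /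
finrank_of_not_finite) and cyc = single _ 0 = 0.
-/

namespace AC

open ZC WeierstrassCurve
open scoped Classical

variable {k : Type} [Field k] [CharZero k] {a : k} {ι : Type} {m : ℕ}

/-- The push-forward of `E_a ^ m` under the morphism `Q ↦ N Q + p`. -/
noncomputable def Psi (N : Fin m → ι → ℤ) (p : ι → Pt a) : CyclesM a ι :=
  Classical.epsilon fun c : CyclesM a ι => ∃ (F : Type) (_ : Field F) (_ : Algebra k F)
    (Q : Fin m → Pt (algebraMap k F a)), IsGen k Q ∧ c = cyc k (pt N Q p)

theorem psi_eq (ha0 : a ≠ 0) (ha1 : a ≠ 1) {F : Type} [Field F] [Algebra k F]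
    (Q : Fin m → Pt (algebraMap k F a)) (hQ : IsGen k Q) (N : Fin m → ι → ℤ) (p : ι → Pt a) :
    Psi N p = cyc k (pt N Q p) := by
  have h := Classical.epsilon_spec (p := fun c : CyclesM a ι => ∃ (F : Type) (_ : Field F)
    (_ : Algebra k F) (Q : Fin m → Pt (algebraMap k F a)), IsGen k Q ∧ c = cyc k (pt N Q p))
    ⟨cyc k (pt N Q p), F, inferInstance, inferInstance, Q, hQ, rfl⟩
  obtain ⟨F', hF, hA, Q', hQ', h'⟩ := h
  have h1 : Psi N p = cyc k (pt N Q' p) := h'
  obtain ⟨σ, hσ⟩ := gen_unique ha0 ha1 Q' hQ' Q hQ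
  rw [h1, ← cyc_bcs σ (pt N Q' p)]
  congr 1
  funext i
  rw [bcs_pt]
  congr 1
  funext j
  exact hσ j

private theorem psi_isGen (ha0 : a ≠ 0) (ha1 : a ≠ 1) {F : Type} [Field F] [Algebra k F]
    (Q Q' : Fin m → Pt (algebraMap k F a)) (hQ : IsGen k Q) (M : Fin m → Fin m → ℤ)
    (c : Fin m → Pt a) (h : pt M Q' c = Q) : IsGen k Q' := by
  refine isGen_of_ff Q' hQ.isFF ?_
  rw [eq_top_iff, ← hQ.gen, ← h]
  refine coordField_le ha0 ha1 Q' (coordField k Q') (fun j => ⟨?_, ?_⟩) M c
  · exact IntermediateField.subset_adjoin k _ (Or.inl ⟨j, rfl⟩)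
  · exact IntermediateField.subset_adjoin k _ (Or.inr ⟨j, rfl⟩)

private theorem psi_gen_add (ha0 : a ≠ 0) (ha1 : a ≠ 1) {F : Type} [Field F] [Algebra k F]
    (Q : Fin m → Pt (algebraMap k F a)) (hQ : IsGen k Q) (b : Fin m → Pt a) :
    IsGen k (fun j => Q j + bca F (b j)) := by
  refine psi_isGen ha0 ha1 Q _ hQ (fun j i => if j = i then 1 else 0) (fun i => - b i) ?_
  funext i
  unfold pt lin
  beta_reduce
  rw [Finset.sum_eq_single i]
  · rw [if_pos rfl, one_zsmul, map_neg, add_neg_cancel_right]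
  · intro j _ hj
    rw [if_neg hj, zero_zsmul]
  · intro hi
    exact absurd (Finset.mem_univ i) hi

theorem psi_translate (ha0 : a ≠ 0) (ha1 : a ≠ 1) (N : Fin m → ι → ℤ) (p : ι → Pt a)
    (b : Fin m → Pt a) : Psi N (fun i => p i + lin N b i) = Psi N p := by
  obtain ⟨F, _, _, Q, hQ⟩ := gen_exists (k := k) (a := a) ha0 ha1 m
  rw [psi_eq ha0 ha1 Q hQ, psi_eq ha0 ha1 _ (psi_gen_add ha0 ha1 Q hQ b)]
  congr 1
  funext i
  unfold pt lin
  rw [map_add, map_sum]
  simp only [map_zsmul, zsmul_add, Finset.sum_add_distrib]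
  abel

theorem psi_perm (ha0 : a ≠ 0) (ha1 : a ≠ 1) (N : Fin m → ι → ℤ) (p : ι → Pt a)
    (π : Equiv.Perm (Fin m)) : Psi (fun j => N (π j)) p = Psi N p := by
  obtain ⟨F, _, _, Q, hQ⟩ := gen_exists (k := k) (a := a) ha0 ha1 m
  have hQ' : IsGen k (fun j => Q (π j)) := by
    refine psi_isGen ha0 ha1 Q _ hQ (fun j i => if π j = i then 1 else 0) (fun _ => 0) ?_
    funext i
    unfold pt lin
    beta_reduce
    rw [Finset.sum_eq_single (π.symm i)]
    · rw [if_pos (π.apply_symm_apply i), one_zsmul, map_zero, add_zero, π.apply_symm_apply]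
    · intro j _ hj
      rw [if_neg, zero_zsmul]
      intro hji
      exact hj (by rw [← hji, π.symm_apply_apply])
    · intro hi
      exact absurd (Finset.mem_univ _) hi
  rw [psi_eq ha0 ha1 Q hQ N p, psi_eq ha0 ha1 _ hQ' (fun j => N (π j)) p]
  congr 1
  funext i
  unfold pt lin
  congr 1
  exact Equiv.sum_comp π (fun j => N j i • Q j)

omit [CharZero k] in
private theorem psi_pt_eq {F : Type} [Field F] [Algebra k F]
    (Q : Fin m → Pt (algebraMap k F a)) (N : Fin m → ι → ℤ) (p : ι → Pt a) {i₀ j₀ : Fin m}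
    (hN : N i₀ = N j₀) (t : Pt a) :
    pt N (fun j => Q j + bca F ((if j = i₀ then t else 0) - (if j = j₀ then t else 0))) p =
      pt N Q p := by
  funext i
  unfold pt lin
  congr 1
  simp only [map_sub, zsmul_add, Finset.sum_add_distrib, zsmul_sub, Finset.sum_sub_distrib]
  have h1 : ∀ l : Fin m, ∑ j, N j i • bca F (if j = l then t else 0) = N l i • bca F t := by
    intro l
    rw [Finset.sum_eq_single l]
    · rw [if_pos rfl]
    · intro j _ hj
      rw [if_neg hj, map_zero, zsmul_zero]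
    · intro hi
      exact absurd (Finset.mem_univ _) hi
  rw [h1, h1, hN, sub_self, add_zero]

theorem psi_eq_col [IsAlgClosed k] (ha0 : a ≠ 0) (ha1 : a ≠ 1) (N : Fin m → ι → ℤ) (p : ι → Pt a)
    {i₀ j₀ : Fin m} (hij : i₀ ≠ j₀) (hN : N i₀ = N j₀) : Psi N p = 0 := by
  obtain ⟨F, _, _, Q, hQ⟩ := gen_exists (k := k) (a := a) ha0 ha1 m
  rw [psi_eq ha0 ha1 Q hQ]
  have hfin : ¬ FiniteDimensional (coordField k (pt N Q p)) F := by
    intro hfd
    have hσ : ∀ t : Pt a, ∃ τ : F ≃ₐ[coordField k (pt N Q p)] F, ∃ σ : F ≃ₐ[k] F,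
        (∀ x, τ x = σ x) ∧ bcs (σ : F →ₐ[k] F) (Q i₀) = Q i₀ + bca F t := by
      intro t
      obtain ⟨σ, hσ⟩ := gen_unique ha0 ha1 Q hQ _ (psi_gen_add ha0 ha1 Q hQ
        (fun j => (if j = i₀ then t else 0) - (if j = j₀ then t else 0)))
      have hpt : ∀ i, bcs (σ : F →ₐ[k] F) (pt N Q p i) = pt N Q p i := by
        intro i
        rw [bcs_pt]
        have h2 := psi_pt_eq Q N p hN t
        have h3 := congrFun h2 i
        rw [← h3]
        congr 1
        funext j
        exact hσ j
      have hfix : ∀ x ∈ coordField k (pt N Q p), σ x = x := by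
        intro x hx
        unfold coordField at hx
        induction hx using IntermediateField.adjoin_induction with
        | mem x hx =>
          rcases hx with ⟨i, rfl⟩ | ⟨i, rfl⟩
          · have h4 := congrArg xc (hpt i)
            rw [xc_bcs] at h4
            exact h4
          · have h4 := congrArg yc (hpt i)
            rw [yc_bcs] at h4
            exact h4
        | algebraMap c => exact σ.commutes c
        | add x y _ _ hx hy => rw [map_add, hx, hy]
        | inv x _ hx => rw [map_inv₀, hx]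
        | mul x y _ _ hx hy => rw [map_mul, hx, hy]
      refine ⟨AlgEquiv.ofRingEquiv (f := (σ : F ≃+* F)) (fun x => hfix x x.2), σ,
        fun x => rfl, ?_⟩
      rw [hσ i₀]
      beta_reduce
      rw [if_pos rfl, if_neg hij, sub_zero]
    choose τ σ hτ hb using hσ
    have hinj : Function.Injective τ := by
      intro t s hts
      have h1 : σ t = σ s := by
        apply AlgEquiv.ext
        intro x
        rw [← hτ, ← hτ, hts]
      have h2 := hb t
      rw [h1, hb s] at h2
      exact (bc_injective _ _ (add_left_cancel h2)).symm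
    have hinf : Infinite (Pt a) := ZC.infinite_Pt ha0 ha1
    exact not_injective_infinite_finite τ hinj
  unfold cyc
  rw [Module.finrank_of_not_finite hfin]
  simp

end AC
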