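import Pool.Agent.H18.AC.RedAdd

/-!
Module RedLin (project AC, helper18).  Easy consequences of Red.add: integer multiples, linear combinations, pt.
PROOF. zsmul by induction (Int.induction_on or natural numbers and Red.neg), sums by Finset induction; the
constants of w give the hypothesis hab for a ∈ k (w.const a), b ≠ 0, 1 by injectivity of algebraMap k κ.
-/

namespace AC

open ZC WeierstrassCurve
open scoped Classical

variable {k : Type} [Field k] [CharZero k] {L κ : Type} [Field L] [Field κ] [Algebra k L] [Algebra k κ]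

theorem red_zsmul {w : KPl k L κ} {a : L} {b : κ} (hab : ∃ h : a ∈ w.O, w.ρ ⟨a, h⟩ = b)
    (hb0 : b ≠ 0) (hb1 : b ≠ 1) {P : Pt a} {p : Pt b} (hP : Red w P p) (n : ℤ) :
    Red w (n • P) (n • p) := by
  have hnat : ∀ m : ℕ, Red w (m • P) (m • p) := by
    intro m
    induction m with
    | zero => rw [zero_smul, zero_smul]; exact Red.zero w
    | succ m ih => rw [succ_nsmul, succ_nsmul]; exact Red.add hab hb0 hb1 ih hP
  obtain ⟨m, rfl | rfl⟩ := n.eq_nat_or_neg
  · rw [natCast_zsmul, natCast_zsmul]; exact hnat m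
  · rw [neg_smul, neg_smul, natCast_zsmul, natCast_zsmul]; exact Red.neg (hnat m)

theorem red_lin {w : KPl k L κ} {a : L} {b : κ} (hab : ∃ h : a ∈ w.O, w.ρ ⟨a, h⟩ = b)
    (hb0 : b ≠ 0) (hb1 : b ≠ 1) {J ι : Type} [Fintype J] (N : J → ι → ℤ) {Q : J → Pt a} {q : J → Pt b}
    (h : ∀ j, Red w (Q j) (q j)) (i : ι) : Red w (lin N Q i) (lin N q i) := by
  have key : ∀ s : Finset J, Red w (∑ j ∈ s, N j i • Q j) (∑ j ∈ s, N j i • q j) := by
    intro s
    induction s using Finset.induction_on with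
    | empty => rw [Finset.sum_empty, Finset.sum_empty]; exact Red.zero w
    | insert j s hj ih =>
      rw [Finset.sum_insert hj, Finset.sum_insert hj]
      exact Red.add hab hb0 hb1 (red_zsmul hab hb0 hb1 (h j) _) ih
  exact key Finset.univ

theorem red_pt {w : KPl k L κ} {a : k} (ha0 : a ≠ 0) (ha1 : a ≠ 1) {J ι : Type} [Fintype J]
    (N : J → ι → ℤ) {Q : J → Pt (algebraMap k L a)} {q : J → Pt (algebraMap k κ a)}
    (h : ∀ j, Red w (Q j) (q j)) (p : ι → Pt a) (i : ι) : Red w (pt N Q p i) (pt N q p i) := by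
  have hb0 : algebraMap k κ a ≠ 0 := by
    rwa [Ne, map_eq_zero]
  have hb1 : algebraMap k κ a ≠ 1 := by
    intro h1
    exact ha1 ((algebraMap k κ).injective (by rw [h1, map_one]))
  exact Red.add (w.const a) hb0 hb1 (red_lin (w.const a) hb0 hb1 N h i) (red_const w (p i))

/-- values in `k` itself -/
theorem red_pt' {w : KPl k L k} {a : k} (ha0 : a ≠ 0) (ha1 : a ≠ 1) {J ι : Type} [Fintype J]
    (N : J → ι → ℤ) {Q : J → Pt (algebraMap k L a)} {q : J → Pt a}
    (h : ∀ j, Red w (Q j) (q j)) (p : ι → Pt a) (i : ι) : Red w (pt N Q p i) (lin N q i + p i) := by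
  have hab : ∃ h : algebraMap k L a ∈ w.O, w.ρ ⟨algebraMap k L a, h⟩ = a := w.const a
  exact Red.add hab ha0 ha1 (red_lin hab ha0 ha1 N h i) (red_const' w (p i))

theorem exists_redk (w : KPl k L κ) {a : k} (ha0 : a ≠ 0) (ha1 : a ≠ 1)
    (P : Pt (algebraMap k L a)) : ∃ p : Pt (algebraMap k κ a), Red w P p := by
  have hb0 : algebraMap k κ a ≠ 0 := by
    rwa [Ne, map_eq_zero]
  have hb1 : algebraMap k κ a ≠ 1 := by
    intro h1
    exact ha1 ((algebraMap k κ).injective (by rw [h1, map_one]))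
  exact exists_red w (w.const a) hb0 hb1 P

end AC
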