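import Pool.Agent.H18.AC.Bc

/-!
Module ResL (project AC, helper18).  The residue map of a place: when it is zero, surjectivity, constants.
-/

namespace AC

open ZC WeierstrassCurve
open scoped Classical

variable {k L : Type} [Field k] [Field L] [Algebra k L]

theorem mem_vs_iff (w : Place k L) (u : L) : u ∈ w.v.valuationSubring ↔ w.v u ≤ 1 :=
  Valuation.mem_valuationSubring_iff _ _

theorem residueHom_eq_zero_iff (w : Place k L) (u : L) (hu : u ∈ w.v.valuationSubring) :
    residueHom w ⟨u, hu⟩ = 0 ↔ w.v u < 1 := by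
  have h1 : residueHom w ⟨u, hu⟩ = 0 ↔
      (⟨u, hu⟩ : w.v.valuationSubring) ∈ IsLocalRing.maximalIdeal w.v.valuationSubring :=
    IsLocalRing.residue_eq_zero_iff _
  rw [h1, IsLocalRing.mem_maximalIdeal, mem_nonunits_iff]
  have hle : w.v u ≤ 1 := (mem_vs_iff w u).1 hu
  constructor
  · intro hn
    refine lt_of_le_of_ne hle fun h => hn ?_
    have hu0 : u ≠ 0 := by
      rintro rfl
      rw [map_zero] at h
      exact zero_ne_one h
    have hinv : u⁻¹ ∈ w.v.valuationSubring := by
      rw [mem_vs_iff, map_inv₀, h, inv_one]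
    refine IsUnit.of_mul_eq_one (⟨u⁻¹, hinv⟩ : w.v.valuationSubring) ?_
    apply Subtype.ext
    exact mul_inv_cancel₀ hu0
  · intro hlt hunit
    obtain ⟨t, ht⟩ := hunit.exists_right_inv
    have h2 : u * (t : L) = 1 := congrArg Subtype.val ht
    have h3 : w.v u * w.v (t : L) = 1 := by rw [← map_mul, h2, map_one]
    have h4 : w.v (t : L) ≤ 1 := (mem_vs_iff w _).1 t.2
    have h5 : w.v u * w.v (t : L) < 1 := mul_lt_one_of_lt_of_le hlt h4
    exact absurd h3 h5.ne

theorem residueHom_surjective (w : Place k L) : Function.Surjective (residueHom w) :=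
  IsLocalRing.residue_surjective

theorem residueHom_const (w : Place k L) (c : k) :
    algebraMap k (Residue w) c = residueHom w ⟨algebraMap k L c, algebraMap_mem w c⟩ := rfl

theorem residueHom_eq_iff (w : Place k L) (u u' : L) (hu : u ∈ w.v.valuationSubring)
    (hu' : u' ∈ w.v.valuationSubring) :
    residueHom w ⟨u, hu⟩ = residueHom w ⟨u', hu'⟩ ↔ w.v (u - u') < 1 := by
  rw [← sub_eq_zero, ← map_sub]
  exact residueHom_eq_zero_iff w (u - u') (sub_mem hu hu')

theorem residueHom_eq_const_iff (w : Place k L) (u : L) (hu : u ∈ w.v.valuationSubring) (c : k) :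
    residueHom w ⟨u, hu⟩ = algebraMap k (Residue w) c ↔ w.v (u - algebraMap k L c) < 1 := by
  rw [residueHom_const]
  exact residueHom_eq_iff w _ _ hu (algebraMap_mem w c)

/-- an element congruent to a constant -/
theorem exists_residueHom_eq_const (w : Place k L) (u : L) (c : k)
    (h : w.v (u - algebraMap k L c) < 1) :
    ∃ hu : u ∈ w.v.valuationSubring, residueHom w ⟨u, hu⟩ = algebraMap k (Residue w) c := by
  have hu : u ∈ w.v.valuationSubring := by
    have h1 : u = (u - algebraMap k L c) + algebraMap k L c := by ring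
    rw [h1]
    exact add_mem ((mem_vs_iff w _).2 h.le) (algebraMap_mem w c)
  exact ⟨hu, (residueHom_eq_const_iff w u hu c).2 h⟩

theorem red_some_some {κ : Type} [Field κ] [Algebra k κ] (w : KPl k L κ) {a : L} {b : κ} {X Y : L}
    {x y : κ} (hXY : (leg a).toAffine.Nonsingular X Y) (hxy : (leg b).toAffine.Nonsingular x y) :
    Red w (.some X Y hXY : Pt a) (.some x y hxy : Pt b) ↔
      (∃ h : X ∈ w.O, w.ρ ⟨X, h⟩ = x) ∧ (∃ h : Y ∈ w.O, w.ρ ⟨Y, h⟩ = y) := Iff.rfl

theorem red_some_zero {κ : Type} [Field κ] [Algebra k κ] (w : KPl k L κ) {a : L} {b : κ} {X Y : L}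
    (hXY : (leg a).toAffine.Nonsingular X Y) :
    Red w (.some X Y hXY : Pt a) (.zero : Pt b) ↔ X ∉ w.O := Iff.rfl

theorem red_zero_some {κ : Type} [Field κ] [Algebra k κ] (w : KPl k L κ) {a : L} {b : κ}
    {x y : κ} (hxy : (leg b).toAffine.Nonsingular x y) :
    ¬ Red w (.zero : Pt a) (.some x y hxy : Pt b) := fun h => h

/-- a point over `G` with coordinates in the image of `F` comes from a point over `F` -/
theorem exists_bc {F G : Type} [Field F] [Field G] (f : F →+* G) {a : F} {b : G} (h : f a = b)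
    (Q : Pt b) (hx : xc Q ∈ Set.range f) (hy : yc Q ∈ Set.range f) : ∃ P : Pt a, bc f h P = Q := by
  subst h
  rcases Q with _ | ⟨X, Y, hXY⟩
  · exact ⟨.zero, rfl⟩
  · obtain ⟨x, hx⟩ := hx
    obtain ⟨y, hy⟩ := hy
    have hx' : f x = X := hx
    have hy' : f y = Y := hy
    subst hx' hy'
    have h1 : (leg a).toAffine.Nonsingular x y := by
      have h2 := hXY
      rw [← leg_map] at h2
      exact (WeierstrassCurve.Affine.map_nonsingular (W := (leg a).toAffine) (f := f)
        f.injective x y).1 h2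
    exact ⟨.some x y h1, rfl⟩

end AC
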