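import Pool.Agent.H18.AC.ExtTower
import Pool.Agent.H18.AC.FinZeros
import Pool.Agent.H18.AC.Psi
import Pool.Agent.H18.AC.Princ
import Pool.Agent.H18.AC.RedLin
import Pool.Agent.H18.AC.ResL
import Pool.Agent.ZC.DefsN
import Pool.Agent.ZC.ResAux

/-!
Module ExtProd (project AC, helper18).  The map z ↦ ∑ z(p) Ψ(N, p) respects rational equivalence of zero-cycles.
-/

namespace AC

open ZC WeierstrassCurve
open scoped Classical

section

variable {k : Type} [Field k] {a : k}

/-- values with respect to an extension of a place -/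
theorem red_of_spec {K L : Type} [Field K] [Field L] [Algebra k K] [Algebra k L] [Algebra K L]
    [IsScalarTower k K L] (v : Place k K) (w : Place k L) {e : ℕ} (he : 0 < e)
    (hext : ∀ u : K, w.v (algebraMap K L u) = v.v u ^ e) {P : Pt (algebraMap k K a)} {p : Pt a}
    (h : SpecializesTo v P p) :
    Red (resPl w) (bcs (IsScalarTower.toAlgHom k K L) P) (bca (Residue w) p) := by
  have key : ∀ (X : K) (x : k), v.v (X - algebraMap k K x) < 1 →
      ∃ h : algebraMap K L X ∈ w.v.valuationSubring,
        residueHom w ⟨algebraMap K L X, h⟩ = algebraMap k (Residue w) x := by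
    intro X x hX
    apply exists_residueHom_eq_const
    rw [IsScalarTower.algebraMap_apply k K L, ← map_sub, hext]
    exact pow_lt_one₀ zero_le hX he.ne'
  rcases P with _ | ⟨X, Y, hXY⟩ <;> rcases p with _ | ⟨x, y, hxy⟩
  · trivial
  · exact h.elim
  · show algebraMap K L X ∉ w.v.valuationSubring
    rw [mem_vs_iff, hext, not_le]
    exact one_lt_pow₀ h he.ne'
  · exact ⟨key X x h.1, key Y y h.2⟩

/-- every point over `K` has a value at a place with residue field `k` -/
theorem exists_spec [CharZero k] (ha0 : a ≠ 0) (ha1 : a ≠ 1) {K : Type} [Field K] [Algebra k K]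
    (v : Place k K) (hv : ∀ u : K, v.v u ≤ 1 → ∃ c : k, v.v (u - algebraMap k K c) < 1)
    (P : Pt (algebraMap k K a)) : ∃ p : Pt a, SpecializesTo v P p := by
  obtain ⟨y, hy⟩ := exists_redk (resPl v) ha0 ha1 P
  have hsurj : ∀ z : Residue v, z ∈ Set.range (algebraMap k (Residue v)) := by
    intro z
    obtain ⟨⟨u, hu⟩, rfl⟩ := residueHom_surjective v z
    obtain ⟨c, hc⟩ := hv u ((mem_vs_iff v u).1 hu)
    exact ⟨c, ((residueHom_eq_const_iff v u hu c).2 hc).symm⟩
  obtain ⟨p, hp⟩ := exists_bc (algebraMap k (Residue v)) (a := a) rfl y (hsurj _) (hsurj _)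
  subst hp
  refine ⟨p, ?_⟩
  rcases P with _ | ⟨X, Y, hXY⟩ <;> rcases p with _ | ⟨x, y, hxy⟩
  · trivial
  · exact hy.elim
  · have h1 : X ∉ v.v.valuationSubring := hy
    rw [mem_vs_iff, not_le] at h1
    exact h1
  · obtain ⟨⟨h1, h2⟩, h3, h4⟩ := hy
    exact ⟨(residueHom_eq_const_iff v X h1 x).1 h2, (residueHom_eq_const_iff v Y h3 y).1 h4⟩

end

variable {k : Type} [Field k] [IsAlgClosed k] [CharZero k] {a : k} {ι : Type} [Fintype ι] {m : ℕ}

/-- `z ↦ ∑ z(p) Ψ(N, p)` -/
noncomputable def act (N : Fin m → ι → ℤ) : CyclesN (fun _ : ι => a) →+ CyclesM a ι :=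
  Finsupp.liftAddHom fun p => (zmultiplesHom (CyclesM a ι)) (Psi N p)

theorem act_single (N : Fin m → ι → ℤ) (p : ι → Pt a) (n : ℤ) :
    act N (Finsupp.single p n : CyclesN (fun _ : ι => a)) = n • Psi N p := by
  simp [act]

theorem act_principal (ha0 : a ≠ 0) (ha1 : a ≠ 1) (N : Fin m → ι → ℤ) (c : CyclesN (fun _ : ι => a))
    (hc : IsPrincipalN (fun _ : ι => a) c) : act N c ∈ ratM a ι m := by
  obtain ⟨K, _, _, hK, x, f, hf, hcp⟩ := hc
  -- the places with f of nonzero order
  have hfin := fin_ord hK f hf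
  set S₀ : Finset (Place k K) := hfin.toFinset with hS₀
  have hmemS : ∀ v : Place k K, v ∈ S₀ ↔ v.ord f ≠ 0 := by
    intro v; rw [hS₀, Set.Finite.mem_toFinset, Set.mem_setOf_eq]
  -- values
  have hval : ∀ v : Place k K, ∃ p : ι → Pt a, ∀ i, SpecializesTo v (x i) (p i) := by
    intro v
    choose p hp using fun i => exists_spec ha0 ha1 v (res_const hK v) (x i)
    exact ⟨p, hp⟩
  choose pv hpv using hval
  have hc2 : c = ∑ v ∈ S₀, Finsupp.single (pv v) (v.ord f) := by
    ext p
    rw [hcp p, Finsupp.finset_sum_apply]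
    have h1 : ∀ w : Place k K, (∑ᶠ (_ : ∀ i, SpecializesTo w (x i) (p i)), w.ord f) =
        (Finsupp.single (pv w) (w.ord f) : CyclesN (fun _ : ι => a)) p := by
      intro w
      by_cases h2 : ∀ i, SpecializesTo w (x i) (p i)
      · have h3 : pv w = p := funext fun i => SpecializesTo.unique (hpv w i) (h2 i)
        rw [h3, Finsupp.single_eq_same, finsum_eq_if, if_pos h2]
      · have h3 : pv w ≠ p := fun h => h2 (h ▸ hpv w)
        rw [Finsupp.single_eq_of_ne (Ne.symm h3), finsum_eq_if, if_neg h2]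
    simp only [h1]
    apply finsum_eq_sum_of_support_subset
    intro w hw
    rw [Function.mem_support] at hw
    rw [Finset.mem_coe, hmemS]
    intro h0
    rw [h0, Finsupp.single_zero] at hw
    exact hw rfl
  -- the big field
  obtain ⟨L, _, _, _, _, Q, hL, hT1, hT2, hT3⟩ := ext_tower ha0 ha1 hK m
  choose wv hwv qv hqv hqi using hT2
  have hnt : ∀ v : Place k K, ∃ u : K, u ≠ 0 ∧ (wv v).v (algebraMap K L u) ≠ 1 := by
    intro v
    obtain ⟨u, hu⟩ := v.surj ((Multiplicative.ofAdd (1 : ℤ) : Multiplicative ℤ) :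
      WithZero (Multiplicative ℤ))
    refine ⟨u, ?_, ?_⟩
    · rintro rfl
      rw [map_zero] at hu
      exact WithZero.coe_ne_zero hu.symm
    · rw [← hwv v u, hu]
      intro h
      have h2 := WithZero.coe_inj.1 (h.trans WithZero.coe_one.symm)
      exact absurd (congrArg Multiplicative.toAdd h2) (by simp)
  have hinj : Function.Injective wv := by
    intro v v' h
    have hvv : v.v = v'.v := by
      ext u
      rw [hwv v u, hwv v' u, h]
    cases v; cases v'
    simp only at hvv
    subst hvv
    rfl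
  set y : ι → Pt (algebraMap k L a) := fun i =>
    lin N Q i + bcs (IsScalarTower.toAlgHom k K L) (x i) with hy
  set f' : L := algebraMap K L f with hf'
  have hord : ∀ v : Place k K, (wv v).ord f' = v.ord f := by
    intro v
    unfold Place.ord
    rw [hf', ← hwv v f]
  -- value of y at a place lying above
  have hred : ∀ (v : Place k K) (w : Place k L) (e : ℕ), 0 < e →
      (∀ u : K, w.v (algebraMap K L u) = v.v u ^ e) →
      ∀ q : Fin m → Pt (algebraMap k (Residue w) a), (∀ j, Red (resPl w) (Q j) (q j)) →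
      ∀ i, Red (resPl w) (y i) (pt N q (pv v) i) := by
    intro v w e he hext q hq i
    have hab := (resPl w).const a
    have hb0 : algebraMap k (Residue w) a ≠ 0 := by
      rw [Ne, map_eq_zero_iff _ (algebraMap k (Residue w)).injective]; exact ha0
    have hb1 : algebraMap k (Residue w) a ≠ 1 := by
      rw [Ne, map_eq_one_iff _ (algebraMap k (Residue w)).injective]; exact ha1
    exact Red.add hab hb0 hb1 (red_lin hab hb0 hb1 N hq i) (red_of_spec v w he hext (hpv v i))
  -- the cycle
  have hact : act N c = ∑ v ∈ S₀, v.ord f • Psi N (pv v) := by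
    rw [hc2, map_sum]
    exact Finset.sum_congr rfl fun v _ => act_single N _ _
  set g : Place k L → CyclesM a ι := Function.extend wv (fun v => Psi N (pv v)) 0 with hg
  have hgw : ∀ v, g (wv v) = Psi N (pv v) := fun v => hinj.extend_apply _ _ _
  have hsum : act N c = ∑ w ∈ S₀.image wv, w.ord f' • g w := by
    rw [Finset.sum_image (fun v _ v' _ h => hinj h), hact]
    exact Finset.sum_congr rfl fun v _ => by rw [hord, hgw]
  rw [hsum]
  refine princ_mem hL y f' ((map_ne_zero_iff _ (algebraMap K L).injective).2 hf) _ g ?_ ?_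
  · intro w hw
    obtain ⟨v, hv, rfl⟩ := Finset.mem_image.1 hw
    have hgen : IsGen k (qv v) := ⟨hqi v, (hT1 (wv v) (qv v) (hqv v) (hqi v) (hnt v)).1⟩
    refine ⟨pt N (qv v) (pv v), hgen.isFF, ?_, ?_⟩
    · exact hred v (wv v) 1 one_pos (fun u => by rw [pow_one]; exact (hwv v u).symm) (qv v) (hqv v)
    · rw [hgw, psi_eq ha0 ha1 (qv v) hgen]
  · intro w hw y' hFF hy' hordw
    by_contra hfr
    have hwf : w.v (algebraMap K L f) ≠ 1 := by
      intro h
      apply hordw
      unfold Place.ord
      rw [hf', h, WithZero.log_one, neg_zero]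
    obtain ⟨v, e, he, hve⟩ := norm_place w ⟨f, hf, hwf⟩
    choose q hq using fun j => exists_redk (resPl w) ha0 ha1 (Q j)
    have hyq : y' = pt N q (pv v) :=
      funext fun i => Red.uniq (hy' i) (hred v w e he hve q hq i)
    have hle : coordField k y' ≤ coordField k q := by
      rw [hyq]
      refine coordField_le ha0 ha1 q (coordField k q) (fun j => ⟨?_, ?_⟩) N (pv v)
      · exact IntermediateField.subset_adjoin k _ (Or.inl ⟨j, rfl⟩)
      · exact IntermediateField.subset_adjoin k _ (Or.inr ⟨j, rfl⟩)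
    have hfd : FiniteDimensional (coordField k y') (Residue w) :=
      Module.finite_of_finrank_pos (Nat.pos_of_ne_zero hfr)
    have halg : Algebra.IsAlgebraic (coordField k y') (Residue w) := inferInstance
    have halg' : Algebra.IsAlgebraic (coordField k q) (Residue w) := by
      refine ⟨fun z => ?_⟩
      obtain ⟨P, hP0, hP⟩ := halg.isAlgebraic z
      refine ⟨P.map (IntermediateField.inclusion hle).toRingHom, ?_, ?_⟩
      · rwa [Ne, Polynomial.map_eq_zero_iff (IntermediateField.inclusion hle).toRingHom.injective]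
      · rw [Polynomial.aeval_def, Polynomial.eval₂_map]
        rw [Polynomial.aeval_def] at hP
        exact hP
    have hindep := indep_of_alg q hFF halg'
    obtain ⟨-, v', hv'⟩ := hT1 w q hq hindep ⟨f, hf, hwf⟩
    have hv'S : v' ∈ S₀ := by
      rw [hmemS]
      intro h0
      apply hordw
      unfold Place.ord at h0 ⊢
      rw [hf', ← hv' f]
      exact h0
    have hww : w = wv v' := by
      refine hT3 w (wv v') q (qv v') (fun u => ?_) ⟨f, hf, hwf⟩ hq hindep (hqv v') (hqi v')
      rw [← hv' u, ← hwv v' u]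
    exact hw (Finset.mem_image.2 ⟨v', hv'S, hww.symm⟩)

theorem act_rat (ha0 : a ≠ 0) (ha1 : a ≠ 1) (N : Fin m → ι → ℤ) (c : CyclesN (fun _ : ι => a))
    (hc : c ∈ ratZeroN (fun _ : ι => a)) : act N c ∈ ratM a ι m := by
  have h : ratZeroN (fun _ : ι => a) ≤ (ratM a ι m).comap (act N) := by
    unfold ratZeroN
    rw [AddSubgroup.closure_le]
    intro c hc
    exact act_principal ha0 ha1 N c hc
  exact h hc

end AC
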