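import Pool.Agent.H18.AC.GenStep

/-!
Module GenUniq (project AC, helper18).  Existence and uniqueness of generic points of E_a ^ m.
PROOF.  gen_unique by induction on m.  m = 0: coordField k Q = ⊥ = ⊤, so F and G are both k (IntermediateField.botEquiv).
m + 1: gen_split for both, σ₀ : F₀ ≃ₐ[k] G₀ with σ₀ Q'_F = Q'_G, then quad_iso (with (cub (algebraMap k F₀ a)).map σ₀ =
cub (algebraMap k G₀ a), Polynomial.map_mul ...) gives τ : F ≃+* G over σ₀, a k-algebra isomorphism, with τ (xc (Q 0)) = xc (Q' 0),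
same for yc; bcs τ (Q 0) = Q' 0 because both are affine with the same coordinates (xc (Q 0) is transcendental, so Q 0 ≠ 0).
gen_exists by induction: m = 0: F = k.  m + 1: exists_quadF over F with h = cub (algebraMap k F a), cub_not_square; Algebra k L by
composition ((algebraMap F L).comp (algebraMap k F)).toAlgebra, IsScalarTower.of_algebraMap_eq; q = some s y (leg_nonsingular); gen_join.
-/

namespace AC

open ZC WeierstrassCurve
open scoped Classical

variable {k : Type} [Field k] [CharZero k] {a : k}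

private theorem gu_aux (ha0 : a ≠ 0) (ha1 : a ≠ 1) (m : ℕ) :
    ∀ (F G : Type) [Field F] [Field G] [Algebra k F] [Algebra k G]
      (Q : Fin m → Pt (algebraMap k F a)) (_ : IsGen k Q)
      (Q' : Fin m → Pt (algebraMap k G a)) (_ : IsGen k Q'),
      ∃ σ : F ≃ₐ[k] G, ∀ j, bcs (σ : F →ₐ[k] G) (Q j) = Q' j := by
  induction m with
  | zero =>
    intro F G _ _ _ _ Q hQ Q' hQ'
    have h1 : (⊥ : IntermediateField k F) = ⊤ := by
      have h := hQ.gen
      unfold coordField at h
      rwa [Set.range_eq_empty, Set.range_eq_empty, Set.union_empty,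
        IntermediateField.adjoin_empty] at h
    have h2 : (⊥ : IntermediateField k G) = ⊤ := by
      have h := hQ'.gen
      unfold coordField at h
      rwa [Set.range_eq_empty, Set.range_eq_empty, Set.union_empty,
        IntermediateField.adjoin_empty] at h
    let e1 : F ≃ₐ[k] k := (IntermediateField.topEquiv.symm.trans
      (IntermediateField.equivOfEq h1.symm)).trans (IntermediateField.botEquiv k F)
    let e2 : G ≃ₐ[k] k := (IntermediateField.topEquiv.symm.trans
      (IntermediateField.equivOfEq h2.symm)).trans (IntermediateField.botEquiv k G)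
    exact ⟨e1.trans e2.symm, fun j => j.elim0⟩
  | succ m ih =>
    intro F G _ _ _ _ Q hQ Q' hQ'
    obtain ⟨F₀, _, _, _, _, q, hq, hqj, HF⟩ := gen_split ha0 ha1 Q hQ
    obtain ⟨G₀, _, _, _, _, q', hq', hqj', HG⟩ := gen_split ha0 ha1 Q' hQ'
    obtain ⟨σ₀, hσ₀⟩ := ih F₀ G₀ q hq q' hq'
    have hmap : (cub (algebraMap k F₀ a)).map (((σ₀ : F₀ ≃+* G₀)) : F₀ →+* G₀) =
        cub (algebraMap k G₀ a) := by
      have hc : (((σ₀ : F₀ ≃+* G₀)) : F₀ →+* G₀) (algebraMap k F₀ a) = algebraMap k G₀ a :=
        σ₀.commutes a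
      unfold cub
      rw [Polynomial.map_mul, Polynomial.map_mul, Polynomial.map_sub, Polynomial.map_sub,
        Polynomial.map_X, Polynomial.map_one, Polynomial.map_C, hc]
    obtain ⟨τ, hτ, hτs, hτy⟩ := quad_iso (σ₀ : F₀ ≃+* G₀) HF (by rw [hmap]; exact HG)
    have hcomm : ∀ c : k, τ (algebraMap k F c) = algebraMap k G c := by
      intro c
      rw [IsScalarTower.algebraMap_apply k F₀ F, hτ, IsScalarTower.algebraMap_apply k G₀ G]
      congr 1
      exact σ₀.commutes c
    let T : F ≃ₐ[k] G := AlgEquiv.ofRingEquiv (f := τ) hcomm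
    have hT : ∀ z, (T : F →ₐ[k] G) z = τ z := fun z => rfl
    refine ⟨T, Fin.cases ?_ ?_⟩
    · have h1 : xc (Q 0) ≠ 0 := hQ.indep.ne_zero 0
      have h2 : xc (Q' 0) ≠ 0 := hQ'.indep.ne_zero 0
      revert h1 h2 hτs hτy
      generalize Q 0 = P
      generalize Q' 0 = P'
      intro hτs hτy h1 h2
      rcases P with _ | ⟨x, y, hxy⟩
      · exact absurd rfl h1
      · rcases P' with _ | ⟨x', y', hxy'⟩
        · exact absurd rfl h2
        · unfold bcs
          refine (bc_some _ _ _).trans ?_
          rw [Affine.Point.some.injEq]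
          exact ⟨hτs, hτy⟩
    · intro j
      have hcomp : (T : F →ₐ[k] G).comp (IsScalarTower.toAlgHom k F₀ F) =
          (IsScalarTower.toAlgHom k G₀ G).comp (σ₀ : F₀ →ₐ[k] G₀) := AlgHom.ext (fun z => hτ z)
      rw [← hqj j, ← hqj' j, ← hσ₀ j, bcs_bcs, bcs_bcs, hcomp]

theorem gen_unique (ha0 : a ≠ 0) (ha1 : a ≠ 1) {F G : Type} [Field F] [Field G] [Algebra k F]
    [Algebra k G] {m : ℕ} (Q : Fin m → Pt (algebraMap k F a)) (hQ : IsGen k Q)
    (Q' : Fin m → Pt (algebraMap k G a)) (hQ' : IsGen k Q') :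
    ∃ σ : F ≃ₐ[k] G, ∀ j, bcs (σ : F →ₐ[k] G) (Q j) = Q' j :=
  gu_aux ha0 ha1 m F G Q hQ Q' hQ'

theorem gen_exists (ha0 : a ≠ 0) (ha1 : a ≠ 1) (m : ℕ) :
    ∃ (F : Type) (_ : Field F) (_ : Algebra k F) (Q : Fin m → Pt (algebraMap k F a)),
      IsGen k Q := by
  induction m with
  | zero =>
    refine ⟨k, inferInstance, inferInstance, fun j => j.elim0, ?_, ?_⟩
    · exact algebraicIndependent_empty_type_iff.2 (algebraMap k k).injective
    · exact Subsingleton.elim _ _
  | succ m ih =>
    obtain ⟨F, _, _, Q', hQ'⟩ := ih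
    obtain ⟨L, _, _, s, y, H⟩ := exists_quadF (cub (algebraMap k F a)) (cub_not_square _)
    letI : Algebra k L := ((algebraMap F L).comp (algebraMap k F)).toAlgebra
    haveI : IsScalarTower k F L := IsScalarTower.of_algebraMap_eq (fun _ => rfl)
    haveI : CharZero L := charZero_of_injective_algebraMap (algebraMap k L).injective
    have hns : (leg (algebraMap k L a)).toAffine.Nonsingular s y := by
      rw [leg_nonsingular _ _ _ two_ne_zero
        (by rw [Ne, map_eq_zero_iff _ (algebraMap k L).injective]; exact ha0)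
        (by rw [Ne, map_eq_one_iff _ (algebraMap k L).injective]; exact ha1)]
      rw [H.sq]
      unfold cub
      rw [_root_.map_mul, _root_.map_mul, _root_.map_sub, _root_.map_sub, Polynomial.aeval_X,
        _root_.map_one, Polynomial.aeval_C]
      rfl
    exact ⟨L, inferInstance, inferInstance,
      Fin.cons (.some s y hns) (fun j => bcs (IsScalarTower.toAlgHom k F L) (Q' j)),
      gen_join ha0 ha1 Q' hQ' (.some s y hns) H⟩

end AC
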