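import Pool.Agent.H18.AC.Triv

/-!
Module Norm (project AC, helper18).  Restriction of a place to a subfield; residue fields of places of curves.
PROOF.  norm_place: the valuation w.v ∘ algebraMap K L is not trivial, takes values in ℤ ∪ {0} (multiplicative); its values on K^* are the
subgroup e ℤ, e > 0 (image of a homomorphism K^* → ℤ, Int.subgroup / AddSubgroup of ℤ is cyclic); divide by e: v u = exp (log (w.v u) / e).
It is surjective onto WithZero (Multiplicative ℤ), multiplicative, ultrametric because division by e is monotone on multiples of e.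
res_const: K is the function field of a curve over the algebraically closed field k, u with v.v u ≤ 1.  If u is algebraic over k it is a
constant.  Otherwise K is algebraic over k(u) (IsFunctionField: K is finite over k(t), t transcendental; exchange).  If u ≡ no constant modulo the
maximal ideal then P(u) is a unit for every P ≠ 0 in k[X] (k algebraically closed: P splits into linear factors u - c, each a unit), so v is trivial on
k(u), so trivial on K by triv_alg, contradicting surjectivity.
-/

namespace AC

open ZC WeierstrassCurve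
open scoped Classical

/-- division by `e` on `ℤ ∪ {0}` -/
private noncomputable def normDiv (e : ℕ) (x : WithZero (Multiplicative ℤ)) :
    WithZero (Multiplicative ℤ) :=
  if x = 0 then 0 else WithZero.exp (WithZero.log x / (e : ℤ))

private theorem normDiv_zero (e : ℕ) : normDiv e 0 = 0 := by simp [normDiv]

private theorem normDiv_exp (e : ℕ) (n : ℤ) : normDiv e (WithZero.exp n) = WithZero.exp (n / e) := by
  simp [normDiv]

private theorem normDiv_mono {e : ℕ} (he : 0 < e) : Monotone (normDiv e) := by
  intro x y hxy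
  by_cases hx : x = 0
  · rw [hx, normDiv_zero]; exact zero_le
  by_cases hy : y = 0
  · exact absurd (le_antisymm (hy ▸ hxy) zero_le) hx
  rw [normDiv, normDiv, if_neg hx, if_neg hy, WithZero.exp_le_exp]
  exact Int.ediv_le_ediv (by exact_mod_cast he) ((WithZero.log_le_log hx hy).mpr hxy)

theorem norm_place {k K L : Type} [Field k] [Field K] [Field L] [Algebra k K] [Algebra k L]
    [Algebra K L] [IsScalarTower k K L] (w : Place k L)
    (hn : ∃ u : K, u ≠ 0 ∧ w.v (algebraMap K L u) ≠ 1) :
    ∃ (v : Place k K) (e : ℕ), 0 < e ∧ ∀ u : K, w.v (algebraMap K L u) = v.v u ^ e := by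
  let vK : Valuation K (WithZero (Multiplicative ℤ)) := w.v.comap (algebraMap K L)
  have hvK : ∀ u, vK u = w.v (algebraMap K L u) := fun _ => rfl
  have hne : ∀ u, u ≠ 0 → vK u ≠ 0 := fun u hu => vK.ne_zero_iff.mpr hu
  let H : AddSubgroup ℤ :=
    { carrier := {n | ∃ u : K, u ≠ 0 ∧ WithZero.log (vK u) = n}
      zero_mem' := ⟨1, one_ne_zero, by rw [map_one, WithZero.log_one]⟩
      add_mem' := by
        rintro _ _ ⟨u, hu, rfl⟩ ⟨u', hu', rfl⟩
        exact ⟨u * u', mul_ne_zero hu hu', by
          rw [map_mul, WithZero.log_mul (hne u hu) (hne u' hu')]⟩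
      neg_mem' := by
        rintro _ ⟨u, hu, rfl⟩
        exact ⟨u⁻¹, inv_ne_zero hu, by rw [map_inv₀, WithZero.log_inv]⟩ }
  have hH : ∀ u, u ≠ 0 → WithZero.log (vK u) ∈ H := fun u hu => ⟨u, hu, rfl⟩
  obtain ⟨g, hg⟩ := Int.subgroup_cyclic H
  have hgz : g ≠ 0 := by
    rintro rfl
    obtain ⟨u, hu, hu1⟩ := hn
    have h1 := hH u hu
    rw [hg, AddSubgroup.mem_closure_singleton] at h1
    obtain ⟨n, h1⟩ := h1
    rw [smul_zero] at h1
    apply hu1
    rw [← hvK, ← WithZero.exp_log (hne u hu), ← h1, WithZero.exp_zero]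
  let e : ℕ := g.natAbs
  have he : 0 < e := Int.natAbs_pos.mpr hgz
  have hdvd : ∀ n, n ∈ H ↔ (e : ℤ) ∣ n := by
    intro n
    rw [hg, AddSubgroup.mem_closure_singleton]
    rw [show ((e : ℕ) : ℤ) = |g| from Int.natCast_natAbs g, abs_dvd]
    constructor
    · rintro ⟨m, rfl⟩
      exact ⟨m, by rw [smul_eq_mul, mul_comm]⟩
    · rintro ⟨m, rfl⟩
      exact ⟨m, by rw [smul_eq_mul, mul_comm]⟩
  have hdv : ∀ u, u ≠ 0 → (e : ℤ) ∣ WithZero.log (vK u) := fun u hu => (hdvd _).mp (hH u hu)
  have he0 : (e : ℤ) ≠ 0 := by exact_mod_cast he.ne'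
  let v0 : Valuation K (WithZero (Multiplicative ℤ)) :=
    { toFun := fun u => normDiv e (vK u)
      map_zero' := by rw [map_zero, normDiv_zero]
      map_one' := by
        rw [map_one, ← WithZero.exp_zero (M := ℤ), normDiv_exp, Int.zero_ediv]
      map_mul' := by
        intro x y
        by_cases hx : x = 0
        · rw [hx, zero_mul, map_zero, normDiv_zero, zero_mul]
        by_cases hy : y = 0
        · rw [hy, mul_zero, map_zero, normDiv_zero, mul_zero]
        obtain ⟨a, ha⟩ := hdv x hx
        obtain ⟨b, hb⟩ := hdv y hy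
        rw [map_mul]
        rw [← WithZero.exp_log (hne x hx), ← WithZero.exp_log (hne y hy), ha, hb,
          ← WithZero.exp_add, normDiv_exp, normDiv_exp, normDiv_exp, ← mul_add,
          Int.mul_ediv_cancel_left _ he0, Int.mul_ediv_cancel_left _ he0,
          Int.mul_ediv_cancel_left _ he0, WithZero.exp_add]
      map_add_le_max' := by
        intro x y
        rw [← (normDiv_mono he).map_max]
        exact normDiv_mono he (vK.map_add x y) }
  have hv0 : ∀ u, v0 u = normDiv e (vK u) := fun _ => rfl
  refine ⟨⟨v0, ?_, ?_⟩, e, he, ?_⟩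
  · intro γ
    by_cases hγ : γ = 0
    · exact ⟨0, by rw [map_zero, hγ]⟩
    obtain ⟨u, hu, hu1⟩ := (hdvd ((e : ℤ) * WithZero.log γ)).mpr ⟨_, rfl⟩
    refine ⟨u, ?_⟩
    rw [hv0, ← WithZero.exp_log (hne u hu), hu1, normDiv_exp,
      Int.mul_ediv_cancel_left _ he0, WithZero.exp_log hγ]
  · intro c hc
    rw [hv0, hvK, ← IsScalarTower.algebraMap_apply, w.triv c hc, ← WithZero.exp_zero (M := ℤ),
      normDiv_exp, Int.zero_ediv]
  · intro u
    change vK u = v0 u ^ e
    by_cases hu : u = 0
    · rw [hu, map_zero, map_zero, zero_pow he.ne']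
    obtain ⟨a, ha⟩ := hdv u hu
    rw [hv0, ← WithZero.exp_log (hne u hu), ha, normDiv_exp, Int.mul_ediv_cancel_left _ he0,
      ← WithZero.exp_nsmul, nsmul_eq_mul]

theorem res_const {k K : Type} [Field k] [IsAlgClosed k] [CharZero k] [Field K] [Algebra k K]
    (hK : IsFunctionField k K) (v : Place k K) (u : K) (hu : v.v u ≤ 1) :
    ∃ c : k, v.v (u - algebraMap k K c) < 1 := by
  by_contra hcon
  push Not at hcon
  have hc1 : ∀ c : k, v.v (algebraMap k K c) ≤ 1 := by
    intro c
    by_cases hc : c = 0
    · rw [hc, map_zero, map_zero]; exact zero_le_one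
    · rw [v.triv c hc]
  have h1 : ∀ c : k, v.v (u - algebraMap k K c) = 1 := fun c =>
    le_antisymm ((v.v.map_sub _ _).trans (max_le hu (hc1 c))) (hcon c)
  have h2 : ∀ P : Polynomial k, P ≠ 0 → v.v (Polynomial.aeval u P) = 1 := by
    intro P hP
    have hs := IsAlgClosed.splits P
    rw [hs.eq_prod_roots, map_mul, Polynomial.aeval_C, map_mul,
      v.triv _ (Polynomial.leadingCoeff_ne_zero.mpr hP), one_mul, map_multiset_prod,
      map_multiset_prod, Multiset.map_map, Multiset.map_map]
    refine Multiset.prod_eq_one fun x hx => ?_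
    rw [Multiset.mem_map] at hx
    obtain ⟨r, -, rfl⟩ := hx
    simp only [Function.comp_apply, map_sub, Polynomial.aeval_X, Polynomial.aeval_C]
    exact h1 r
  have htr : Transcendental k u := by
    rw [transcendental_iff]
    intro P hP
    by_contra hP0
    have := h2 P hP0
    rw [hP, map_zero] at this
    exact zero_ne_one this
  obtain ⟨t, ht, hfin⟩ := hK
  have halg : ∀ a : K, IsAlgebraic (IntermediateField.adjoin k {u}) a := by
    have hat : ∀ a : K, IsAlgebraic (Algebra.adjoin k {t}) a := fun a =>
      IntermediateField.isAlgebraic_adjoin_iff.mp (Algebra.IsAlgebraic.isAlgebraic a)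
    have htu : IsAlgebraic (Algebra.adjoin k {u}) (algebraMap K K t) :=
      IsAlgebraic.adjoin_singleton ht htr (hat u)
    intro a
    refine IntermediateField.isAlgebraic_adjoin_iff.mpr
      (IsAlgebraic.adjoin_of_forall_isAlgebraic ?_ (hat a))
    rintro x ⟨hx, -⟩
    rw [Set.mem_singleton_iff] at hx
    rw [hx]
    exact htu
  have : Algebra.IsAlgebraic (IntermediateField.adjoin k {u}) K := ⟨halg⟩
  have hall := triv_alg (F := IntermediateField.adjoin k {u}) v.v (by
    rintro ⟨x, hx⟩ hx0
    obtain ⟨r, s, hrs⟩ := IntermediateField.mem_adjoin_simple_iff k x |>.mp hx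
    have hx0' : x ≠ 0 := fun h => hx0 (Subtype.ext h)
    change v.v x = 1
    have hr : r ≠ 0 := by
      rintro rfl
      rw [map_zero, zero_div] at hrs
      exact hx0' hrs
    have hs : s ≠ 0 := by
      rintro rfl
      rw [map_zero, div_zero] at hrs
      exact hx0' hrs
    rw [hrs, map_div₀, h2 r hr, h2 s hs, div_one])
  obtain ⟨z, hz⟩ := v.surj (WithZero.exp 1)
  have hz0 : z ≠ 0 := by
    rintro rfl
    rw [map_zero] at hz
    exact WithZero.exp_ne_zero hz.symm
  have := hall z hz0
  rw [hz] at this
  have h3 := congrArg WithZero.log this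
  simp at h3

end AC
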