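import Pool.Agent.H18.AC.GaussB
import Pool.Agent.H18.AC.Norm
import Pool.Agent.H18.AC.GenTr
import Pool.Agent.H18.AC.GenUniq

/-!
Module ExtTower (project AC, helper18).  The function field L of C × E ^ m, K = k(C): places of L at which the point Q of E ^ m
is generic and which are not trivial on K correspond to the places of K.
PROOF by induction on m; L_0 = K, for m = 0: coordField k q = ⊥ = ⊤ by res_const (the residue field of v is k), w = v.
Step: L' = L(X, Y) with exists_quadF over L, h = cub (algebraMap k L a), Q' = Fin.cons (some X Y) (base change of Q); IsFF k L' (m+2): as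
in GenStep.  Let w' be a place of L' with values q 0, q (j+1) of Q', independent over k, not trivial on K.  norm_place: w'|_L = w ^ e.  The residue
field κ of w embeds into that of w' (u with w.v u ≤ 1 iff w'.v u ≤ 1), the values of Q at w are independent (their images q (j+1) are), so by
induction κ = k(values of Q at w), algebraic over k(xc ...), so xc (q 0) is transcendental over the image of κ, i.e. GaussCond L w' X: for P with
coefficients of value ≤ 1, one = 1, the residue of P(X) is P̄(xc (q 0)) ≠ 0.  gauss_range + surjectivity of w'.v: e = 1.  So w'|_L = w and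
w|_K = v by induction.  coordField k q = ⊤ by gauss_residue with S = coordField (it contains the residues of L = image of κ).
Existence of w' above v: w above v by induction, gauss_exists; its value of X is transcendental over κ, so the values are independent.
Uniqueness: both restrict (by the above) to places of L above v at which Q is generic, equal by induction; gauss_unique.
-/

namespace AC

open ZC WeierstrassCurve
open scoped Classical
open Polynomial

section Res

variable {k L L' : Type} [Field k] [Field L] [Field L'] [Algebra k L] [Algebra k L'] [Algebra L L']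

private theorem et_le {w : Place k L} {w' : Place k L'} {e : ℕ} (he : 0 < e)
    (h : ∀ u : L, w'.v (algebraMap L L' u) = w.v u ^ e) (u : L) :
    w'.v (algebraMap L L' u) ≤ 1 ↔ w.v u ≤ 1 := by
  rw [h]; exact pow_le_one_iff he.ne'

private theorem et_lt {w : Place k L} {w' : Place k L'} {e : ℕ} (he : 0 < e)
    (h : ∀ u : L, w'.v (algebraMap L L' u) = w.v u ^ e) (u : L) :
    w'.v (algebraMap L L' u) < 1 ↔ w.v u < 1 := by
  rw [h]; exact pow_lt_one_iff he.ne'

private theorem et_eq {w : Place k L} {w' : Place k L'} {e : ℕ} (he : 0 < e)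
    (h : ∀ u : L, w'.v (algebraMap L L' u) = w.v u ^ e) (u : L) :
    w'.v (algebraMap L L' u) = 1 ↔ w.v u = 1 := by
  have h1 := et_le he h u
  have h2 := et_lt he h u
  constructor
  · intro h3
    exact le_antisymm (h1.1 h3.le) (not_lt.1 fun h4 => absurd h3 (h2.2 h4).ne)
  · intro h3
    exact le_antisymm (h1.2 h3.le) (not_lt.1 fun h4 => absurd h3 (h2.1 h4).ne)

private theorem res_zero (w : Place k L) (u : L) (hu : u ∈ w.v.valuationSubring) :
    residueHom w ⟨u, hu⟩ = 0 ↔ w.v u < 1 := by
  have h1 : residueHom w ⟨u, hu⟩ = 0 ↔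
      (⟨u, hu⟩ : w.v.valuationSubring) ∈ IsLocalRing.maximalIdeal w.v.valuationSubring :=
    IsLocalRing.residue_eq_zero_iff _
  rw [h1, ValuationSubring.valuation_lt_one_iff]
  exact ((Valuation.isEquiv_valuation_valuationSubring w.v).lt_one_iff_lt_one).symm

private theorem place_ext {w w' : Place k L} (h : ∀ u, w.v u = w'.v u) : w = w' := by
  have : w.v = w'.v := Valuation.ext h
  cases w; cases w'; simp only at this; subst this; rfl

/-- the map of valuation rings -/
private def ringMap (w : Place k L) (w' : Place k L')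
    (h : ∀ u : L, w.v u ≤ 1 → w'.v (algebraMap L L' u) ≤ 1) :
    w.v.valuationSubring →+* w'.v.valuationSubring :=
  ((algebraMap L L').comp w.v.valuationSubring.subtype).codRestrict w'.v.valuationSubring
    (fun u => (Valuation.mem_valuationSubring_iff _ _).2
      (h u ((Valuation.mem_valuationSubring_iff _ _).1 u.2)))

private theorem res_emb [IsScalarTower k L L'] (w : Place k L) (w' : Place k L')
    (h : ∀ u : L, w.v u ≤ 1 → w'.v (algebraMap L L' u) ≤ 1)
    (h' : ∀ u : L, w.v u < 1 → w'.v (algebraMap L L' u) < 1) :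
    ∃ φ : Residue w →ₐ[k] Residue w', ∀ (u : L) (hu : u ∈ w.v.valuationSubring),
      ∃ hu' : algebraMap L L' u ∈ w'.v.valuationSubring,
        φ (residueHom w ⟨u, hu⟩) = residueHom w' ⟨algebraMap L L' u, hu'⟩ := by
  have hloc : IsLocalHom ((residueHom w').comp (ringMap w w' h)) := by
    constructor
    intro u hu
    have h0 : residueHom w' (ringMap w w' h u) ≠ 0 := hu.ne_zero
    by_contra hcon
    have h1 : u ∈ IsLocalRing.maximalIdeal w.v.valuationSubring :=
      (IsLocalRing.mem_maximalIdeal u).2 hcon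
    have h2 : residueHom w u = 0 := (IsLocalRing.residue_eq_zero_iff _).2 h1
    have h3 : w.v (u : L) < 1 := (res_zero w u u.2).1 h2
    exact h0 ((res_zero w' _ _).2 (h' _ h3))
  let φ : Residue w →+* Residue w' :=
    IsLocalRing.ResidueField.lift ((residueHom w').comp (ringMap w w' h))
  have hφ : ∀ u, φ (residueHom w u) = residueHom w' (ringMap w w' h u) := fun u => rfl
  refine ⟨{ φ with commutes' := ?_ }, ?_⟩
  · intro c
    have h1 : algebraMap k (Residue w) c = residueHom w (constHom w c) := rfl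
    have h2 : algebraMap k (Residue w') c = residueHom w' (constHom w' c) := rfl
    have h3 : ringMap w w' h (constHom w c) = constHom w' c :=
      Subtype.ext (IsScalarTower.algebraMap_apply k L L' c).symm
    have h4 : φ (algebraMap k (Residue w) c) = algebraMap k (Residue w') c := by
      rw [h1, hφ, h3, h2]
    exact h4
  · intro u hu
    exact ⟨_, hφ ⟨u, hu⟩⟩

private theorem red_emb [IsScalarTower k L L'] {a : k} {w : Place k L} {w' : Place k L'}
    (h : ∀ u : L, w'.v (algebraMap L L' u) ≤ 1 ↔ w.v u ≤ 1)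
    (φ : Residue w →ₐ[k] Residue w')
    (hφ : ∀ (u : L) (hu : u ∈ w.v.valuationSubring),
      ∃ hu' : algebraMap L L' u ∈ w'.v.valuationSubring,
        φ (residueHom w ⟨u, hu⟩) = residueHom w' ⟨algebraMap L L' u, hu'⟩)
    {P : Pt (algebraMap k L a)} {p : Pt (algebraMap k (Residue w) a)} (hP : Red (resPl w) P p) :
    Red (resPl w') (bcs (IsScalarTower.toAlgHom k L L') P) (bcs φ p) := by
  rcases P with _ | ⟨x, y, hxy⟩ <;> rcases p with _ | ⟨x', y', hxy'⟩
  · exact trivial
  · exact hP.elim
  · have h1 : x ∉ w.v.valuationSubring := hP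
    have h2 : algebraMap L L' x ∉ w'.v.valuationSubring := by
      rw [Valuation.mem_valuationSubring_iff] at h1 ⊢
      rw [h]; exact h1
    exact h2
  · obtain ⟨⟨h1, h1'⟩, ⟨h2, h2'⟩⟩ := hP
    obtain ⟨h3, h3'⟩ := hφ x h1
    obtain ⟨h4, h4'⟩ := hφ y h2
    refine ⟨⟨h3, ?_⟩, ⟨h4, ?_⟩⟩
    · refine h3'.symm.trans ?_
      exact congrArg φ h1'
    · refine h4'.symm.trans ?_
      exact congrArg φ h2'

private theorem res_aeval {w : Place k L} {w' : Place k L'}
    (φ : Residue w →+* Residue w')
    (hφ : ∀ (u : L) (hu : u ∈ w.v.valuationSubring),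
      ∃ hu' : algebraMap L L' u ∈ w'.v.valuationSubring,
        φ (residueHom w ⟨u, hu⟩) = residueHom w' ⟨algebraMap L L' u, hu'⟩)
    {X : L'} (hX : X ∈ w'.v.valuationSubring) (P : (w.v.valuationSubring)[X]) :
    ∃ hu : aeval X (P.map w.v.valuationSubring.subtype) ∈ w'.v.valuationSubring,
      residueHom w' ⟨_, hu⟩ = (P.map (residueHom w)).eval₂ φ (residueHom w' ⟨X, hX⟩) := by
  induction P using Polynomial.induction_on' with
  | add p q hp hq =>
    obtain ⟨hp, hp'⟩ := hp
    obtain ⟨hq, hq'⟩ := hq
    rw [Polynomial.map_add, Polynomial.map_add, Polynomial.eval₂_add, map_add]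
    refine ⟨add_mem hp hq, ?_⟩
    rw [← hp', ← hq']
    exact map_add (residueHom w') ⟨_, hp⟩ ⟨_, hq⟩
  | monomial n c =>
    obtain ⟨hc, hc'⟩ := hφ c c.2
    rw [Polynomial.map_monomial, Polynomial.map_monomial, Polynomial.eval₂_monomial,
      Polynomial.aeval_monomial]
    refine ⟨mul_mem hc (pow_mem hX n), ?_⟩
    have : (⟨algebraMap L L' c, hc⟩ : w'.v.valuationSubring) * (⟨X, hX⟩ : w'.v.valuationSubring) ^ n
      = ⟨algebraMap L L' c * X ^ n, mul_mem hc (pow_mem hX n)⟩ := Subtype.ext rfl
    have h2 : residueHom w' ⟨algebraMap L L' c * X ^ n, mul_mem hc (pow_mem hX n)⟩ =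
        residueHom w' ⟨algebraMap L L' c, hc⟩ * residueHom w' ⟨X, hX⟩ ^ n := by
      rw [← map_pow, ← map_mul, this]
    refine h2.trans ?_
    rw [← hc']

private theorem gauss_iff {w : Place k L} {w' : Place k L'}
    (hle : ∀ u : L, w'.v (algebraMap L L' u) ≤ 1 ↔ w.v u ≤ 1)
    (hlt : ∀ u : L, w'.v (algebraMap L L' u) < 1 ↔ w.v u < 1)
    (φ : Residue w →+* Residue w')
    (hφ : ∀ (u : L) (hu : u ∈ w.v.valuationSubring),
      ∃ hu' : algebraMap L L' u ∈ w'.v.valuationSubring,
        φ (residueHom w ⟨u, hu⟩) = residueHom w' ⟨algebraMap L L' u, hu'⟩)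
    {X : L'} (hX : X ∈ w'.v.valuationSubring) :
    GaussCond L w' X ↔ ∀ P : (Residue w)[X], P ≠ 0 → P.eval₂ φ (residueHom w' ⟨X, hX⟩) ≠ 0 := by
  have heq : ∀ u : L, w'.v (algebraMap L L' u) = 1 ↔ w.v u = 1 := by
    intro u
    constructor
    · intro h3
      exact le_antisymm ((hle u).1 h3.le) (not_lt.1 fun h4 => absurd h3 ((hlt u).2 h4).ne)
    · intro h3
      exact le_antisymm ((hle u).2 h3.le) (not_lt.1 fun h4 => absurd h3 ((hlt u).1 h4).ne)
  constructor
  · intro hG P hP hcon
    obtain ⟨P₀, hP₀⟩ := Polynomial.map_surjective (residueHom w)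
      IsLocalRing.residue_surjective P
    obtain ⟨hu, hu'⟩ := res_aeval φ hφ hX P₀
    rw [hP₀, hcon] at hu'
    have h1 := (res_zero w' _ _).1 hu'
    have h2 : ∃ i, P.coeff i ≠ 0 := by
      by_contra h3
      push Not at h3
      exact hP (Polynomial.ext fun i => by rw [h3, Polynomial.coeff_zero])
    obtain ⟨i, hi⟩ := h2
    have h4 := hG (P₀.map w.v.valuationSubring.subtype) (fun j => ?_) ⟨i, ?_⟩
    · exact absurd h4 h1.ne
    · rw [hle, Polynomial.coeff_map]
      exact (Valuation.mem_valuationSubring_iff _ _).1 (P₀.coeff j).2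
    · rw [heq, Polynomial.coeff_map]
      rw [← hP₀, Polynomial.coeff_map] at hi
      have h5 : ¬ w.v (P₀.coeff i : L) < 1 := fun h6 => hi ((res_zero w _ (P₀.coeff i).2).2 h6)
      exact le_antisymm ((Valuation.mem_valuationSubring_iff _ _).1 (P₀.coeff i).2) (not_lt.1 h5)
  · intro h P hP hi
    have h1 : P ∈ Polynomial.lifts w.v.valuationSubring.subtype := by
      rw [Polynomial.lifts_iff_coeff_lifts]
      intro n
      exact ⟨⟨P.coeff n, (Valuation.mem_valuationSubring_iff _ _).2 ((hle _).1 (hP n))⟩, rfl⟩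
    obtain ⟨P₀, hP₀⟩ := (Polynomial.mem_lifts _).1 h1
    obtain ⟨hu, hu'⟩ := res_aeval φ hφ hX P₀
    have h2 : P₀.map (residueHom w) ≠ 0 := by
      obtain ⟨i, hi⟩ := hi
      intro h3
      have h4 : (P₀.map (residueHom w)).coeff i = 0 := by rw [h3, Polynomial.coeff_zero]
      rw [Polynomial.coeff_map] at h4
      have h5 := (res_zero w _ (P₀.coeff i).2).1 h4
      rw [heq, ← hP₀, Polynomial.coeff_map] at hi
      exact absurd hi h5.ne
    have h3 := h _ h2
    rw [← hu'] at h3
    have h4 := fun h5 => h3 ((res_zero w' _ hu).2 h5)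
    rw [hP₀] at h4 hu
    exact le_antisymm ((Valuation.mem_valuationSubring_iff _ _).1 hu) (not_lt.1 h4)

end Res

section Trans

variable {k κ κ' : Type} [Field k] [Field κ] [Field κ'] [Algebra k κ] [Algebra k κ']

private theorem indep_cons (φ : κ →ₐ[k] κ') {m : ℕ} {x : Fin m → κ}
    (hx : AlgebraicIndependent k x) {y : κ'}
    (hy : ∀ P : κ[X], P ≠ 0 → P.eval₂ (φ : κ →+* κ') y ≠ 0) :
    AlgebraicIndependent k (Fin.cons y (fun j => φ (x j)) : Fin (m + 1) → κ') := by
  let := (φ : κ →+* κ').toAlgebra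
  have : IsScalarTower k κ κ' := IsScalarTower.of_algebraMap_eq fun c => (φ.commutes c).symm
  have h1 : AlgebraicIndependent κ (fun _ : Fin 1 => y) := by
    rw [algebraicIndependent_unique_type_iff]
    rintro ⟨P, hP, hP'⟩
    exact hy P hP hP'
  have h2 := hx.sumElim_comp h1
  have h3 := h2.comp (Fin.cons (Sum.inl 0) Sum.inr : Fin (m + 1) → Fin 1 ⊕ Fin m) (by
    rw [Fin.cons_injective_iff]
    refine ⟨?_, Sum.inr_injective⟩
    rintro ⟨j, hj⟩
    cases hj)
  convert h3 using 1
  funext j
  refine Fin.cases ?_ (fun j => ?_) j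
  · rfl
  · rfl

private theorem transc_of_indep (φ : κ →ₐ[k] κ') {m : ℕ} {x : Fin m → κ}
    (hb : IsTranscendenceBasis k x) {y : κ'}
    (h : AlgebraicIndependent k (Fin.cons y (fun j => φ (x j)) : Fin (m + 1) → κ')) :
    ∀ P : κ[X], P ≠ 0 → P.eval₂ (φ : κ →+* κ') y ≠ 0 := by
  let := (φ : κ →+* κ').toAlgebra
  have : IsScalarTower k κ κ' := IsScalarTower.of_algebraMap_eq fun c => (φ.commutes c).symm
  have h1 : AlgebraicIndependent k (fun o : Option (Fin m) => o.elim y (fun j => φ (x j))) := by
    have := h.comp (fun o : Option (Fin m) => o.elim 0 Fin.succ) (by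
      rintro (_ | i) (_ | j) hij
      · rfl
      · exact absurd hij (Fin.succ_ne_zero j).symm
      · exact absurd hij (Fin.succ_ne_zero i)
      · exact congrArg some (Fin.succ_injective _ hij))
    convert this using 1
    funext o
    cases o
    · rfl
    · simp
  have h2 := (AlgebraicIndependent.option_iff.1 h1).2
  have := hb.isAlgebraic
  have h3 : Transcendental (Algebra.adjoin k (Set.range x)) y := by
    intro h4
    refine h2 ?_
    let ψ : Algebra.adjoin k (Set.range x) →+* Algebra.adjoin k (Set.range fun j => φ (x j)) :=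
      ((φ : κ →+* κ').comp (Algebra.adjoin k (Set.range x)).val.toRingHom).codRestrict _ (by
        intro u
        have h5 : φ u ∈ (Algebra.adjoin k (Set.range x)).map φ := ⟨u, u.2, rfl⟩
        rw [AlgHom.map_adjoin, ← Set.range_comp] at h5
        exact h5)
    have h6 := IsAlgebraic.ringHom_of_comp_eq (f := ψ) (g := RingHom.id κ') h4 (by
      intro u v huv
      have := congrArg Subtype.val huv
      exact Subtype.ext (φ.injective this)) (by
      ext u
      rfl)
    exact h6
  have h4 : Transcendental κ y := by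
    rwa [← Algebra.IsAlgebraic.transcendental_iff (R := Algebra.adjoin k (Set.range x))]
  intro P hP hP'
  exact h4 ⟨P, hP, hP'⟩

private theorem isFF_iff {d : ℕ} : IsFF k κ d ↔ Algebra.EssFiniteType k κ ∧
    ∃ t : Fin d → κ, IsTranscendenceBasis k t := by
  constructor
  · rintro ⟨t, ht, hfin⟩
    constructor
    · have : Algebra.EssFiniteType k (IntermediateField.adjoin k (Set.range t)) := by
        rw [IntermediateField.essFiniteType_iff]
        exact IntermediateField.fg_adjoin_of_finite (Set.finite_range t)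
      exact Algebra.EssFiniteType.comp k (IntermediateField.adjoin k (Set.range t)) κ
    · refine ⟨t, ?_⟩
      rw [ht.isTranscendenceBasis_iff_isAlgebraic]
      open IntermediateField.algebraAdjoinAdjoin in
      exact Algebra.IsAlgebraic.trans _ (IntermediateField.adjoin k (Set.range t)) _
  · rintro ⟨hE, t, ht⟩
    refine ⟨t, ht.1, ?_⟩
    have := ht.isAlgebraic_field
    have : Algebra.EssFiniteType (IntermediateField.adjoin k (Set.range t)) κ :=
      Algebra.EssFiniteType.of_comp k _ κ
    exact Algebra.finite_of_essFiniteType_of_isAlgebraic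

private theorem basis_of_indep {d : ℕ} (h : IsFF k κ d) {x : Fin d → κ}
    (hx : AlgebraicIndependent k x) : IsTranscendenceBasis k x := by
  obtain ⟨_, t, ht⟩ := isFF_iff.1 h
  refine AlgebraicIndependent.isTranscendenceBasis_of_trdeg_le_of_finite hx ?_
  rw [← ht.cardinalMk_eq_trdeg]

private theorem isFF_succ {L L' : Type} [Field L] [Field L'] [Algebra k L] [Algebra k L']
    [Algebra L L'] [IsScalarTower k L L'] {d : ℕ} (hL : IsFF k L d) {h : L[X]} {X Y : L'}
    (H : IsQuad L L' h X Y) : IsFF k L' (d + 1) := by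
  rw [isFF_iff] at hL ⊢
  obtain ⟨hE, t, ht⟩ := hL
  constructor
  · have : Algebra.EssFiniteType L L' := by
      rw [← IntermediateField.fg_top_iff]
      refine ⟨{X, Y}, ?_⟩
      have := quad_adjoin H
      simpa using this
    exact Algebra.EssFiniteType.comp k L L'
  · have h1 : IsTranscendenceBasis L (fun _ : Fin 1 => X) := by
      have h2 : AlgebraicIndependent L (fun _ : Fin 1 => X) := by
        rw [algebraicIndependent_unique_type_iff]
        exact quad_transc H
      rw [h2.isTranscendenceBasis_iff_isAlgebraic]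
      have h3 : Set.range (fun _ : Fin 1 => X) = {X} := Set.range_const
      rw [h3]
      have h4 : ∀ A : L[X], IsAlgebraic (Algebra.adjoin L {X}) (aeval X A) := by
        intro A
        exact isAlgebraic_algebraMap (⟨aeval X A, aeval_mem_adjoin_singleton L X⟩ :
          Algebra.adjoin L {X})
      have h5 : IsAlgebraic (Algebra.adjoin L {X}) Y := by
        refine IsAlgebraic.of_pow (n := 2) (by norm_num) ?_
        rw [H.sq]
        exact h4 h
      refine ⟨fun f => ?_⟩
      obtain ⟨A, B, C, hC, hf⟩ := H.gen f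
      have h6 : aeval X C ≠ 0 := by
        intro h7
        exact hC (by
          by_contra h8
          exact quad_transc H ⟨C, h8, h7⟩)
      have h7 : f = (aeval X A + aeval X B * Y) * (aeval X C)⁻¹ := by
        rw [← hf, mul_assoc, mul_inv_cancel₀ h6, mul_one]
      rw [h7]
      exact ((h4 A).add ((h4 B).mul h5)).mul (IsAlgebraic.inv_iff.2 (h4 C))
    have h8 := ht.sumElim_comp h1
    let e : Fin 1 ⊕ Fin d ≃ Fin (d + 1) := (Equiv.sumComm _ _).trans finSumFinEquiv
    refine ⟨_, (isTranscendenceBasis_equiv e.symm).2 h8⟩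

end Trans

section Step

variable {k : Type} [Field k] [IsAlgClosed k] [CharZero k] {a : k}

omit [IsAlgClosed k] [CharZero k] in
private theorem const_le {L : Type} [Field L] [Algebra k L] (w : Place k L) (c : k) :
    w.v (algebraMap k L c) ≤ 1 := (Valuation.mem_valuationSubring_iff _ _).1 (algebraMap_mem w c)

omit [IsAlgClosed k] in
private theorem step_restrict (ha0 : a ≠ 0) (ha1 : a ≠ 1) {K L L' : Type} [Field K] [Field L]
    [Field L'] [Algebra k K] [Algebra k L] [Algebra k L'] [Algebra K L] [Algebra L L'] [Algebra K L']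
    [IsScalarTower k K L] [IsScalarTower k L L'] [IsScalarTower K L L'] {m : ℕ}
    (Q : Fin m → Pt (algebraMap k L a))
    (hA : ∀ (w : Place k L) (q : Fin m → Pt (algebraMap k (Residue w) a)),
        (∀ j, Red (resPl w) (Q j) (q j)) → AlgebraicIndependent k (fun j => xc (q j)) →
        (∃ u : K, u ≠ 0 ∧ w.v (algebraMap K L u) ≠ 1) →
        coordField k q = ⊤ ∧ ∃ v : Place k K, ∀ u : K, v.v u = w.v (algebraMap K L u))
    {X Y : L'} (H : IsQuad L L' (cub (algebraMap k L a)) X Y)
    (hns : (leg (algebraMap k L' a)).toAffine.Nonsingular X Y)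
    (w' : Place k L') (q : Fin (m + 1) → Pt (algebraMap k (Residue w') a))
    (hred0 : Red (resPl w') (Affine.Point.some X Y hns : Pt (algebraMap k L' a)) (q 0))
    (hredS : ∀ j : Fin m, Red (resPl w') (bcs (IsScalarTower.toAlgHom k L L') (Q j)) (q j.succ))
    (hq : AlgebraicIndependent k (fun j => xc (q j)))
    (hn : ∃ u : K, u ≠ 0 ∧ w'.v (algebraMap K L' u) ≠ 1) :
    coordField k q = ⊤ ∧ GaussCond L w' X ∧
    ∃ w : Place k L, (∀ u : L, w'.v (algebraMap L L' u) = w.v u) ∧
      (∃ v : Place k K, ∀ u : K, v.v u = w.v (algebraMap K L u)) ∧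
      ∃ p : Fin m → Pt (algebraMap k (Residue w) a), (∀ j, Red (resPl w) (Q j) (p j)) ∧
        AlgebraicIndependent k (fun j => xc (p j)) := by
  obtain ⟨w, e, he, hw⟩ := norm_place (K := L) w' (by
    obtain ⟨u, hu, hu'⟩ := hn
    refine ⟨algebraMap K L u, ?_, ?_⟩
    · exact (_root_.map_ne_zero _).2 hu
    · rwa [← IsScalarTower.algebraMap_apply])
  have hle := et_le he hw
  have hlt := et_lt he hw
  obtain ⟨φ, hφ⟩ := res_emb w w' (fun u hu => (hle u).2 hu) (fun u hu => (hlt u).2 hu)
  have hp : ∀ j, ∃ p : Pt (algebraMap k (Residue w) a), Red (resPl w) (Q j) p :=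
    fun j => exists_redk (resPl w) ha0 ha1 (Q j)
  choose p hp using hp
  have hqp : ∀ j : Fin m, q j.succ = bcs φ (p j) := fun j =>
    (hredS j).uniq (red_emb hle φ hφ (hp j))
  have hxq : (fun j => xc (q j)) = (Fin.cons (xc (q 0)) (fun j => φ (xc (p j))) :
      Fin (m + 1) → Residue w') := by
    funext j
    refine Fin.cases rfl (fun j => ?_) j
    rw [Fin.cons_succ, hqp, xc_bcs]
  have hpi : AlgebraicIndependent k (fun j => xc (p j)) := by
    rw [hxq] at hq
    have h1 := hq.comp Fin.succ (Fin.succ_injective m)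
    have h2 : AlgebraicIndependent k (φ ∘ fun j => xc (p j)) := by
      convert h1 using 1
      funext j
      rfl
    exact AlgebraicIndependent.of_comp φ h2
  have hn' : ∃ u : K, u ≠ 0 ∧ w.v (algebraMap K L u) ≠ 1 := by
    obtain ⟨u, hu, hu'⟩ := hn
    refine ⟨u, hu, fun h => hu' ?_⟩
    rw [IsScalarTower.algebraMap_apply K L L', hw, h, one_pow]
  obtain ⟨htop, v, hv⟩ := hA w p hp hpi hn'
  have hgen : IsGen k p := ⟨hpi, htop⟩
  have hbas := basis_of_indep hgen.isFF hpi
  -- the value of X
  have hq0 : xc (q 0) ≠ 0 := fun h0 => hq.transcendental 0 (by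
    change IsAlgebraic k (xc (q 0))
    rw [h0]; exact isAlgebraic_zero)
  have hX : ∃ hX : X ∈ w'.v.valuationSubring, residueHom w' ⟨X, hX⟩ = xc (q 0) := by
    rcases hq0' : q 0 with _ | ⟨x, y, hxy⟩
    · rw [hq0'] at hq0; exact (hq0 rfl).elim
    · rw [hq0'] at hred0; exact hred0.1
  have hY : ∃ hY : Y ∈ w'.v.valuationSubring, residueHom w' ⟨Y, hY⟩ = yc (q 0) := by
    rcases hq0' : q 0 with _ | ⟨x, y, hxy⟩
    · rw [hq0'] at hq0; exact (hq0 rfl).elim
    · rw [hq0'] at hred0; exact hred0.2
  obtain ⟨hX, hX'⟩ := hX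
  obtain ⟨hY, hY'⟩ := hY
  have hG : GaussCond L w' X := by
    rw [gauss_iff hle hlt (φ : Residue w →+* Residue w') hφ hX]
    rw [hxq] at hq
    have := transc_of_indep φ hbas hq
    rw [hX']
    exact this
  have hc : w'.v (algebraMap L L' (algebraMap k L a)) ≤ 1 := by
    rw [← IsScalarTower.algebraMap_apply]; exact const_le w' a
  have he1 : e = 1 := by
    obtain ⟨u', hu'⟩ := w'.surj (WithZero.exp (1 : ℤ))
    obtain ⟨u, hu⟩ := gauss_range H w' hc hG u'
    rw [hu', hw] at hu
    have hu0 : w.v u ≠ 0 := by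
      intro h0
      rw [h0, zero_pow he.ne'] at hu
      exact WithZero.exp_ne_zero hu
    have h1 := congrArg WithZero.log hu
    rw [WithZero.log_exp, WithZero.log_pow] at h1
    have h2 : (e : ℤ) ∣ 1 := ⟨(w.v u).log, h1.trans (nsmul_eq_mul _ _)⟩
    have h3 := Int.eq_one_of_dvd_one (Int.natCast_nonneg e) h2
    exact_mod_cast h3
  subst he1
  have hw1 : ∀ u : L, w'.v (algebraMap L L' u) = w.v u := fun u => by rw [hw, pow_one]
  refine ⟨?_, hG, w, hw1, ⟨v, hv⟩, p, hp, hpi⟩
  have hS := gauss_residue H w' hc hG (coordField k q).toSubfield (by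
    intro u hu hcase
    have hmem : ∀ j, xc (q j) ∈ coordField k q := fun j =>
      IntermediateField.subset_adjoin _ _ (Or.inl ⟨j, rfl⟩)
    have hmem' : ∀ j, yc (q j) ∈ coordField k q := fun j =>
      IntermediateField.subset_adjoin _ _ (Or.inr ⟨j, rfl⟩)
    rcases hcase with ⟨u₀, rfl⟩ | rfl | rfl
    · have h1 : u₀ ∈ w.v.valuationSubring := by
        rw [Valuation.mem_valuationSubring_iff] at hu ⊢
        rwa [← hw1]
      obtain ⟨h2, h3⟩ := hφ u₀ h1
      have h4 : residueHom w' ⟨algebraMap L L' u₀, hu⟩ = φ (residueHom w ⟨u₀, h1⟩) := h3.symm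
      rw [h4]
      have h5 : residueHom w ⟨u₀, h1⟩ ∈ coordField k p := by rw [htop]; trivial
      have h6 : coordField k p ≤ (coordField k q).comap φ := by
        refine IntermediateField.adjoin_le_iff.2 ?_
        rintro _ (⟨j, rfl⟩ | ⟨j, rfl⟩)
        · change φ (xc (p j)) ∈ coordField k q
          rw [← xc_bcs, ← hqp]; exact hmem _
        · change φ (yc (p j)) ∈ coordField k q
          rw [← yc_bcs, ← hqp]; exact hmem' _
      exact h6 h5
    · have h4 : residueHom w' ⟨u, hu⟩ = xc (q 0) := hX'
      rw [h4]; exact hmem 0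
    · have h4 : residueHom w' ⟨u, hu⟩ = yc (q 0) := hY'
      rw [h4]; exact hmem' 0)
  rw [eq_top_iff]
  intro u _
  have : u ∈ (coordField k q).toSubfield := by rw [hS]; trivial
  exact this

theorem ext_tower (ha0 : a ≠ 0) (ha1 : a ≠ 1) {K : Type} [Field K] [Algebra k K]
    (hK : IsFunctionField k K) (m : ℕ) :
    ∃ (L : Type) (_ : Field L) (_ : Algebra k L) (_ : Algebra K L) (_ : IsScalarTower k K L)
      (Q : Fin m → Pt (algebraMap k L a)), IsFF k L (m + 1) ∧
      (∀ (w : Place k L) (q : Fin m → Pt (algebraMap k (Residue w) a)),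
        (∀ j, Red (resPl w) (Q j) (q j)) → AlgebraicIndependent k (fun j => xc (q j)) →
        (∃ u : K, u ≠ 0 ∧ w.v (algebraMap K L u) ≠ 1) →
        coordField k q = ⊤ ∧ ∃ v : Place k K, ∀ u : K, v.v u = w.v (algebraMap K L u)) ∧
      (∀ v : Place k K, ∃ w : Place k L, (∀ u : K, v.v u = w.v (algebraMap K L u)) ∧
        ∃ q : Fin m → Pt (algebraMap k (Residue w) a), (∀ j, Red (resPl w) (Q j) (q j)) ∧
          AlgebraicIndependent k (fun j => xc (q j))) ∧
      (∀ (w w' : Place k L) (q : Fin m → Pt (algebraMap k (Residue w) a))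
        (q' : Fin m → Pt (algebraMap k (Residue w') a)),
        (∀ u : K, w.v (algebraMap K L u) = w'.v (algebraMap K L u)) →
        (∃ u : K, u ≠ 0 ∧ w.v (algebraMap K L u) ≠ 1) →
        (∀ j, Red (resPl w) (Q j) (q j)) → AlgebraicIndependent k (fun j => xc (q j)) →
        (∀ j, Red (resPl w') (Q j) (q' j)) → AlgebraicIndependent k (fun j => xc (q' j)) →
        w = w') := by
  induction m with
  | zero =>
    refine ⟨K, inferInstance, inferInstance, Algebra.id K, IsScalarTower.right, Fin.elim0,
      ?_, ?_, ?_, ?_⟩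
    · obtain ⟨t, ht, hfin⟩ := hK
      change IsFF k K 1
      refine ⟨fun _ => t, algebraicIndependent_unique_type_iff.2 ht, ?_⟩
      have : Set.range (fun _ : Fin 1 => t) = {t} := Set.range_const
      rw [this]; exact hfin
    · intro w q _ _ _
      refine ⟨?_, w, fun _ => rfl⟩
      rw [eq_top_iff]
      intro r _
      obtain ⟨⟨u, hu⟩, hr⟩ := IsLocalRing.residue_surjective (R := w.v.valuationSubring) r
      have hr' : residueHom w ⟨u, hu⟩ = r := hr
      obtain ⟨c, hc⟩ := res_const hK w u ((Valuation.mem_valuationSubring_iff _ _).1 hu)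
      have h1 : residueHom w (⟨u, hu⟩ - constHom w c) = 0 := (res_zero w _ _).2 hc
      have h2 : r = algebraMap k (Residue w) c := by
        rw [map_sub, hr', sub_eq_zero] at h1
        exact h1
      rw [h2]
      exact (coordField k q).algebraMap_mem c
    · intro v
      refine ⟨v, fun _ => rfl, Fin.elim0, fun j => j.elim0, ?_⟩
      rw [algebraicIndependent_empty_type_iff]
      exact (algebraMap k (Residue v)).injective
    · intro w w' q q' h _ _ _ _ _
      exact place_ext h
  | succ m ih =>
    obtain ⟨L, _, _, _, _, Q, hFF, hA, hB, hC⟩ := ih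
    obtain ⟨L', _, _, X, Y, H⟩ := exists_quadF (cub (algebraMap k L a)) (cub_not_square _)
    let _ : Algebra k L' := ((algebraMap L L').comp (algebraMap k L)).toAlgebra
    have _ : IsScalarTower k L L' := IsScalarTower.of_algebraMap_eq fun _ => rfl
    let _ : Algebra K L' := ((algebraMap L L').comp (algebraMap K L)).toAlgebra
    have _ : IsScalarTower K L L' := IsScalarTower.of_algebraMap_eq fun _ => rfl
    have _ : IsScalarTower k K L' := IsScalarTower.of_algebraMap_eq fun c => by
      change algebraMap L L' (algebraMap k L c) = algebraMap L L' (algebraMap K L (algebraMap k K c))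
      rw [IsScalarTower.algebraMap_apply k K L]
    have _ : CharZero L' := charZero_of_injective_algebraMap (algebraMap k L').injective
    have hns : (leg (algebraMap k L' a)).toAffine.Nonsingular X Y := by
      rw [leg_nonsingular _ _ _ two_ne_zero ((map_ne_zero_iff _ (algebraMap k L').injective).2 ha0)
        (fun h => ha1 ((algebraMap k L').injective (h.trans (map_one _).symm)))]
      have h1 := H.sq
      unfold cub at h1
      simp only [map_mul, map_sub, aeval_X, map_one, aeval_C] at h1
      exact h1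
    refine ⟨L', inferInstance, inferInstance, inferInstance, inferInstance,
      Fin.cons (.some X Y hns) (fun j => bcs (IsScalarTower.toAlgHom k L L') (Q j)),
      isFF_succ hFF H, ?_, ?_, ?_⟩
    · intro w' q hred hq hn
      obtain ⟨h1, _, w, hw, ⟨v, hv⟩, _⟩ := step_restrict ha0 ha1 Q hA H hns w' q (hred 0)
        (fun j => hred j.succ) hq hn
      exact ⟨h1, v, fun u => (hv u).trans (hw _).symm⟩
    · intro v
      obtain ⟨w, hwv, p, hp, hpi⟩ := hB v
      obtain ⟨w', hw', hG⟩ := gauss_exists H w
      have hle : ∀ u : L, w'.v (algebraMap L L' u) ≤ 1 ↔ w.v u ≤ 1 := fun u => by rw [hw']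
      have hlt : ∀ u : L, w'.v (algebraMap L L' u) < 1 ↔ w.v u < 1 := fun u => by rw [hw']
      obtain ⟨φ, hφ⟩ := res_emb w w' (fun u hu => (hle u).2 hu) (fun u hu => (hlt u).2 hu)
      obtain ⟨q0, hq0⟩ := exists_redk (resPl w') ha0 ha1 (.some X Y hns : Pt (algebraMap k L' a))
      have hXv : w'.v X = 1 := by
        have := hG Polynomial.X (fun i => by
          rw [Polynomial.coeff_X]
          split_ifs
          · rw [map_one, map_one]
          · rw [map_zero, map_zero]; exact zero_le_one) ⟨1, by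
          rw [Polynomial.coeff_X_one, map_one, map_one]⟩
        rwa [aeval_X] at this
      have hX : X ∈ w'.v.valuationSubring := (Valuation.mem_valuationSubring_iff _ _).2 hXv.le
      have hx : residueHom w' ⟨X, hX⟩ = xc q0 := by
        rcases q0 with _ | ⟨x, y, hxy⟩
        · exact (hq0 hX).elim
        · exact hq0.1.2
      refine ⟨w', fun u => (hwv u).trans (hw' _).symm, Fin.cons q0 (fun j => bcs φ (p j)), ?_, ?_⟩
      · intro j
        refine Fin.cases ?_ (fun j => ?_) j
        · exact hq0
        · exact red_emb hle φ hφ (hp j)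
      · have h1 := (gauss_iff hle hlt (φ : Residue w →+* Residue w') hφ hX).1 hG
        rw [hx] at h1
        have h2 := indep_cons φ hpi h1
        have h3 : (fun j => xc ((Fin.cons q0 (fun j => bcs φ (p j)) :
            Fin (m + 1) → Pt (algebraMap k (Residue w') a)) j)) =
            Fin.cons (xc q0) fun j => φ (xc (p j)) := by
          funext j
          refine Fin.cases ?_ (fun j => ?_) j
          · rfl
          · exact xc_bcs φ (p j)
        rw [h3]
        exact h2
    · intro w₁ w₂ q₁ q₂ hr hn h₁ i₁ h₂ i₂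
      have hn₂ : ∃ u : K, u ≠ 0 ∧ w₂.v (algebraMap K L' u) ≠ 1 := by
        obtain ⟨u, hu, hu'⟩ := hn
        exact ⟨u, hu, by rwa [← hr]⟩
      obtain ⟨_, hG₁, v₁, hv₁, _, p₁, hp₁, hi₁⟩ := step_restrict ha0 ha1 Q hA H hns w₁ q₁ (h₁ 0)
        (fun j => h₁ j.succ) i₁ hn
      obtain ⟨_, hG₂, v₂, hv₂, _, p₂, hp₂, hi₂⟩ := step_restrict ha0 ha1 Q hA H hns w₂ q₂ (h₂ 0)
        (fun j => h₂ j.succ) i₂ hn₂
      have hv : v₁ = v₂ := by
        refine hC v₁ v₂ p₁ p₂ ?_ ?_ hp₁ hi₁ hp₂ hi₂
        · intro u
          rw [← hv₁, ← hv₂]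
          exact hr u
        · obtain ⟨u, hu, hu'⟩ := hn
          exact ⟨u, hu, by rw [← hv₁]; exact hu'⟩
      refine gauss_unique H w₁ w₂ ?_ hG₁ hG₂ ?_
      · exact const_le w₁ a
      · intro u
        rw [hv₁, hv₂, hv]

end Step

end AC
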