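import Pool.Agent.H18.AC.Alg1

/-!
Module Gram1 (project AC, helper18).  The Gram trick for the intersection numbers.
PROOF.  Cauchy-Binet in the form det(U N) = (1/|J|!) ∑_I minor' U I * minor N I, where the (j,l) entry of U N is ∑ i, U j i * N l i and
minor U I = det (U l (I j)) (expand det(U N) = ∑_I ∏ U j (I j) * det(N_l (I j)) by multilinearity in the rows, then antisymmetrise over
I ∘ τ).  U = N s gives det = c ⟨x_s, x_t⟩ with x_t = (minor (N t) I)_I, c = 1/|J|! ≠ 0.  So ∑_t c_t ⟨x_s, x_t⟩² = 0 for every s; multiply by c_s and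
sum: ∑_{s,t} c_s c_t ⟨x_s,x_t⟩² = ∑_{I,K} (∑_t c_t x_t(I) x_t(K))² = 0, a sum of squares of integers, so every term vanishes.
-/

namespace AC

/-- Cauchy-Binet (unordered form) over a commutative ring -/
theorem cauchy_binet {J ι R : Type} [Fintype J] [DecidableEq J] [Fintype ι] [DecidableEq ι]
    [CommRing R] (U N : J → ι → R) :
    ((Fintype.card J).factorial : R) * Matrix.det (fun j l : J => ∑ i, U j i * N l i) =
      ∑ I : J → ι, Matrix.det (fun j l : J => U l (I j)) * Matrix.det (fun j l : J => N l (I j)) := by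
  have h1 : Matrix.det (fun j l : J => ∑ i, U j i * N l i) =
      ∑ I : J → ι, (∏ j, U j (I j)) * Matrix.det (fun j l : J => N l (I j)) := by
    have e1 : (fun j l : J => ∑ i, U j i * N l i) =
        fun j => ∑ i, (fun i => U j i • (fun l => N l i)) i := by
      funext j l
      simp [Finset.sum_apply]
    rw [e1]
    have h2 := (Matrix.detRowAlternating (n := J) (R := R)).toMultilinearMap.map_sum
      (g := fun j (i : ι) => (U j i • (fun l => N l i) : J → R))
    rw [show Matrix.det (fun j => ∑ i, (fun i => (U j i • (fun l => N l i) : J → R)) i) =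
      (Matrix.detRowAlternating (n := J) (R := R)).toMultilinearMap
        (fun j => ∑ i, (U j i • (fun l => N l i) : J → R)) from rfl, h2]
    refine Finset.sum_congr rfl fun I _ => ?_
    rw [(Matrix.detRowAlternating (n := J) (R := R)).toMultilinearMap.map_smul_univ]
    rfl
  have h3 : ∀ τ : Equiv.Perm J, Matrix.det (fun j l : J => ∑ i, U j i * N l i) =
      ∑ I : J → ι, (((Equiv.Perm.sign τ : ℤ) : R) * ∏ j, U j (I (τ j))) *
        Matrix.det (fun j l : J => N l (I j)) := by
    intro τ
    rw [h1, ← Equiv.sum_comp (Equiv.arrowCongr τ.symm (Equiv.refl ι))]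
    refine Finset.sum_congr rfl fun I _ => ?_
    have e2 : Matrix.det (fun j l : J => N l ((Equiv.arrowCongr τ.symm (Equiv.refl ι)) I j)) =
        ((Equiv.Perm.sign τ : ℤ) : R) * Matrix.det (fun j l : J => N l (I j)) := by
      rw [← Matrix.det_permute]
      rfl
    rw [e2]
    simp only [Equiv.arrowCongr_apply, Equiv.symm_symm, Equiv.coe_refl, Function.comp_apply,
      id_eq]
    ring
  have h4 : ((Fintype.card J).factorial : R) * Matrix.det (fun j l : J => ∑ i, U j i * N l i) =
      ∑ τ : Equiv.Perm J, Matrix.det (fun j l : J => ∑ i, U j i * N l i) := by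
    rw [Finset.sum_const, Finset.card_univ, Fintype.card_perm, nsmul_eq_mul]
  rw [h4, Finset.sum_congr rfl (fun τ _ => h3 τ), Finset.sum_comm]
  refine Finset.sum_congr rfl fun I _ => ?_
  rw [← Finset.sum_mul]
  congr 1
  rw [Matrix.det_apply']

/-- sum of squares identity for two families of vectors -/
theorem gram_squares {X Y T : Type} [Fintype X] [Fintype Y] [Fintype T] {R : Type} [CommRing R]
    (c : T → R) (x : T → X → R) (y : T → Y → R) :
    ∑ s, c s * ∑ t, c t * ((∑ I, x s I * x t I) * (∑ K, y s K * y t K)) =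
      ∑ I, ∑ K, (∑ t, c t * (x t I * y t K)) ^ 2 := by
  have h : ∀ I K, (∑ t, c t * (x t I * y t K)) ^ 2 =
      ∑ s, ∑ t, (c s * (x s I * y s K)) * (c t * (x t I * y t K)) := by
    intro I K
    rw [sq, Finset.sum_mul_sum]
  simp only [h]
  have h2 : ∀ s t, c s * (c t * ((∑ I, x s I * x t I) * (∑ K, y s K * y t K))) =
      ∑ I, ∑ K, (c s * (x s I * y s K)) * (c t * (x t I * y t K)) := by
    intro s t
    rw [Finset.sum_mul_sum, Finset.mul_sum, Finset.mul_sum]
    refine Finset.sum_congr rfl fun I _ => ?_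
    rw [Finset.mul_sum, Finset.mul_sum]
    refine Finset.sum_congr rfl fun K _ => ?_
    ring
  calc ∑ s, c s * ∑ t, c t * ((∑ I, x s I * x t I) * (∑ K, y s K * y t K))
      = ∑ s, ∑ t, ∑ I, ∑ K, (c s * (x s I * y s K)) * (c t * (x t I * y t K)) := by
        refine Finset.sum_congr rfl fun s _ => ?_
        rw [Finset.mul_sum]
        exact Finset.sum_congr rfl fun t _ => h2 s t
    _ = ∑ s, ∑ I, ∑ t, ∑ K, (c s * (x s I * y s K)) * (c t * (x t I * y t K)) :=
        Finset.sum_congr rfl fun s _ => Finset.sum_comm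
    _ = ∑ I, ∑ s, ∑ t, ∑ K, (c s * (x s I * y s K)) * (c t * (x t I * y t K)) :=
        Finset.sum_comm
    _ = ∑ I, ∑ s, ∑ K, ∑ t, (c s * (x s I * y s K)) * (c t * (x t I * y t K)) :=
        Finset.sum_congr rfl fun I _ => Finset.sum_congr rfl fun s _ => Finset.sum_comm
    _ = ∑ I, ∑ K, ∑ s, ∑ t, (c s * (x s I * y s K)) * (c t * (x t I * y t K)) :=
        Finset.sum_congr rfl fun I _ => Finset.sum_comm

theorem gram1 {J ι T : Type} [Fintype J] [DecidableEq J] [Fintype ι] [DecidableEq ι] [Fintype T]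
    (N : T → J → ι → ℤ) (c : T → ℤ)
    (h : ∀ U : J → ι → ℤ,
      ∑ t, c t * (Matrix.det (fun j l : J => ∑ i, U j i * N t l i)) ^ 2 = 0) :
    ∀ I K : J → ι, ∑ t, c t * (minor (N t) I * minor (N t) K) = 0 := by
  have h1 : ∀ s, ∑ t, c t * ((∑ I, minor (N s) I * minor (N t) I) *
      (∑ I, minor (N s) I * minor (N t) I)) = 0 := by
    intro s
    have h2 := h (N s)
    have h3 : ∀ t, (∑ I : J → ι, minor (N s) I * minor (N t) I) =
        ((Fintype.card J).factorial : ℤ) *
          Matrix.det (fun j l : J => ∑ i, N s j i * N t l i) := by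
      intro t
      rw [cauchy_binet]
      rfl
    simp only [h3]
    calc _ = ((Fintype.card J).factorial : ℤ) ^ 2 *
        ∑ t, c t * (Matrix.det (fun j l : J => ∑ i, N s j i * N t l i)) ^ 2 := by
          rw [Finset.mul_sum]
          exact Finset.sum_congr rfl fun t _ => by ring
      _ = 0 := by rw [h2, mul_zero]
  have h4 := gram_squares c (fun t I => minor (N t) I) (fun t I => minor (N t) I)
  simp only [h1, mul_zero, Finset.sum_const_zero] at h4
  intro I K
  have h5 := (Finset.sum_eq_zero_iff_of_nonneg (fun I _ =>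
    Finset.sum_nonneg fun K _ => sq_nonneg _)).1 h4.symm I (Finset.mem_univ _)
  have h6 := (Finset.sum_eq_zero_iff_of_nonneg (fun K _ => sq_nonneg _)).1 h5 K
    (Finset.mem_univ _)
  exact pow_eq_zero_iff (two_ne_zero) |>.1 h6

end AC
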