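import Pool.Agent.H18.AC.Alg2
import Pool.Agent.H18.AC.Gram1

/-!
Module Gram2 (project AC, helper18).  The Gram trick for the Albanese sums.
PROOF.  M = U N (entries ∑ i, U j i * N l i), D = det M.  For w : ι → ℤ and a : ι → ℤ (Schur complement / adjugate, an identity in a commutative ring; check
it first for D ≠ 0 over ℚ or use Matrix.det_fromBlocks):
  D * (∑ i, w i * a i) - ∑ i, w i * (N adj(M) U a) i = det [[w·a, w·N],[U a, U N]] = det([w; U] [a | N])  (size Option J)
  = (1/(|J|+1)!) ∑_I det([w;U]_I) det([a|N]_I)  (Cauchy-Binet as in Gram1 for Option J).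
By additivity the same with a replaced by q : ι → A and det([a|N]_I) by minorA N q I.  So the hypothesis gives for all U, w
  ∑_t c_t ⟨p(U), x_t⟩ ⟨p(w,U), y_t⟩ = 0 in A (up to the factorials), x_t = (minor (N t) K)_K, y_t = (minorA (N t) (q t) I)_I.
Suppose first that λ : A → ℚ is additive.  a_t = λ ∘ q t : ι → ℚ, λ(y_t) = minors of [a_t | N_t].  Take U = N_s and w = D₀ a_s integral (D₀ common
denominator): ∑_t c_t ⟨x_s,x_t⟩ ⟨λ y_s, λ y_t⟩ = 0; multiply by c_s, sum: ∑_{K,I} (∑_t c_t x_t(K) λ(y_t(I)))² = 0, so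
λ(∑_t c_t x_t(K) y_t(I)) = 0 for all additive λ : A → ℚ.  Hence the element ∑_t c_t x_t(K) • y_t(I) of A is torsion (A ⊗ ℚ is a vector space, linear
functionals separate its points; an element of A with image 0 in A ⊗ ℚ is torsion, IsLocalizedModule / TensorProduct).
-/

namespace AC


/-- the Albanese sum of the intersection of `N E ^ J + q` with the kernel of `U` -/
def albSum {J ι A : Type} [Fintype J] [DecidableEq J] [Fintype ι] [AddCommGroup A]
    (U N : J → ι → ℤ) (q : ι → A) (i : ι) : A :=
  let M : Matrix J J ℤ := fun j l => ∑ i, U j i * N l i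
  M.det • (M.det • q i - ∑ j, N j i • ∑ l, M.adjugate j l • ∑ i', U l i' • q i')

/-- the determinant of a bordered matrix -/
theorem det_bord {J R : Type} [Fintype J] [DecidableEq J] [CommRing R] (M : Matrix J J R)
    (α : R) (β γ : J → R) :
    M.det * Matrix.det (fun r c : Option J =>
        r.elim (c.elim α β) (fun l => c.elim (γ l) (fun j => M l j))) =
      M.det * (M.det * α - ∑ j, β j * ∑ l, M.adjugate j l * γ l) := by
  have e : Matrix.det (fun r c : Option J =>
        r.elim (c.elim α β) (fun l => c.elim (γ l) (fun j => M l j))) =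
      Matrix.det (Matrix.fromBlocks M (fun l (_ : PUnit) => γ l) (fun _ j => β j)
        (fun _ _ => α) : Matrix (J ⊕ PUnit.{1}) (J ⊕ PUnit.{1}) R) := by
    rw [← Matrix.det_submatrix_equiv_self (Equiv.optionEquivSumPUnit J)]
    congr 1
    ext r c
    cases r <;> cases c <;> rfl
  rw [e]
  set X : Matrix (J ⊕ PUnit.{1}) (J ⊕ PUnit.{1}) R :=
    Matrix.fromBlocks M (fun l (_ : PUnit) => γ l) (fun _ j => β j) (fun _ _ => α) with hX
  set Y : Matrix (J ⊕ PUnit.{1}) (J ⊕ PUnit.{1}) R :=
    Matrix.fromBlocks 1 (fun j (_ : PUnit) => - ∑ l, M.adjugate j l * γ l) 0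
      (fun _ _ => M.det) with hY
  have hYd : Y.det = M.det := by
    rw [hY, Matrix.det_fromBlocks_zero₂₁, Matrix.det_one, one_mul]
    simp [Matrix.det_unique]
  have hXY : X * Y = Matrix.fromBlocks M 0 (fun _ j => β j)
      (fun _ _ => M.det * α - ∑ j, β j * ∑ l, M.adjugate j l * γ l) := by
    rw [hX, hY, Matrix.fromBlocks_multiply]
    congr 1
    · simp
    · ext l u
      have h1 : ∀ l, ∑ j, M l j * ∑ l', M.adjugate j l' * γ l' = M.det * γ l := by
        intro l
        have h2 := congrFun (congrArg (fun A : Matrix J J R => A.mulVec γ) M.mul_adjugate) l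
        simp only [Matrix.mulVec, dotProduct, Matrix.mul_apply, Matrix.smul_apply,
          Matrix.one_apply, smul_eq_mul] at h2
        rw [Finset.sum_congr rfl (fun x _ => Finset.sum_mul _ _ _), Finset.sum_comm] at h2
        rw [Finset.sum_congr rfl (fun j _ => Finset.mul_sum _ _ _)]
        simpa [mul_assoc] using h2
      simp only [Matrix.add_apply, Matrix.mul_apply, Matrix.zero_apply, mul_neg,
        Finset.sum_neg_distrib, Finset.univ_unique, Finset.sum_const, Finset.card_singleton,
        one_smul]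
      rw [h1 l]
      ring
    · ext u j
      simp
    · ext u v
      simp only [Matrix.add_apply, Matrix.mul_apply, mul_neg,
        Finset.sum_neg_distrib, Finset.univ_unique, Finset.sum_const, Finset.card_singleton,
        one_smul]
      ring
  have h3 : X.det * Y.det = M.det * (M.det * α - ∑ j, β j * ∑ l, M.adjugate j l * γ l) := by
    rw [← Matrix.det_mul, hXY, Matrix.det_fromBlocks_zero₁₂]
    simp [Matrix.det_unique]
  rw [hYd] at h3
  rw [mul_comm, h3]

/-- an element killed by all additive maps to the rationals is torsion -/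
theorem torsion_of_forall {A : Type} [AddCommGroup A] (z : A) (h : ∀ f : A →+ ℚ, f z = 0) :
    ∃ M : ℕ, 0 < M ∧ M • z = 0 := by
  by_contra hcon
  push Not at hcon
  have hinj : Function.Injective (LinearMap.toSpanSingleton ℤ A z) := by
    rw [injective_iff_map_eq_zero]
    intro n hn
    by_contra hn0
    rw [LinearMap.toSpanSingleton_apply] at hn
    refine hcon n.natAbs (Int.natAbs_pos.2 hn0) ?_
    rcases Int.natAbs_eq n with h1 | h1
    · rw [← natCast_zsmul, ← h1, hn]
    · have h2 : ((n.natAbs : ℕ) : ℤ) = -n := by omega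
      rw [← natCast_zsmul, h2, neg_smul, hn, neg_zero]
  have hB : Module.Injective ℤ ℚ := by
    have : Module.Baer ℤ ℚ := Module.Baer.of_divisible ℚ
    exact this.injective
  obtain ⟨g, hg⟩ := hB.out (LinearMap.toSpanSingleton ℤ A z) hinj
    (LinearMap.toSpanSingleton ℤ ℚ 1)
  have h1 := hg 1
  have h2 := h g.toAddMonoidHom
  rw [LinearMap.toSpanSingleton_apply, LinearMap.toSpanSingleton_apply, one_smul, one_smul] at h1
  have h3 : g z = 0 := h2
  rw [h3] at h1
  exact zero_ne_one h1

theorem map_minorA {J ι A : Type} [Fintype J] [DecidableEq J] [Fintype ι] [DecidableEq ι]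
    [AddCommGroup A] (f : A →+ ℚ) (N : J → ι → ℤ) (q : ι → A) (I : Option J → ι) :
    f (minorA N q I) = Matrix.det (fun r c : Option J =>
      (Option.elim c (fun i => f (q i)) (fun l i => (N l i : ℚ))) (I r)) := by
  unfold minorA
  rw [map_sum, Matrix.det_apply']
  have h1 : ∀ i, f ((Matrix.det (fun r c : Option J =>
      c.elim (if I r = i then (1 : ℤ) else 0) (fun l => N l (I r)))) • q i) =
      ∑ σ : Equiv.Perm (Option J), (((Equiv.Perm.sign σ : ℤ) : ℚ) *
        ∏ l : J, (N l (I (σ (some l))) : ℚ)) * (if I (σ none) = i then f (q i) else 0) := by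
    intro i
    rw [map_zsmul, zsmul_eq_mul, Matrix.det_apply', Int.cast_sum, Finset.sum_mul]
    refine Finset.sum_congr rfl fun σ _ => ?_
    rw [Fintype.prod_option]
    simp only [Option.elim]
    push_cast
    split_ifs <;> ring
  rw [Finset.sum_congr rfl (fun i _ => h1 i), Finset.sum_comm]
  refine Finset.sum_congr rfl fun σ _ => ?_
  rw [← Finset.mul_sum, Finset.sum_ite_eq, if_pos (Finset.mem_univ _), Fintype.prod_option]
  simp only [Option.elim]
  ring

theorem map_albSum {J ι A : Type} [Fintype J] [DecidableEq J] [Fintype ι] [DecidableEq ι]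
    [AddCommGroup A] (f : A →+ ℚ) (U N : J → ι → ℤ) (q : ι → A) (w : ι → ℚ) :
    ∑ i, w i * f (albSum U N q i) =
      Matrix.det (fun j l : J => ∑ i, (U j i : ℚ) * (N l i : ℚ)) *
      Matrix.det (fun r c : Option J => ∑ i, (Option.elim r w (fun l i => (U l i : ℚ))) i *
        (Option.elim c (fun i => f (q i)) (fun l i => (N l i : ℚ))) i) := by
  set M : Matrix J J ℤ := fun j l => ∑ i, U j i * N l i with hM
  set MQ' : Matrix J J ℚ := fun j l => ∑ i, (U j i : ℚ) * (N l i : ℚ) with hMQ
  have hmap : M.map (Int.castRingHom ℚ) = MQ' := by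
    ext j l
    simp [hM, hMQ]
  have hdet : ((M.det : ℤ) : ℚ) = MQ'.det := by
    rw [← hmap]
    exact RingHom.map_det (Int.castRingHom ℚ) M
  have hadj : ∀ j l, ((M.adjugate j l : ℤ) : ℚ) = MQ'.adjugate j l := by
    intro j l
    rw [← hmap]
    have := RingHom.map_adjugate (Int.castRingHom ℚ) M
    have h2 := congrFun (congrFun this j) l
    simpa using h2
  have h1 : ∀ i, f (albSum U N q i) = MQ'.det * (MQ'.det * f (q i) -
      ∑ j, (N j i : ℚ) * ∑ l, MQ'.adjugate j l * ∑ i', (U l i' : ℚ) * f (q i')) := by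
    intro i
    simp only [albSum, map_zsmul, map_sub, map_sum, zsmul_eq_mul]
    rw [← hM, hdet]
    simp only [hadj]
  have h2 := det_bord MQ' (∑ i, w i * f (q i)) (fun j => ∑ i, w i * (N j i : ℚ))
    (fun l => ∑ i, (U l i : ℚ) * f (q i))
  have h3 : (fun r c : Option J => ∑ i, (Option.elim r w (fun l i => (U l i : ℚ))) i *
        (Option.elim c (fun i => f (q i)) (fun l i => (N l i : ℚ))) i) =
      (fun r c : Option J => r.elim (c.elim (∑ i, w i * f (q i))
        (fun j => ∑ i, w i * (N j i : ℚ)))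
        (fun l => c.elim (∑ i, (U l i : ℚ) * f (q i)) (fun j => MQ' l j))) := by
    funext r c
    cases r <;> cases c <;> rfl
  rw [h3, h2, Finset.sum_congr rfl (fun i _ => by rw [h1 i])]
  have h4 : ∑ i, w i * (MQ'.det * (MQ'.det * f (q i) -
      ∑ j, (N j i : ℚ) * ∑ l, MQ'.adjugate j l * ∑ i', (U l i' : ℚ) * f (q i'))) =
      MQ'.det * (MQ'.det * ∑ i, w i * f (q i) - ∑ i, w i *
        ∑ j, (N j i : ℚ) * ∑ l, MQ'.adjugate j l * ∑ i', (U l i' : ℚ) * f (q i')) := by
    rw [Finset.mul_sum, ← Finset.sum_sub_distrib, Finset.mul_sum]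
    refine Finset.sum_congr rfl fun i _ => ?_
    ring
  rw [h4]
  congr 2
  simp only [Finset.mul_sum, Finset.sum_mul]
  rw [Finset.sum_comm]
  refine Finset.sum_congr rfl fun j _ => ?_
  rw [Finset.sum_comm]
  refine Finset.sum_congr rfl fun l _ => ?_
  rw [Finset.sum_comm]
  refine Finset.sum_congr rfl fun i _ => ?_
  refine Finset.sum_congr rfl fun i' _ => ?_
  ring

theorem gram2 {J ι T A : Type} [Fintype J] [DecidableEq J] [Fintype ι] [DecidableEq ι] [Fintype T]
    [AddCommGroup A] (N : T → J → ι → ℤ) (c : T → ℤ) (q : T → ι → A)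
    (h : ∀ (U : J → ι → ℤ) (i : ι), ∑ t, c t • albSum U (N t) (q t) i = 0) :
    ∀ (I : Option J → ι) (K : J → ι), ∃ M : ℕ, 0 < M ∧
      M • ∑ t, (c t * minor (N t) K) • minorA (N t) (q t) I = 0 := by
  intro I K
  refine torsion_of_forall _ fun f => ?_
  set x : T → (J → ι) → ℚ := fun t K => (minor (N t) K : ℚ) with hx
  set y : T → (Option J → ι) → ℚ := fun t I => f (minorA (N t) (q t) I) with hy
  have hx' : ∀ s t, ((Fintype.card J).factorial : ℚ) *
      Matrix.det (fun j l : J => ∑ i, (N s j i : ℚ) * (N t l i : ℚ)) = ∑ K, x s K * x t K := by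
    intro s t
    rw [cauchy_binet (fun j i => (N s j i : ℚ)) (fun j i => (N t j i : ℚ))]
    refine Finset.sum_congr rfl fun K _ => ?_
    have h1 : ∀ t, Matrix.det (fun j l : J => (N t l (K j) : ℚ)) = x t K := by
      intro t
      rw [hx]
      simp only [minor]
      rw [show (((Matrix.det (fun j l : J => N t l (K j)) : ℤ)) : ℚ) =
        Int.castRingHom ℚ (Matrix.det (fun j l : J => N t l (K j))) from rfl, RingHom.map_det]
      rfl
    rw [h1, h1]
  have hy' : ∀ s t, ((Fintype.card (Option J)).factorial : ℚ) *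
      Matrix.det (fun r c : Option J =>
        ∑ i, (Option.elim r (fun i => f (q s i)) (fun l i => (N s l i : ℚ))) i *
        (Option.elim c (fun i => f (q t i)) (fun l i => (N t l i : ℚ))) i) =
      ∑ I, y s I * y t I := by
    intro s t
    rw [cauchy_binet (fun r : Option J => (Option.elim r (fun i => f (q s i))
      (fun l i => (N s l i : ℚ)))) (fun r : Option J => (Option.elim r (fun i => f (q t i))
      (fun l i => (N t l i : ℚ))))]
    refine Finset.sum_congr rfl fun I _ => ?_
    rw [hy]
    simp only [map_minorA]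
  have h1 : ∀ s, ∑ t, (c t : ℚ) * ((∑ K, x s K * x t K) * (∑ I, y s I * y t I)) = 0 := by
    intro s
    have h2 : ∀ t, (∑ K, x s K * x t K) * (∑ I, y s I * y t I) =
        (((Fintype.card J).factorial : ℚ) * ((Fintype.card (Option J)).factorial : ℚ)) *
        ∑ i, f (q s i) * f (albSum (N s) (N t) (q t) i) := by
      intro t
      rw [map_albSum, ← hx', ← hy']
      ring
    simp only [h2]
    have h3 : ∑ t, (c t : ℚ) * ∑ i, f (q s i) * f (albSum (N s) (N t) (q t) i) = 0 := by
      simp only [Finset.mul_sum]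
      rw [Finset.sum_comm]
      refine Finset.sum_eq_zero fun i _ => ?_
      have h4 := congrArg f (h (N s) i)
      rw [map_sum, map_zero] at h4
      simp only [map_zsmul, zsmul_eq_mul] at h4
      calc ∑ t, (c t : ℚ) * (f (q s i) * f (albSum (N s) (N t) (q t) i))
          = f (q s i) * ∑ t, (c t : ℚ) * f (albSum (N s) (N t) (q t) i) := by
            rw [Finset.mul_sum]
            exact Finset.sum_congr rfl fun t _ => by ring
        _ = 0 := by rw [h4, mul_zero]
    calc _ = (((Fintype.card J).factorial : ℚ) * ((Fintype.card (Option J)).factorial : ℚ)) *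
        ∑ t, (c t : ℚ) * ∑ i, f (q s i) * f (albSum (N s) (N t) (q t) i) := by
          rw [Finset.mul_sum]
          exact Finset.sum_congr rfl fun t _ => by ring
      _ = 0 := by rw [h3, mul_zero]
  have h4 := gram_squares (fun t => (c t : ℚ)) x y
  simp only [h1, mul_zero, Finset.sum_const_zero] at h4
  have h5 := (Finset.sum_eq_zero_iff_of_nonneg (fun I _ =>
    Finset.sum_nonneg fun K _ => sq_nonneg _)).1 h4.symm K (Finset.mem_univ _)
  have h6 := (Finset.sum_eq_zero_iff_of_nonneg (fun K _ => sq_nonneg _)).1 h5 I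
    (Finset.mem_univ _)
  have h7 := pow_eq_zero_iff (two_ne_zero) |>.1 h6
  rw [map_sum, ← h7]
  refine Finset.sum_congr rfl fun t _ => ?_
  rw [map_zsmul, zsmul_eq_mul]
  push_cast
  ring

end AC
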