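import Pool.Agent.H18.AC.QuadGen

/-!
Module GenStep (project AC, helper18).  Splitting off one coordinate of a generic point, and the converse.
PROOF.  coord_mem / yc_sq: y ^ 2 = x (x - 1) (x - a) for the coordinates of an affine point; a point with x transcendental is affine.
gen_split: F = coordField k (fun j => Q j.succ), an intermediate field of L/k.  Q' j = the point with the same coordinates in F
(zero if Q j.succ = 0, but this does not happen); IsGen k Q': independence pulls back along the injection F → L
(AlgebraicIndependent.of_aeval / `AlgebraicIndependent.map'` converse: (F.val).injective, algebraicIndependent of comp), generation: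
IntermediateField.adjoin of the coordinates inside F is ⊤ (lift/restrict: (coordField k Q').map F.val = coordField ... = F;
IntermediateField.map_injective).  IsQuad: quad_of_gen with cub_not_square; xc (Q 0) transcendental over F: F is algebraic over
F₀ = adjoin k {xc (Q j.succ)} (each yc (Q j.succ) is integral over F₀), and xc (Q 0) is transcendental over F₀ (from the independence of
the whole family, e.g. AlgebraicIndependent.option_iff / Fin.cons version, `algebraicIndependent_of_...`); if it were algebraic over F it would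
be algebraic over F₀ (transitivity).  adjoin F {xc (Q 0), yc (Q 0)} = ⊤: restrict scalars to k and use hQ.gen.
gen_join: the converse, same tools.
-/

namespace AC

open ZC WeierstrassCurve
open scoped Classical

variable {k : Type} [Field k] [CharZero k] {a : k}

open Polynomial in
private theorem gs_aeval_cub {F L : Type} [Field F] [Field L] [Algebra F L] (c : F) (x : L) :
    aeval x (cub c) = x * (x - 1) * (x - algebraMap F L c) := by
  unfold cub
  simp

private theorem gs_eq {L : Type} [Field L] {b : L} (P : Pt b) (hP : xc P ≠ 0) :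
    yc P ^ 2 = xc P * (xc P - 1) * (xc P - b) := by
  rcases P with _ | ⟨x, y, h⟩
  · exact absurd rfl hP
  · exact (leg_equation b x y).1 h.1

private theorem gs_lift {L : Type} [Field L] [Algebra k L] (F : IntermediateField k L)
    (P : Pt (algebraMap k L a)) (hx : xc P ∈ F) (hy : yc P ∈ F) :
    ∃ P' : Pt (algebraMap k F a), bcs (IsScalarTower.toAlgHom k F L) P' = P := by
  rcases P with _ | ⟨x, y, h⟩
  · exact ⟨.zero, rfl⟩
  · have hx' : x ∈ F := hx
    have hy' : y ∈ F := hy
    have h2 : (leg (algebraMap k F a)).toAffine.Nonsingular (⟨x, hx'⟩ : F) ⟨y, hy'⟩ := by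
      have h3 := (WeierstrassCurve.Affine.map_nonsingular (W := (leg (algebraMap k F a)).toAffine)
        (f := algebraMap F L) (algebraMap F L).injective (⟨x, hx'⟩ : F) ⟨y, hy'⟩).1
      apply h3
      have h4 : ((leg (algebraMap k F a)).toAffine.map (algebraMap F L)) = leg (algebraMap k L a) :=
        leg_map (algebraMap F L) (algebraMap k F a)
      rw [h4]
      exact h
    exact ⟨.some _ _ h2, rfl⟩

private theorem gs_alg_root {F L : Type} [Field F] [Field L] [Algebra F L] {x y b : L}
    (hx : IsAlgebraic F x) (hb : IsAlgebraic F b) (h : y ^ 2 = x * (x - 1) * (x - b)) :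
    IsAlgebraic F y := by
  have h1 : IsAlgebraic F (y ^ 2) := by
    rw [h]
    exact (hx.mul (hx.sub isAlgebraic_one)).mul (hx.sub hb)
  exact h1.of_pow (by norm_num)

private theorem gs_transc_up {L : Type} [Field L] [Algebra k L] (F₀ F : IntermediateField k L)
    (hle : F₀ ≤ F) (halg : ∀ z ∈ F, IsAlgebraic F₀ z) {t : L} (ht : Transcendental F₀ t) :
    Transcendental F t := by
  letI : Algebra F₀ F := (IntermediateField.inclusion hle).toRingHom.toAlgebra
  haveI : IsScalarTower F₀ F L := IsScalarTower.of_algebraMap_eq (fun _ => rfl)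
  haveI : Algebra.IsAlgebraic F₀ F := ⟨fun z => by
    rw [← isAlgebraic_algHom_iff (IsScalarTower.toAlgHom F₀ F L) Subtype.val_injective]
    exact halg z z.2⟩
  exact ht.extendScalars F

private theorem gs_range_le {F L : Type} [Field F] [Field L] [Algebra k F] [Algebra k L]
    [Algebra F L] [IsScalarTower k F L] {m : ℕ} (Q' : Fin m → Pt (algebraMap k F a))
    (hQ' : coordField k Q' = ⊤) (G : IntermediateField k L)
    (hx : ∀ j, algebraMap F L (xc (Q' j)) ∈ G) (hy : ∀ j, algebraMap F L (yc (Q' j)) ∈ G) (z : F) :
    algebraMap F L z ∈ G := by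
  have h1 : coordField k Q' ≤ G.comap (IsScalarTower.toAlgHom k F L) := by
    unfold coordField
    rw [IntermediateField.adjoin_le_iff]
    rintro w (⟨j, rfl⟩ | ⟨j, rfl⟩)
    · exact hx j
    · exact hy j
  have h2 : z ∈ coordField k Q' := by rw [hQ']; exact IntermediateField.mem_top
  exact h1 h2

theorem gen_split {L : Type} [Field L] [Algebra k L] (ha0 : a ≠ 0) (ha1 : a ≠ 1) {m : ℕ}
    (Q : Fin (m + 1) → Pt (algebraMap k L a)) (hQ : IsGen k Q) :
    ∃ (F : Type) (_ : Field F) (_ : Algebra k F) (_ : Algebra F L) (_ : IsScalarTower k F L)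
      (Q' : Fin m → Pt (algebraMap k F a)), IsGen k Q' ∧
      (∀ j, bcs (IsScalarTower.toAlgHom k F L) (Q' j) = Q j.succ) ∧
      IsQuad F L (cub (algebraMap k F a)) (xc (Q 0)) (yc (Q 0)) := by
  obtain ⟨F, hF⟩ : ∃ F : IntermediateField k L, F = coordField k (fun j : Fin m => Q j.succ) := ⟨_, rfl⟩
  have hxm : ∀ j : Fin m, xc (Q j.succ) ∈ F := fun j => by
    rw [hF]
    exact IntermediateField.subset_adjoin k _ (Or.inl ⟨j, rfl⟩)
  have hym : ∀ j : Fin m, yc (Q j.succ) ∈ F := fun j => by
    rw [hF]
    exact IntermediateField.subset_adjoin k _ (Or.inr ⟨j, rfl⟩)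
  have hlift : ∀ j : Fin m, ∃ P' : Pt (algebraMap k F a),
      bcs (IsScalarTower.toAlgHom k F L) P' = Q j.succ := fun j => gs_lift F _ (hxm j) (hym j)
  choose Q' hQQ using hlift
  have hx' : ∀ j, algebraMap F L (xc (Q' j)) = xc (Q j.succ) := fun j => by
    rw [← hQQ j, xc_bcs]
    rfl
  have hy' : ∀ j, algebraMap F L (yc (Q' j)) = yc (Q j.succ) := fun j => by
    rw [← hQQ j, yc_bcs]
    rfl
  have hne : ∀ i, xc (Q i) ≠ 0 := fun i h0 =>
    (hQ.indep.transcendental i) (by
      simp only [h0]
      exact isAlgebraic_zero)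
  have hF0 : Transcendental F (xc (Q 0)) := by
    obtain ⟨F₀, hF₀⟩ : ∃ F₀ : IntermediateField k L,
        F₀ = IntermediateField.adjoin k ((fun j => xc (Q j)) '' {0}ᶜ) := ⟨_, rfl⟩
    have hmem0 : ∀ j : Fin m, xc (Q j.succ) ∈ F₀ := fun j => by
      rw [hF₀]
      exact IntermediateField.subset_adjoin k _ ⟨j.succ, by simp, rfl⟩
    have hle : F₀ ≤ F := by
      rw [hF₀, IntermediateField.adjoin_le_iff]
      rintro w ⟨i, hi, rfl⟩
      refine Fin.cases (fun hi => absurd rfl hi) (fun j _ => hxm j) i hi
    have halg : ∀ z ∈ F, IsAlgebraic F₀ z := by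
      intro z hz
      rw [hF] at hz
      unfold coordField at hz
      refine IntermediateField.adjoin_induction k ?_ ?_ ?_ ?_ ?_ hz
      · rintro w (⟨j, rfl⟩ | ⟨j, rfl⟩)
        · exact isAlgebraic_algebraMap (⟨_, hmem0 j⟩ : F₀)
        · exact gs_alg_root (isAlgebraic_algebraMap (⟨_, hmem0 j⟩ : F₀))
            (isAlgebraic_algebraMap (⟨_, F₀.algebraMap_mem a⟩ : F₀)) (gs_eq _ (hne j.succ))
      · exact fun c => isAlgebraic_algebraMap (⟨_, F₀.algebraMap_mem c⟩ : F₀)
      · exact fun _ _ _ _ h1 h2 => h1.add h2
      · exact fun _ _ h1 => h1.inv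
      · exact fun _ _ _ _ h1 h2 => h1.mul h2
    refine gs_transc_up F₀ F hle halg ?_
    have h1 := ((AlgebraicIndependent.iff_transcendental_adjoin_image (0 : Fin (m + 1))).1
      hQ.indep).2
    rw [hF₀]
    exact IntermediateField.transcendental_adjoin_iff.2 h1
  refine ⟨F, inferInstance, inferInstance, inferInstance, inferInstance, Q', ?_, hQQ, ?_⟩
  · constructor
    · refine AlgebraicIndependent.of_comp (IsScalarTower.toAlgHom k F L) ?_
      have h1 := hQ.indep.comp Fin.succ (Fin.succ_injective m)
      have h2 : ((IsScalarTower.toAlgHom k F L) ∘ fun j => xc (Q' j)) =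
          (fun j => xc (Q j)) ∘ Fin.succ := funext fun j => hx' j
      rw [h2]
      exact h1
    · apply IntermediateField.map_injective (IsScalarTower.toAlgHom k F L)
      have h3 : (⊤ : IntermediateField k F).map (IsScalarTower.toAlgHom k F L) = F := by
        ext z
        constructor
        · rintro ⟨w, _, rfl⟩
          exact w.2
        · intro hz
          exact ⟨⟨z, hz⟩, trivial, rfl⟩
      rw [h3]
      unfold coordField
      rw [IntermediateField.adjoin_map]
      conv_rhs => rw [hF]
      unfold coordField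
      congr 1
      rw [Set.image_union, ← Set.range_comp, ← Set.range_comp]
      congr 2
      · exact funext fun j => hx' j
      · exact funext fun j => hy' j
  · refine quad_of_gen (cub_not_square _) hF0 ?_ ?_
    · rw [gs_aeval_cub, ← IsScalarTower.algebraMap_apply]
      exact gs_eq _ (hne 0)
    · rw [eq_top_iff]
      intro z _
      have hz : z ∈ coordField k Q := by
        rw [hQ.gen]
        exact IntermediateField.mem_top
      unfold coordField at hz
      refine IntermediateField.adjoin_induction k ?_ ?_ ?_ ?_ ?_ hz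
      · rintro w (⟨i, rfl⟩ | ⟨i, rfl⟩)
        · refine Fin.cases ?_ (fun j => ?_) i
          · exact IntermediateField.subset_adjoin F _ (by simp)
          · exact (IntermediateField.adjoin F {xc (Q 0), yc (Q 0)}).algebraMap_mem
              (⟨_, hxm j⟩ : F)
        · refine Fin.cases ?_ (fun j => ?_) i
          · exact IntermediateField.subset_adjoin F _ (by simp)
          · exact (IntermediateField.adjoin F {xc (Q 0), yc (Q 0)}).algebraMap_mem
              (⟨_, hym j⟩ : F)
      · exact fun c => (IntermediateField.adjoin F {xc (Q 0), yc (Q 0)}).algebraMap_mem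
              (algebraMap k F c)
      · exact fun _ _ _ _ h1 h2 => add_mem h1 h2
      · exact fun _ _ h1 => inv_mem h1
      · exact fun _ _ _ _ h1 h2 => mul_mem h1 h2

theorem gen_join {F L : Type} [Field F] [Field L] [Algebra k F] [Algebra k L] [Algebra F L]
    [IsScalarTower k F L] (ha0 : a ≠ 0) (ha1 : a ≠ 1) {m : ℕ}
    (Q' : Fin m → Pt (algebraMap k F a)) (hQ' : IsGen k Q') (q : Pt (algebraMap k L a))
    (H : IsQuad F L (cub (algebraMap k F a)) (xc q) (yc q)) :
    IsGen k (Fin.cons q (fun j => bcs (IsScalarTower.toAlgHom k F L) (Q' j)) :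
      Fin (m + 1) → Pt (algebraMap k L a)) := by
  have hx0 : xc ((Fin.cons q (fun j => bcs (IsScalarTower.toAlgHom k F L) (Q' j)) :
      Fin (m + 1) → Pt (algebraMap k L a)) 0) = xc q := by rw [Fin.cons_zero]
  have hy0 : yc ((Fin.cons q (fun j => bcs (IsScalarTower.toAlgHom k F L) (Q' j)) :
      Fin (m + 1) → Pt (algebraMap k L a)) 0) = yc q := by rw [Fin.cons_zero]
  have hxs : ∀ j : Fin m, xc ((Fin.cons q (fun j => bcs (IsScalarTower.toAlgHom k F L) (Q' j)) :
      Fin (m + 1) → Pt (algebraMap k L a)) j.succ) = algebraMap F L (xc (Q' j)) := fun j => by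
    rw [Fin.cons_succ, xc_bcs]
    rfl
  have hys : ∀ j : Fin m, yc ((Fin.cons q (fun j => bcs (IsScalarTower.toAlgHom k F L) (Q' j)) :
      Fin (m + 1) → Pt (algebraMap k L a)) j.succ) = algebraMap F L (yc (Q' j)) := fun j => by
    rw [Fin.cons_succ, yc_bcs]
    rfl
  obtain ⟨R, hR⟩ : ∃ R : Fin (m + 1) → Pt (algebraMap k L a),
      R = Fin.cons q (fun j => bcs (IsScalarTower.toAlgHom k F L) (Q' j)) := ⟨_, rfl⟩
  rw [← hR] at hx0 hy0 hxs hys ⊢
  constructor
  · have ht : AlgebraicIndependent F (fun _ : Unit => xc q) :=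
      (algebraicIndependent_unique_type_iff (x := fun _ : Unit => xc q)).2 (quad_transc H)
    have h1 := AlgebraicIndependent.sumElim_comp hQ'.indep ht
    have h2 := h1.comp (Fin.cases (Sum.inl ()) Sum.inr : Fin (m + 1) → Unit ⊕ Fin m) (by
      intro i j
      refine Fin.cases ?_ (fun i' => ?_) i
      · refine Fin.cases (fun _ => rfl) (fun j' h => ?_) j
        cases h
      · refine Fin.cases (fun h => ?_) (fun j' h => ?_) j
        · cases h
        · exact congrArg Fin.succ (Sum.inr_injective h))
    have h3 : (fun i => xc (R i)) = Sum.elim (fun _ : Unit => xc q)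
        (algebraMap F L ∘ fun j => xc (Q' j)) ∘
          (Fin.cases (Sum.inl ()) Sum.inr : Fin (m + 1) → Unit ⊕ Fin m) := by
      funext i
      refine Fin.cases ?_ (fun j => ?_) i
      · exact hx0
      · exact hxs j
    rw [h3]
    exact h2
  · rw [eq_top_iff]
    intro z _
    have hz : z ∈ IntermediateField.adjoin F {xc q, yc q} := by
      rw [quad_adjoin H]
      exact IntermediateField.mem_top
    have hxm : ∀ i : Fin (m + 1), xc (R i) ∈ coordField k R := fun i =>
      IntermediateField.subset_adjoin k _ (Or.inl ⟨i, rfl⟩)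
    have hym : ∀ i : Fin (m + 1), yc (R i) ∈ coordField k R := fun i =>
      IntermediateField.subset_adjoin k _ (Or.inr ⟨i, rfl⟩)
    refine IntermediateField.adjoin_induction F ?_ ?_ ?_ ?_ ?_ hz
    · rintro w (rfl | rfl)
      · rw [← hx0]
        exact hxm 0
      · rw [← hy0]
        exact hym 0
    · refine gs_range_le Q' hQ'.gen _ (fun j => ?_) (fun j => ?_)
      · rw [← hxs j]
        exact hxm _
      · rw [← hys j]
        exact hym _
    · exact fun _ _ _ _ h1 h2 => add_mem h1 h2
    · exact fun _ _ h1 => inv_mem h1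
    · exact fun _ _ _ _ h1 h2 => mul_mem h1 h2

end AC
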