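import Pool.Agent.H18.AC.PlaceAt
import Pool.Agent.H18.AC.GenStep
import Pool.Agent.H18.AC.Psi

/-!
Module LocusPt (project AC, helper18).  The closure of N Q + p, Q the generic point of E ^ m, is the coset N E(k)^m + p, and
Ψ(N, p) is this coset with multiplicity one when N has an integral left inverse.
PROOF.  (A) exists_value: every P : Fin m → Pt a is the value of Q at a place of F with values in k, by induction on m.  m = 0: F = k
(coordField = ⊥ = ⊤; algebraMap k F bijective): take O = ⊤ and ρ the inverse.  m + 1: gen_split: F₀, Q', and w₀ : KPl k F₀ k with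
Red w₀ (Q' j) (P j.succ) by induction; placeAt_exists (R = bca F₀ (P 0)) gives w₁ : Place F₀ F with Sp w₁ (Q 0) R and residue field F₀.
Composite place: O = {u ∈ F | w₁.v u ≤ 1 and res u ∈ w₀.O}, res u = the unique d ∈ F₀ with w₁.v (u - d) < 1, ρ u = w₀.ρ (res u).
It is a valuation ring: if u ∉ O then either w₁.v u > 1, u⁻¹ has residue 0, or res u ∉ w₀.O, u is a unit at w₁, res u⁻¹ = (res u)⁻¹ ∈ w₀.O.
(B) locus ⊆: p' in the locus: w : KPl k F k; the values P j of Q j exist (exists_redk-type argument over k: exists_red with b = a), red_pt'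
gives the value lin N P i + p i of pt N Q p i, Red.uniq.  locus ⊇: (A) and red_pt'.
psi_prim: with U N = 1 (∑ i, U j i * N l i = if j = l then 1 else 0) the coordinates of Q j = ∑ i, U j i • (N Q + p - p) i lie in
coordField k (pt N Q p) (closed under the group law, cf. coordField_le), so it is ⊤ = coordField k Q and finrank = 1 (psi_eq,
IntermediateField.finrank_top).
-/

namespace AC

open ZC WeierstrassCurve
open scoped Classical

variable {k : Type} [Field k] [IsAlgClosed k] [CharZero k] {a : k} {m : ℕ}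

/-- The composite of a place of `L` over `F₀` with residue field `F₀` and a place of `F₀` over `k`. -/
private theorem compose_place {k F₀ L κ : Type} [Field k] [Field F₀] [Field L] [Field κ]
    [Algebra k F₀] [Algebra F₀ L] [Algebra k L] [IsScalarTower k F₀ L] [Algebra k κ]
    (w₀ : KPl k F₀ κ) (w₁ : Place F₀ L)
    (hres : ∀ u : L, w₁.v u ≤ 1 → ∃ d : F₀, w₁.v (u - algebraMap F₀ L d) < 1) :
    ∃ w : KPl k L κ,
      (∀ (u : L) (d : F₀), w₁.v (u - algebraMap F₀ L d) < 1 → ∀ h : d ∈ w₀.O,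
        ∃ h' : u ∈ w.O, w.ρ ⟨u, h'⟩ = w₀.ρ ⟨d, h⟩) ∧
      (∀ (u : L) (d : F₀), w₁.v (u - algebraMap F₀ L d) < 1 → d ∉ w₀.O → u ∉ w.O) ∧
      (∀ u : L, 1 < w₁.v u → u ∉ w.O) := by
  have hle : ∀ d : F₀, w₁.v (algebraMap F₀ L d) ≤ 1 := by
    intro d
    by_cases hd : d = 0
    · rw [hd, map_zero, map_zero]; exact zero_le_one
    · rw [w₁.triv d hd]
  have huniq : ∀ (u : L) (d d' : F₀), w₁.v (u - algebraMap F₀ L d) < 1 →
      w₁.v (u - algebraMap F₀ L d') < 1 → d = d' := by
    intro u d d' h h'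
    by_contra hne
    have h1 : w₁.v (algebraMap F₀ L (d' - d)) = 1 := w₁.triv _ (sub_ne_zero.2 (Ne.symm hne))
    have h2 : algebraMap F₀ L (d' - d) = (u - algebraMap F₀ L d) - (u - algebraMap F₀ L d') := by
      rw [map_sub]; ring
    have h3 : w₁.v (algebraMap F₀ L (d' - d)) < 1 := by
      rw [h2]
      exact lt_of_le_of_lt (w₁.v.map_sub _ _) (max_lt h h')
    exact absurd h1 (ne_of_lt h3)
  have hval : ∀ (u : L) (d : F₀), w₁.v (u - algebraMap F₀ L d) < 1 → w₁.v u ≤ 1 := by
    intro u d h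
    have h2 : u = (u - algebraMap F₀ L d) + algebraMap F₀ L d := by ring
    rw [h2]
    exact le_trans (w₁.v.map_add _ _) (max_le h.le (hle d))
  have hmul : ∀ (u u' : L) (d d' : F₀), w₁.v (u - algebraMap F₀ L d) < 1 →
      w₁.v (u' - algebraMap F₀ L d') < 1 → w₁.v (u * u' - algebraMap F₀ L (d * d')) < 1 := by
    intro u u' d d' h h'
    have h2 : u * u' - algebraMap F₀ L (d * d') =
        (u - algebraMap F₀ L d) * u' + algebraMap F₀ L d * (u' - algebraMap F₀ L d') := by
      rw [map_mul]; ring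
    rw [h2]
    refine lt_of_le_of_lt (w₁.v.map_add _ _) (max_lt ?_ ?_)
    · rw [map_mul]
      exact mul_lt_one_of_nonneg_of_lt_one_left zero_le h (hval u' d' h')
    · rw [map_mul]
      exact mul_lt_one_of_nonneg_of_lt_one_right (hle d) zero_le h'
  have hadd : ∀ (u u' : L) (d d' : F₀), w₁.v (u - algebraMap F₀ L d) < 1 →
      w₁.v (u' - algebraMap F₀ L d') < 1 → w₁.v (u + u' - algebraMap F₀ L (d + d')) < 1 := by
    intro u u' d d' h h'
    have h2 : u + u' - algebraMap F₀ L (d + d') =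
        (u - algebraMap F₀ L d) + (u' - algebraMap F₀ L d') := by
      rw [map_add]; ring
    rw [h2]
    exact lt_of_le_of_lt (w₁.v.map_add _ _) (max_lt h h')
  have hneg : ∀ (u : L) (d : F₀), w₁.v (u - algebraMap F₀ L d) < 1 →
      w₁.v (-u - algebraMap F₀ L (-d)) < 1 := by
    intro u d h
    have h2 : -u - algebraMap F₀ L (-d) = -(u - algebraMap F₀ L d) := by
      rw [map_neg]; ring
    rw [h2, Valuation.map_neg]
    exact h
  have hself : ∀ d : F₀, w₁.v (algebraMap F₀ L d - algebraMap F₀ L d) < 1 := by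
    intro d
    rw [sub_self, map_zero]; exact zero_lt_one
  let O : ValuationSubring L :=
    { carrier := {u | ∃ d : F₀, w₁.v (u - algebraMap F₀ L d) < 1 ∧ d ∈ w₀.O}
      mul_mem' := by
        rintro u u' ⟨d, hd, hdO⟩ ⟨d', hd', hdO'⟩
        exact ⟨d * d', hmul u u' d d' hd hd', mul_mem hdO hdO'⟩
      one_mem' := ⟨1, by simp, one_mem _⟩
      add_mem' := by
        rintro u u' ⟨d, hd, hdO⟩ ⟨d', hd', hdO'⟩
        exact ⟨d + d', hadd u u' d d' hd hd', add_mem hdO hdO'⟩
      zero_mem' := ⟨0, by simp, zero_mem _⟩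
      neg_mem' := by
        rintro u ⟨d, hd, hdO⟩
        exact ⟨-d, hneg u d hd, neg_mem hdO⟩
      mem_or_inv_mem' := by
        intro u
        by_cases hu : w₁.v u ≤ 1
        · obtain ⟨d, hd⟩ := hres u hu
          by_cases hdO : d ∈ w₀.O
          · exact Or.inl ⟨d, hd, hdO⟩
          · right
            have hd0 : d ≠ 0 := by
              rintro rfl
              exact hdO (zero_mem _)
            have hdi : d⁻¹ ∈ w₀.O := by
              rcases w₀.O.mem_or_inv_mem d with h | h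
              · exact absurd h hdO
              · exact h
            have hvd : w₁.v (algebraMap F₀ L d) = 1 := w₁.triv d hd0
            have hu1 : w₁.v u = 1 := by
              refine le_antisymm hu ?_
              by_contra hlt
              push Not at hlt
              have h2 : algebraMap F₀ L d = u - (u - algebraMap F₀ L d) := by ring
              have h3 : w₁.v (algebraMap F₀ L d) < 1 := by
                rw [h2]
                exact lt_of_le_of_lt (w₁.v.map_sub _ _) (max_lt hlt hd)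
              exact absurd hvd (ne_of_lt h3)
            have hu0 : u ≠ 0 := by
              rintro rfl
              rw [map_zero] at hu1
              exact zero_ne_one hu1
            have hdL : algebraMap F₀ L d ≠ 0 := by
              intro h
              rw [h, map_zero] at hvd
              exact zero_ne_one hvd
            refine ⟨d⁻¹, ?_, hdi⟩
            have h4 : u⁻¹ - algebraMap F₀ L d⁻¹ =
                -((u - algebraMap F₀ L d) * (u⁻¹ * (algebraMap F₀ L d)⁻¹)) := by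
              rw [map_inv₀]
              field_simp
              ring
            rw [h4, Valuation.map_neg, map_mul, map_mul, map_inv₀, map_inv₀, hvd, hu1]
            simpa using hd
        · push Not at hu
          right
          refine ⟨0, ?_, zero_mem _⟩
          rw [map_zero, sub_zero, map_inv₀]
          exact inv_lt_one_of_one_lt₀ hu }
  have hOmem : ∀ u : L, u ∈ O ↔ ∃ d : F₀, w₁.v (u - algebraMap F₀ L d) < 1 ∧ d ∈ w₀.O :=
    fun u => Iff.rfl
  choose f hf hfO using fun u : O => (hOmem u.1).1 u.2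
  have hfu : ∀ (u : O) (d : F₀), w₁.v (u.1 - algebraMap F₀ L d) < 1 → f u = d :=
    fun u d h => huniq u.1 _ _ (hf u) h
  let ρ : O →+* κ :=
    { toFun := fun u => w₀.ρ ⟨f u, hfO u⟩
      map_one' := by
        have h1 : f 1 = 1 := hfu 1 1 (by simp)
        have h2 : (⟨f 1, hfO 1⟩ : w₀.O) = 1 := Subtype.ext h1
        rw [h2, map_one]
      map_mul' := by
        intro u u'
        have h1 : f (u * u') = f u * f u' := hfu (u * u') _ (hmul u.1 u'.1 _ _ (hf u) (hf u'))
        have h2 : (⟨f (u * u'), hfO (u * u')⟩ : w₀.O) = ⟨f u, hfO u⟩ * ⟨f u', hfO u'⟩ :=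
          Subtype.ext h1
        rw [h2, map_mul]
      map_zero' := by
        have h1 : f 0 = 0 := hfu 0 0 (by simp)
        have h2 : (⟨f 0, hfO 0⟩ : w₀.O) = 0 := Subtype.ext h1
        rw [h2, map_zero]
      map_add' := by
        intro u u'
        have h1 : f (u + u') = f u + f u' := hfu (u + u') _ (hadd u.1 u'.1 _ _ (hf u) (hf u'))
        have h2 : (⟨f (u + u'), hfO (u + u')⟩ : w₀.O) = ⟨f u, hfO u⟩ + ⟨f u', hfO u'⟩ :=
          Subtype.ext h1
        rw [h2, map_add] }
  have hρ : ∀ (u : O) (d : F₀) (h : d ∈ w₀.O), w₁.v (u.1 - algebraMap F₀ L d) < 1 →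
      ρ u = w₀.ρ ⟨d, h⟩ := by
    intro u d h hd
    have h1 : f u = d := hfu u d hd
    have h2 : (⟨f u, hfO u⟩ : w₀.O) = ⟨d, h⟩ := Subtype.ext h1
    change w₀.ρ ⟨f u, hfO u⟩ = _
    rw [h2]
  refine ⟨⟨O, ρ, ?_, ?_⟩, ?_, ?_, ?_⟩
  · intro c
    obtain ⟨⟨d, hd⟩, hdc⟩ := w₀.surj c
    exact ⟨⟨algebraMap F₀ L d, ⟨d, hself d, hd⟩⟩, (hρ _ d hd (hself d)).trans hdc⟩
  · intro c
    obtain ⟨h, hc⟩ := w₀.const c
    have hmem : algebraMap k L c ∈ O :=
      ⟨algebraMap k F₀ c, by
        rw [IsScalarTower.algebraMap_apply k F₀ L c]; exact hself _, h⟩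
    refine ⟨hmem, ?_⟩
    rw [← hc]
    refine hρ ⟨_, hmem⟩ _ h ?_
    have h5 : w₁.v (algebraMap k L c - algebraMap F₀ L (algebraMap k F₀ c)) < 1 := by
      rw [IsScalarTower.algebraMap_apply k F₀ L c]
      exact hself _
    exact h5
  · intro u d hd h
    have hu : u ∈ O := ⟨d, hd, h⟩
    exact ⟨hu, hρ ⟨u, hu⟩ d h hd⟩
  · rintro u d hd hdO ⟨d', hd', hdO'⟩
    rw [huniq u d d' hd hd'] at hdO
    exact hdO hdO'
  · rintro u hu ⟨d, hd, -⟩
    exact absurd (hval u d hd) (not_le.2 hu)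

/-- Values at a composite place. -/
private theorem compose_red {k F₀ L κ : Type} [Field k] [Field F₀] [Field L] [Field κ]
    [Algebra k F₀] [Algebra F₀ L] [Algebra k L] [Algebra k κ]
    (w₀ : KPl k F₀ κ) (w₁ : Place F₀ L) (w : KPl k L κ)
    (h1 : ∀ (u : L) (d : F₀), w₁.v (u - algebraMap F₀ L d) < 1 → ∀ h : d ∈ w₀.O,
        ∃ h' : u ∈ w.O, w.ρ ⟨u, h'⟩ = w₀.ρ ⟨d, h⟩)
    (h2 : ∀ (u : L) (d : F₀), w₁.v (u - algebraMap F₀ L d) < 1 → d ∉ w₀.O → u ∉ w.O)
    (h3 : ∀ u : L, 1 < w₁.v u → u ∉ w.O)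
    {b : L} {c : F₀} {e : κ} (P : Pt b) (R : Pt c) (p : Pt e) (hS : Sp w₁ P R)
    (hR : Red w₀ R p) : Red w P p := by
  rcases P with _ | ⟨X, Y, hP⟩
  · rcases R with _ | ⟨x, y, hxy⟩
    · rcases p with _ | ⟨x', y', hxy'⟩
      · trivial
      · exact hR.elim
    · exact hS.elim
  · rcases R with _ | ⟨x, y, hxy⟩
    · rcases p with _ | ⟨x', y', hxy'⟩
      · exact h3 X hS
      · exact hR.elim
    · have hS' : w₁.v (X - algebraMap F₀ L x) < 1 ∧ w₁.v (Y - algebraMap F₀ L y) < 1 := hS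
      rcases p with _ | ⟨x', y', hxy'⟩
      · exact h2 X x hS'.1 hR
      · have hR' : (∃ h : x ∈ w₀.O, w₀.ρ ⟨x, h⟩ = x') ∧ (∃ h : y ∈ w₀.O, w₀.ρ ⟨y, h⟩ = y') := hR
        obtain ⟨⟨hx, hx'⟩, ⟨hy, hy'⟩⟩ := hR'
        obtain ⟨hX, hX'⟩ := h1 X x hS'.1 hx
        obtain ⟨hY, hY'⟩ := h1 Y y hS'.2 hy
        exact ⟨⟨hX, hX'.trans hx'⟩, ⟨hY, hY'.trans hy'⟩⟩

theorem exists_value (ha0 : a ≠ 0) (ha1 : a ≠ 1) {F : Type} [Field F] [Algebra k F]
    (Q : Fin m → Pt (algebraMap k F a)) (hQ : IsGen k Q) (P : Fin m → Pt a) :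
    ∃ w : KPl k F k, ∀ j, Red w (Q j) (P j) := by
  induction m generalizing F with
  | zero =>
    have hbot : (⊥ : IntermediateField k F) = ⊤ := by
      have h := hQ.gen
      rw [← h]
      unfold coordField
      rw [Set.range_eq_empty, Set.range_eq_empty, Set.union_self, IntermediateField.adjoin_empty]
    have hsurj : Function.Surjective (algebraMap k F) := by
      intro u
      have hu : u ∈ (⊥ : IntermediateField k F) := by
        rw [hbot]; exact IntermediateField.mem_top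
      exact IntermediateField.mem_bot.1 hu
    let e : k ≃+* F := RingEquiv.ofBijective (algebraMap k F) ⟨(algebraMap k F).injective, hsurj⟩
    let w : KPl k F k :=
      { O := ⊤
        ρ := (e.symm : F →+* k).comp (⊤ : ValuationSubring F).subtype
        surj := by
          intro c
          exact ⟨⟨e c, ValuationSubring.mem_top _⟩, e.symm_apply_apply c⟩
        const := by
          intro c
          exact ⟨ValuationSubring.mem_top _, e.symm_apply_apply c⟩ }
    exact ⟨w, fun j => j.elim0⟩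
  | succ m ih =>
    obtain ⟨F₀, _, _, _, _, Q', hQ', hQs, hquad⟩ := gen_split ha0 ha1 Q hQ
    obtain ⟨w₀, hw₀⟩ := ih Q' hQ' (fun j => P j.succ)
    have hb : algebraMap F₀ F (algebraMap k F₀ a) = algebraMap k F a :=
      (IsScalarTower.algebraMap_apply k F₀ F a).symm
    obtain ⟨w₁, hSp, hres⟩ := placeAt_exists ha0 ha1 hb (Q 0) hquad (bca F₀ (P 0))
    obtain ⟨w, h1, h2, h3⟩ := compose_place w₀ w₁ hres
    refine ⟨w, fun j => ?_⟩
    refine Fin.cases ?_ (fun j => ?_) j
    · exact compose_red w₀ w₁ w h1 h2 h3 (Q 0) (bca F₀ (P 0)) (P 0) hSp (red_const' w₀ (P 0))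
    · rw [← hQs j]
      exact compose_red w₀ w₁ w h1 h2 h3 _ (Q' j) (P j.succ) (sp_const w₁ hb (Q' j)) (hw₀ j)

theorem locus_pt (ha0 : a ≠ 0) (ha1 : a ≠ 1) {ι : Type} {F : Type} [Field F] [Algebra k F]
    (Q : Fin m → Pt (algebraMap k F a)) (hQ : IsGen k Q) (N : Fin m → ι → ℤ) (p : ι → Pt a) :
    locus (pt N Q p) = {x | ∃ P : Fin m → Pt a, ∀ i, x i = lin N P i + p i} := by
  ext x
  constructor
  · rintro ⟨w, hw⟩
    have hab : ∃ h : algebraMap k F a ∈ w.O, w.ρ ⟨algebraMap k F a, h⟩ = a := w.const a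
    choose P hP using fun j => exists_red w hab ha0 ha1 (Q j)
    refine ⟨P, fun i => ?_⟩
    exact Red.uniq (hw i) (red_pt' ha0 ha1 N hP p i)
  · rintro ⟨P, hP⟩
    obtain ⟨w, hw⟩ := exists_value ha0 ha1 Q hQ P
    refine ⟨w, fun i => ?_⟩
    rw [hP i]
    exact red_pt' ha0 ha1 N hw p i

theorem psi_prim (ha0 : a ≠ 0) (ha1 : a ≠ 1) {ι : Type} [Fintype ι] (N : Fin m → ι → ℤ)
    (U : Fin m → ι → ℤ) (hU : ∀ j l, ∑ i, U j i * N l i = if j = l then 1 else 0) (p : ι → Pt a) :
    Psi N p = Finsupp.single {x | ∃ P : Fin m → Pt a, ∀ i, x i = lin N P i + p i} 1 := by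
  obtain ⟨F, _, _, Q, hQ⟩ := gen_exists (k := k) (a := a) ha0 ha1 m
  rw [psi_eq ha0 ha1 Q hQ N p]
  unfold cyc
  rw [locus_pt ha0 ha1 Q hQ N p]
  have hpt : pt (fun (i : ι) (j : Fin m) => U j i) (pt N Q p)
      (fun j => -(∑ i, U j i • p i)) = Q := by
    funext j
    have h1 : pt (fun (i : ι) (j : Fin m) => U j i) (pt N Q p)
        (fun j => -(∑ i, U j i • p i)) j =
        (∑ i, U j i • (∑ l, N l i • Q l + bca F (p i))) + bca F (-(∑ i, U j i • p i)) := rfl
    rw [h1, map_neg, map_sum]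
    have h2 : ∀ i, bca F (U j i • p i) = U j i • bca F (p i) := fun i => map_zsmul _ _ _
    simp only [h2, smul_add, Finset.sum_add_distrib]
    rw [add_assoc, add_neg_cancel, add_zero]
    simp only [Finset.smul_sum, smul_smul]
    rw [Finset.sum_comm]
    simp only [← Finset.sum_smul, hU]
    simp
  have htop : coordField k (pt N Q p) = ⊤ := by
    refine top_le_iff.1 ?_
    rw [← hQ.gen]
    have h := coordField_le ha0 ha1 (pt N Q p) (coordField k (pt N Q p))
      (fun i => ⟨IntermediateField.subset_adjoin _ _ (Or.inl ⟨i, rfl⟩),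
        IntermediateField.subset_adjoin _ _ (Or.inr ⟨i, rfl⟩)⟩)
      (fun (i : ι) (j : Fin m) => U j i) (fun j => -(∑ i, U j i • p i))
    rw [hpt] at h
    exact h
  rw [htop, IntermediateField.finrank_top]
  norm_num

end AC
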