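import Mathlib

/-!
Module Quot (project AC, helper18).  The quotient of an abelian group by a subgroup, tensored with ℚ.
PROOF.  V = ℚ ⊗[ℤ] (M ⧸ R), π z = 1 ⊗ z.  1 ⊗ z̄ = 0 iff z̄ is torsion: IsLocalizedModule (nonZeroDivisors ℤ) (TensorProduct.mk ℤ ℚ (M ⧸ R) 1)
(isLocalizedModule_iff_isBaseChange, TensorProduct.isBaseChange) and IsLocalizedModule.eq_zero_iff.
-/

namespace AC


theorem exists_quot {M : Type} [AddCommGroup M] (R : AddSubgroup M) :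
    ∃ (V : Type) (_ : AddCommGroup V) (_ : Module ℚ V) (π : M →+ V),
      ∀ z, π z = 0 ↔ ∃ N : ℕ, 0 < N ∧ N • z ∈ R := by
  refine ⟨TensorProduct ℤ ℚ (M ⧸ R), inferInstance, inferInstance,
    ((TensorProduct.mk ℤ ℚ (M ⧸ R) 1).toAddMonoidHom).comp (QuotientAddGroup.mk' R), ?_⟩
  intro z
  have hloc : IsLocalizedModule (nonZeroDivisors ℤ) (TensorProduct.mk ℤ ℚ (M ⧸ R) 1) :=
    (isLocalizedModule_iff_isBaseChange (nonZeroDivisors ℤ) ℚ _).2 (TensorProduct.isBaseChange _ _ _)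
  have h1 : (((TensorProduct.mk ℤ ℚ (M ⧸ R) 1).toAddMonoidHom).comp (QuotientAddGroup.mk' R)) z =
      TensorProduct.mk ℤ ℚ (M ⧸ R) 1 (QuotientAddGroup.mk' R z) := rfl
  rw [h1, IsLocalizedModule.eq_zero_iff (nonZeroDivisors ℤ) (TensorProduct.mk ℤ ℚ (M ⧸ R) 1)]
  constructor
  · rintro ⟨⟨c, hc⟩, h⟩
    have hc0 : c ≠ 0 := nonZeroDivisors.ne_zero hc
    have h2 : c • (QuotientAddGroup.mk' R z) = 0 := h
    refine ⟨c.natAbs, Int.natAbs_pos.2 hc0, ?_⟩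
    rw [← map_zsmul] at h2
    have h3 : c • z ∈ R := (QuotientAddGroup.eq_zero_iff _).1 h2
    rcases Int.natAbs_eq c with h4 | h4
    · rw [← natCast_zsmul, ← h4]
      exact h3
    · rw [← natCast_zsmul]
      have h5 : (c.natAbs : ℤ) = -c := by omega
      rw [h5, neg_zsmul]
      exact neg_mem h3
  · rintro ⟨N, hN, h⟩
    refine ⟨⟨(N : ℤ), mem_nonZeroDivisors_of_ne_zero (by omega)⟩, ?_⟩
    change (N : ℤ) • (QuotientAddGroup.mk' R z) = 0
    rw [← map_zsmul, natCast_zsmul]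
    exact (QuotientAddGroup.eq_zero_iff _).2 h

end AC
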