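import Pool.Agent.H18.AC.Parallel
import Pool.Agent.H18.AC.ExtProd
import Pool.Agent.H18.AC.LocusPt
import Pool.Agent.H18.AC.Gram2
import Pool.Agent.H18.AC.Quot
import Pool.Agent.ZC.FinalU

/-!
Module Final (project AC, helper18).  Assembly.
-/

namespace AC

open ZC WeierstrassCurve
open scoped Classical

section Abstract

variable {J ι V A T : Type} [Fintype J] [DecidableEq J] [Fintype ι] [DecidableEq ι]
  [AddCommGroup V] [Module ℚ V] [AddCommGroup A] [Fintype T]

/-- the algebraic part of the proof -/
theorem abstract_zero (f : (J → ι → ℤ) → V) (hf : MQ f) (g : (J → ι → ℤ) → (ι → A) →+ V)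
    (hg : ∀ q : ι → A, MQ (fun N => g N q))
    (hcol : ∀ (N : J → ι → ℤ) (j : J) (b : A), g N (fun i => N j i • b) = 0)
    (N : T → J → ι → ℤ) (c : T → ℤ) (q : T → ι → A)
    (h1 : ∀ U : J → ι → ℤ,
      ∑ t, c t * (Matrix.det (fun j l : J => ∑ i, U j i * N t l i)) ^ 2 = 0)
    (h2 : ∀ (U : J → ι → ℤ) (i : ι), ∑ t, c t • albSum U (N t) (q t) i = 0) :
    ∑ t, c t • (f (N t) + g (N t) (q t)) = 0 := by
  simp only [smul_add, Finset.sum_add_distrib]
  have hA : ∑ t, c t • f (N t) = 0 := by
    obtain ⟨C, hC⟩ := alg1 f hf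
    have h3 := gram1 N c h1
    calc ∑ t, c t • f (N t)
        = ∑ t, ∑ I : J → ι, ∑ K : J → ι, (c t * (minor (N t) I * minor (N t) K)) • C I K := by
          refine Finset.sum_congr rfl fun t _ => ?_
          rw [hC, Finset.smul_sum]
          refine Finset.sum_congr rfl fun I _ => ?_
          rw [Finset.smul_sum]
          refine Finset.sum_congr rfl fun K _ => ?_
          rw [smul_smul]
      _ = ∑ I : J → ι, ∑ K : J → ι, (∑ t, c t * (minor (N t) I * minor (N t) K)) • C I K := by
          rw [Finset.sum_comm]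
          refine Finset.sum_congr rfl fun I _ => ?_
          rw [Finset.sum_comm]
          refine Finset.sum_congr rfl fun K _ => ?_
          rw [Finset.sum_smul]
      _ = 0 := by simp [h3]
  have hB : ∑ t, c t • g (N t) (q t) = 0 := by
    obtain ⟨C, hC⟩ := alg2 g hg hcol
    have h3 := gram2 N c q h2
    calc ∑ t, c t • g (N t) (q t)
        = ∑ t, ∑ I : Option J → ι, ∑ K : J → ι,
            C I K ((c t * minor (N t) K) • minorA (N t) (q t) I) := by
          refine Finset.sum_congr rfl fun t _ => ?_
          rw [hC, Finset.smul_sum]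
          refine Finset.sum_congr rfl fun I _ => ?_
          rw [Finset.smul_sum]
          refine Finset.sum_congr rfl fun K _ => ?_
          rw [smul_smul, map_zsmul]
      _ = ∑ I : Option J → ι, ∑ K : J → ι,
            C I K (∑ t, (c t * minor (N t) K) • minorA (N t) (q t) I) := by
          rw [Finset.sum_comm]
          refine Finset.sum_congr rfl fun I _ => ?_
          rw [Finset.sum_comm]
          refine Finset.sum_congr rfl fun K _ => ?_
          rw [map_sum]
      _ = 0 := by
          refine Finset.sum_eq_zero fun I _ => Finset.sum_eq_zero fun K _ => ?_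
          obtain ⟨M, hM, h4⟩ := h3 I K
          have h5 := congrArg (C I K) h4
          rw [map_nsmul, map_zero] at h5
          have h6 : ((M : ℚ)) • C I K (∑ t, (c t * minor (N t) K) • minorA (N t) (q t) I) = 0 := by
            rw [← h5, Nat.cast_smul_eq_nsmul]
          rcases smul_eq_zero.1 h6 with h7 | h7
          · exact absurd h7 (by exact_mod_cast hM.ne')
          · exact h7
  rw [hA, hB, add_zero]

end Abstract

section Geometric

variable {k : Type} [Field k] [IsAlgClosed k] [CharZero k] {a : k} {ι : Type} [Fintype ι] {m : ℕ}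

/-- the parallelogram law in any column -/
theorem parallel' (ha0 : a ≠ 0) (ha1 : a ≠ 1) (N : Fin m → ι → ℤ) (p : ι → Pt a) (j : Fin m)
    (γ δ : ι → ℤ) :
    Psi (Function.update N j (γ + δ)) p + Psi (Function.update N j (γ - δ)) p -
      2 • Psi (Function.update N j γ) p - 2 • Psi (Function.update N j δ) p ∈ ratM a ι m := by
  obtain ⟨m', rfl⟩ : ∃ m', m = m' + 1 := ⟨m - 1, by have := j.2; omega⟩
  have key : ∀ v : ι → ℤ, Psi (Function.update N j v) p =
      Psi (Fin.cons v (fun l => N (Equiv.swap 0 j l.succ)) : Fin (m' + 1) → ι → ℤ) p := by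
    intro v
    rw [← psi_perm ha0 ha1 (Function.update N j v) p (Equiv.swap 0 j)]
    congr 1
    funext l
    refine Fin.cases ?_ (fun l => ?_) l
    · rw [Equiv.swap_apply_left, Function.update_self, Fin.cons_zero]
    · rw [Fin.cons_succ, Function.update_of_ne]
      intro h
      rw [Equiv.swap_apply_eq_iff, Equiv.swap_apply_right] at h
      exact absurd h (Fin.succ_ne_zero l)
  rw [key, key, key, key]
  exact parallel ha0 ha1 _ γ δ p

theorem final_torsion (ha0 : a ≠ 0) (ha1 : a ≠ 1) (A : AddSubgroup (Pt a)) 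
    (hA : ∀ z : CyclesN (fun _ : ι => a), (∀ x ∈ z.support, ∀ i, x i ∈ A) →
      (z.sum fun _ m => m) = 0 → (∀ i, (z.sum fun x m => m • x i) = 0) →
      ∃ N : ℕ, 0 < N ∧ N • z ∈ ratZeroN (fun _ : ι => a))
    {T : Type} [Fintype T] (N U₀ : T → Fin m → ι → ℤ)
    (hU : ∀ t j l, ∑ i, U₀ t j i * N t l i = if j = l then 1 else 0)
    (c : T → ℤ) (q : T → ι → Pt a) (hq : ∀ t i, q t i ∈ A)
    (h1 : ∀ U : Fin m → ι → ℤ,
      ∑ t, c t * (Matrix.det (fun j l : Fin m => ∑ i, U j i * N t l i)) ^ 2 = 0)
    (h2 : ∀ (U : Fin m → ι → ℤ) (i : ι), ∑ t, c t • albSum U (N t) (q t) i = 0) :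
    ∃ M : ℕ, 0 < M ∧
      M • ∑ t, c t • (Finsupp.single {x | ∃ P : Fin m → Pt a, ∀ i, x i = lin (N t) P i + q t i} 1 :
        CyclesM a ι) ∈ ratM a ι m := by
  obtain ⟨V, _, _, π, hπ⟩ := exists_quot (ratM a ι m)
  rw [← hπ]
  have hrat : ∀ z ∈ ratM a ι m, π z = 0 := by
    intro z hz
    rw [hπ]
    exact ⟨1, one_pos, by rwa [one_smul]⟩
  -- multi-quadraticity
  have hMQ : ∀ p : ι → Pt a, MQ (fun N : Fin m → ι → ℤ => π (Psi N p)) := by
    intro p
    refine ⟨?_, ?_, ?_⟩
    · intro N j x y
      have h := hrat _ (parallel' ha0 ha1 N p j x y)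
      simp only [map_sub, map_add, map_nsmul] at h
      rw [sub_sub, sub_eq_zero] at h
      exact h
    · intro π' N
      rw [psi_perm ha0 ha1]
    · intro N i j hij hN
      rw [psi_eq_col ha0 ha1 N p hij hN, map_zero]
  -- additivity
  let F : (Fin m → ι → ℤ) → (ι → A) → V := fun N p =>
    π (Psi N (fun i => (p i : Pt a))) - π (Psi N (fun _ => (0 : Pt a)))
  have hF0 : ∀ N, F N 0 = 0 := by
    intro N
    have : (fun i => ((0 : ι → A) i : Pt a)) = fun _ : ι => (0 : Pt a) := rfl
    simp only [F, this, sub_self]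
  have hFadd : ∀ N p p', F N (p + p') = F N p + F N p' := by
    intro N p p'
    let z : CyclesN (fun _ : ι => a) :=
      Finsupp.single (fun i => (p i : Pt a) + (p' i : Pt a)) 1 -
      Finsupp.single (fun i => (p i : Pt a)) 1 - Finsupp.single (fun i => (p' i : Pt a)) 1 +
      Finsupp.single (fun _ => (0 : Pt a)) 1
    have hz : ∃ N : ℕ, 0 < N ∧ N • z ∈ ratZeroN (fun _ : ι => a) := by
      apply hA
      · intro x hx i
        have h3 : x ∈ ({(fun i => (p i : Pt a) + (p' i : Pt a)), (fun i => (p i : Pt a)),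
            (fun i => (p' i : Pt a)), (fun _ => (0 : Pt a))} : Set (ι → Pt a)) := by
          by_contra hcon
          simp only [Set.mem_insert_iff, Set.mem_singleton_iff, not_or] at hcon
          rw [Finsupp.mem_support_iff] at hx
          apply hx
          simp only [z, Finsupp.coe_add, Finsupp.coe_sub, Pi.add_apply, Pi.sub_apply]
          rw [Finsupp.single_eq_of_ne (Ne.symm (Ne.symm hcon.1)), 
            Finsupp.single_eq_of_ne (Ne.symm (Ne.symm hcon.2.1)),
            Finsupp.single_eq_of_ne (Ne.symm (Ne.symm hcon.2.2.1)),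
            Finsupp.single_eq_of_ne (Ne.symm (Ne.symm hcon.2.2.2))]
          simp
        rcases h3 with h3 | h3 | h3 | h3
        · rw [h3]; exact A.add_mem (p i).2 (p' i).2
        · rw [h3]; exact (p i).2
        · rw [h3]; exact (p' i).2
        · rw [h3]; exact A.zero_mem
      · have hadd : ∀ u v : CyclesN (fun _ : ι => a), ((u + v).sum fun _ m => m) =
            (u.sum fun _ m => m) + v.sum fun _ m => m := fun u v =>
          Finsupp.sum_add_index' (fun _ => rfl) (fun _ _ _ => rfl)
        have hsub : ∀ u v : CyclesN (fun _ : ι => a), ((u - v).sum fun _ m => m) =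
            (u.sum fun _ m => m) - v.sum fun _ m => m := fun u v =>
          Finsupp.sum_sub_index (fun _ _ _ => rfl)
        simp only [z]
        rw [hadd, hsub, hsub, Finsupp.sum_single_index rfl, Finsupp.sum_single_index rfl,
          Finsupp.sum_single_index rfl, Finsupp.sum_single_index rfl]
        norm_num
      · intro i
        have hadd : ∀ u v : CyclesN (fun _ : ι => a), ((u + v).sum fun x m => m • x i) =
            (u.sum fun x m => m • x i) + v.sum fun x m => m • x i := fun u v =>
          Finsupp.sum_add_index' (fun _ => zero_smul _ _) (fun _ _ _ => add_smul _ _ _)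
        have hsub : ∀ u v : CyclesN (fun _ : ι => a), ((u - v).sum fun x m => m • x i) =
            (u.sum fun x m => m • x i) - v.sum fun x m => m • x i := fun u v =>
          Finsupp.sum_sub_index (fun _ _ _ => sub_smul _ _ _)
        have hs : ∀ x : ι → Pt a, ((Finsupp.single x 1 : CyclesN (fun _ : ι => a)).sum
            fun x m => m • x i) = x i := by
          intro x
          exact (Finsupp.sum_single_index (h := fun (x : ι → Pt a) (m : ℤ) => m • x i)
            (zero_smul ℤ (x i))).trans (one_smul ℤ (x i))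
        simp only [z]
        rw [hadd, hsub, hsub, hs, hs, hs, hs]
        abel
    obtain ⟨M, hM, h4⟩ := hz
    have h5 := hrat _ (act_rat ha0 ha1 N _ h4)
    rw [map_nsmul, map_nsmul] at h5
    have h6 : ((M : ℚ)) • π (act N z) = 0 := by rw [← h5, Nat.cast_smul_eq_nsmul]
    rcases smul_eq_zero.1 h6 with h7 | h7
    · exact absurd h7 (by exact_mod_cast hM.ne')
    have hact : ∀ p : ι → Pt a, act N (Finsupp.single p 1 : CyclesN (fun _ : ι => a)) = Psi N p := by
      intro p
      simp [act]
    have h8 : act N z = Psi N (fun i => (p i : Pt a) + (p' i : Pt a)) -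
        Psi N (fun i => (p i : Pt a)) - Psi N (fun i => (p' i : Pt a)) + Psi N (fun _ => (0 : Pt a)) := by
      simp only [z, map_add, map_sub]
      rw [hact, hact, hact, hact]
    rw [h8] at h7
    simp only [map_add, map_sub] at h7
    simp only [F, Pi.add_apply, AddSubgroup.coe_add]
    have h9 : π (Psi N fun i => (p i : Pt a) + (p' i : Pt a)) = π (Psi N fun i => (p i : Pt a)) +
        π (Psi N fun i => (p' i : Pt a)) - π (Psi N fun _ => (0 : Pt a)) := by
      rw [← sub_eq_zero, ← h7]; abel
    rw [h9]; abel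
  let g : (Fin m → ι → ℤ) → (ι → A) →+ V := fun N =>
    { toFun := F N, map_zero' := hF0 N, map_add' := hFadd N }
  have hg : ∀ q : ι → A, MQ (fun N => g N q) := by
    intro q
    have h3 := hMQ (fun i => (q i : Pt a))
    have h4 := hMQ (fun _ => (0 : Pt a))
    refine ⟨?_, ?_, ?_⟩
    · intro c j x y
      have h5 := h3.par c j x y
      have h6 := h4.par c j x y
      simp only [g, F, AddMonoidHom.coe_mk, ZeroHom.coe_mk]
      simp only [smul_sub]
      rw [sub_add_sub_comm, h5, h6]; abel
    · intro π' c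
      have h5 := h3.symm π' c
      have h6 := h4.symm π' c
      simp only [g, F, AddMonoidHom.coe_mk, ZeroHom.coe_mk]
      exact congrArg₂ (· - ·) h5 h6
    · intro c i j hij hc
      have h5 := h3.eqcol c i j hij hc
      have h6 := h4.eqcol c i j hij hc
      simp only [g, F, AddMonoidHom.coe_mk, ZeroHom.coe_mk]
      exact (congrArg₂ (· - ·) h5 h6).trans (sub_zero 0)
  have hcol : ∀ (N : Fin m → ι → ℤ) (j : Fin m) (b : A), g N (fun i => N j i • b) = 0 := by
    intro N j b
    simp only [g, F, AddMonoidHom.coe_mk, ZeroHom.coe_mk]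
    rw [sub_eq_zero]
    congr 1
    have h3 := psi_translate ha0 ha1 N (fun _ => (0 : Pt a))
      (fun l => if l = j then (b : Pt a) else 0)
    rw [← h3]
    congr 1
    funext i
    unfold lin
    rw [zero_add]
    simp
  have key := abstract_zero (fun N : Fin m → ι → ℤ => π (Psi N (fun _ => (0 : Pt a)))) (hMQ _) g hg hcol
    N c (fun t i => (⟨q t i, hq t i⟩ : A)) h1 (by
      intro U i
      apply Subtype.ext
      have h3 := h2 U i
      simp only [albSum] at h3 ⊢
      push_cast
      exact h3)
  rw [map_sum, ← key]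
  refine Finset.sum_congr rfl fun t _ => ?_
  rw [map_zsmul]
  congr 1
  simp only [g, F, AddMonoidHom.coe_mk, ZeroHom.coe_mk]
  rw [add_sub_cancel, psi_prim ha0 ha1 (N t) (U₀ t) (hU t) (q t)]

end Geometric

end AC
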