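import Pool.Agent.H18.AC.RedLin

/-!
Module Triv (project AC, helper18).  Places which are trivial on a subfield.
PROOF.  triv_alg: u algebraic over F: ∑ c_i u^i = 0 with c_n ≠ 0, c_0 ≠ 0 (u ≠ 0).  If v u > 1 the leading term dominates strictly (v c_i ≤ 1, v c_n = 1);
if v u < 1 apply it to u⁻¹ (also algebraic).
triv_gen: F = k(Q), Q generic; the values q j at w of the base changes are affine with x-coordinates algebraically independent over k.
For P ∈ k[X_j] (MvPolynomial), P ≠ 0: P(xc Q) ∈ O_w has residue P(xc q) ≠ 0, so w.v (P(xc Q)) = 1; so w is trivial on the subfield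
F₀ = adjoin k {xc (Q j)} (fractions), and F is algebraic over F₀ (generated by yc (Q j), quadratic over F₀): triv_alg.
triv_emb: u ∈ F has w.v u ≤ 1, φ u = residueHom w ⟨algebraMap F L u, _⟩; it is a ring hom as a composite F → O_w → Residue w, and
compatible with k.  bcs φ (Q j) = q j by Red.uniq (Red (resPl w) (bcs toAlgHom (Q j)) (bcs φ (Q j)) holds by construction).
-/

namespace AC

open ZC WeierstrassCurve
open scoped Classical

private theorem triv_alg_le {F L : Type} [Field F] [Field L] [Algebra F L] [Algebra.IsAlgebraic F L]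
    {Γ : Type} [LinearOrderedCommGroupWithZero Γ] (v : Valuation L Γ)
    (h : ∀ u : F, u ≠ 0 → v (algebraMap F L u) = 1) (u : L) : v u ≤ 1 := by
  have hmem : ∀ c : F, algebraMap F L c ∈ v.integer := by
    intro c
    by_cases hc : c = 0
    · rw [hc, map_zero]; exact zero_mem _
    · change v _ ≤ 1
      rw [h c hc]
  have hint : IsIntegral F u := (Algebra.IsAlgebraic.isAlgebraic (R := F) u).isIntegral
  obtain ⟨p, hp, hpu⟩ := hint
  have hint' : IsIntegral v.integer u := by
    refine ⟨p.map ((algebraMap F L).codRestrict v.integer hmem), hp.map _, ?_⟩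
    rw [Polynomial.eval₂_map]
    exact hpu
  exact Valuation.Integers.mem_of_integral (Valuation.integer.integers v) hint'

theorem triv_alg {F L : Type} [Field F] [Field L] [Algebra F L] [Algebra.IsAlgebraic F L]
    {Γ : Type} [LinearOrderedCommGroupWithZero Γ] (v : Valuation L Γ)
    (h : ∀ u : F, u ≠ 0 → v (algebraMap F L u) = 1) : ∀ u : L, u ≠ 0 → v u = 1 := by
  intro u hu
  apply le_antisymm (triv_alg_le v h u)
  have h1 := triv_alg_le v h u⁻¹
  rw [map_inv₀] at h1
  have h2 : 0 < v u := by
    rw [zero_lt_iff]
    exact (Valuation.ne_zero_iff v).2 hu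
  exact (inv_le_one₀ h2).1 h1

variable {k : Type} [Field k] [CharZero k] {a : k} {F L : Type} [Field F] [Field L] [Algebra k F]
  [Algebra k L] [Algebra F L] [IsScalarTower k F L] {m : ℕ}

omit [CharZero k] in
private theorem triv_unit (w : Place k L) (x : w.v.valuationSubring) (hx : residueHom w x ≠ 0) :
    w.v (x : L) = 1 := by
  have hu : IsUnit x := by
    by_contra hcon
    exact hx ((IsLocalRing.residue_eq_zero_iff x).2 ((IsLocalRing.mem_maximalIdeal x).2 hcon))
  obtain ⟨y, hy⟩ := hu.exists_right_inv
  have h1 : w.v (x : L) ≤ 1 := x.2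
  have h2 : w.v (y : L) ≤ 1 := y.2
  have h3 : w.v (x : L) * w.v (y : L) = 1 := by
    rw [← map_mul]
    have : (x : L) * (y : L) = 1 := by
      have := congrArg (Subtype.val) hy
      simpa using this
    rw [this, map_one]
  apply le_antisymm h1
  calc (1 : WithZero (Multiplicative ℤ)) = w.v (x : L) * w.v (y : L) := h3.symm
    _ ≤ w.v (x : L) * 1 := by gcongr
    _ = w.v (x : L) := mul_one _

omit [CharZero k] [Algebra F L] [IsScalarTower k F L] [Field L] [Algebra k L] in
private theorem triv_isAlg (Q : Fin m → Pt (algebraMap k F a)) (hQ : IsGen k Q) :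
    Algebra.IsAlgebraic (IntermediateField.adjoin k (Set.range fun j => xc (Q j))) F := by
  set F₀ := IntermediateField.adjoin k (Set.range fun j => xc (Q j)) with hF₀
  have hle : coordField k Q ≤ (algebraicClosure F₀ F).restrictScalars k := by
    unfold coordField
    rw [IntermediateField.adjoin_le_iff]
    have hx : ∀ j, IsAlgebraic F₀ (xc (Q j)) := by
      intro j
      have hmem : xc (Q j) ∈ F₀ := IntermediateField.subset_adjoin _ _ ⟨j, rfl⟩
      exact isAlgebraic_algebraMap (⟨_, hmem⟩ : F₀)
    have ha : IsAlgebraic F₀ (algebraMap k F a) := by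
      have hmem : algebraMap k F a ∈ F₀ := F₀.algebraMap_mem a
      exact isAlgebraic_algebraMap (⟨_, hmem⟩ : F₀)
    have h1 : IsAlgebraic F₀ (1 : F) := isAlgebraic_one
    rintro z (⟨j, rfl⟩ | ⟨j, rfl⟩)
    · exact mem_algebraicClosure_iff.2 (hx j)
    · refine mem_algebraicClosure_iff.2 ?_
      change IsAlgebraic F₀ (yc (Q j))
      have hsq : (yc (Q j)) ^ 2 = xc (Q j) * (xc (Q j) - 1) * (xc (Q j) - algebraMap k F a) := by
        have h2 := (show ∀ P : Pt (algebraMap k F a), (yc P) ^ 2 = xc P * (xc P - 1) *
            (xc P - algebraMap k F a) from by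
          rintro (_ | ⟨x, y, hxy⟩)
          · change (0 : F) ^ 2 = 0 * (0 - 1) * (0 - algebraMap k F a)
            ring
          · exact (leg_equation _ _ _).1 hxy.1)
        exact h2 (Q j)
      have h3 : IsAlgebraic F₀ ((yc (Q j)) ^ 2) := by
        rw [hsq]
        exact ((hx j).mul ((hx j).sub h1)).mul ((hx j).sub ha)
      exact h3.of_pow (by norm_num)
  rw [hQ.gen] at hle
  constructor
  intro x
  exact mem_algebraicClosure_iff.1 (hle (IntermediateField.mem_top (x := x)))

theorem triv_gen (Q : Fin m → Pt (algebraMap k F a)) (hQ : IsGen k Q) (w : Place k L)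
    (q : Fin m → Pt (algebraMap k (Residue w) a))
    (hred : ∀ j, Red (resPl w) (bcs (IsScalarTower.toAlgHom k F L) (Q j)) (q j))
    (hq : AlgebraicIndependent k (fun j => xc (q j))) :
    ∀ u : F, u ≠ 0 → w.v (algebraMap F L u) = 1 := by
  -- coordinates
  have hx : ∀ j, ∃ h : algebraMap F L (xc (Q j)) ∈ w.v.valuationSubring,
      residueHom w ⟨algebraMap F L (xc (Q j)), h⟩ = xc (q j) := by
    intro j
    have hne : xc (q j) ≠ 0 := hq.ne_zero j
    have hr := hred j
    revert hr hne
    generalize q j = r
    generalize Q j = R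
    intro hne hr
    rcases r with _ | ⟨x, y, hxy⟩
    · exact absurd rfl hne
    · rcases R with _ | ⟨X, Y, hXY⟩
      · exact absurd hr (fun h => h)
      · exact hr.1
  choose hxm hxr using hx
  -- nonzero polynomials
  have hpoly : ∀ P : MvPolynomial (Fin m) k, P ≠ 0 →
      w.v (algebraMap F L (MvPolynomial.aeval (fun j => xc (Q j)) P)) = 1 := by
    intro P hP
    set z : w.v.valuationSubring :=
      MvPolynomial.eval₂ (constHom w) (fun j => ⟨algebraMap F L (xc (Q j)), hxm j⟩) P with hz
    have h1 : (z : L) = algebraMap F L (MvPolynomial.aeval (fun j => xc (Q j)) P) := by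
      have h2 : (z : L) = w.v.valuationSubring.subtype z := rfl
      rw [h2, hz, MvPolynomial.hom_eval₂ P (constHom w) w.v.valuationSubring.subtype,
        MvPolynomial.aeval_def, MvPolynomial.hom_eval₂ P (algebraMap k F) (algebraMap F L)]
      have h3 : w.v.valuationSubring.subtype.comp (constHom w) =
          (algebraMap F L).comp (algebraMap k F) := by
        ext c
        change algebraMap k L c = algebraMap F L (algebraMap k F c)
        exact IsScalarTower.algebraMap_apply k F L c
      rw [h3]
      rfl
    have h4 : residueHom w z = MvPolynomial.aeval (fun j => xc (q j)) P := by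
      rw [hz, MvPolynomial.hom_eval₂ P (constHom w) (residueHom w), MvPolynomial.aeval_def]
      have h5 : (fun j => residueHom w (⟨algebraMap F L (xc (Q j)), hxm j⟩ :
          w.v.valuationSubring)) = fun j => xc (q j) := by
        funext j
        exact hxr j
      rw [h5]
      rfl
    rw [← h1]
    apply triv_unit w z
    rw [h4]
    intro h0
    exact hP (algebraicIndependent_iff.1 hq P h0)
  -- the subfield generated by the x-coordinates
  have halg := triv_isAlg Q hQ
  have hF₀ : ∀ u : IntermediateField.adjoin k (Set.range fun j => xc (Q j)), u ≠ 0 →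
      (w.v.comap (algebraMap F L)) (algebraMap _ F u) = 1 := by
    rintro ⟨u, hu⟩ hu0
    change w.v (algebraMap F L u) = 1
    have hu0' : u ≠ 0 := fun h => hu0 (Subtype.ext h)
    obtain ⟨r, s, hrs⟩ := (IntermediateField.mem_adjoin_range_iff k _ u).1 hu
    have hr : r ≠ 0 := by
      rintro rfl
      apply hu0'
      rw [hrs, map_zero, zero_div]
    have hs : s ≠ 0 := by
      rintro rfl
      apply hu0'
      rw [hrs, map_zero, div_zero]
    rw [hrs, map_div₀, map_div₀, hpoly r hr, hpoly s hs, div_one]
  intro u hu
  exact triv_alg (w.v.comap (algebraMap F L)) hF₀ u hu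

/-- a field `F` on which the place is trivial embeds into the residue field -/
theorem triv_emb (w : Place k L) (h : ∀ u : F, u ≠ 0 → w.v (algebraMap F L u) = 1) :
    ∃ φ : F →ₐ[k] Residue w, (∀ u : F, ∃ h : algebraMap F L u ∈ w.v.valuationSubring,
        φ u = residueHom w ⟨algebraMap F L u, h⟩) ∧
      ∀ P : Pt (algebraMap k F a),
        Red (resPl w) (bcs (IsScalarTower.toAlgHom k F L) P) (bcs φ P) := by
  have hmem : ∀ u : F, algebraMap F L u ∈ w.v.valuationSubring := by
    intro u
    rw [Valuation.mem_valuationSubring_iff]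
    by_cases hu : u = 0
    · rw [hu, map_zero, map_zero]; exact zero_le_one
    · rw [h u hu]
  set g : F →+* w.v.valuationSubring := (algebraMap F L).codRestrict w.v.valuationSubring hmem
    with hg
  set φ : F →ₐ[k] Residue w :=
    { (residueHom w).comp g with
      commutes' := by
        intro c
        change residueHom w (g (algebraMap k F c)) = residueHom w (constHom w c)
        congr 1
        apply Subtype.ext
        change algebraMap F L (algebraMap k F c) = algebraMap k L c
        exact (IsScalarTower.algebraMap_apply k F L c).symm } with hφ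
  refine ⟨φ, fun u => ⟨hmem u, rfl⟩, ?_⟩
  rintro (_ | ⟨x, y, hxy⟩)
  · exact trivial
  · exact ⟨⟨hmem x, rfl⟩, ⟨hmem y, rfl⟩⟩

end AC
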