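import Pool.Agent.H18.AC.QuadGen
import Pool.Agent.H18.AC.Triv

/-!
Module GaussA (project AC, helper18; written by helper69).  L' = L(X, Y), Y ^ 2 = cub(X), and places w of L' whose
value of X is transcendental over the residue field of L (GaussCond): the values of w are determined by its values on L.
Main computation: `gaussAux_main` (value of A(X) + B(X) Y), scaling: `gaussAux_scale`, normal form: `gaussAux_form`.
-/

namespace AC

open ZC WeierstrassCurve
open scoped Classical

open Polynomial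

variable {k L L' : Type} [Field k] [Field L] [Field L'] [Algebra k L] [Algebra k L'] [Algebra L L']
  [IsScalarTower k L L']

/-- the value of `X` at `w` is transcendental over the residue field of `L` -/
def GaussCond (L : Type) {k L' : Type} [Field k] [Field L] [Field L'] [Algebra k L'] [Algebra L L']
    (w : Place k L') (X : L') : Prop :=
  ∀ P : L[X], (∀ i, w.v (algebraMap L L' (P.coeff i)) ≤ 1) →
    (∃ i, w.v (algebraMap L L' (P.coeff i)) = 1) → w.v (aeval X P) = 1

section gaussAux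

theorem gaussAux_sq_ne {F : Type} [Field F] (A B : F[X]) (c : F) (h : A ≠ 0 ∨ B ≠ 0) :
    A ^ 2 - B ^ 2 * (X * (X - 1) * (X - C c)) ≠ 0 := by
  intro h0
  have h1 : A ^ 2 = B ^ 2 * (X * (X - 1) * (X - C c)) := sub_eq_zero.mp h0
  have hX1 : (X - 1 : F[X]) ≠ 0 := by
    have := X_sub_C_ne_zero (1 : F)
    simpa using this
  have hXc : (X - C c : F[X]) ≠ 0 := X_sub_C_ne_zero c
  by_cases hB : B = 0
  · subst hB
    have : A ^ 2 = 0 := by rw [h1]; ring
    have hA : A = 0 := by simpa using this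
    rcases h with h | h
    · exact h hA
    · exact h rfl
  · have e := congrArg natDegree h1
    have hX : (X : F[X]) ≠ 0 := X_ne_zero
    rw [natDegree_pow, natDegree_mul (pow_ne_zero 2 hB) (mul_ne_zero (mul_ne_zero hX hX1) hXc),
      natDegree_pow, natDegree_mul (mul_ne_zero hX hX1) hXc, natDegree_mul hX hX1, natDegree_X,
      natDegree_X_sub_C] at e
    have : (X - 1 : F[X]).natDegree = 1 := by
      have := natDegree_X_sub_C (1 : F)
      simpa using this
    rw [this] at e
    omega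

/-- scaling a pair of polynomials -/
theorem gaussAux_scale {L Γ : Type} [Field L] [LinearOrderedCommGroupWithZero Γ] (v : Valuation L Γ)
    (A B : L[X]) (h : A ≠ 0 ∨ B ≠ 0) :
    ∃ c : L, c ≠ 0 ∧ ∃ A₁ B₁ : L[X], A = C c * A₁ ∧ B = C c * B₁ ∧ (∀ i, v (A₁.coeff i) ≤ 1) ∧
      (∀ i, v (B₁.coeff i) ≤ 1) ∧ ((∃ i, v (A₁.coeff i) = 1) ∨ ∃ i, v (B₁.coeff i) = 1) := by
  -- all coefficients
  let T : Finset L := A.support.image A.coeff ∪ B.support.image B.coeff
  have hT : T.Nonempty := by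
    rcases h with h | h
    · obtain ⟨i, hi⟩ := nonempty_support_iff.mpr h
      exact ⟨A.coeff i, Finset.mem_union_left _ (Finset.mem_image_of_mem _ hi)⟩
    · obtain ⟨i, hi⟩ := nonempty_support_iff.mpr h
      exact ⟨B.coeff i, Finset.mem_union_right _ (Finset.mem_image_of_mem _ hi)⟩
  obtain ⟨c, hcT, hmax⟩ := T.exists_max_image v hT
  have hc0 : c ≠ 0 := by
    rcases Finset.mem_union.mp hcT with hc | hc
    · obtain ⟨i, hi, rfl⟩ := Finset.mem_image.mp hc
      exact mem_support_iff.mp hi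
    · obtain ⟨i, hi, rfl⟩ := Finset.mem_image.mp hc
      exact mem_support_iff.mp hi
  have hvc : v c ≠ 0 := (Valuation.ne_zero_iff _).mpr hc0
  have hA : ∀ i, v (A.coeff i) ≤ v c := by
    intro i
    by_cases hi : A.coeff i = 0
    · rw [hi, map_zero]; exact zero_le
    · exact hmax _ (Finset.mem_union_left _ (Finset.mem_image_of_mem _ (mem_support_iff.mpr hi)))
  have hB : ∀ i, v (B.coeff i) ≤ v c := by
    intro i
    by_cases hi : B.coeff i = 0
    · rw [hi, map_zero]; exact zero_le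
    · exact hmax _ (Finset.mem_union_right _ (Finset.mem_image_of_mem _ (mem_support_iff.mpr hi)))
  have key : ∀ x : L, v x ≤ v c → v (c⁻¹ * x) ≤ 1 := by
    intro x hx
    rw [map_mul, map_inv₀]
    calc (v c)⁻¹ * v x ≤ (v c)⁻¹ * v c := mul_le_mul_right hx _
      _ = 1 := inv_mul_cancel₀ hvc
  refine ⟨c, hc0, C c⁻¹ * A, C c⁻¹ * B, ?_, ?_, ?_, ?_, ?_⟩
  · rw [← mul_assoc, ← C_mul, mul_inv_cancel₀ hc0, C_1, one_mul]
  · rw [← mul_assoc, ← C_mul, mul_inv_cancel₀ hc0, C_1, one_mul]
  · intro i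
    rw [coeff_C_mul]
    exact key _ (hA i)
  · intro i
    rw [coeff_C_mul]
    exact key _ (hB i)
  · rcases Finset.mem_union.mp hcT with hc | hc
    · obtain ⟨i, hi, hi'⟩ := Finset.mem_image.mp hc
      left
      refine ⟨i, ?_⟩
      rw [coeff_C_mul, hi', inv_mul_cancel₀ hc0, map_one]
    · obtain ⟨i, hi, hi'⟩ := Finset.mem_image.mp hc
      right
      refine ⟨i, ?_⟩
      rw [coeff_C_mul, hi', inv_mul_cancel₀ hc0, map_one]

theorem gaussAux_scale1 {L Γ : Type} [Field L] [LinearOrderedCommGroupWithZero Γ] (v : Valuation L Γ)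
    (A : L[X]) (h : A ≠ 0) :
    ∃ c : L, c ≠ 0 ∧ ∃ A₁ : L[X], A = C c * A₁ ∧ (∀ i, v (A₁.coeff i) ≤ 1) ∧
      ∃ i, v (A₁.coeff i) = 1 := by
  obtain ⟨c, hc, A₁, B₁, h1, h2, h3, h4, h5⟩ := gaussAux_scale v A 0 (Or.inl h)
  refine ⟨c, hc, A₁, h1, h3, ?_⟩
  rcases h5 with h5 | ⟨i, hi⟩
  · exact h5
  · exfalso
    have : B₁ = 0 := by
      rcases mul_eq_zero.mp h2.symm with h | h
      · exact absurd (C_eq_zero.mp h) hc
      · exact h
    rw [this] at hi
    simp at hi

/-- coefficients of `A² - B² cub` -/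
theorem gaussAux_coeff {L Γ : Type} [Field L] [LinearOrderedCommGroupWithZero Γ] (v : Valuation L Γ)
    (A B : L[X]) (c : L) (hc : v c ≤ 1) (hA : ∀ i, v (A.coeff i) ≤ 1) (hB : ∀ i, v (B.coeff i) ≤ 1)
    (h : (∃ i, v (A.coeff i) = 1) ∨ ∃ i, v (B.coeff i) = 1) :
    (∀ i, v ((A ^ 2 - B ^ 2 * (X * (X - 1) * (X - C c))).coeff i) ≤ 1) ∧
      ∃ i, v ((A ^ 2 - B ^ 2 * (X * (X - 1) * (X - C c))).coeff i) = 1 := by
  let O := v.valuationSubring
  let φ : O →+* L := O.subtype
  have lift : ∀ P : L[X], (∀ i, v (P.coeff i) ≤ 1) → ∃ P₀ : O[X], P₀.map φ = P := by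
    intro P hP
    have : P ∈ lifts φ := by
      rw [lifts_iff_coeff_lifts]
      intro i
      exact ⟨⟨P.coeff i, (Valuation.mem_valuationSubring_iff _ _).mpr (hP i)⟩, rfl⟩
    exact (mem_lifts P).mp this
  obtain ⟨A₀, hA₀⟩ := lift A hA
  obtain ⟨B₀, hB₀⟩ := lift B hB
  let c₀ : O := ⟨c, (Valuation.mem_valuationSubring_iff _ _).mpr hc⟩
  have hc₀ : φ c₀ = c := rfl
  let r : O →+* IsLocalRing.ResidueField O := IsLocalRing.residue O
  let D₀ : O[X] := A₀ ^ 2 - B₀ ^ 2 * (X * (X - 1) * (X - C c₀))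
  have hD : D₀.map φ = A ^ 2 - B ^ 2 * (X * (X - 1) * (X - C c)) := by
    simp only [D₀, Polynomial.map_sub, Polynomial.map_mul, Polynomial.map_pow, map_X,
      Polynomial.map_one, map_C, hA₀, hB₀, hc₀]
  have hu : ∀ x : O, v (φ x) = 1 ↔ r x ≠ 0 := by
    intro x
    have h1 : v (φ x) = 1 ↔ IsUnit x := by
      have := (ValuationSubring.valuation_eq_one_iff O x)
      have h2 : v (φ x) = 1 ↔ O.valuation x = 1 := by
        have := (Valuation.isEquiv_valuation_valuationSubring v)
        exact this.eq_one_iff_eq_one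
      rw [h2, ← this]
    rw [h1]
    exact (IsLocalRing.residue_ne_zero_iff_isUnit x).symm
  have hAB : A₀.map r ≠ 0 ∨ B₀.map r ≠ 0 := by
    rcases h with ⟨i, hi⟩ | ⟨i, hi⟩
    · left
      intro h0
      have h1 := congrArg (fun P => P.coeff i) h0
      simp only [coeff_map, coeff_zero] at h1
      rw [← hA₀, coeff_map] at hi
      exact (hu _).mp hi h1
    · right
      intro h0
      have h1 := congrArg (fun P => P.coeff i) h0
      simp only [coeff_map, coeff_zero] at h1
      rw [← hB₀, coeff_map] at hi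
      exact (hu _).mp hi h1
  have hDr : D₀.map r ≠ 0 := by
    have := gaussAux_sq_ne (A₀.map r) (B₀.map r) (r c₀) hAB
    simpa only [D₀, Polynomial.map_sub, Polynomial.map_mul, Polynomial.map_pow, map_X,
      Polynomial.map_one, map_C] using this
  rw [← hD]
  constructor
  · intro i
    rw [coeff_map]
    exact (Valuation.mem_valuationSubring_iff _ _).mp (D₀.coeff i).2
  · obtain ⟨i, hi⟩ := nonempty_support_iff.mpr hDr
    refine ⟨i, ?_⟩
    rw [coeff_map, hu]
    rw [mem_support_iff, coeff_map] at hi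
    exact hi

theorem gaussAux_main {c : L} {X' Y : L'} (hsq : Y ^ 2 = aeval X' (cub c)) (w : Place k L')
    (hc : w.v (algebraMap L L' c) ≤ 1) (hG : GaussCond L w X') (A B : L[X])
    (hA : ∀ i, w.v (algebraMap L L' (A.coeff i)) ≤ 1)
    (hB : ∀ i, w.v (algebraMap L L' (B.coeff i)) ≤ 1)
    (h : (∃ i, w.v (algebraMap L L' (A.coeff i)) = 1) ∨
      ∃ i, w.v (algebraMap L L' (B.coeff i)) = 1) :
    w.v (aeval X' A + aeval X' B * Y) = 1 := by
  have hle : ∀ P : L[X], (∀ i, w.v (algebraMap L L' (P.coeff i)) ≤ 1) → w.v (aeval X' P) ≤ 1 := by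
    intro P hP
    by_cases h1 : ∃ i, w.v (algebraMap L L' (P.coeff i)) = 1
    · exact (hG P hP h1).le
    · -- all coefficients `< 1`; use P + 1
      push Not at h1
      have h2 : w.v (aeval X' (P + 1)) = 1 := by
        apply hG
        · intro i
          rw [coeff_add, map_add]
          refine (Valuation.map_add _ _ _).trans (max_le (hP i) ?_)
          rw [coeff_one]
          split_ifs <;> simp
        · refine ⟨0, ?_⟩
          rw [coeff_add, map_add, coeff_one, if_pos rfl, map_one, add_comm]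
          exact Valuation.map_one_add_of_lt _ (lt_of_le_of_ne (hP 0) (h1 0))
      have h3 : aeval X' P = aeval X' (P + 1) - 1 := by rw [map_add, map_one]; ring
      rw [h3]
      refine (Valuation.map_sub _ _ _).trans (max_le h2.le ?_)
      rw [map_one]
  have hcub : aeval X' (cub c) = aeval X' (Polynomial.X * (Polynomial.X - 1) *
      (Polynomial.X - Polynomial.C c)) := rfl
  -- v(Y) = 1
  have hcc := gaussAux_coeff (w.v.comap (algebraMap L L')) 0 1 c hc
    (by intro i; simp) (by intro i; rw [coeff_one]; split_ifs <;> simp)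
    (Or.inr ⟨0, by simp⟩)
  have hY2 : w.v (Y ^ 2) = 1 := by
    have h1 := hG _ hcc.1 hcc.2
    have h2 : aeval X' ((0 : L[X]) ^ 2 - 1 ^ 2 * (Polynomial.X * (Polynomial.X - 1) *
      (Polynomial.X - Polynomial.C c))) = - Y ^ 2 := by
      rw [hsq, hcub]
      simp only [map_sub, map_mul, map_pow, map_zero, map_one, aeval_X, aeval_C]
      ring
    rw [h2, Valuation.map_neg] at h1
    exact h1
  have hY : w.v Y = 1 := by
    rw [map_pow] at hY2
    rcases pow_eq_one_iff.mp hY2 with h | h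
    · exact h
    · omega
  have hcoef := gaussAux_coeff (w.v.comap (algebraMap L L')) A B c hc hA hB h
  have h1 := hG _ hcoef.1 hcoef.2
  have h2 : aeval X' (A ^ 2 - B ^ 2 * (Polynomial.X * (Polynomial.X - 1) *
      (Polynomial.X - Polynomial.C c))) =
      (aeval X' A + aeval X' B * Y) * (aeval X' A - aeval X' B * Y) := by
    have e : (aeval X' A + aeval X' B * Y) * (aeval X' A - aeval X' B * Y) =
      (aeval X' A) ^ 2 - (aeval X' B) ^ 2 * Y ^ 2 := by ring
    rw [e, hsq, hcub, map_sub, map_mul, map_pow, map_pow]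
  rw [h2, map_mul] at h1
  have hBY : w.v (aeval X' B * Y) ≤ 1 := by
    rw [map_mul, hY, mul_one]; exact hle B hB
  have h3 : w.v (aeval X' A + aeval X' B * Y) ≤ 1 :=
    (Valuation.map_add _ _ _).trans (max_le (hle A hA) hBY)
  have h4 : w.v (aeval X' A - aeval X' B * Y) ≤ 1 :=
    (Valuation.map_sub _ _ _).trans (max_le (hle A hA) hBY)
  refine le_antisymm h3 ?_
  rw [← h1]
  calc w.v (aeval X' A + aeval X' B * Y) * w.v (aeval X' A - aeval X' B * Y)
      ≤ w.v (aeval X' A + aeval X' B * Y) * 1 := mul_le_mul_right h4 _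
    _ = _ := mul_one _

/-- normal form of a nonzero element -/
theorem gaussAux_form {c : L} {X' Y : L'} (H : IsQuad L L' (cub c) X' Y) (v : Valuation L
    (WithZero (Multiplicative ℤ))) (u' : L') (hu : u' ≠ 0) :
    ∃ (c₁ : L) (A B C₁ : L[X]), c₁ ≠ 0 ∧ u' * aeval X' C₁ = algebraMap L L' c₁ *
      (aeval X' A + aeval X' B * Y) ∧ (∀ i, v (A.coeff i) ≤ 1) ∧
      (∀ i, v (B.coeff i) ≤ 1) ∧ ((∃ i, v (A.coeff i) = 1) ∨ ∃ i, v (B.coeff i) = 1) ∧
      (∀ i, v (C₁.coeff i) ≤ 1) ∧ ∃ i, v (C₁.coeff i) = 1 := by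
  obtain ⟨A, B, D, hD, he⟩ := H.gen u'
  have hDX : aeval X' D ≠ 0 := by
    intro h0
    exact hD (H.indep D 0 (by rw [h0, map_zero, zero_mul, add_zero])).1
  have hAB : A ≠ 0 ∨ B ≠ 0 := by
    by_contra hcon
    push Not at hcon
    rw [hcon.1, hcon.2, map_zero, zero_mul, add_zero] at he
    rcases mul_eq_zero.mp he with h | h
    · exact hu h
    · exact hDX h
  obtain ⟨d, hd, D₁, hD₁, hDc, hDi⟩ := gaussAux_scale1 v D hD
  obtain ⟨e, he0, A₁, B₁, hA₁, hB₁, hAc, hBc, hABi⟩ := gaussAux_scale v A B hAB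
  refine ⟨d⁻¹ * e, A₁, B₁, D₁, mul_ne_zero (inv_ne_zero hd) he0, ?_, hAc, hBc, hABi, hDc, hDi⟩
  have hd' : algebraMap L L' d ≠ 0 := by
    rw [Ne, map_eq_zero]; exact hd
  rw [hD₁, hA₁, hB₁] at he
  simp only [map_mul, aeval_C] at he
  rw [map_mul, map_inv₀]
  field_simp
  linear_combination he

end gaussAux

theorem gauss_range {c : L} {X Y : L'} (H : IsQuad L L' (cub c) X Y) (w : Place k L')
    (hc : w.v (algebraMap L L' c) ≤ 1) (hG : GaussCond L w X) (u' : L') :
    ∃ u : L, w.v u' = w.v (algebraMap L L' u) := by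
  by_cases hu : u' = 0
  · exact ⟨0, by rw [hu, map_zero, map_zero, map_zero]⟩
  · obtain ⟨c₁, A, B, C₁, hc₁, he, hA, hB, hAB, hC, hCi⟩ :=
      gaussAux_form H (w.v.comap (algebraMap L L')) u' hu
    refine ⟨c₁, ?_⟩
    have h1 := gaussAux_main H.sq w hc hG A B hA hB hAB
    have h2 := hG C₁ hC hCi
    have h3 := congrArg w.v he
    rw [map_mul, map_mul, h1, h2, mul_one, mul_one] at h3
    exact h3

theorem gauss_unique {c : L} {X Y : L'} (H : IsQuad L L' (cub c) X Y) (w w' : Place k L')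
    (hc : w.v (algebraMap L L' c) ≤ 1)
    (hG : GaussCond L w X) (hG' : GaussCond L w' X)
    (h : ∀ u : L, w.v (algebraMap L L' u) = w'.v (algebraMap L L' u)) : w = w' := by
  have hv : w.v = w'.v := by
    ext u'
    by_cases hu : u' = 0
    · rw [hu, map_zero, map_zero]
    · obtain ⟨c₁, A, B, C₁, hc₁, he, hA, hB, hAB, hC, hCi⟩ :=
        gaussAux_form H (w.v.comap (algebraMap L L')) u' hu
      have h1 := gaussAux_main H.sq w hc hG A B hA hB hAB
      have h2 := hG C₁ hC hCi
      have h3 := congrArg w.v he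
      rw [map_mul, map_mul, h1, h2, mul_one, mul_one] at h3
      have hA' : ∀ i, w'.v (algebraMap L L' (A.coeff i)) ≤ 1 := fun i => by
        rw [← h]; exact hA i
      have hB' : ∀ i, w'.v (algebraMap L L' (B.coeff i)) ≤ 1 := fun i => by
        rw [← h]; exact hB i
      have hC' : ∀ i, w'.v (algebraMap L L' (C₁.coeff i)) ≤ 1 := fun i => by
        rw [← h]; exact hC i
      have hAB' : (∃ i, w'.v (algebraMap L L' (A.coeff i)) = 1) ∨
          ∃ i, w'.v (algebraMap L L' (B.coeff i)) = 1 := by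
        rcases hAB with ⟨i, hi⟩ | ⟨i, hi⟩
        · exact Or.inl ⟨i, by rw [← h]; exact hi⟩
        · exact Or.inr ⟨i, by rw [← h]; exact hi⟩
      have hCi' : ∃ i, w'.v (algebraMap L L' (C₁.coeff i)) = 1 := by
        obtain ⟨i, hi⟩ := hCi
        exact ⟨i, by rw [← h]; exact hi⟩
      have h1' := gaussAux_main H.sq w' (by rw [← h]; exact hc) hG' A B hA' hB' hAB'
      have h2' := hG' C₁ hC' hCi'
      have h3' := congrArg w'.v he
      rw [map_mul, map_mul, h1', h2', mul_one, mul_one] at h3'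
      rw [h3, h3', h]
  cases w
  cases w'
  simp only at hv
  subst hv
  rfl

theorem gauss_residue {c : L} {X Y : L'} (H : IsQuad L L' (cub c) X Y) (w : Place k L')
    (hc : w.v (algebraMap L L' c) ≤ 1) (hG : GaussCond L w X) (S : Subfield (Residue w))
    (hS : ∀ (u : L') (hu : u ∈ w.v.valuationSubring), (u ∈ Set.range (algebraMap L L') ∨ u = X ∨ u = Y) →
      residueHom w ⟨u, hu⟩ ∈ S) : S = ⊤ := by
  rw [eq_top_iff]
  intro z _
  obtain ⟨⟨u', hu'⟩, rfl⟩ := IsLocalRing.residue_surjective (R := w.v.valuationSubring) z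
  by_cases hu : u' = 0
  · subst hu
    have : (⟨0, hu'⟩ : w.v.valuationSubring) = 0 := rfl
    rw [this, map_zero]
    exact S.zero_mem
  · obtain ⟨c₁, A, B, C₁, hc₁, he, hA, hB, hAB, hC, hCi⟩ :=
      gaussAux_form H (w.v.comap (algebraMap L L')) u' hu
    have h1 := gaussAux_main H.sq w hc hG A B hA hB hAB
    have h2 := hG C₁ hC hCi
    have h3 := congrArg w.v he
    rw [map_mul, map_mul, h1, h2, mul_one, mul_one] at h3
    have hc1 : w.v (algebraMap L L' c₁) ≤ 1 := by
      rw [← h3]; exact (Valuation.mem_valuationSubring_iff _ _).mp hu'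
    -- the subring of elements with residue in S
    let T : Subring L' := (S.toSubring.comap (residueHom w)).map w.v.valuationSubring.subtype
    have hT : ∀ (u : L') (hu : u ∈ w.v.valuationSubring), residueHom w ⟨u, hu⟩ ∈ S → u ∈ T := by
      intro u hu h
      exact ⟨⟨u, hu⟩, h, rfl⟩
    have hT' : ∀ u ∈ T, ∃ hu : u ∈ w.v.valuationSubring, residueHom w ⟨u, hu⟩ ∈ S := by
      rintro u ⟨⟨u₀, hu₀⟩, h, rfl⟩
      exact ⟨hu₀, h⟩
    have hTL : ∀ u : L, w.v (algebraMap L L' u) ≤ 1 → algebraMap L L' u ∈ T := by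
      intro u hu
      have hu' : algebraMap L L' u ∈ w.v.valuationSubring :=
        (Valuation.mem_valuationSubring_iff _ _).mpr hu
      exact hT _ hu' (hS _ hu' (Or.inl ⟨u, rfl⟩))
    have hX1 : w.v X = 1 := by
      have := hG Polynomial.X (by intro i; rw [coeff_X]; split_ifs <;> simp) ⟨1, by simp⟩
      rwa [aeval_X] at this
    have hY1 : w.v Y = 1 := by
      have := gaussAux_main H.sq w hc hG 0 1 (by intro i; simp)
        (by intro i; rw [coeff_one]; split_ifs <;> simp) (Or.inr ⟨0, by simp⟩)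
      simpa using this
    have hXT : X ∈ T := by
      have hu' : X ∈ w.v.valuationSubring := (Valuation.mem_valuationSubring_iff _ _).mpr hX1.le
      exact hT _ hu' (hS _ hu' (Or.inr (Or.inl rfl)))
    have hYT : Y ∈ T := by
      have hu' : Y ∈ w.v.valuationSubring := (Valuation.mem_valuationSubring_iff _ _).mpr hY1.le
      exact hT _ hu' (hS _ hu' (Or.inr (Or.inr rfl)))
    have hTP : ∀ P : L[X], (∀ i, w.v (algebraMap L L' (P.coeff i)) ≤ 1) → aeval X P ∈ T := by
      intro P hP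
      rw [aeval_eq_sum_range]
      refine Subring.sum_mem _ ?_
      intro i _
      rw [Algebra.smul_def]
      exact Subring.mul_mem _ (hTL _ (hP i)) (Subring.pow_mem _ hXT i)
    have hN : algebraMap L L' c₁ * (aeval X A + aeval X B * Y) ∈ T :=
      Subring.mul_mem _ (hTL _ hc1) (Subring.add_mem _ (hTP A hA)
        (Subring.mul_mem _ (hTP B hB) hYT))
    obtain ⟨hN1, hN2⟩ := hT' _ hN
    obtain ⟨hC1, hC2⟩ := hT' _ (hTP C₁ hC)
    have hC3 : residueHom w ⟨aeval X C₁, hC1⟩ ≠ 0 := by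
      intro h0
      have h5 : (⟨aeval X C₁, hC1⟩ : w.v.valuationSubring) ∈
        IsLocalRing.maximalIdeal w.v.valuationSubring := by
        exact (IsLocalRing.residue_eq_zero_iff _).mp h0
      have h6 : IsUnit (⟨aeval X C₁, hC1⟩ : w.v.valuationSubring) := by
        have h7 : (⟨aeval X C₁, hC1⟩ : w.v.valuationSubring) * ⟨(aeval X C₁)⁻¹,
          (Valuation.mem_valuationSubring_iff _ _).mpr (by rw [map_inv₀, h2, inv_one])⟩ = 1 := by
          apply Subtype.ext
          have : aeval X C₁ ≠ 0 := by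
            intro h0
            rw [h0, map_zero] at h2
            exact zero_ne_one h2
          show aeval X C₁ * (aeval X C₁)⁻¹ = 1
          exact mul_inv_cancel₀ this
        exact IsUnit.of_mul_eq_one _ h7
      exact (IsLocalRing.mem_maximalIdeal _).mp h5 h6
    have h8 : residueHom w ⟨u', hu'⟩ * residueHom w ⟨aeval X C₁, hC1⟩ =
        residueHom w ⟨algebraMap L L' c₁ * (aeval X A + aeval X B * Y), hN1⟩ := by
      rw [← map_mul]
      congr 1
      apply Subtype.ext
      exact he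
    have h9 : residueHom w ⟨u', hu'⟩ =
      residueHom w ⟨algebraMap L L' c₁ * (aeval X A + aeval X B * Y), hN1⟩ *
        (residueHom w ⟨aeval X C₁, hC1⟩)⁻¹ := by
      rw [← h8, mul_assoc, mul_inv_cancel₀ hC3, mul_one]
    show residueHom w ⟨u', hu'⟩ ∈ S
    rw [h9]
    exact S.mul_mem hN2 (S.inv_mem hC2)

end AC
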