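import Pool.Agent.H18.AC.GaussA

/-!
Module GaussB (project AC, helper18).  Existence of the Gauss extension of a place of L to L' = L(X, Y).
PROOF.  O = valuation ring of w₀ in L, 𝔪 its maximal ideal.  R₀ = {P(X)/D(X) | P, D ∈ O[X], D ∉ 𝔪[X]} ⊆ L' is a subring with the proper
ideal {P(X)/D(X) | P ∈ 𝔪[X]}; choose a valuation ring B of L' containing R₀ with the ideal in its non-units.  For D ∈ O[X] with some unit
coefficient D(X) is a unit of B; every u' ≠ 0 in L' is u times a unit of B with u ∈ L, and B ∩ L = O.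
Define w.v u' = w₀.v u: well defined, multiplicative, ultrametric (B is a valuation ring), surjective, trivial on k.
-/

namespace AC

open ZC WeierstrassCurve
open scoped Classical

open Polynomial

set_option linter.unusedSectionVars false

variable {k L L' : Type} [Field k] [Field L] [Field L'] [Algebra k L] [Algebra k L'] [Algebra L L']
  [IsScalarTower k L L']

namespace GaussBAux

/-- evaluation at `X` of polynomials over the valuation ring -/
noncomputable def ev (O : ValuationSubring L) (X : L') : O[X] →+* L' :=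
  eval₂RingHom ((algebraMap L L').comp (algebraMap O L)) X

/-- reduction of polynomials over the valuation ring -/
noncomputable def red (O : ValuationSubring L) : O[X] →+* (IsLocalRing.ResidueField O)[X] :=
  mapRingHom (IsLocalRing.residue O)

theorem ev_eq (O : ValuationSubring L) (X : L') (P : O[X]) :
    ev O X P = aeval X (P.map (algebraMap O L)) := by
  unfold ev
  rw [coe_eval₂RingHom, aeval_def, eval₂_map]

theorem ev_C (O : ValuationSubring L) (X : L') (u : O) :
    ev O X (C u) = algebraMap L L' (u : L) := by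
  unfold ev
  rw [coe_eval₂RingHom, eval₂_C]
  rfl

theorem ev_X (O : ValuationSubring L) (X : L') : ev O X Polynomial.X = X := by
  unfold ev
  rw [coe_eval₂RingHom, eval₂_X]

theorem ev_inj {c : L} {X Y : L'} (H : IsQuad L L' (cub c) X Y) (O : ValuationSubring L)
    {P : O[X]} (h : ev O X P = 0) : P = 0 := by
  rw [ev_eq] at h
  have h1 := (H.indep (P.map (algebraMap O L)) 0 (by rw [h, map_zero, zero_mul, add_zero])).1
  exact (Polynomial.map_eq_zero_iff Subtype.val_injective).1 h1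

/-- the localised polynomial ring -/
noncomputable def R0 (O : ValuationSubring L) (X : L') : Subring L' where
  carrier := {z | ∃ P D : O[X], red O D ≠ 0 ∧ z * ev O X D = ev O X P}
  zero_mem' := ⟨0, 1, by simp, by simp⟩
  one_mem' := ⟨1, 1, by simp, by simp⟩
  add_mem' := by
    rintro x y ⟨P, D, hD, hx⟩ ⟨P', D', hD', hy⟩
    refine ⟨P * D' + P' * D, D * D', by rw [map_mul]; exact mul_ne_zero hD hD', ?_⟩
    rw [map_mul, map_add, map_mul, map_mul, ← hx, ← hy]
    ring
  mul_mem' := by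
    rintro x y ⟨P, D, hD, hx⟩ ⟨P', D', hD', hy⟩
    refine ⟨P * P', D * D', by rw [map_mul]; exact mul_ne_zero hD hD', ?_⟩
    rw [map_mul, map_mul, ← hx, ← hy]
    ring
  neg_mem' := by
    rintro x ⟨P, D, hD, hx⟩
    refine ⟨-P, D, hD, ?_⟩
    rw [map_neg, ← hx]
    ring

/-- the ideal of the non-units -/
noncomputable def I0 (O : ValuationSubring L) (X : L') : Ideal (R0 O X) where
  carrier := {z | ∃ P D : O[X], red O P = 0 ∧ red O D ≠ 0 ∧ (z : L') * ev O X D = ev O X P}
  zero_mem' := ⟨0, 1, by simp, by simp, by simp⟩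
  add_mem' := by
    rintro x y ⟨P, D, hP, hD, hx⟩ ⟨P', D', hP', hD', hy⟩
    refine ⟨P * D' + P' * D, D * D', by rw [map_add, map_mul, map_mul, hP, hP', zero_mul,
      zero_mul, add_zero], by rw [map_mul]; exact mul_ne_zero hD hD', ?_⟩
    rw [map_mul, map_add, map_mul, map_mul, ← hx, ← hy, Subring.coe_add]
    ring
  smul_mem' := by
    rintro ⟨x, P, D, hD, hx⟩ ⟨y, hy0⟩ ⟨P', D', hP', hD', hy⟩
    refine ⟨P * P', D * D', by rw [map_mul, hP', mul_zero], by
      rw [map_mul]; exact mul_ne_zero hD hD', ?_⟩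
    change x * y * _ = _
    change y * _ = _ at hy
    rw [map_mul, map_mul, ← hx, ← hy]
    ring

theorem I0_ne {c : L} {X Y : L'} (H : IsQuad L L' (cub c) X Y) (O : ValuationSubring L) :
    I0 O X ≠ ⊤ := by
  intro h
  have h1 : (1 : R0 O X) ∈ I0 O X := by rw [h]; trivial
  obtain ⟨P, D, hP, hD, hx⟩ := h1
  rw [OneMemClass.coe_one, one_mul] at hx
  have h2 : D - P = 0 := ev_inj H O (by rw [map_sub, hx, sub_self])
  rw [sub_eq_zero] at h2
  exact hD (h2 ▸ hP)

/-- the data of a valuation ring extending the Gauss valuation -/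
structure Good (w₀ : Place k L) (X : L') (B : ValuationSubring L') : Prop where
  unit : ∀ D : w₀.v.valuationSubring[X], red w₀.v.valuationSubring D ≠ 0 →
    ev w₀.v.valuationSubring X D ∈ B ∧ (ev w₀.v.valuationSubring X D)⁻¹ ∈ B
  mem : ∀ D : w₀.v.valuationSubring[X], ev w₀.v.valuationSubring X D ∈ B
  iff : ∀ u : L, algebraMap L L' u ∈ B ↔ w₀.v u ≤ 1

theorem exists_good {c : L} {X Y : L'} (H : IsQuad L L' (cub c) X Y) (w₀ : Place k L) :
    ∃ B : ValuationSubring L', Good w₀ X B := by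
  set O := w₀.v.valuationSubring with hO
  obtain ⟨B, hB, hI⟩ := Ideal.image_subset_nonunits_valuationSubring (I0 O X) (I0_ne H O)
  have hmem : ∀ D : O[X], ev O X D ∈ B := fun D =>
    hB ⟨D, 1, by simp, by simp⟩
  refine ⟨B, ⟨?_, hmem, ?_⟩⟩
  · intro D hD
    refine ⟨hmem D, hB ⟨1, D, hD, ?_⟩⟩
    have h0 : ev O X D ≠ 0 := by
      intro h0
      apply hD
      rw [ev_inj H O h0, map_zero]
    rw [inv_mul_cancel₀ h0, map_one]
  · intro u
    constructor
    · intro hu
      by_contra hcon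
      rw [not_le] at hcon
      have hu0 : u ≠ 0 := by
        rintro rfl
        rw [map_zero] at hcon
        exact absurd hcon (not_lt.2 zero_le_one)
      have h1 : w₀.v u⁻¹ < 1 := by
        rw [map_inv₀]
        exact inv_lt_one_of_one_lt₀ hcon
      have h2 : u⁻¹ ∈ O := h1.le
      have h3 : (algebraMap L L' u)⁻¹ ∈ B.nonunits := by
        apply hI
        have e1 : (algebraMap L L' u)⁻¹ * ev O X 1 = ev O X (C ⟨u⁻¹, h2⟩) := by
          rw [map_one, mul_one, ev_C, map_inv₀]
        have hz : (algebraMap L L' u)⁻¹ ∈ R0 O X := ⟨C ⟨u⁻¹, h2⟩, 1, by simp, e1⟩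
        refine ⟨⟨(algebraMap L L' u)⁻¹, hz⟩, ⟨C ⟨u⁻¹, h2⟩, 1, ?_, by simp, e1⟩, rfl⟩
        unfold red
        rw [coe_mapRingHom, map_C]
        rw [(IsLocalRing.residue_eq_zero_iff _).2, C_0]
        exact (Valuation.mem_maximalIdeal_iff _ _).2 h1
      rcases (B.inv_mem_nonunits_iff).1 h3 with h4 | h4
      · exact hu0 ((map_eq_zero _).1 h4)
      · exact h4 hu
    · intro hu
      have := hmem (C ⟨u, hu⟩)
      rwa [ev_C] at this

theorem red_ne (w₀ : Place k L) (D : w₀.v.valuationSubring[X])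
    (h : ∃ i, w₀.v (D.coeff i : L) = 1) : red w₀.v.valuationSubring D ≠ 0 := by
  obtain ⟨i, hi⟩ := h
  intro h0
  have h1 := congrArg (fun P => P.coeff i) h0
  simp only [red, coe_mapRingHom, coeff_map, coeff_zero] at h1
  rw [IsLocalRing.residue_eq_zero_iff] at h1
  have h2 := (Valuation.mem_maximalIdeal_iff _ _).1 h1
  rw [hi] at h2
  exact lt_irrefl _ h2

theorem lift (w₀ : Place k L) (A : L[X]) (h : ∀ i, w₀.v (A.coeff i) ≤ 1) :
    ∃ A₁ : w₀.v.valuationSubring[X], A₁.map (algebraMap w₀.v.valuationSubring L) = A := by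
  have h1 : A ∈ Polynomial.lifts (algebraMap w₀.v.valuationSubring L) := by
    rw [Polynomial.lifts_iff_coeff_lifts]
    intro n
    exact ⟨⟨A.coeff n, h n⟩, rfl⟩
  exact (Polynomial.mem_lifts A).1 h1

theorem scale (w₀ : Place k L) (X : L') (A B : L[X]) (hAB : ¬ (A = 0 ∧ B = 0)) :
    ∃ (c : L) (A₁ B₁ : w₀.v.valuationSubring[X]), c ≠ 0 ∧
      (red w₀.v.valuationSubring A₁ ≠ 0 ∨ red w₀.v.valuationSubring B₁ ≠ 0) ∧
      aeval X A = algebraMap L L' c * ev w₀.v.valuationSubring X A₁ ∧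
      aeval X B = algebraMap L L' c * ev w₀.v.valuationSubring X B₁ := by
  set S : Finset L := (A.support.image A.coeff) ∪ (B.support.image B.coeff) with hS
  have hne : S.Nonempty := by
    rw [hS, Finset.union_nonempty, Finset.image_nonempty, Finset.image_nonempty,
      support_nonempty, support_nonempty]
    by_contra hcon
    push Not at hcon
    exact hAB hcon
  obtain ⟨c, hcS, hmax⟩ := S.exists_max_image (fun u => w₀.v u) hne
  have hc0 : c ≠ 0 := by
    rw [hS, Finset.mem_union, Finset.mem_image, Finset.mem_image] at hcS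
    rcases hcS with ⟨i, hi, rfl⟩ | ⟨i, hi, rfl⟩
    · exact mem_support_iff.1 hi
    · exact mem_support_iff.1 hi
  have hv : 0 < w₀.v c := (Valuation.pos_iff _).2 hc0
  have hA : ∀ i, w₀.v ((C c⁻¹ * A).coeff i) ≤ 1 := by
    intro i
    rw [coeff_C_mul, map_mul, map_inv₀]
    by_cases h0 : A.coeff i = 0
    · rw [h0, map_zero, mul_zero]; exact zero_le_one
    · have := hmax (A.coeff i) (Finset.mem_union_left _ (Finset.mem_image_of_mem _
        (mem_support_iff.2 h0)))
      exact (inv_mul_le_one₀ hv).2 this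
  have hB : ∀ i, w₀.v ((C c⁻¹ * B).coeff i) ≤ 1 := by
    intro i
    rw [coeff_C_mul, map_mul, map_inv₀]
    by_cases h0 : B.coeff i = 0
    · rw [h0, map_zero, mul_zero]; exact zero_le_one
    · have := hmax (B.coeff i) (Finset.mem_union_right _ (Finset.mem_image_of_mem _
        (mem_support_iff.2 h0)))
      exact (inv_mul_le_one₀ hv).2 this
  obtain ⟨A₁, hA₁⟩ := lift w₀ _ hA
  obtain ⟨B₁, hB₁⟩ := lift w₀ _ hB
  have key : ∀ (D : L[X]) (D₁ : w₀.v.valuationSubring[X]),
      D₁.map (algebraMap w₀.v.valuationSubring L) = C c⁻¹ * D →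
      (∃ i, D.coeff i = c) → red w₀.v.valuationSubring D₁ ≠ 0 := by
    rintro D D₁ h ⟨i, hi⟩
    apply red_ne
    refine ⟨i, ?_⟩
    have h1 := congrArg (fun P => P.coeff i) h
    simp only [coeff_map, coeff_C_mul, hi] at h1
    rw [inv_mul_cancel₀ hc0] at h1
    have h2 : (D₁.coeff i : L) = 1 := h1
    rw [h2, map_one]
  have key2 : ∀ (D : L[X]) (D₁ : w₀.v.valuationSubring[X]),
      D₁.map (algebraMap w₀.v.valuationSubring L) = C c⁻¹ * D →
      aeval X D = algebraMap L L' c * ev w₀.v.valuationSubring X D₁ := by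
    intro D D₁ h
    rw [ev_eq, h, map_mul, aeval_C, ← mul_assoc, ← map_mul, mul_inv_cancel₀ hc0, map_one, one_mul]
  refine ⟨c, A₁, B₁, hc0, ?_, key2 A A₁ hA₁, key2 B B₁ hB₁⟩
  rw [hS, Finset.mem_union, Finset.mem_image, Finset.mem_image] at hcS
  rcases hcS with ⟨i, -, hi⟩ | ⟨i, -, hi⟩
  · exact Or.inl (key A A₁ hA₁ ⟨i, hi⟩)
  · exact Or.inr (key B B₁ hB₁ ⟨i, hi⟩)

theorem cub_ne {κ : Type} [Field κ] (c : κ) (a b : κ[X]) (h : a ≠ 0 ∨ b ≠ 0) :
    a ^ 2 - b ^ 2 * (Polynomial.X * (Polynomial.X - 1) * (Polynomial.X - C c)) ≠ 0 := by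
  intro h0
  rw [sub_eq_zero] at h0
  have h1 : (Polynomial.X * (Polynomial.X - 1) * (Polynomial.X - C c) : κ[X]).natDegree = 3 := by
    rw [← C_1, natDegree_mul (mul_ne_zero X_ne_zero (X_sub_C_ne_zero _)) (X_sub_C_ne_zero _),
      natDegree_mul X_ne_zero (X_sub_C_ne_zero _), natDegree_X, natDegree_X_sub_C,
      natDegree_X_sub_C]
  have h2 : (Polynomial.X * (Polynomial.X - 1) * (Polynomial.X - C c) : κ[X]) ≠ 0 := by
    intro h3
    rw [h3, natDegree_zero] at h1
    omega
  by_cases hb : b = 0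
  · rw [hb, zero_pow two_ne_zero, zero_mul] at h0
    exact h.elim (fun h => h (pow_eq_zero_iff two_ne_zero |>.1 h0)) (fun h => h hb)
  · have h3 := congrArg natDegree h0
    rw [natDegree_mul (pow_ne_zero _ hb) h2, natDegree_pow, natDegree_pow, h1] at h3
    omega

section

variable {c : k} {X Y : L'} (H : IsQuad L L' (cub (algebraMap k L c)) X Y) (w₀ : Place k L)
  {B : ValuationSubring L'} (G : Good w₀ X B)

include H G in
theorem Y_mem : Y ∈ B := by
  have hX : X ∈ B := by
    have := G.mem Polynomial.X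
    rwa [ev_X] at this
  have hc : algebraMap L L' (algebraMap k L c) ∈ B := (G.iff _).2 (algebraMap_mem w₀ c)
  have hY2 : Y ^ 2 ∈ B := by
    rw [H.sq]
    unfold cub
    rw [map_mul, map_mul, map_sub, map_sub, map_one, aeval_X, aeval_C]
    exact mul_mem (mul_mem hX (sub_mem hX (one_mem _))) (sub_mem hX hc)
  rcases B.mem_or_inv_mem Y with h | h
  · exact h
  · by_cases h0 : Y = 0
    · rw [h0]; exact zero_mem _
    · have : Y = Y ^ 2 * Y⁻¹ := by field_simp
      rw [this]
      exact mul_mem hY2 h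

include H G in
theorem unit2 (A₁ B₁ : w₀.v.valuationSubring[X])
    (h : red w₀.v.valuationSubring A₁ ≠ 0 ∨ red w₀.v.valuationSubring B₁ ≠ 0) :
    ev w₀.v.valuationSubring X A₁ + ev w₀.v.valuationSubring X B₁ * Y ∈ B ∧
    (ev w₀.v.valuationSubring X A₁ + ev w₀.v.valuationSubring X B₁ * Y)⁻¹ ∈ B := by
  have hY := Y_mem H w₀ G
  set z := ev w₀.v.valuationSubring X A₁ + ev w₀.v.valuationSubring X B₁ * Y with hz
  set z' := ev w₀.v.valuationSubring X A₁ - ev w₀.v.valuationSubring X B₁ * Y with hz'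
  have h1 : z ∈ B := add_mem (G.mem _) (mul_mem (G.mem _) hY)
  have h2 : z' ∈ B := sub_mem (G.mem _) (mul_mem (G.mem _) hY)
  set co : w₀.v.valuationSubring := ⟨algebraMap k L c, algebraMap_mem w₀ c⟩ with hco
  set cO : w₀.v.valuationSubring[X] := Polynomial.X * (Polynomial.X - 1) * (Polynomial.X - C co) with hcO
  have h3 : ev w₀.v.valuationSubring X cO = Y ^ 2 := by
    rw [H.sq, hcO]
    unfold cub
    rw [map_mul, map_mul, map_sub, map_sub, map_one, ev_X, ev_C]
    rw [map_mul, map_mul, map_sub, map_sub, map_one, aeval_X, aeval_C]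
  have h4 : z * z' = ev w₀.v.valuationSubring X (A₁ ^ 2 - B₁ ^ 2 * cO) := by
    rw [map_sub, map_mul, map_pow, map_pow, h3, hz, hz']
    ring
  have h5 : red w₀.v.valuationSubring (A₁ ^ 2 - B₁ ^ 2 * cO) ≠ 0 := by
    rw [map_sub, map_mul, map_pow, map_pow, hcO, map_mul, map_mul, map_sub, map_sub, map_one]
    have e1 : red w₀.v.valuationSubring Polynomial.X = Polynomial.X := by
      unfold red; rw [coe_mapRingHom, Polynomial.map_X]
    have e2 : red w₀.v.valuationSubring (C co) = C (IsLocalRing.residue w₀.v.valuationSubring co) := by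
      unfold red; rw [coe_mapRingHom, Polynomial.map_C]
    rw [e1, e2]
    exact cub_ne _ _ _ h
  obtain ⟨h6, h7⟩ := G.unit _ h5
  refine ⟨h1, ?_⟩
  have h8 : ev w₀.v.valuationSubring X (A₁ ^ 2 - B₁ ^ 2 * cO) ≠ 0 := by
    intro h0
    apply h5
    rw [ev_inj H _ h0, map_zero]
  have h9 : z ≠ 0 := by
    intro h0
    rw [h0, zero_mul] at h4
    exact h8 h4.symm
  have h10 : z' ≠ 0 := by
    intro h0
    rw [h0, mul_zero] at h4
    exact h8 h4.symm
  have h11 : z⁻¹ = z' * (ev w₀.v.valuationSubring X (A₁ ^ 2 - B₁ ^ 2 * cO))⁻¹ := by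
    rw [← h4]
    field_simp
  rw [h11]
  exact mul_mem h2 h7

/-- `z` is `u` times a unit of `B` -/
def Asc (B : ValuationSubring L') (z : L') (u : L) : Prop :=
  u ≠ 0 ∧ z * (algebraMap L L' u)⁻¹ ∈ B ∧ algebraMap L L' u * z⁻¹ ∈ B

include H G in
theorem exists_asc (z : L') (hz : z ≠ 0) : ∃ u : L, Asc B z u := by
  obtain ⟨A, B', C', hC, hgen⟩ := H.gen z
  have hC' : aeval X C' ≠ 0 := by
    intro h0
    exact hC (H.indep C' 0 (by rw [h0, map_zero, zero_mul, add_zero])).1
  have hAB : ¬ (A = 0 ∧ B' = 0) := by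
    rintro ⟨rfl, rfl⟩
    rw [map_zero, zero_mul, add_zero] at hgen
    exact mul_ne_zero hz hC' hgen
  obtain ⟨d, A₁, B₁, hd, hred, hA, hB⟩ := scale w₀ X A B' hAB
  obtain ⟨e, C₁, D₁, he, hred', hC₁, hD₁⟩ := scale w₀ X C' 0 (fun h => hC h.1)
  have hd' : algebraMap L L' d ≠ 0 := (_root_.map_ne_zero _).2 hd
  have he' : algebraMap L L' e ≠ 0 := (_root_.map_ne_zero _).2 he
  have hD0 : D₁ = 0 := by
    rw [map_zero] at hD₁
    have : ev w₀.v.valuationSubring X D₁ = 0 := by
      rcases mul_eq_zero.1 hD₁.symm with h | h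
      · exact absurd h he'
      · exact h
    exact ev_inj H _ this
  have hred'' : red w₀.v.valuationSubring C₁ ≠ 0 := by
    rcases hred' with h | h
    · exact h
    · exact absurd (by rw [hD0, map_zero]) h
  obtain ⟨hu1, hu2⟩ := G.unit _ hred''
  obtain ⟨hu3, hu4⟩ := unit2 H w₀ G A₁ B₁ hred
  set p := ev w₀.v.valuationSubring X C₁ with hp
  set q := ev w₀.v.valuationSubring X A₁ + ev w₀.v.valuationSubring X B₁ * Y with hq
  have hp0 : p ≠ 0 := by
    intro h0
    apply hC'
    rw [hC₁, h0, mul_zero]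
  have e1 : z * (algebraMap L L' e * p) = algebraMap L L' d * q := by
    rw [← hC₁, hgen, hA, hB, hq]
    ring
  have hq0 : q ≠ 0 := by
    intro h0
    rw [h0, mul_zero] at e1
    exact mul_ne_zero hz (mul_ne_zero he' hp0) e1
  have e2 : z = algebraMap L L' d / algebraMap L L' e * (q / p) := by
    field_simp
    rw [← e1]
    ring
  refine ⟨d / e, div_ne_zero hd he, ?_, ?_⟩
  · rw [map_div₀]
    have : z * (algebraMap L L' d / algebraMap L L' e)⁻¹ = q * p⁻¹ := by
      rw [e2]
      field_simp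
    rw [this]
    exact mul_mem hu3 hu2
  · rw [map_div₀]
    have : algebraMap L L' d / algebraMap L L' e * z⁻¹ = p * q⁻¹ := by
      rw [e2]
      field_simp
    rw [this]
    exact mul_mem hu1 hu4

include G in
theorem asc_le {z z' : L'} {u u' : L} (h : Asc B z u) (h' : Asc B z' u') (hz : z ≠ 0)
    (hz' : z' ≠ 0) (hle : z * z'⁻¹ ∈ B) : w₀.v u ≤ w₀.v u' := by
  obtain ⟨hu, h1, h2⟩ := h
  obtain ⟨hu', h3, h4⟩ := h'
  have e0 : algebraMap L L' u ≠ 0 := (_root_.map_ne_zero _).2 hu
  have e0' : algebraMap L L' u' ≠ 0 := (_root_.map_ne_zero _).2 hu'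
  have e1 : algebraMap L L' (u / u') =
      (algebraMap L L' u * z⁻¹) * (z * z'⁻¹) * (z' * (algebraMap L L' u')⁻¹) := by
    rw [map_div₀]
    field_simp
  have e2 : algebraMap L L' (u / u') ∈ B := by
    rw [e1]
    exact mul_mem (mul_mem h2 hle) h3
  have e3 := (G.iff _).1 e2
  rw [map_div₀] at e3
  exact (div_le_one₀ ((Valuation.pos_iff _).2 hu')).1 e3

include G in
theorem asc_ge {z z' : L'} {u u' : L} (h : Asc B z u) (h' : Asc B z' u') (hz : z ≠ 0)
    (hz' : z' ≠ 0) (hle : w₀.v u ≤ w₀.v u') : z * z'⁻¹ ∈ B := by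
  obtain ⟨hu, h1, h2⟩ := h
  obtain ⟨hu', h3, h4⟩ := h'
  have e0 : algebraMap L L' u ≠ 0 := (_root_.map_ne_zero _).2 hu
  have e0' : algebraMap L L' u' ≠ 0 := (_root_.map_ne_zero _).2 hu'
  have e3 : w₀.v (u / u') ≤ 1 := by
    rw [map_div₀]
    exact (div_le_one₀ ((Valuation.pos_iff _).2 hu')).2 hle
  have e4 := (G.iff _).2 e3
  have e1 : z * z'⁻¹ = (z * (algebraMap L L' u)⁻¹) * algebraMap L L' (u / u') *
      (algebraMap L L' u' * z'⁻¹) := by
    rw [map_div₀]
    field_simp
  rw [e1]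
  exact mul_mem (mul_mem h1 e4) h4

end

end GaussBAux

theorem gauss_exists [CharZero k] {c : k} {X Y : L'}
    (H : IsQuad L L' (cub (algebraMap k L c)) X Y)
    (w₀ : Place k L) : ∃ w : Place k L', (∀ u : L, w.v (algebraMap L L' u) = w₀.v u) ∧
      GaussCond L w X := by
  obtain ⟨B, G⟩ := GaussBAux.exists_good H w₀
  have hex := GaussBAux.exists_asc H w₀ G
  set f : L' → WithZero (Multiplicative ℤ) := fun z =>
    if h : z = 0 then 0 else w₀.v (hex z h).choose with hf
  have f0 : f 0 = 0 := by rw [hf]; simp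
  have fne : ∀ (z : L') (h : z ≠ 0), ∃ u : L, GaussBAux.Asc B z u ∧ f z = w₀.v u := by
    intro z h
    refine ⟨(hex z h).choose, (hex z h).choose_spec, ?_⟩
    rw [hf]
    simp only [dif_neg h]
  have feq : ∀ (z : L') (u : L), z ≠ 0 → GaussBAux.Asc B z u → f z = w₀.v u := by
    intro z u hz hu
    obtain ⟨u', hu', hfu⟩ := fne z hz
    rw [hfu]
    apply le_antisymm
    · exact GaussBAux.asc_le w₀ G hu' hu hz hz (by rw [mul_inv_cancel₀ hz]; exact one_mem _)
    · exact GaussBAux.asc_le w₀ G hu hu' hz hz (by rw [mul_inv_cancel₀ hz]; exact one_mem _)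
  have fL : ∀ u : L, f (algebraMap L L' u) = w₀.v u := by
    intro u
    by_cases hu : u = 0
    · rw [hu, map_zero, f0, map_zero]
    · have hu' : algebraMap L L' u ≠ 0 := (_root_.map_ne_zero _).2 hu
      refine feq _ _ hu' ⟨hu, ?_, ?_⟩ <;> rw [mul_inv_cancel₀ hu'] <;> exact one_mem _
  have f1 : f 1 = 1 := by
    have := fL 1
    rwa [map_one, map_one] at this
  have fmul : ∀ x y : L', f (x * y) = f x * f y := by
    intro x y
    by_cases hx : x = 0
    · rw [hx, zero_mul, f0, zero_mul]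
    by_cases hy : y = 0
    · rw [hy, mul_zero, f0, mul_zero]
    obtain ⟨u, hu, hfu⟩ := fne x hx
    obtain ⟨u', hu', hfu'⟩ := fne y hy
    rw [hfu, hfu', ← map_mul]
    refine feq _ _ (mul_ne_zero hx hy) ⟨mul_ne_zero hu.1 hu'.1, ?_, ?_⟩
    · have : x * y * (algebraMap L L' (u * u'))⁻¹ =
          (x * (algebraMap L L' u)⁻¹) * (y * (algebraMap L L' u')⁻¹) := by
        rw [map_mul, mul_inv]
        ring
      rw [this]
      exact mul_mem hu.2.1 hu'.2.1
    · have : algebraMap L L' (u * u') * (x * y)⁻¹ =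
          (algebraMap L L' u * x⁻¹) * (algebraMap L L' u' * y⁻¹) := by
        rw [map_mul, mul_inv]
        ring
      rw [this]
      exact mul_mem hu.2.2 hu'.2.2
  have fle : ∀ x y : L', y ≠ 0 → (f x ≤ f y ↔ x * y⁻¹ ∈ B) := by
    intro x y hy
    by_cases hx : x = 0
    · rw [hx, f0, zero_mul]
      exact ⟨fun _ => zero_mem _, fun _ => zero_le⟩
    obtain ⟨u, hu, hfu⟩ := fne x hx
    obtain ⟨u', hu', hfu'⟩ := fne y hy
    rw [hfu, hfu']
    exact ⟨fun h => GaussBAux.asc_ge w₀ G hu hu' hx hy h,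
      fun h => GaussBAux.asc_le w₀ G hu hu' hx hy h⟩
  have fadd' : ∀ x y : L', f x ≤ f y → f (x + y) ≤ f y := by
    intro x y hxy
    by_cases hy : y = 0
    · rw [hy, f0] at hxy ⊢
      rw [add_zero]
      exact hxy
    · rw [fle _ _ hy]
      have h1 := (fle _ _ hy).1 hxy
      have : (x + y) * y⁻¹ = x * y⁻¹ + 1 := by
        field_simp
      rw [this]
      exact add_mem h1 (one_mem _)
  have fadd : ∀ x y : L', f (x + y) ≤ max (f x) (f y) := by
    intro x y
    rcases le_total (f x) (f y) with h | h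
    · exact (fadd' x y h).trans (le_max_right _ _)
    · rw [add_comm]
      exact (fadd' y x h).trans (le_max_left _ _)
  let v : Valuation L' (WithZero (Multiplicative ℤ)) :=
    { toFun := f
      map_zero' := f0
      map_one' := f1
      map_mul' := fmul
      map_add_le_max' := fadd }
  refine ⟨⟨v, ?_, ?_⟩, fL, ?_⟩
  · intro g
    obtain ⟨u, hu⟩ := w₀.surj g
    exact ⟨algebraMap L L' u, (fL u).trans hu⟩
  · intro c' hc'
    change f (algebraMap k L' c') = 1
    rw [IsScalarTower.algebraMap_apply k L L', fL]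
    exact w₀.triv c' hc'
  · intro P hP hP'
    change ∀ i, f (algebraMap L L' (P.coeff i)) ≤ 1 at hP
    change ∃ i, f (algebraMap L L' (P.coeff i)) = 1 at hP'
    change f (aeval X P) = 1
    simp only [fL] at hP hP'
    obtain ⟨A₁, hA₁⟩ := GaussBAux.lift w₀ P hP
    obtain ⟨i, hi⟩ := hP'
    have hred := GaussBAux.red_ne w₀ A₁ ⟨i, by
      have h1 := congrArg (fun P => P.coeff i) hA₁
      simp only [coeff_map] at h1
      have h2 : (A₁.coeff i : L) = P.coeff i := h1
      rw [h2, hi]⟩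
    obtain ⟨h1, h2⟩ := G.unit _ hred
    rw [GaussBAux.ev_eq, hA₁] at h1 h2
    have h3 : aeval X P ≠ 0 := by
      intro h0
      have := (H.indep P 0 (by rw [h0, map_zero, zero_mul, add_zero])).1
      rw [this, coeff_zero, map_zero] at hi
      exact zero_ne_one hi
    rw [feq _ 1 h3 ⟨one_ne_zero, by rw [map_one, inv_one, mul_one]; exact h1, by
      rw [map_one, one_mul]; exact h2⟩, map_one]

end AC
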