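import Pool.Agent.H18.AC.PlaceGen
import Pool.Agent.H18.AC.Psi
import Pool.Agent.H18.AC.Princ

/-!
Module Parallel (project AC, helper18).  The parallelogram law in the first column.
PROOF.  L, Q : Fin (m+2) → points generic (gen_exists (m+2)).  f = xc (Q 0) - xc (Q 1),
x i = pt (Fin.cons γ (Fin.cons δ N)) Q p i = γ i • Q 0 + δ i • Q 1 + ∑ j, N j i • Q (j+2) + p i.
Split off Q 0: F = k(Q 1, Q 2, ...), Q' 0 corresponds to Q 1 (gen_split).  Places (placeGen_exists): w₊ for R = Q' 0, w₋ for R = -Q' 0,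
w₀ for R = 0.  Split off Q 1 (gen_split for Q ∘ swap 0 1, isGen of a permutation: as in psi_perm): F' = k(Q 0, Q 2, ...), w₁ for
R = 0.  In each case the remaining coordinates have a generic value in the residue field (isGen_bcs), hence
IsFF k (Residue w) (m+1), y i = the value of x (red_pt) and cyc k y = Psi by psi_eq:
  w₊: value of Q 0 = value of Q 1, y = pt (cons (γ+δ) N) q p, cyc = Psi (cons (γ+δ) N) p, ord f = 1;
  w₋: value of Q 0 = - value of Q 1, y = pt (cons (δ-γ) N) q p with q 0 = value of Q 1; (choose R so that you get γ-δ: use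
      psi of the negated generic point: Q' 0 ↦ -Q' 0 is generic too), ord f = 1;
  w₀: y = pt (cons δ N) q p, cyc = Psi (cons δ N) p, ord f = ord (xc (Q 0)) = -2 (xc (Q 1) is a unit or ≤ 1 at w₀);
  w₁: y = pt (cons γ N) q p, ord f = ord (xc (Q 1)) = -2.
They are pairwise different (values of Q 0, Q 1: at w₊ the values of Q 0 and Q 1 are equal and ≠ 0, not 2-torsion (generic); at w₋
opposite and ≠ 0; at w₀ the value of Q 0 is 0, that of Q 1 is not; at w₁ the value of Q 1 is 0 and that of Q 0 not).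
princ_mem with S = {w₊, w₋, w₀, w₁}.  h2: let w, y be given with IsFF k (Residue w) (m+1), Red x y, w.ord f ≠ 0, and suppose finrank ≠ 0,
so Residue w is finite, in particular algebraic, over coordField k y.  Let q j = the value of Q j at w (exists_redk), y = pt _ q p
(red_pt, Red.uniq).  w.ord f ≠ 0 implies q 0 = 0 or q 1 = 0 or xc (q 0) = xc (q 1), i.e. q 0 = ± q 1.  If q 1 ≠ 0 or q 0 = ± q 1 with... : when
q 0 ∈ {0, q 1, - q 1}: y has coordinates in coordField k (tail q) (coordField_le), so Residue w is algebraic over coordField k (tail q), and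
indep_of_alg gives the independence of xc (q (j+1)), in particular q 1 ≠ 0; triv_gen: w is trivial on F; placeGen_unique: w ∈ {w₊, w₋, w₀}.
When q 1 = 0: the same with F' gives w = w₁.  So w ∈ S, contradiction.
-/

namespace AC

open ZC WeierstrassCurve
open scoped Classical

section Gen

variable {k : Type} [Field k] [CharZero k] {a : k} {F : Type} [Field F] [Algebra k F] {m : ℕ}

omit [CharZero k] in
private theorem para_xc_neg {b : F} (P : Pt b) : xc (-P) = xc P := by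
  rcases P with _ | ⟨x, y, h⟩ <;> rfl

omit [CharZero k] in
private theorem para_yc_neg {b : F} (P : Pt b) : yc (-P) = -yc P := by
  rcases P with _ | ⟨x, y, h⟩
  · exact neg_zero.symm
  · change (leg b).toAffine.negY x y = -y
    simp [Affine.negY, leg]

private theorem para_ne {P : Pt (algebraMap k F a)} (h : Transcendental k (xc P)) :
    P ≠ 0 ∧ P ≠ -P := by
  constructor
  · rintro rfl
    exact h (isAlgebraic_zero (A := F) (R := k))
  · intro h1
    have h2 := congrArg yc h1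
    rw [para_yc_neg] at h2
    have _ : CharZero F := charZero_of_injective_algebraMap (algebraMap k F).injective
    have h3 : yc P = 0 := by
      have : (2 : F) * yc P = 0 := by linear_combination h2
      simpa using this
    rcases P with _ | ⟨x, y, hxy⟩
    · exact h (isAlgebraic_zero (A := F) (R := k))
    · have h4 : y = 0 := h3
      have h5 := (leg_equation _ _ _).1 hxy.1
      rw [h4] at h5
      have h6 : x * (x - 1) * (x - algebraMap k F a) = 0 := by rw [← h5]; ring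
      have h7 : IsAlgebraic k x := by
        rcases mul_eq_zero.1 h6 with h7 | h7
        · rcases mul_eq_zero.1 h7 with h8 | h8
          · rw [h8]; exact isAlgebraic_zero
          · rw [sub_eq_zero.1 h8]; exact isAlgebraic_one
        · rw [sub_eq_zero.1 h7]; exact isAlgebraic_algebraMap a
      exact h h7

omit [CharZero k] in
private theorem para_gen_neg {Q : Fin (m + 1) → Pt (algebraMap k F a)} (hQ : IsGen k Q) :
    IsGen k (Fin.cons (-Q 0) (fun j => Q j.succ) : Fin (m + 1) → Pt (algebraMap k F a)) := by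
  have hx : ∀ j, xc ((Fin.cons (-Q 0) (fun j => Q j.succ) : Fin (m + 1) →
      Pt (algebraMap k F a)) j) = xc (Q j) := by
    intro j
    refine Fin.cases ?_ (fun j => ?_) j
    · exact para_xc_neg _
    · rfl
  refine ⟨?_, ?_⟩
  · simp_rw [hx]; exact hQ.indep
  · rw [eq_top_iff, ← hQ.gen]
    refine IntermediateField.adjoin_le_iff.2 ?_
    rintro _ (⟨j, rfl⟩ | ⟨j, rfl⟩)
    · exact IntermediateField.subset_adjoin _ _ (Or.inl ⟨j, hx j⟩)
    · refine Fin.cases ?_ (fun j => ?_) j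
      · have h1 : yc (-Q 0) ∈ coordField k (Fin.cons (-Q 0) (fun j => Q j.succ) :
            Fin (m + 1) → Pt (algebraMap k F a)) :=
          IntermediateField.subset_adjoin _ _ (Or.inr ⟨0, rfl⟩)
        rw [para_yc_neg] at h1
        have h2 := neg_mem h1
        rw [neg_neg] at h2
        exact h2
      · exact IntermediateField.subset_adjoin _ _ (Or.inr ⟨j.succ, rfl⟩)

omit [CharZero k] in
private theorem para_gen_perm {Q : Fin m → Pt (algebraMap k F a)} (hQ : IsGen k Q)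
    (π : Equiv.Perm (Fin m)) : IsGen k (fun j => Q (π j)) := by
  refine ⟨hQ.indep.comp π π.injective, ?_⟩
  rw [eq_top_iff, ← hQ.gen]
  refine IntermediateField.adjoin_le_iff.2 ?_
  rintro _ (⟨j, rfl⟩ | ⟨j, rfl⟩)
  · exact IntermediateField.subset_adjoin _ _ (Or.inl ⟨π.symm j, by simp⟩)
  · exact IntermediateField.subset_adjoin _ _ (Or.inr ⟨π.symm j, by simp⟩)

omit [CharZero k] in
private theorem para_pt_cons {ι : Type} (N : Fin m → ι → ℤ) (γ δ : ι → ℤ) (p : ι → Pt a) (ε : ℤ)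
    (g : Fin (m + 1) → Pt (algebraMap k F a)) (i : ι) :
    pt (Fin.cons γ (Fin.cons δ N : Fin (m + 1) → ι → ℤ) : Fin (m + 1 + 1) → ι → ℤ)
      (Fin.cons (ε • g 0) g : Fin (m + 1 + 1) → Pt (algebraMap k F a)) p i =
    pt (Fin.cons (ε • γ + δ) N : Fin (m + 1) → ι → ℤ) g p i := by
  unfold pt lin
  rw [Fin.sum_univ_succ, Fin.sum_univ_succ, Fin.sum_univ_succ]
  simp only [Fin.cons_zero, Fin.cons_succ, Pi.add_apply, Pi.smul_apply, add_smul, smul_eq_mul,
    mul_smul]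
  rw [smul_comm (γ i) ε (g 0)]
  abel

private theorem para_psi_neg {ι : Type} (ha0 : a ≠ 0) (ha1 : a ≠ 1) (N : Fin m → ι → ℤ)
    (γ : ι → ℤ) (p : ι → Pt a) :
    Psi (Fin.cons (-γ) N : Fin (m + 1) → ι → ℤ) p =
      Psi (Fin.cons γ N : Fin (m + 1) → ι → ℤ) p := by
  obtain ⟨F, _, _, Q, hQ⟩ := gen_exists ha0 ha1 (m + 1)
  rw [psi_eq ha0 ha1 Q hQ, psi_eq ha0 ha1 _ (para_gen_neg hQ)]
  congr 1
  funext i
  unfold pt lin
  rw [Fin.sum_univ_succ, Fin.sum_univ_succ]
  simp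

end Gen

section Main

variable {k : Type} [Field k] [IsAlgClosed k] [CharZero k] {a : k} {ι : Type} [Fintype ι] {m : ℕ}

omit [IsAlgClosed k] [CharZero k] [Fintype ι] in
private theorem para_alg {κ : Type} [Field κ] [Algebra k κ] {S T : IntermediateField k κ}
    (h : S ≤ T) (hS : Algebra.IsAlgebraic S κ) : Algebra.IsAlgebraic T κ := by
  refine ⟨fun x => ?_⟩
  exact IsAlgebraic.tower_top_of_subalgebra_le (A := S.toSubalgebra) (B := T.toSubalgebra) h
    (hS.isAlgebraic x)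

omit [Fintype ι] in
private theorem para_place (ha0 : a ≠ 0) (ha1 : a ≠ 1) {F L : Type} [Field F] [Field L]
    [Algebra k F] [Algebra k L] [Algebra F L] [IsScalarTower k F L]
    (Q' : Fin (m + 1) → Pt (algebraMap k F a)) (hQ' : IsGen k Q') (q₀ : Pt (algebraMap k L a))
    (H : IsQuad F L (cub (algebraMap k F a)) (xc q₀) (yc q₀)) (N : Fin m → ι → ℤ)
    (γ δ : ι → ℤ) (p : ι → Pt a) (ε : ℤ) (x : ι → Pt (algebraMap k L a))
    (hx : ∀ i, x i = pt (Fin.cons γ (Fin.cons δ N : Fin (m + 1) → ι → ℤ) :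
      Fin (m + 1 + 1) → ι → ℤ) (Fin.cons q₀ (fun j => bcs (IsScalarTower.toAlgHom k F L) (Q' j)) :
      Fin (m + 1 + 1) → Pt (algebraMap k L a)) p i) :
    ∃ w : Place k L,
      (∃ y : ι → Pt (algebraMap k (Residue w) a), IsFF k (Residue w) (m + 1) ∧
        (∀ i, Red (resPl w) (x i) (y i)) ∧
        cyc k y = Psi (Fin.cons (ε • γ + δ) N : Fin (m + 1) → ι → ℤ) p) ∧
      (∃ q1 : Pt (algebraMap k (Residue w) a),
        Red (resPl w) (bcs (IsScalarTower.toAlgHom k F L) (Q' 0)) q1 ∧ q1 ≠ 0 ∧ q1 ≠ -q1 ∧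
        Red (resPl w) q₀ (ε • q1)) ∧
      (ε • Q' 0 ≠ 0 → ε • Q' 0 ≠ -(ε • Q' 0) →
        w.ord (xc q₀ - algebraMap F L (xc (ε • Q' 0))) = 1) ∧
      (ε • Q' 0 = 0 → w.ord (xc q₀) = -2) ∧
      (∀ u : F, u ≠ 0 → w.v (algebraMap F L u) = 1) ∧
      (∀ (w' : Place k L) (y : ι → Pt (algebraMap k (Residue w') a)), IsFF k (Residue w') (m + 1) →
        (∀ i, Red (resPl w') (x i) (y i)) → Algebra.IsAlgebraic (coordField k y) (Residue w') →
        ∀ q0 q1 : Pt (algebraMap k (Residue w') a), Red (resPl w') q₀ q0 →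
          Red (resPl w') (bcs (IsScalarTower.toAlgHom k F L) (Q' 0)) q1 → q0 = ε • q1 →
          w' = w) := by
  obtain ⟨w, φ, h1, h2, h3, h4, h5⟩ := placeGen_exists ha0 ha1 q₀ H (ε • Q' 0)
  have hg : IsGen k (fun j => bcs (φ : F →ₐ[k] Residue w) (Q' j)) := isGen_bcs φ hQ'
  refine ⟨w, ?_, ?_, h4, h5, h2, ?_⟩
  · refine ⟨pt (Fin.cons (ε • γ + δ) N : Fin (m + 1) → ι → ℤ)
      (fun j => bcs (φ : F →ₐ[k] Residue w) (Q' j)) p, hg.isFF, ?_, ?_⟩
    · intro i
      rw [hx, ← para_pt_cons]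
      refine red_pt ha0 ha1 _ ?_ p i
      intro j
      refine Fin.cases ?_ (fun j => ?_) j
      · rw [Fin.cons_zero, Fin.cons_zero, ← map_zsmul]
        exact h1
      · rw [Fin.cons_succ, Fin.cons_succ]
        exact h3 (Q' j)
    · rw [psi_eq ha0 ha1 _ hg]
  · refine ⟨bcs (φ : F →ₐ[k] Residue w) (Q' 0), h3 (Q' 0), ?_, ?_, ?_⟩
    · exact (para_ne (hg.indep.transcendental 0)).1
    · exact (para_ne (hg.indep.transcendental 0)).2
    · rw [← map_zsmul]; exact h1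
  · intro w' y hff hred halg q0 q1 hq0 hq1 hε
    have hval : ∀ j, ∃ q : Pt (algebraMap k (Residue w') a),
        Red (resPl w') (bcs (IsScalarTower.toAlgHom k F L) (Q' j)) q :=
      fun j => exists_redk (resPl w') ha0 ha1 _
    choose q' hq' using hval
    have hq10 : q' 0 = q1 := (hq' 0).uniq hq1
    have hy : ∀ i, y i = pt (Fin.cons (ε • γ + δ) N : Fin (m + 1) → ι → ℤ) q' p i := by
      intro i
      refine (hred i).uniq ?_
      rw [hx, ← para_pt_cons]
      refine red_pt ha0 ha1 _ ?_ p i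
      intro j
      refine Fin.cases ?_ (fun j => ?_) j
      · rw [Fin.cons_zero, Fin.cons_zero, hq10, ← hε]
        exact hq0
      · rw [Fin.cons_succ, Fin.cons_succ]
        exact hq' j
    have hy' : y = pt (Fin.cons (ε • γ + δ) N : Fin (m + 1) → ι → ℤ) q' p := funext hy
    have hle : coordField k y ≤ coordField k q' := by
      rw [hy']
      refine coordField_le ha0 ha1 q' _ (fun j => ⟨?_, ?_⟩) _ p
      · exact IntermediateField.subset_adjoin _ _ (Or.inl ⟨j, rfl⟩)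
      · exact IntermediateField.subset_adjoin _ _ (Or.inr ⟨j, rfl⟩)
    have hind := indep_of_alg q' hff (para_alg hle halg)
    have htriv := triv_gen (L := L) Q' hQ' w' q' hq' hind
    have hab : ∃ h : algebraMap k L a ∈ (resPl w').O,
        (resPl w').ρ ⟨algebraMap k L a, h⟩ = algebraMap k (Residue w') a := (resPl w').const a
    have hb0 : algebraMap k (Residue w') a ≠ 0 :=
      (map_ne_zero_iff _ (algebraMap k (Residue w')).injective).2 ha0
    have hb1 : algebraMap k (Residue w') a ≠ 1 := fun h =>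
      ha1 ((algebraMap k (Residue w')).injective (h.trans (map_one _).symm))
    refine placeGen_unique ha0 ha1 q₀ H (ε • Q' 0) w' w htriv h2 q0
      (bcs (φ : F →ₐ[k] Residue w) (ε • Q' 0)) hq0 ?_ h1 (h3 _)
    rw [map_zsmul, hε]
    exact red_zsmul hab hb0 hb1 hq1 ε

omit [IsAlgClosed k] [CharZero k] [Fintype ι] in
private theorem para_ord {L : Type} [Field L] [Algebra k L] (w : Place k L) {X Y : L}
    (hX : w.ord X = -2) (hY : w.v Y = 1) : w.ord (X - Y) = -2 ∧ w.ord (Y - X) = -2 := by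
  have h1 : WithZero.log (w.v X) = 2 := by
    unfold Place.ord at hX; linarith
  have h2 : w.v X ≠ 0 := by
    intro h
    rw [h, WithZero.log_zero] at h1
    norm_num at h1
  have h3 : w.v Y < w.v X := by
    rw [hY, ← WithZero.exp_log h2, h1, ← WithZero.exp_zero]
    exact WithZero.exp_lt_exp.2 (by norm_num)
  unfold Place.ord
  rw [Valuation.map_sub_eq_of_lt_right _ h3, Valuation.map_sub_eq_of_lt_left _ h3, h1]
  exact ⟨rfl, rfl⟩

omit [IsAlgClosed k] [CharZero k] [Fintype ι] in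
private theorem para_res_zero {L : Type} [Field L] [Algebra k L] (w : Place k L) (u : L)
    (hu : u ∈ w.v.valuationSubring) : residueHom w ⟨u, hu⟩ = 0 ↔ w.v u < 1 := by
  have h1 : residueHom w ⟨u, hu⟩ = 0 ↔
      (⟨u, hu⟩ : w.v.valuationSubring) ∈ IsLocalRing.maximalIdeal w.v.valuationSubring :=
    IsLocalRing.residue_eq_zero_iff _
  rw [h1, ValuationSubring.valuation_lt_one_iff]
  exact ((Valuation.isEquiv_valuation_valuationSubring w.v).lt_one_iff_lt_one).symm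

omit [IsAlgClosed k] [CharZero k] [Fintype ι] in
private theorem para_case {L : Type} [Field L] [Algebra k L] (w : Place k L)
    {Q₀ Q₁ : Pt (algebraMap k L a)} {q₀ q₁ : Pt (algebraMap k (Residue w) a)}
    (h₀ : Red (resPl w) Q₀ q₀) (h₁ : Red (resPl w) Q₁ q₁) (h : w.ord (xc Q₀ - xc Q₁) ≠ 0) :
    q₀ = 0 ∨ q₁ = 0 ∨ q₀ = q₁ ∨ q₀ = -q₁ := by
  rcases q₀ with _ | ⟨x₀, y₀, e₀⟩
  · exact Or.inl rfl
  rcases q₁ with _ | ⟨x₁, y₁, e₁⟩
  · exact Or.inr (Or.inl rfl)
  rcases Q₀ with _ | ⟨X₀, Y₀, E₀⟩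
  · exact h₀.elim
  rcases Q₁ with _ | ⟨X₁, Y₁, E₁⟩
  · exact h₁.elim
  obtain ⟨⟨hX₀, hx₀⟩, _⟩ := h₀
  obtain ⟨⟨hX₁, hx₁⟩, _⟩ := h₁
  have hmem : X₀ - X₁ ∈ w.v.valuationSubring := sub_mem hX₀ hX₁
  have hx : x₀ = x₁ := by
    by_contra hne
    apply h
    have h1 : residueHom w ⟨X₀ - X₁, hmem⟩ = x₀ - x₁ := by
      have : (⟨X₀ - X₁, hmem⟩ : w.v.valuationSubring) = ⟨X₀, hX₀⟩ - ⟨X₁, hX₁⟩ := rfl
      rw [this, map_sub]
      exact congrArg₂ _ hx₀ hx₁
    have h2 : ¬ w.v (X₀ - X₁) < 1 := fun h3 => by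
      have := (para_res_zero w _ hmem).2 h3
      rw [h1, sub_eq_zero] at this
      exact hne this
    have h3 : w.v (X₀ - X₁) = 1 :=
      le_antisymm ((Valuation.mem_valuationSubring_iff _ _).1 hmem) (not_lt.1 h2)
    have h4 : w.ord (X₀ - X₁) = 0 := by
      unfold Place.ord
      rw [h3, WithZero.log_one, neg_zero]
    exact h4
  subst hx
  right; right
  have h1 := (leg_equation _ _ _).1 e₀.1
  have h2 := (leg_equation _ _ _).1 e₁.1
  have h3 : (y₀ - y₁) * (y₀ + y₁) = 0 := by linear_combination h1 - h2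
  rcases mul_eq_zero.1 h3 with h4 | h4
  · left
    have : y₀ = y₁ := sub_eq_zero.1 h4
    subst this
    rfl
  · right
    have h5 : y₀ = -y₁ := eq_neg_of_add_eq_zero_left h4
    have h6 : (leg (algebraMap k (Residue w) a)).toAffine.negY x₀ y₁ = y₀ := by
      rw [h5]; simp [Affine.negY, leg]
    rw [Affine.Point.neg_some, Affine.Point.some.injEq]
    exact ⟨rfl, h6.symm⟩

theorem parallel (ha0 : a ≠ 0) (ha1 : a ≠ 1) (N : Fin m → ι → ℤ) (γ δ : ι → ℤ) (p : ι → Pt a) :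
    Psi (Fin.cons (γ + δ) N : Fin (m + 1) → ι → ℤ) p +
      Psi (Fin.cons (γ - δ) N : Fin (m + 1) → ι → ℤ) p -
      2 • Psi (Fin.cons γ N : Fin (m + 1) → ι → ℤ) p -
      2 • Psi (Fin.cons δ N : Fin (m + 1) → ι → ℤ) p ∈ ratM a ι (m + 1) := by
  obtain ⟨L, _, _, Q, hQ⟩ := gen_exists ha0 ha1 (m + 1 + 1) (a := a)
  obtain ⟨F, _, _, _, _, Q', hQ', hQQ', H⟩ := gen_split ha0 ha1 Q hQ
  obtain ⟨G, _, _, _, _, Q'', hQ'', hQQ'', H'⟩ :=
    gen_split ha0 ha1 _ (para_gen_perm hQ (Equiv.swap 0 1))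
  have hs0 : Equiv.swap (0 : Fin (m + 1 + 1)) 1 0 = 1 := Equiv.swap_apply_left 0 1
  have hs1 : Equiv.swap (0 : Fin (m + 1 + 1)) 1 1 = 0 := Equiv.swap_apply_right 0 1
  have hss : ∀ j : Fin m, Equiv.swap (0 : Fin (m + 1 + 1)) 1 j.succ.succ = j.succ.succ := by
    intro j
    refine Equiv.swap_apply_of_ne_of_ne (Fin.succ_ne_zero _) ?_
    intro h
    exact Fin.succ_ne_zero j (Fin.succ_injective _ h)
  have hQ1 : bcs (IsScalarTower.toAlgHom k F L) (Q' 0) = Q 1 := hQQ' 0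
  have hQ2 : bcs (IsScalarTower.toAlgHom k G L) (Q'' 0) = Q 0 := by
    have := hQQ'' 0
    rw [this]
    exact congrArg Q hs1
  have hQ3 : ∀ j : Fin m, bcs (IsScalarTower.toAlgHom k G L) (Q'' j.succ) = Q j.succ.succ := by
    intro j
    rw [hQQ'' j.succ]
    exact congrArg Q (hss j)
  have H1 : IsQuad G L (cub (algebraMap k G a)) (xc (Q 1)) (yc (Q 1)) := by
    rw [hs0] at H'; exact H'
  have hx1 : ∀ i, pt (Fin.cons γ (Fin.cons δ N : Fin (m + 1) → ι → ℤ) : Fin (m + 1 + 1) → ι → ℤ)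
      Q p i = pt (Fin.cons γ (Fin.cons δ N : Fin (m + 1) → ι → ℤ) :
      Fin (m + 1 + 1) → ι → ℤ) (Fin.cons (Q 0) (fun j => bcs (IsScalarTower.toAlgHom k F L) (Q' j)) :
      Fin (m + 1 + 1) → Pt (algebraMap k L a)) p i := by
    intro i
    congr 1
    funext j
    refine Fin.cases ?_ (fun j => ?_) j
    · rfl
    · rw [Fin.cons_succ, hQQ']
  have hx2 : ∀ i, pt (Fin.cons γ (Fin.cons δ N : Fin (m + 1) → ι → ℤ) : Fin (m + 1 + 1) → ι → ℤ)
      Q p i = pt (Fin.cons δ (Fin.cons γ N : Fin (m + 1) → ι → ℤ) :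
      Fin (m + 1 + 1) → ι → ℤ) (Fin.cons (Q 1) (fun j => bcs (IsScalarTower.toAlgHom k G L) (Q'' j)) :
      Fin (m + 1 + 1) → Pt (algebraMap k L a)) p i := by
    intro i
    unfold pt lin
    rw [Fin.sum_univ_succ, Fin.sum_univ_succ, Fin.sum_univ_succ, Fin.sum_univ_succ]
    simp only [Fin.cons_zero, Fin.cons_succ, hQ2, hQ3]
    have h1 : Q (Fin.succ 0) = Q 1 := rfl
    rw [h1]
    abel
  have hxc1 : xc (Q 1) = algebraMap F L (xc (Q' 0)) := by
    rw [← hQ1, xc_bcs]; rfl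
  have hxc0 : xc (Q 0) = algebraMap G L (xc (Q'' 0)) := by
    rw [← hQ2, xc_bcs]; rfl
  obtain ⟨w₁, ⟨y₁, hy₁, hr₁, hc₁⟩, ⟨q₁, hq₁, hn₁, hn₁', hv₁⟩, ho₁, _, _, hu₁⟩ :=
    para_place ha0 ha1 Q' hQ' (Q 0) H N γ δ p 1 _ hx1
  obtain ⟨w₂, ⟨y₂, hy₂, hr₂, hc₂⟩, ⟨q₂, hq₂, hn₂, hn₂', hv₂⟩, ho₂, _, _, hu₂⟩ :=
    para_place ha0 ha1 Q' hQ' (Q 0) H N γ δ p (-1) _ hx1
  obtain ⟨w₃, ⟨y₃, hy₃, hr₃, hc₃⟩, ⟨q₃, hq₃, hn₃, hn₃', hv₃⟩, _, ho₃, ht₃, hu₃⟩ :=
    para_place ha0 ha1 Q' hQ' (Q 0) H N γ δ p 0 _ hx1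
  obtain ⟨w₄, ⟨y₄, hy₄, hr₄, hc₄⟩, ⟨q₄, hq₄, hn₄, hn₄', hv₄⟩, _, ho₄, ht₄, hu₄⟩ :=
    para_place ha0 ha1 Q'' hQ'' (Q 1) H1 N δ γ p 0 _ hx2
  have hne := para_ne (hQ'.indep.transcendental 0)
  have hO₁ : w₁.ord (xc (Q 0) - xc (Q 1)) = 1 := by
    rw [one_smul] at ho₁
    rw [hxc1]
    exact ho₁ hne.1 hne.2
  have hO₂ : w₂.ord (xc (Q 0) - xc (Q 1)) = 1 := by
    rw [neg_smul, one_smul, para_xc_neg, neg_neg] at ho₂
    rw [hxc1]
    refine ho₂ (neg_ne_zero.2 hne.1) ?_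
    intro h
    exact hne.2 h.symm
  have hO₃ : w₃.ord (xc (Q 0) - xc (Q 1)) = -2 := by
    refine (para_ord w₃ (ho₃ (zero_smul _ _)) ?_).1
    rw [hxc1]
    exact ht₃ _ (fun h => hQ'.indep.transcendental 0 (by
      change IsAlgebraic k (xc (Q' 0))
      rw [h]; exact isAlgebraic_zero))
  have hO₄ : w₄.ord (xc (Q 0) - xc (Q 1)) = -2 := by
    refine (para_ord w₄ (ho₄ (zero_smul _ _)) ?_).2
    rw [hxc0]
    exact ht₄ _ (fun h => hQ''.indep.transcendental 0 (by
      change IsAlgebraic k (xc (Q'' 0))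
      rw [h]; exact isAlgebraic_zero))
  have h12 : w₁ ≠ w₂ := by
    intro h
    subst h
    have h1 := hq₁.uniq hq₂
    rw [← h1] at hv₂
    have h2 := hv₁.uniq hv₂
    rw [one_smul, neg_smul, one_smul] at h2
    exact hn₁' h2
  have h34 : w₃ ≠ w₄ := by
    intro h
    subst h
    rw [hQ2] at hq₄
    have h2 := hv₃.uniq hq₄
    rw [zero_smul] at h2
    exact hn₄ h2.symm
  have h13 : w₁ ≠ w₃ := by
    intro h; rw [h, hO₃] at hO₁; norm_num at hO₁
  have h14 : w₁ ≠ w₄ := by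
    intro h; rw [h, hO₄] at hO₁; norm_num at hO₁
  have h23 : w₂ ≠ w₃ := by
    intro h; rw [h, hO₃] at hO₂; norm_num at hO₂
  have h24 : w₂ ≠ w₄ := by
    intro h; rw [h, hO₄] at hO₂; norm_num at hO₂
  have hf : xc (Q 0) - xc (Q 1) ≠ 0 := by
    intro h
    have := hQ.indep.injective (sub_eq_zero.1 h)
    exact absurd this (by simp)
  let g : Place k L → CyclesM a ι := fun w =>
    if w = w₁ then Psi (Fin.cons ((1 : ℤ) • γ + δ) N : Fin (m + 1) → ι → ℤ) p
    else if w = w₂ then Psi (Fin.cons ((-1 : ℤ) • γ + δ) N : Fin (m + 1) → ι → ℤ) p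
    else if w = w₃ then Psi (Fin.cons ((0 : ℤ) • γ + δ) N : Fin (m + 1) → ι → ℤ) p
    else Psi (Fin.cons ((0 : ℤ) • δ + γ) N : Fin (m + 1) → ι → ℤ) p
  have hg₁ : g w₁ = Psi (Fin.cons ((1 : ℤ) • γ + δ) N : Fin (m + 1) → ι → ℤ) p := if_pos rfl
  have hg₂ : g w₂ = Psi (Fin.cons ((-1 : ℤ) • γ + δ) N : Fin (m + 1) → ι → ℤ) p :=
    (if_neg h12.symm).trans (if_pos rfl)
  have hg₃ : g w₃ = Psi (Fin.cons ((0 : ℤ) • γ + δ) N : Fin (m + 1) → ι → ℤ) p :=
    (if_neg h13.symm).trans ((if_neg h23.symm).trans (if_pos rfl))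
  have hg₄ : g w₄ = Psi (Fin.cons ((0 : ℤ) • δ + γ) N : Fin (m + 1) → ι → ℤ) p :=
    (if_neg h14.symm).trans ((if_neg h24.symm).trans (if_neg h34.symm))
  have key := princ_mem hQ.isFF
    (pt (Fin.cons γ (Fin.cons δ N : Fin (m + 1) → ι → ℤ) : Fin (m + 1 + 1) → ι → ℤ) Q p)
    (xc (Q 0) - xc (Q 1)) hf {w₁, w₂, w₃, w₄} g ?_ ?_
  · rw [Finset.sum_insert (by simp [h12, h13, h14]), Finset.sum_insert (by simp [h23, h24]),
      Finset.sum_insert (by simp [h34]), Finset.sum_singleton, hO₁, hO₂, hO₃, hO₄,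
      hg₁, hg₂, hg₃, hg₄] at key
    have e1 : (1 : ℤ) • γ + δ = γ + δ := by rw [one_smul]
    have e2 : (-1 : ℤ) • γ + δ = -(γ - δ) := by rw [neg_smul, one_smul]; abel
    have e3 : (0 : ℤ) • γ + δ = δ := by rw [zero_smul, zero_add]
    have e4 : (0 : ℤ) • δ + γ = γ := by rw [zero_smul, zero_add]
    rw [e1, e2, e3, e4, para_psi_neg ha0 ha1] at key
    convert key using 1
    module
  · intro w hw
    simp only [Finset.mem_insert, Finset.mem_singleton] at hw
    rcases hw with h | h | h | h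
    · subst h; exact ⟨y₁, hy₁, hr₁, hc₁.trans hg₁.symm⟩
    · subst h; exact ⟨y₂, hy₂, hr₂, hc₂.trans hg₂.symm⟩
    · subst h; exact ⟨y₃, hy₃, hr₃, hc₃.trans hg₃.symm⟩
    · subst h; exact ⟨y₄, hy₄, hr₄, hc₄.trans hg₄.symm⟩
  · intro w hw y hff hred hord
    by_contra hfin
    have hfd := Module.finite_of_finrank_pos (Nat.pos_of_ne_zero hfin)
    have halg : Algebra.IsAlgebraic (coordField k y) (Residue w) := Algebra.IsAlgebraic.of_finite _ _
    obtain ⟨q0, hq0⟩ := exists_redk (resPl w) ha0 ha1 (Q 0)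
    obtain ⟨q1, hq1⟩ := exists_redk (resPl w) ha0 ha1 (Q 1)
    have hq1' : Red (resPl w) (bcs (IsScalarTower.toAlgHom k F L) (Q' 0)) q1 := by
      rw [hQ1]; exact hq1
    have hq0' : Red (resPl w) (bcs (IsScalarTower.toAlgHom k G L) (Q'' 0)) q0 := by
      rw [hQ2]; exact hq0
    apply hw
    simp only [Finset.mem_insert, Finset.mem_singleton]
    rcases para_case w hq0 hq1 hord with h | h | h | h
    · right; right; left
      exact hu₃ w y hff hred halg q0 q1 hq0 hq1' (by rw [zero_smul, h])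
    · right; right; right
      exact hu₄ w y hff hred halg q1 q0 hq1 hq0' (by rw [zero_smul, h])
    · left
      exact hu₁ w y hff hred halg q0 q1 hq0 hq1' (by rw [one_smul, h])
    · right; left
      exact hu₂ w y hff hred halg q0 q1 hq0 hq1' (by rw [neg_smul, one_smul, h])

end Main

end AC
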