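import Pool.Agent.ZC.Basic

/-!
Module PlaceEx (project ZC, helper83).  Existence of the place (a,c) of K = k(s)(y), c^2 = h(a) != 0.
PROOF.  Embed K into Laurent series L = LaurentSeries k (or HahnSeries): s -> a + T, y -> u where
u in k[[T]] is a power series with constant coefficient c and u^2 = h(a+T).  (Square root: h(a+T)/c^2 = 1 + T*(...)
has a square root with constant coefficient 1: Mathlib has HahnSeries.binomialFamily / pow_add for
orderTopSubOnePos, PowerSeries.binomialSeries_add (r = s = 1/2) with PowerSeries.subst; or construct the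
coefficients recursively; or Hensel.)  Ring hom theta : K -> L: define it on elements using
IsQuad.gen/indep.  Perhaps easier: K is a fraction field of the subring k[s,y] = image of
k[X] x k[X], (A,B) -> A(s)+B(s)y, injective by indep; define theta on the subring, it is an injective
ring hom to L (if A(a+T)+B(a+T)u = 0 then A^2 = B^2 h as polynomials, so (A+By)(A-By)=0 in K, so by
indep A = B = 0), extend to fractions (IsLocalization/IsFractionRing.lift).  w.v = valuation of L
(Mathlib: (PowerSeries.idealX k).valuation on LaurentSeries, or HahnSeries.addVal / order turned into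
a WithZero (Multiplicative Z) valuation) composed with theta.  surj: v(s-a) = v(T) = exp(-1).
triv: constants go to constants != 0, of order 0.  v(s-a) < 1, v(y-c) < 1: positive order.
ALTERNATIVE: show that the localisation O of k[s,y] at the maximal ideal (s-a,y-c) is a DVR with
uniformiser s-a (y-c = (h(s)-h(a))/(y+c)) and take its valuation on K.
ALTERNATIVE 2: define directly n(f) for f != 0 by the representation f = (s-a)^n g1/g2,
g_i in k[s,y], g_i(a,c) != 0 (see PlaceUniq for its existence) and check that it is a valuation.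
-/

namespace AC

open ZC

open Polynomial WeierstrassCurve
open scoped Classical

variable {k : Type} [Field k] [CharZero k]

omit [CharZero k] in
private theorem PlaceEx_sum (u : ℕ → k) (n : ℕ) :
    ∑ p ∈ Finset.HasAntidiagonal.antidiagonal (n + 1), u p.1 * u p.2 =
      2 * u 0 * u (n + 1) + ∑ i : Fin n, u (i + 1) * u (n - i) := by
  rw [Finset.Nat.sum_antidiagonal_eq_sum_range_succ_mk, Finset.sum_range_succ,
    Finset.sum_range_succ', Finset.sum_range]
  have h1 : ∀ i : Fin n, u ((i : ℕ) + 1) * u (n + 1 - ((i : ℕ) + 1)) = u (i + 1) * u (n - i) := by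
    intro i
    rw [Nat.add_sub_add_right]
  rw [Finset.sum_congr rfl (fun i _ => h1 i)]
  simp only [Nat.sub_zero, Nat.sub_self]
  ring

private noncomputable def PlaceEx_seq (g : ℕ → k) (c : k) : ℕ → k
  | 0 => c
  | (n + 1) => (g (n + 1) - ∑ i : Fin n, PlaceEx_seq g c (i + 1) * PlaceEx_seq g c (n - i)) /
      (2 * c)
  decreasing_by
    · omega
    · omega

private theorem PlaceEx_sqrt (g : PowerSeries k) (c : k) (hc : c ^ 2 = PowerSeries.constantCoeff g)
    (hc0 : c ≠ 0) : ∃ u : PowerSeries k, u ^ 2 = g ∧ PowerSeries.constantCoeff u = c := by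
  set f : ℕ → k := fun n => PowerSeries.coeff n g with hf
  refine ⟨PowerSeries.mk (PlaceEx_seq f c), ?_, ?_⟩
  · ext n
    rw [sq, PowerSeries.coeff_mul]
    simp only [PowerSeries.coeff_mk]
    cases n with
    | zero =>
      simp only [Finset.HasAntidiagonal.antidiagonal_zero, Finset.sum_singleton, PlaceEx_seq]
      rw [← sq, hc, PowerSeries.coeff_zero_eq_constantCoeff]
    | succ n =>
      rw [PlaceEx_sum]
      have h0 : PlaceEx_seq f c 0 = c := by rw [PlaceEx_seq]
      have h1 : PlaceEx_seq f c (n + 1) = (f (n + 1) - ∑ i : Fin n,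
          PlaceEx_seq f c (i + 1) * PlaceEx_seq f c (n - i)) / (2 * c) := by
        rw [PlaceEx_seq]
      rw [h0, h1]
      have h2 : (2 : k) * c ≠ 0 := mul_ne_zero two_ne_zero hc0
      rw [mul_div_cancel₀ _ h2]
      simp [hf]
  · rw [← PowerSeries.coeff_zero_eq_constantCoeff_apply, PowerSeries.coeff_mk, PlaceEx_seq]

variable {K : Type} [Field K] [Algebra k K] {h : k[X]} {s y : K}

/-- The expansion at `a` of a polynomial. -/
private noncomputable def PlaceEx_psi (a : k) : k[X] →+* LaurentSeries k :=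
  (HahnSeries.ofPowerSeries ℤ k).comp
    ((Polynomial.coeToPowerSeries.ringHom (R := k)).comp ((taylorAlgHom a : k[X] →ₐ[k] k[X]) : k[X] →+* k[X]))

omit [CharZero k] in
private theorem PlaceEx_psi_apply (a : k) (A : k[X]) :
    PlaceEx_psi a A = HahnSeries.ofPowerSeries ℤ k ((taylor a A : k[X]) : PowerSeries k) := rfl

omit [CharZero k] in
private theorem PlaceEx_psi_inj (a : k) : Function.Injective (PlaceEx_psi a) := by
  intro A B hAB
  rw [PlaceEx_psi_apply, PlaceEx_psi_apply] at hAB
  have h1 := HahnSeries.ofPowerSeries_injective hAB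
  exact taylor_injective a (Polynomial.coe_injective k h1)

/-- `f` is represented by the Laurent series `l`. -/
private def PlaceEx_Rep (s y : K) (a : k) (u : LaurentSeries k) (f : K)
    (l : LaurentSeries k) : Prop :=
  ∃ A B C : k[X], C ≠ 0 ∧ f * aeval s C = aeval s A + aeval s B * y ∧
    l * PlaceEx_psi a C = PlaceEx_psi a A + PlaceEx_psi a B * u

omit [CharZero k] in
private theorem PlaceEx_Rep_uniq (H : IsQuad k K h s y) (a : k) (u : LaurentSeries k) (f : K)
    (l l' : LaurentSeries k) (h1 : PlaceEx_Rep s y a u f l) (h2 : PlaceEx_Rep s y a u f l') :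
    l = l' := by
  obtain ⟨A, B, C, hC, h3, h4⟩ := h1
  obtain ⟨A', B', C', hC', h5, h6⟩ := h2
  have h7 := H.indep (A * C' - A' * C) (B * C' - B' * C) (by
    simp only [map_sub, map_mul]
    linear_combination (-(aeval s C')) * h3 + (aeval s C) * h5)
  have h8 : PlaceEx_psi a A * PlaceEx_psi a C' = PlaceEx_psi a A' * PlaceEx_psi a C := by
    rw [← map_mul, ← map_mul, sub_eq_zero.mp h7.1]
  have h9 : PlaceEx_psi a B * PlaceEx_psi a C' = PlaceEx_psi a B' * PlaceEx_psi a C := by
    rw [← map_mul, ← map_mul, sub_eq_zero.mp h7.2]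
  have hc : PlaceEx_psi a C ≠ 0 := by
    intro h0
    apply hC
    apply PlaceEx_psi_inj a
    rw [h0, map_zero]
  have hc' : PlaceEx_psi a C' ≠ 0 := by
    intro h0
    apply hC'
    apply PlaceEx_psi_inj a
    rw [h0, map_zero]
  apply mul_right_cancel₀ (mul_ne_zero hc hc')
  linear_combination (PlaceEx_psi a C') * h4 - (PlaceEx_psi a C) * h6 + h8 + u * h9

omit [CharZero k] in
private theorem PlaceEx_Rep_exists (H : IsQuad k K h s y) (a : k) (u : LaurentSeries k) (f : K) :
    ∃ l, PlaceEx_Rep s y a u f l := by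
  obtain ⟨A, B, C, hC, h1⟩ := H.gen f
  have hc : PlaceEx_psi a C ≠ 0 := by
    intro h0
    apply hC
    apply PlaceEx_psi_inj a
    rw [h0, map_zero]
  refine ⟨(PlaceEx_psi a A + PlaceEx_psi a B * u) / PlaceEx_psi a C, A, B, C, hC, h1, ?_⟩
  rw [div_mul_cancel₀ _ hc]

omit [CharZero k] in
private theorem PlaceEx_Rep_add (a : k) (u : LaurentSeries k) (f g : K)
    (l m : LaurentSeries k) (h1 : PlaceEx_Rep s y a u f l) (h2 : PlaceEx_Rep s y a u g m) :
    PlaceEx_Rep s y a u (f + g) (l + m) := by
  obtain ⟨A, B, C, hC, h3, h4⟩ := h1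
  obtain ⟨A', B', C', hC', h5, h6⟩ := h2
  refine ⟨A * C' + A' * C, B * C' + B' * C, C * C', mul_ne_zero hC hC', ?_, ?_⟩
  · simp only [map_add, map_mul]
    linear_combination (aeval s C') * h3 + (aeval s C) * h5
  · simp only [map_add, map_mul]
    linear_combination (PlaceEx_psi a C') * h4 + (PlaceEx_psi a C) * h6

omit [CharZero k] in
private theorem PlaceEx_Rep_mul (H : IsQuad k K h s y) (a : k) (u : LaurentSeries k)
    (hu : u ^ 2 = PlaceEx_psi a h) (f g : K)
    (l m : LaurentSeries k) (h1 : PlaceEx_Rep s y a u f l) (h2 : PlaceEx_Rep s y a u g m) :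
    PlaceEx_Rep s y a u (f * g) (l * m) := by
  obtain ⟨A, B, C, hC, h3, h4⟩ := h1
  obtain ⟨A', B', C', hC', h5, h6⟩ := h2
  refine ⟨A * A' + B * B' * h, A * B' + A' * B, C * C', mul_ne_zero hC hC', ?_, ?_⟩
  · simp only [map_add, map_mul]
    rw [← H.sq]
    linear_combination (g * aeval s C') * h3 + (aeval s A + aeval s B * y) * h5
  · simp only [map_add, map_mul]
    rw [← hu]
    linear_combination (m * PlaceEx_psi a C') * h4 + (PlaceEx_psi a A + PlaceEx_psi a B * u) * h6

omit [CharZero k] in
private theorem PlaceEx_Rep_poly (a : k) (u : LaurentSeries k) (A B : k[X]) :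
    PlaceEx_Rep s y a u (aeval s A + aeval s B * y) (PlaceEx_psi a A + PlaceEx_psi a B * u) :=
  ⟨A, B, 1, one_ne_zero, by rw [map_one, mul_one], by rw [map_one, mul_one]⟩

omit [CharZero k] in
private theorem PlaceEx_hom (H : IsQuad k K h s y) (a : k) (u : LaurentSeries k)
    (hu : u ^ 2 = PlaceEx_psi a h) : ∃ θ : K →+* LaurentSeries k,
      ∀ A B : k[X], θ (aeval s A + aeval s B * y) = PlaceEx_psi a A + PlaceEx_psi a B * u := by
  choose θ hθ using PlaceEx_Rep_exists H a u
  have hun : ∀ f l, PlaceEx_Rep s y a u f l → θ f = l := fun f l hl =>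
    PlaceEx_Rep_uniq H a u f _ _ (hθ f) hl
  have hzero : θ 0 = 0 := by
    apply hun
    have h1 := PlaceEx_Rep_poly (s := s) (y := y) a u 0 0
    simpa using h1
  have hone : θ 1 = 1 := by
    apply hun
    have h1 := PlaceEx_Rep_poly (s := s) (y := y) a u 1 0
    simpa using h1
  refine ⟨{ toFun := θ, map_one' := hone, map_zero' := hzero, map_mul' := ?_, map_add' := ?_ }, ?_⟩
  · intro f g
    exact hun _ _ (PlaceEx_Rep_mul H a u hu f g _ _ (hθ f) (hθ g))
  · intro f g
    exact hun _ _ (PlaceEx_Rep_add a u f g _ _ (hθ f) (hθ g))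
  · intro A B
    exact hun _ _ (PlaceEx_Rep_poly a u A B)

omit [CharZero k] in
private theorem PlaceEx_val_lt (g : PowerSeries k) (hg : PowerSeries.constantCoeff g = 0) :
    (Valued.v : Valuation (LaurentSeries k) (WithZero (Multiplicative ℤ)))
      (HahnSeries.ofPowerSeries ℤ k g) < 1 := by
  have h1 : (Valued.v : Valuation (LaurentSeries k) (WithZero (Multiplicative ℤ)))
      (HahnSeries.ofPowerSeries ℤ k g) ≤ WithZero.exp (-((1 : ℕ) : ℤ)) := by
    rw [LaurentSeries.intValuation_le_iff_coeff_lt_eq_zero]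
    intro n hn
    have : n = 0 := by omega
    subst this
    rw [PowerSeries.coeff_zero_eq_constantCoeff_apply, hg]
  refine lt_of_le_of_lt h1 ?_
  rw [← WithZero.exp_zero, WithZero.exp_lt_exp]
  norm_num

omit [CharZero k] in
private theorem PlaceEx_val_le (g : PowerSeries k) :
    (Valued.v : Valuation (LaurentSeries k) (WithZero (Multiplicative ℤ)))
      (HahnSeries.ofPowerSeries ℤ k g) ≤ 1 := by
  rw [LaurentSeries.val_le_one_iff_eq_coe]
  exact ⟨g, rfl⟩

theorem quad_exists_place (H : IsQuad k K h s y) {a c : k} (hc : c ^ 2 = h.eval a)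
    (hc0 : c ≠ 0) :
    ∃ w : Place k K, w.v (s - algebraMap k K a) < 1 ∧ w.v (y - algebraMap k K c) < 1 := by
  obtain ⟨u, hu, huc⟩ := PlaceEx_sqrt ((taylor a h : k[X]) : PowerSeries k) c
    (by
      rw [hc, ← PowerSeries.coeff_zero_eq_constantCoeff_apply, Polynomial.coeff_coe,
        taylor_coeff_zero]) hc0
  obtain ⟨θ, hθ⟩ := PlaceEx_hom H a (HahnSeries.ofPowerSeries ℤ k u)
    (by rw [← map_pow, hu, PlaceEx_psi_apply])
  have hpsi : ∀ A : k[X], θ (aeval s A) = PlaceEx_psi a A := by
    intro A
    have h1 := hθ A 0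
    simpa using h1
  have hcst : ∀ b : k, θ (algebraMap k K b) =
      HahnSeries.ofPowerSeries ℤ k (PowerSeries.C b) := by
    intro b
    have h1 := hpsi (C b)
    rw [aeval_C, PlaceEx_psi_apply, taylor_C, Polynomial.coe_C] at h1
    exact h1
  have hy : θ y = HahnSeries.ofPowerSeries ℤ k u := by
    have h1 := hθ 0 1
    simpa using h1
  have hs : θ (s - algebraMap k K a) = HahnSeries.ofPowerSeries ℤ k PowerSeries.X := by
    have h1 := hpsi (X - C a)
    rw [PlaceEx_psi_apply, map_sub (aeval s : k[X] →ₐ[k] K), aeval_X, aeval_C, map_sub (taylor a), taylor_X,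
      taylor_C, add_sub_cancel_right, Polynomial.coe_X] at h1
    exact h1
  have hvs : (Valued.v : Valuation (LaurentSeries k) (WithZero (Multiplicative ℤ)))
      (θ (s - algebraMap k K a)) = WithZero.exp (-1) := by
    rw [hs]
    have h1 := LaurentSeries.valuation_X_pow k 1
    rw [pow_one] at h1
    exact h1
  refine ⟨⟨(Valued.v : Valuation (LaurentSeries k) (WithZero (Multiplicative ℤ))).comap θ,
    ?_, ?_⟩, ?_, ?_⟩
  · intro γ
    by_cases hγ : γ = 0
    · exact ⟨0, by rw [hγ, map_zero]⟩
    · refine ⟨(s - algebraMap k K a) ^ (-WithZero.log γ), ?_⟩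
      rw [map_zpow₀, Valuation.comap_apply, hvs, ← WithZero.exp_zsmul, smul_eq_mul, neg_mul_neg,
        mul_one, WithZero.exp_log hγ]
  · intro b hb
    rw [Valuation.comap_apply]
    apply le_antisymm
    · rw [hcst]
      exact PlaceEx_val_le _
    · have h1 : (Valued.v : Valuation (LaurentSeries k) (WithZero (Multiplicative ℤ)))
          (θ (algebraMap k K b⁻¹)) ≤ 1 := by
        rw [hcst]
        exact PlaceEx_val_le _
      rw [map_inv₀, map_inv₀, map_inv₀] at h1
      rwa [inv_le_one₀] at h1
      rw [zero_lt_iff, Ne, map_eq_zero, map_eq_zero, map_eq_zero]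
      exact hb
  · show (Valued.v : Valuation (LaurentSeries k) (WithZero (Multiplicative ℤ)))
      (θ (s - algebraMap k K a)) < 1
    rw [hvs, ← WithZero.exp_zero, WithZero.exp_lt_exp]
    norm_num
  · show (Valued.v : Valuation (LaurentSeries k) (WithZero (Multiplicative ℤ)))
      (θ (y - algebraMap k K c)) < 1
    rw [map_sub, hy, hcst, ← map_sub]
    apply PlaceEx_val_lt
    rw [map_sub, huc, PowerSeries.constantCoeff_C, sub_self]

end AC
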