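import Pool.Agent.H18.AC.PlaceUniqF

/-!
Module QuadRes (project AC, helper18).  The residue field of the place (a,c), c ^ 2 = h(a) ≠ 0, of the quadratic
function field K = F(s)(y) over ANY field F of characteristic zero is F.
PROOF.  PlaceUniqF.lean (a copy of ZC.PlaceUniq over any field) shows that every f ≠ 0 is (s - a) ^ n g₁ / g₂ with
g_i = A_i(s) + B_i(s) y and g_i(a,c) := A_i(a) + B_i(a) c ≠ 0 (see pu_val_all and the lemmas before it; they are
private there, copy what you need into this file or work inside a copy), w.v (g_i - g_i(a,c)) < 1.  If w.v f = 1 then n = 0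
and f ≡ g₁(a,c)/g₂(a,c) ∈ F modulo the maximal ideal.  If w.v f < 1 take 0.
-/

namespace AC

open ZC WeierstrassCurve
open scoped Classical

open Polynomial

variable {k : Type} [Field k] [CharZero k]

variable {K : Type} [Field K] [Algebra k K] {h : k[X]} {s y : K}

/-- `g` is a unit at `w` with a nonzero value in `k` -/
private def qrG (w : Place k K) (g : K) : Prop :=
  ∃ e : k, e ≠ 0 ∧ w.v (g - algebraMap k K e) < 1

private theorem qr_const_le (w : Place k K) (c : k) : w.v (algebraMap k K c) ≤ 1 := by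
  by_cases hc : c = 0
  · rw [hc, map_zero, map_zero]; exact zero_le_one
  · rw [w.triv c hc]

private theorem qr_le_of_sub {w : Place k K} {x : K} {c : k}
    (h1 : w.v (x - algebraMap k K c) < 1) : w.v x ≤ 1 := by
  have h : x = (x - algebraMap k K c) + algebraMap k K c := by ring
  rw [h]
  exact (w.v.map_add _ _).trans (max_le h1.le (qr_const_le w c))

private theorem qr_eq_one {w : Place k K} {x : K} {c : k} (hc : c ≠ 0)
    (h1 : w.v (x - algebraMap k K c) < 1) : w.v x = 1 := by
  have h2 : x = algebraMap k K c + (x - algebraMap k K c) := by ring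
  have h3 : w.v (x - algebraMap k K c) < w.v (algebraMap k K c) := by rw [w.triv c hc]; exact h1
  rw [h2, Valuation.map_add_eq_of_lt_left _ h3, w.triv c hc]

private theorem qrG_val {w : Place k K} {g : K} (hg : qrG w g) : w.v g = 1 := by
  obtain ⟨e, he, h1⟩ := hg
  exact qr_eq_one he h1

private theorem qrG_ne {w : Place k K} {g : K} (hg : qrG w g) : g ≠ 0 := by
  rintro rfl
  have := qrG_val hg
  rw [map_zero] at this
  exact zero_ne_one this

private theorem qrG_one (w : Place k K) : qrG w (1 : K) :=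
  ⟨1, one_ne_zero, by rw [map_one, sub_self, map_zero]; exact zero_lt_one⟩

private theorem qrG_mul {w : Place k K} {g g' : K} (hg : qrG w g) (hg' : qrG w g') :
    qrG w (g * g') := by
  obtain ⟨e, he, h1⟩ := hg
  obtain ⟨e', he', h1'⟩ := hg'
  refine ⟨e * e', mul_ne_zero he he', ?_⟩
  have h3 : g * g' - algebraMap k K (e * e') =
      (g - algebraMap k K e) * g' + algebraMap k K e * (g' - algebraMap k K e') := by
    rw [map_mul]; ring
  rw [h3]
  refine w.v.map_add_lt ?_ ?_
  · rw [map_mul, qr_eq_one he' h1', mul_one]; exact h1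
  · rw [map_mul, w.triv e he, one_mul]; exact h1'

private theorem qrG_inv {w : Place k K} {g : K} (hg : qrG w g) : qrG w g⁻¹ := by
  have hg0 := qrG_ne hg
  have hv := qrG_val hg
  obtain ⟨e, he, h1⟩ := hg
  have he' : algebraMap k K e ≠ 0 := by
    intro h0
    have := w.triv e he
    rw [h0, map_zero] at this
    exact zero_ne_one this
  refine ⟨e⁻¹, inv_ne_zero he, ?_⟩
  have h3 : g⁻¹ - algebraMap k K e⁻¹ = -(g - algebraMap k K e) * (g⁻¹ * (algebraMap k K e)⁻¹) := by
    rw [map_inv₀]; field_simp; ring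
  rw [h3, map_mul, Valuation.map_neg, map_mul, map_inv₀, map_inv₀, hv, w.triv e he, inv_one,
    mul_one, mul_one]
  exact h1

private theorem qr_aeval_le {w : Place k K} (hs : w.v s ≤ 1) (A : k[X]) :
    w.v (aeval s A) ≤ 1 := by
  induction A using Polynomial.induction_on with
  | C c =>
    rw [aeval_C]
    exact qr_const_le w c
  | add p q hp hq =>
    rw [map_add]
    exact (w.v.map_add _ _).trans (max_le hp hq)
  | monomial n c hc =>
    rw [pow_succ, ← mul_assoc, map_mul, map_mul, aeval_X]
    exact mul_le_one' hc hs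

private theorem qr_sub_eval {w : Place k K} {a : k}
    (h1 : w.v (s - algebraMap k K a) < 1) (A : k[X]) :
    w.v (aeval s A - algebraMap k K (A.eval a)) < 1 := by
  obtain ⟨Q, hQ⟩ := X_sub_C_dvd_sub_C_eval (p := A) (a := a)
  have h2 : aeval s A - algebraMap k K (A.eval a) = (s - algebraMap k K a) * aeval s Q := by
    have := congrArg (aeval s) hQ
    simpa using this
  rw [h2, map_mul]
  calc w.v (s - algebraMap k K a) * w.v (aeval s Q)
      ≤ w.v (s - algebraMap k K a) * 1 :=
        mul_le_mul_right (qr_aeval_le (qr_le_of_sub h1) Q) _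
    _ < 1 := by rw [mul_one]; exact h1

/-- (i) -/
private theorem qr_unit {w : Place k K} {a c : k}
    (h1 : w.v (s - algebraMap k K a) < 1) (h2 : w.v (y - algebraMap k K c) < 1) (A B : k[X])
    (hne : A.eval a + B.eval a * c ≠ 0) :
    qrG w (aeval s A + aeval s B * y) := by
  refine ⟨_, hne, ?_⟩
  have h3 : aeval s A + aeval s B * y - algebraMap k K (A.eval a + B.eval a * c) =
      (aeval s A - algebraMap k K (A.eval a)) +
        ((aeval s B - algebraMap k K (B.eval a)) * y +
          algebraMap k K (B.eval a) * (y - algebraMap k K c)) := by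
    rw [map_add, map_mul]; ring
  rw [h3]
  refine w.v.map_add_lt (qr_sub_eval h1 A) (w.v.map_add_lt ?_ ?_)
  · rw [map_mul]
    calc w.v (aeval s B - algebraMap k K (B.eval a)) * w.v y
        ≤ w.v (aeval s B - algebraMap k K (B.eval a)) * 1 :=
          mul_le_mul_right (qr_le_of_sub h2) _
      _ < 1 := by rw [mul_one]; exact qr_sub_eval h1 B
  · rw [map_mul]
    calc w.v (algebraMap k K (B.eval a)) * w.v (y - algebraMap k K c)
        ≤ 1 * w.v (y - algebraMap k K c) :=
          mul_le_mul_left (qr_const_le w _) _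
      _ < 1 := by rw [one_mul]; exact h2

/-- `f` is a power of `s - a` times a unit with a value in `k` -/
private def qrP (w : Place k K) (s : K) (a : k) (f : K) : Prop :=
  ∃ (n : ℤ) (g : K), qrG w g ∧ f = (s - algebraMap k K a) ^ n * g

private theorem qrP_of_G {w : Place k K} {a : k} {g : K} (hg : qrG w g) : qrP w s a g :=
  ⟨0, g, hg, by rw [zpow_zero, one_mul]⟩

private theorem qrP_mul {w : Place k K} {a : k} (hsa : s - algebraMap k K a ≠ 0) {f f' : K}
    (hf : qrP w s a f) (hf' : qrP w s a f') : qrP w s a (f * f') := by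
  obtain ⟨n, g, hg, rfl⟩ := hf
  obtain ⟨n', g', hg', rfl⟩ := hf'
  exact ⟨n + n', g * g', qrG_mul hg hg', by rw [zpow_add₀ hsa]; ring⟩

private theorem qrP_inv {w : Place k K} {a : k} {f : K}
    (hf : qrP w s a f) : qrP w s a f⁻¹ := by
  obtain ⟨n, g, hg, rfl⟩ := hf
  exact ⟨-n, g⁻¹, qrG_inv hg, by rw [zpow_neg, mul_inv]⟩

private theorem qrP_sa {w : Place k K} {a : k} : qrP w s a (s - algebraMap k K a) :=
  ⟨1, 1, qrG_one w, by rw [zpow_one, mul_one]⟩

private theorem qrP_pow {w : Place k K} {a : k} (m : ℕ) :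
    qrP w s a ((s - algebraMap k K a) ^ m) :=
  ⟨m, 1, qrG_one w, by rw [zpow_natCast, mul_one]⟩

/-- polynomials in `s` -/
private theorem qr_poly {w : Place k K} {a : k} (hsa : s - algebraMap k K a ≠ 0)
    (h1 : w.v (s - algebraMap k K a) < 1) (A : k[X]) (hA : A ≠ 0) : qrP w s a (aeval s A) := by
  obtain ⟨q, hq, hq2⟩ := exists_eq_pow_rootMultiplicity_mul_and_not_dvd A hA a
  have hqa : q.eval a ≠ 0 := fun h => hq2 (dvd_iff_isRoot.2 h)
  have h2 : aeval s A = (s - algebraMap k K a) ^ (rootMultiplicity a A) * aeval s q := by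
    have := congrArg (aeval s) hq
    rw [this]; simp
  rw [h2]
  exact qrP_mul hsa (qrP_pow _) (qrP_of_G ⟨_, hqa, qr_sub_eval h1 q⟩)

private theorem qr_natDegree_lt {a : k} {A A' : k[X]} (hA : A = (X - C a) * A') (h0 : A ≠ 0) :
    A'.natDegree < A.natDegree := by
  have h1 : A' ≠ 0 := by rintro rfl; exact h0 (by rw [hA, mul_zero])
  rw [hA, natDegree_mul (X_sub_C_ne_zero a) h1, natDegree_X_sub_C]
  omega

private theorem qr_natDegree_le {a : k} {A A' : k[X]} (hA : A = (X - C a) * A') :
    A'.natDegree ≤ A.natDegree := by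
  by_cases h0 : A = 0
  · have : A' = 0 := by
      rcases mul_eq_zero.1 (hA ▸ h0) with h | h
      · exact absurd h (X_sub_C_ne_zero a)
      · exact h
    rw [this, h0]
  · exact (qr_natDegree_lt hA h0).le

/-- (ii), the norm argument -/
private theorem qr_lin_norm (H : IsQuad k K h s y) {a c : k} {w : Place k K}
    (hsa : s - algebraMap k K a ≠ 0)
    (w1 : w.v (s - algebraMap k K a) < 1) (w2 : w.v (y - algebraMap k K c) < 1) (A B : k[X])
    (hAB : A ≠ 0 ∨ B ≠ 0) (h2 : ¬ A.eval a - B.eval a * c = 0) :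
      qrP w s a (aeval s A + aeval s B * y) := by
  have hprod : (aeval s A + aeval s B * y) * (aeval s A + aeval s (-B) * y) =
      aeval s (A ^ 2 - B ^ 2 * h) := by
    have := H.sq
    simp only [map_sub, map_mul, map_pow, map_neg]
    rw [← this]; ring
  have hN : A ^ 2 - B ^ 2 * h ≠ 0 := by
    intro h0
    rw [h0, map_zero] at hprod
    rcases mul_eq_zero.1 hprod with h3 | h3
    · obtain ⟨h4, h5⟩ := H.indep _ _ h3
      rcases hAB with h | h
      · exact h h4
      · exact h h5
    · obtain ⟨h4, h5⟩ := H.indep _ _ h3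
      rcases hAB with h | h
      · exact h h4
      · exact h (neg_eq_zero.1 h5)
  have h3 : qrG w (aeval s A + aeval s (-B) * y) := by
    apply qr_unit w1 w2
    rw [eval_neg]
    intro h
    exact h2 (by linear_combination h)
  have h4 : aeval s A + aeval s B * y =
      aeval s (A ^ 2 - B ^ 2 * h) * (aeval s A + aeval s (-B) * y)⁻¹ := by
    rw [← hprod, mul_assoc, mul_inv_cancel₀ (qrG_ne h3), mul_one]
  rw [h4]
  exact qrP_mul hsa (qr_poly hsa w1 _ hN) (qrP_of_G (qrG_inv h3))

private theorem qr_both {a c : k} (hc0 : c ≠ 0) {α β : k} (h1 : α + β * c = 0)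
    (h2 : α - β * c = 0) : α = 0 ∧ β = 0 := by
  have hA0 : α = 0 := by
    have : (2 : k) * α = 0 := by linear_combination h1 + h2
    rcases mul_eq_zero.1 this with h | h
    · exact absurd h two_ne_zero
    · exact h
  refine ⟨hA0, ?_⟩
  have : β * c = 0 := by linear_combination h1 - hA0
  rcases mul_eq_zero.1 this with h | h
  · exact h
  · exact absurd h hc0

/-- (ii) for `f = A(s) + B(s) y` -/
private theorem qr_lin (H : IsQuad k K h s y) {a c : k} (hc0 : c ≠ 0) {w : Place k K}
    (hsa : s - algebraMap k K a ≠ 0)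
    (w1 : w.v (s - algebraMap k K a) < 1) (w2 : w.v (y - algebraMap k K c) < 1) :
    ∀ (N : ℕ) (A B : k[X]), A.natDegree + B.natDegree ≤ N → (A ≠ 0 ∨ B ≠ 0) →
      qrP w s a (aeval s A + aeval s B * y) := by
  intro N
  induction N with
  | zero =>
    intro A B hN hAB
    have hA : A.natDegree = 0 := by omega
    have hB : B.natDegree = 0 := by omega
    by_cases h1 : A.eval a + B.eval a * c = 0
    · by_cases h2 : A.eval a - B.eval a * c = 0
      · exfalso
        obtain ⟨hA0, hB0⟩ := qr_both (a := a) hc0 h1 h2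
        rw [eq_C_of_natDegree_eq_zero hA, eval_C] at hA0
        rw [eq_C_of_natDegree_eq_zero hB, eval_C] at hB0
        rcases hAB with h | h
        · exact h (by rw [eq_C_of_natDegree_eq_zero hA, hA0, C_0])
        · exact h (by rw [eq_C_of_natDegree_eq_zero hB, hB0, C_0])
      · exact qr_lin_norm H hsa w1 w2 A B hAB h2
    · exact qrP_of_G (qr_unit w1 w2 A B h1)
  | succ N ih =>
    intro A B hN hAB
    by_cases h1 : A.eval a + B.eval a * c = 0
    · by_cases h2 : A.eval a - B.eval a * c = 0
      · obtain ⟨hA0, hB0⟩ := qr_both (a := a) hc0 h1 h2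
        obtain ⟨A', hA'⟩ := dvd_iff_isRoot.2 hA0
        obtain ⟨B', hB'⟩ := dvd_iff_isRoot.2 hB0
        have hAB' : A' ≠ 0 ∨ B' ≠ 0 := by
          by_contra hcon
          push Not at hcon
          rw [hcon.1, mul_zero] at hA'
          rw [hcon.2, mul_zero] at hB'
          rcases hAB with h | h
          · exact h hA'
          · exact h hB'
        have hdeg : A'.natDegree + B'.natDegree ≤ N := by
          have l1 := qr_natDegree_le hA'
          have l2 := qr_natDegree_le hB'
          rcases hAB with h | h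
          · have := qr_natDegree_lt hA' h; omega
          · have := qr_natDegree_lt hB' h; omega
        have h3 : aeval s A + aeval s B * y =
            (aeval s A' + aeval s B' * y) * (s - algebraMap k K a) := by
          rw [hA', hB']; simp; ring
        rw [h3]
        exact qrP_mul hsa (ih A' B' hdeg hAB') qrP_sa
      · exact qr_lin_norm H hsa w1 w2 A B hAB h2
    · exact qrP_of_G (qr_unit w1 w2 A B h1)

/-- (ii) -/
private theorem qr_all (H : IsQuad k K h s y) {a c : k} (hc0 : c ≠ 0) {w : Place k K}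
    (w1 : w.v (s - algebraMap k K a) < 1) (w2 : w.v (y - algebraMap k K c) < 1)
    (f : K) (hf : f ≠ 0) :
    s - algebraMap k K a ≠ 0 ∧ qrP w s a f := by
  have hsa : s - algebraMap k K a ≠ 0 := by
    intro h0
    have := (H.indep (X - C a) 0 (by simpa using h0)).1
    exact X_sub_C_ne_zero a this
  refine ⟨hsa, ?_⟩
  obtain ⟨A, B, D, hD, hfD⟩ := H.gen f
  have hD0 : aeval s D ≠ 0 := fun h0 => hD (H.indep D 0 (by simpa using h0)).1
  have hAB : A ≠ 0 ∨ B ≠ 0 := by
    by_contra hcon
    push Not at hcon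
    rw [hcon.1, hcon.2, map_zero, zero_mul, add_zero] at hfD
    exact (mul_ne_zero hf hD0) hfD
  have h4 : f = (aeval s A + aeval s B * y) * (aeval s D)⁻¹ := by
    rw [← hfD, mul_assoc, mul_inv_cancel₀ hD0, mul_one]
  rw [h4]
  exact qrP_mul hsa (qr_lin H hc0 hsa w1 w2 _ A B le_rfl hAB) (qrP_inv (qr_poly hsa w1 D hD))

theorem quad_residue {F : Type} [Field F] [CharZero F] {K : Type} [Field K] [Algebra F K]
    {h : F[X]} {s y : K} (H : IsQuad F K h s y) {a c : F} (hc : c ^ 2 = h.eval a) (hc0 : c ≠ 0)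
    (w : Place F K) (h1 : w.v (s - algebraMap F K a) < 1) (h2 : w.v (y - algebraMap F K c) < 1)
    (u : K) (hu : w.v u ≤ 1) : ∃ d : F, w.v (u - algebraMap F K d) < 1 := by
  rcases lt_or_eq_of_le hu with hlt | heq
  · exact ⟨0, by rw [map_zero, sub_zero]; exact hlt⟩
  · have hu0 : u ≠ 0 := by
      rintro rfl
      rw [map_zero] at heq
      exact zero_ne_one heq
    obtain ⟨hsa, n, g, hg, hf⟩ := qr_all H hc0 h1 h2 u hu0
    have hv0 : w.v (s - algebraMap F K a) ≠ 0 := (Valuation.ne_zero_iff _).2 hsa
    have hvn : w.v (s - algebraMap F K a) ^ n = 1 := by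
      rw [hf, map_mul, map_zpow₀, qrG_val hg, mul_one] at heq
      exact heq
    have hn : n = 0 := by
      set d : ℤ := WithZero.log (w.v (s - algebraMap F K a)) with hd
      have h6 : w.v (s - algebraMap F K a) = WithZero.exp d := (WithZero.exp_log hv0).symm
      rw [h6, ← WithZero.exp_zero, WithZero.exp_lt_exp] at h1
      rw [h6, ← WithZero.exp_zsmul, ← WithZero.exp_zero, WithZero.exp_inj] at hvn
      rcases mul_eq_zero.1 (by rw [← smul_eq_mul]; exact hvn : n * d = 0) with h | h
      · exact h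
      · omega
    rw [hn, zpow_zero, one_mul] at hf
    obtain ⟨e, he, h3⟩ := hg
    exact ⟨e, by rw [hf]; exact h3⟩

end AC
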