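import Pool.Agent.H18.AC.RedLin

/-!
Module SpRed (project AC, helper18).  Values at places in terms of the base field (Sp, the same definition as
ZC.SpecializesTo but for arbitrary parameters) and the bridge to Red for the residue place.
PROOF.  sp_iff_red: for X ∈ L, x ∈ F: residueHom w X = residueHom w (algebraMap F L x) iff X - x is in the maximal ideal
iff w.v (X - x) < 1 (Valuation.mem_valuationSubring_iff, IsLocalRing.residue_eq_zero_iff / ValuationSubring.valuation_lt_one_iff,
nonunits of w.v.valuationSubring are the elements with w.v < 1).  X ∉ O iff 1 < w.v X.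
sp_add: Red.add for resPl w, applied over the field F (resPl (w : Place F L) : KPl F L (Residue w)), with values
bca (Residue w) R, then sp_iff_red back (bca is additive).  hab: the constant c has the value algebraMap F (Residue w) c.
sp_unique: Red.uniq and bc_injective.
-/

namespace AC

open ZC WeierstrassCurve
open scoped Classical

/-- `Sp w P p`: the point `P` over `L` has the `F`-rational value `p` at the place `w`. -/
def Sp {F L : Type} [Field F] [Field L] [Algebra F L] (w : Place F L) {b : L} {c : F} :
    Pt b → Pt c → Prop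
  | .zero, .zero => True
  | .zero, .some _ _ _ => False
  | .some X _ _, .zero => 1 < w.v X
  | .some X Y _, .some x y _ =>
      w.v (X - algebraMap F L x) < 1 ∧ w.v (Y - algebraMap F L y) < 1

theorem sp_iff_spec {F L : Type} [Field F] [Field L] [Algebra F L] (w : Place F L) {c : F}
    (P : Pt (algebraMap F L c)) (p : Pt c) : Sp w P p ↔ SpecializesTo w P p := by
  rcases P with _ | ⟨X, Y, h⟩ <;> rcases p with _ | ⟨x, y, h'⟩ <;> exact Iff.rfl

variable {F L : Type} [Field F] [Field L] [Algebra F L]

private theorem v_const_lt (w : Place F L) {x : F} (h : w.v (algebraMap F L x) < 1) : x = 0 := by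
  by_contra hx
  rw [w.triv x hx] at h
  exact lt_irrefl _ h

private theorem key (w : Place F L) (X : L) (x : F) :
    w.v (X - algebraMap F L x) < 1 ↔
      ∃ h : X ∈ w.v.valuationSubring, residueHom w ⟨X, h⟩ = algebraMap F (Residue w) x := by
  have hc : algebraMap F L x ∈ w.v.valuationSubring := algebraMap_mem w x
  have hmax : ∀ a : w.v.valuationSubring, residueHom w a = 0 ↔ w.v (a : L) < 1 := by
    intro a
    have h1 : residueHom w a = 0 ↔ a ∈ IsLocalRing.maximalIdeal w.v.valuationSubring :=
      IsLocalRing.residue_eq_zero_iff a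
    rw [h1, ValuationSubring.valuation_lt_one_iff]
    exact ((Valuation.isEquiv_valuation_valuationSubring w.v).lt_one_iff_lt_one).symm
  have hconst : algebraMap F (Residue w) x = residueHom w ⟨algebraMap F L x, hc⟩ := rfl
  constructor
  · intro h
    have h1 : X - algebraMap F L x ∈ w.v.valuationSubring := by
      rw [Valuation.mem_valuationSubring_iff]
      exact h.le
    have h2 : X ∈ w.v.valuationSubring := by
      have := w.v.valuationSubring.add_mem _ _ h1 hc
      rwa [sub_add_cancel] at this
    refine ⟨h2, ?_⟩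
    rw [hconst, ← sub_eq_zero, ← map_sub, hmax]
    exact h
  · rintro ⟨h2, h3⟩
    rw [hconst, ← sub_eq_zero, ← map_sub, hmax] at h3
    exact h3

theorem sp_iff_red (w : Place F L) {c : F} (P : Pt (algebraMap F L c)) (p : Pt c) :
    Sp w P p ↔ Red (resPl w) P (bca (Residue w) p) := by
  rcases P with _ | ⟨X, Y, h⟩ <;> rcases p with _ | ⟨x, y, h'⟩
  · exact Iff.rfl
  · exact Iff.rfl
  · change 1 < w.v X ↔ X ∉ w.v.valuationSubring
    rw [Valuation.mem_valuationSubring_iff, not_le]
  · exact and_congr (key w X x) (key w Y y)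

theorem sp_add [CharZero F] (w : Place F L) {b : L} {c : F} (hb : algebraMap F L c = b)
    (hc0 : c ≠ 0) (hc1 : c ≠ 1) {P Q : Pt b} {p q : Pt c} (hP : Sp w P p) (hQ : Sp w Q q) :
    Sp w (P + Q) (p + q) := by
  subst hb
  rw [sp_iff_red] at hP hQ ⊢
  rw [map_add]
  have hb0 : algebraMap F (Residue w) c ≠ 0 := by
    intro h
    apply hc0
    apply (algebraMap F (Residue w)).injective
    rw [h, map_zero]
  have hb1 : algebraMap F (Residue w) c ≠ 1 := by
    intro h
    apply hc1
    apply (algebraMap F (Residue w)).injective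
    rw [h, map_one]
  exact Red.add ((resPl w).const c) hb0 hb1 hP hQ

theorem sp_neg (w : Place F L) {b : L} {c : F} {P : Pt b} {p : Pt c} (hP : Sp w P p) :
    Sp w (-P) (-p) := by
  rcases P with _ | ⟨X, Y, h⟩ <;> rcases p with _ | ⟨x, y, h'⟩
  · exact hP
  · exact hP.elim
  · exact hP
  · refine ⟨hP.1, ?_⟩
    have e1 : (leg b).toAffine.negY X Y = -Y := by
      simp [WeierstrassCurve.Affine.negY, leg]
    have e2 : (leg c).toAffine.negY x y = -y := by
      simp [WeierstrassCurve.Affine.negY, leg]
    change w.v ((leg b).toAffine.negY X Y - algebraMap F L ((leg c).toAffine.negY x y)) < 1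
    rw [e1, e2, map_neg, sub_neg_eq_add, neg_add_eq_sub, Valuation.map_sub_swap]
    exact hP.2

theorem sp_const (w : Place F L) {b : L} {c : F} (hb : algebraMap F L c = b) (p : Pt c) :
    Sp w (bc (algebraMap F L) hb p) p := by
  rcases p with _ | ⟨x, y, h'⟩
  · exact trivial
  · rw [bc_some]
    refine ⟨?_, ?_⟩
    · rw [sub_self, map_zero]
      exact zero_lt_one
    · rw [sub_self, map_zero]
      exact zero_lt_one

private theorem v_sub (w : Place F L) {X : L} {x x' : F} (h : w.v (X - algebraMap F L x) < 1)
    (h' : w.v (X - algebraMap F L x') < 1) : x = x' := by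
  have h1 : w.v (algebraMap F L (x - x')) < 1 := by
    have e : algebraMap F L (x - x') = (X - algebraMap F L x') - (X - algebraMap F L x) := by
      rw [map_sub]
      ring
    rw [e]
    exact lt_of_le_of_lt (Valuation.map_sub _ _ _) (max_lt h' h)
  exact sub_eq_zero.mp (v_const_lt w h1)

private theorem v_inf (w : Place F L) {X : L} {x : F} (h : w.v (X - algebraMap F L x) < 1)
    (h' : 1 < w.v X) : False := by
  have h2 := ((key w X x).1 h).1
  rw [Valuation.mem_valuationSubring_iff] at h2
  exact absurd h2 (not_le.2 h')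

theorem sp_unique (w : Place F L) {b : L} {c : F} {P : Pt b} {p q : Pt c} (hP : Sp w P p)
    (hQ : Sp w P q) : p = q := by
  rcases P with _ | ⟨X, Y, h⟩ <;> rcases p with _ | ⟨x, y, h'⟩ <;> rcases q with _ | ⟨x', y', h''⟩
  · rfl
  · exact hQ.elim
  · exact hP.elim
  · exact hP.elim
  · rfl
  · exact (v_inf w hQ.1 hP).elim
  · exact (v_inf w hP.1 hQ).elim
  · have e1 := v_sub w hP.1 hQ.1
    have e2 := v_sub w hP.2 hQ.2
    subst e1 e2
    rfl

end AC
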