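import Pool.Agent.H18.AC.QuadGen
import Pool.Agent.H18.AC.QuadRes
import Pool.Agent.H18.AC.PlaceExF
import Pool.Agent.H18.AC.PlaceUniqF
import Pool.Agent.H18.AC.SpRed
import Pool.Agent.ZC.Group

/-!
Module PlaceAt (project AC, helper18).  The places of the function field L = F(E_c) at the F-rational points R of E_c; q is the
generic point.  k is algebraically closed, c is the image of a constant a of k (so that E_c has many rational points).
PROOF.  First R = some x y with y ≠ 0: a point q with Sp w q R satisfies w.v (xc q - x) < 1 and w.v (yc q - y) < 1, so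
quad_exists_place, quad_place_unique, quad_residue, quad_ord_eq_one (PlaceExF, PlaceUniqF, QuadRes; h = cub c, y ^ 2 = eval x (cub c)
by leg_equation; Sp w q R also requires that q is affine, true because xc q is transcendental).
General R: choose T = bca F T₀, T₀ : Pt a over k, such that R + T is neither 0 nor of order 2, i.e. R + T = some x y with y ≠ 0, and
T itself likewise (k has infinitely many points, ZC.infinite_Pt; exclude -R, and the T₀ with bca F T₀ = 2-torsion point - R: at most
three, and T₀ itself 0 or 2-torsion: four).  q' = q + T satisfies IsQuad (translate_quad), and Sp w q R iff Sp w q' (R + T)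
(sp_add, sp_const, sp_neg).
Order at R = 0: w.ord (xc q) = -2: q = q' - T, T = some x₀ y₀, y₀ ≠ 0, Sp w q' T, X' = xc q', Y' = yc q':
xc q = l² - X' - x₀ + 1 + c with l = (Y' + y₀)/(X' - x₀) (slope of q' and -T = some x₀ (-y₀)), w.v (Y' + y₀) = 1 as Y' ≡ y₀, 2 y₀ ≠ 0,
w.ord (X' - x₀) = 1, so l² has order -2, the rest order ≥ 0.
-/

namespace AC

open ZC WeierstrassCurve
open scoped Classical

variable {k : Type} [Field k] [IsAlgClosed k] [CharZero k] {F L : Type} [Field F] [Field L]
  [Algebra k F] [Algebra F L] {a : k} {b : L}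

private theorem pa_quad_ne {F L : Type} [Field F] [Field L] [Algebra F L] {c : F} {b : L}
    (q : Pt b) (H : IsQuad F L (cub c) (xc q) (yc q)) : q ≠ 0 := by
  rintro rfl
  have h := (H.indep 0 (1 : Polynomial F) (by
    change Polynomial.aeval _ (0 : Polynomial F) + Polynomial.aeval _ (1 : Polynomial F) * (0 : L) = 0
    simp)).2
  exact one_ne_zero h

private theorem pa_eval {F : Type} [Field F] (c x : F) :
    (cub c).eval x = x * (x - 1) * (x - c) := by
  simp [cub]

/-- values at an affine point -/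
private theorem pa_sp_iff {F L : Type} [Field F] [Field L] [Algebra F L] {c : F} {b : L}
    (q : Pt b) (hq : q ≠ 0) (R : Pt c) (hR : R ≠ 0) (w : Place F L) :
    Sp w q R ↔ (w.v (xc q - algebraMap F L (xc R)) < 1 ∧
      w.v (yc q - algebraMap F L (yc R)) < 1) := by
  rcases q with _ | ⟨X, Y, h⟩
  · exact absurd rfl hq
  rcases R with _ | ⟨x, y, h'⟩
  · exact absurd rfl hR
  exact Iff.rfl

private theorem pa_leg {F : Type} [Field F] {c : F} (R : Pt c) (hR : R ≠ 0) :
    yc R ^ 2 = (cub c).eval (xc R) := by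
  rcases R with _ | ⟨x, y, h⟩
  · exact absurd rfl hR
  rw [pa_eval]
  exact (leg_equation c x y).1 h.1

private theorem pa_y_ne {F : Type} [Field F] [CharZero F] {c : F} (R : Pt c) (hR : R ≠ 0)
    (hR' : R ≠ -R) : yc R ≠ 0 := by
  rcases R with _ | ⟨x, y, h⟩
  · exact absurd rfl hR
  intro hy
  apply hR'
  have e1 : (leg c).toAffine.negY x y = -y := by
    simp [WeierstrassCurve.Affine.negY, leg]
  change (Affine.Point.some x y h : Pt c) = Affine.Point.some x ((leg c).toAffine.negY x y) _
  rw [Affine.Point.some.injEq]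
  refine ⟨rfl, ?_⟩
  rw [e1]
  have : y = 0 := hy
  rw [this, neg_zero]

/-- a good translation -/
private theorem pa_shift (ha0 : a ≠ 0) (ha1 : a ≠ 1) (R : Pt (algebraMap k F a)) :
    ∃ T : Pt a, T + T ≠ 0 ∧ (R + bca F T) + (R + bca F T) ≠ 0 := by
  have : Infinite (Pt a) := infinite_Pt ha0 ha1
  have hfin : {U : Pt a | (U + U) + (U + U) = 0}.Finite := by
    have : {U : Pt a | (U + U) + (U + U) = 0} ⊆
        ⋃ V ∈ {V : Pt a | V + V = 0}, {U : Pt a | U + U = V} := by
      intro U hU
      simp only [Set.mem_iUnion]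
      exact ⟨U + U, hU, rfl⟩
    exact ((finite_halves (0 : Pt a)).biUnion fun V _ => finite_halves V).subset this
  obtain ⟨U, hU⟩ := hfin.infinite_compl.nonempty
  have hU : (U + U) + (U + U) ≠ 0 := hU
  have hU2 : U + U ≠ 0 := by
    intro h
    apply hU
    rw [h, add_zero]
  by_cases h : (R + bca F U) + (R + bca F U) = 0
  · refine ⟨U + U, hU, ?_⟩
    have e : R + bca F (U + U) + (R + bca F (U + U)) =
        ((R + bca F U) + (R + bca F U)) + bca F (U + U) := by
      rw [map_add]
      abel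
    rw [e, h, zero_add]
    intro h2
    apply hU2
    apply bc_injective (algebraMap k F) rfl
    rw [map_zero]
    exact h2
  · exact ⟨U, hU2, h⟩

private theorem pa_ne_zero {c : F} {R : Pt c} (h : R + R ≠ 0) : R ≠ 0 := by
  rintro rfl
  exact h (add_zero _)

private theorem pa_ne_neg {c : F} {R : Pt c} (h : R + R ≠ 0) : R ≠ -R := by
  intro h'
  apply h
  nth_rw 2 [h']
  exact add_neg_cancel _

private theorem pa_sp_shift [CharZero F] {c : F} (hc0 : c ≠ 0) (hc1 : c ≠ 1)
    (hb : algebraMap F L c = b) (q : Pt b) (R T : Pt c) (w : Place F L) :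
    Sp w q R ↔ Sp w (q + bc (algebraMap F L) hb T) (R + T) := by
  constructor
  · intro h
    exact sp_add w hb hc0 hc1 h (sp_const w hb T)
  · intro h
    have h2 := sp_add w hb hc0 hc1 h (sp_neg w (sp_const w hb T))
    rw [add_neg_cancel_right, add_neg_cancel_right] at h2
    exact h2

theorem placeAt_exists (ha0 : a ≠ 0) (ha1 : a ≠ 1) (hb : algebraMap F L (algebraMap k F a) = b)
    (q : Pt b) (H : IsQuad F L (cub (algebraMap k F a)) (xc q) (yc q))
    (R : Pt (algebraMap k F a)) :
    ∃ w : Place F L, Sp w q R ∧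
      ∀ u : L, w.v u ≤ 1 → ∃ d : F, w.v (u - algebraMap F L d) < 1 := by
  haveI : CharZero F := charZero_of_injective_algebraMap (algebraMap k F).injective
  have hc0 : algebraMap k F a ≠ 0 := by
    intro h
    apply ha0
    apply (algebraMap k F).injective
    rw [h, map_zero]
  have hc1 : algebraMap k F a ≠ 1 := by
    intro h
    apply ha1
    apply (algebraMap k F).injective
    rw [h, map_one]
  obtain ⟨T, hT, hRT⟩ := pa_shift (F := F) ha0 ha1 R
  have H' := translate_quad hc0 hc1 hb q H (bca F T)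
  have hq' := pa_quad_ne _ H'
  have hR0 := pa_ne_zero hRT
  have hy := pa_y_ne _ hR0 (pa_ne_neg hRT)
  obtain ⟨w, h1, h2⟩ := quad_exists_place H' (pa_leg _ hR0) hy
  refine ⟨w, ?_, ?_⟩
  · rw [pa_sp_shift hc0 hc1 hb q R (bca F T) w, pa_sp_iff _ hq' _ hR0]
    exact ⟨h1, h2⟩
  · intro u hu
    exact quad_residue H' (pa_leg _ hR0) hy w h1 h2 u hu

theorem placeAt_unique (ha0 : a ≠ 0) (ha1 : a ≠ 1) (hb : algebraMap F L (algebraMap k F a) = b)
    (q : Pt b) (H : IsQuad F L (cub (algebraMap k F a)) (xc q) (yc q))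
    (R : Pt (algebraMap k F a)) (w w' : Place F L) (h : Sp w q R) (h' : Sp w' q R) : w = w' := by
  haveI : CharZero F := charZero_of_injective_algebraMap (algebraMap k F).injective
  have hc0 : algebraMap k F a ≠ 0 := by
    intro h
    apply ha0
    apply (algebraMap k F).injective
    rw [h, map_zero]
  have hc1 : algebraMap k F a ≠ 1 := by
    intro h
    apply ha1
    apply (algebraMap k F).injective
    rw [h, map_one]
  obtain ⟨T, hT, hRT⟩ := pa_shift (F := F) ha0 ha1 R
  have H' := translate_quad hc0 hc1 hb q H (bca F T)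
  have hq' := pa_quad_ne _ H'
  have hR0 := pa_ne_zero hRT
  have hy := pa_y_ne _ hR0 (pa_ne_neg hRT)
  rw [pa_sp_shift hc0 hc1 hb q R (bca F T), pa_sp_iff _ hq' _ hR0] at h h'
  exact quad_place_unique H' (pa_leg _ hR0) hy w w' h.1 h.2 h'.1 h'.2

theorem placeAt_ord_one (ha0 : a ≠ 0) (ha1 : a ≠ 1) (hb : algebraMap F L (algebraMap k F a) = b)
    (q : Pt b) (H : IsQuad F L (cub (algebraMap k F a)) (xc q) (yc q))
    (R : Pt (algebraMap k F a)) (hR : R ≠ 0) (hR' : R ≠ -R) (w : Place F L) (h : Sp w q R) :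
    w.ord (xc q - algebraMap F L (xc R)) = 1 := by
  haveI : CharZero F := charZero_of_injective_algebraMap (algebraMap k F).injective
  have hq := pa_quad_ne _ H
  have hy := pa_y_ne _ hR hR'
  rw [pa_sp_iff _ hq _ hR] at h
  exact quad_ord_eq_one H (pa_leg _ hR) hy w h.1 h.2

private theorem pa_addX {G : Type} [Field G] {c : G} {X₁ Y₁ X₂ Y₂ : G}
    (h₁ : (leg c).toAffine.Nonsingular X₁ Y₁) (h₂ : (leg c).toAffine.Nonsingular X₂ Y₂)
    (hne : X₁ ≠ X₂) :
    xc (Affine.Point.some X₁ Y₁ h₁ + Affine.Point.some X₂ Y₂ h₂ : Pt c) =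
      ((Y₁ - Y₂) / (X₁ - X₂)) ^ 2 + ((1 + c) - X₁ - X₂) := by
  have hxy : ¬ (X₁ = X₂ ∧ Y₁ = (leg c).toAffine.negY X₂ Y₂) := fun h => hne h.1
  rw [Affine.Point.add_some hxy]
  change (leg c).toAffine.addX X₁ X₂ ((leg c).toAffine.slope X₁ X₂ Y₁ Y₂) = _
  rw [Affine.slope_of_X_ne hne]
  simp only [Affine.addX, leg]
  ring

theorem placeAt_ord_zero (ha0 : a ≠ 0) (ha1 : a ≠ 1) (hb : algebraMap F L (algebraMap k F a) = b)
    (q : Pt b) (H : IsQuad F L (cub (algebraMap k F a)) (xc q) (yc q))
    (w : Place F L) (h : Sp w q (0 : Pt (algebraMap k F a))) : w.ord (xc q) = -2 := by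
  haveI : CharZero F := charZero_of_injective_algebraMap (algebraMap k F).injective
  have hc0 : algebraMap k F a ≠ 0 := by
    intro h
    apply ha0
    apply (algebraMap k F).injective
    rw [h, map_zero]
  have hc1 : algebraMap k F a ≠ 1 := by
    intro h
    apply ha1
    apply (algebraMap k F).injective
    rw [h, map_one]
  obtain ⟨T, -, hRT⟩ := pa_shift (F := F) ha0 ha1 (0 : Pt (algebraMap k F a))
  rw [zero_add] at hRT
  have H' := translate_quad hc0 hc1 hb q H (bca F T)
  have hq' := pa_quad_ne _ H'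
  have hR0 := pa_ne_zero hRT
  have hy := pa_y_ne _ hR0 (pa_ne_neg hRT)
  rw [pa_sp_shift hc0 hc1 hb q 0 (bca F T), zero_add] at h
  have hord := placeAt_ord_one ha0 ha1 hb _ H' _ hR0 (pa_ne_neg hRT) w h
  rw [pa_sp_iff _ hq' _ hR0] at h
  obtain ⟨hv1, hv2⟩ := h
  have hqe : q = (q + bc (algebraMap F L) hb (bca F T)) + -bc (algebraMap F L) hb (bca F T) := by
    abel
  have hTx : xc (bc (algebraMap F L) hb (bca F T)) = algebraMap F L (xc (bca F T)) := xc_bc _ _ _
  have hTy : yc (bc (algebraMap F L) hb (bca F T)) = algebraMap F L (yc (bca F T)) := yc_bc _ _ _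
  have hT0 : bc (algebraMap F L) hb (bca F T) ≠ 0 := by
    intro h0
    apply hR0
    apply bc_injective (algebraMap F L) hb
    rw [h0, map_zero]
  set x₀ := xc (bca F T) with hx₀
  set y₀ := yc (bca F T) with hy₀
  set q' := q + bc (algebraMap F L) hb (bca F T) with hq'def
  set T' := bc (algebraMap F L) hb (bca F T) with hT'
  have hlog : WithZero.log (w.v (xc q' - algebraMap F L x₀)) = -1 := by
    have h1 := hord
    rw [Place.ord] at h1
    linarith
  have hne : xc q' - algebraMap F L x₀ ≠ 0 := by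
    intro h0
    rw [h0, map_zero, WithZero.log_zero] at hlog
    norm_num at hlog
  have hvne : w.v (xc q' - algebraMap F L x₀) ≠ 0 := (Valuation.ne_zero_iff _).2 hne
  have hx : xc q = ((yc q' + algebraMap F L y₀) / (xc q' - algebraMap F L x₀)) ^ 2 +
      ((1 + b) - xc q' - algebraMap F L x₀) := by
    have e : xc q = xc (q' + -T') := by rw [← hqe]
    rw [e]
    rw [← hTx, ← hTy]
    have hne' : xc q' ≠ xc T' := by
      rw [hTx]
      exact sub_ne_zero.1 hne
    clear_value q' T'
    rcases q' with _ | ⟨X', Y', h'⟩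
    · exact absurd rfl hq'
    rcases T' with _ | ⟨X₀, Y₀, h₀⟩
    · exact absurd rfl hT0
    have e1 : (leg b).toAffine.negY X₀ Y₀ = -Y₀ := by
      simp [WeierstrassCurve.Affine.negY, leg]
    change xc (Affine.Point.some X' Y' h' + Affine.Point.some X₀ ((leg b).toAffine.negY X₀ Y₀) _) = _
    have hne2 : X' ≠ X₀ := hne'
    rw [pa_addX _ _ hne2, e1, sub_neg_eq_add]
    rfl
  have hconst : ∀ d : F, w.v (algebraMap F L d) ≤ 1 := by
    intro d
    by_cases hd : d = 0
    · rw [hd, map_zero, map_zero]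
      exact zero_le_one
    · rw [w.triv d hd]
  have hvx' : w.v (xc q') ≤ 1 := by
    have e : xc q' = (xc q' - algebraMap F L x₀) + algebraMap F L x₀ := by ring
    rw [e]
    exact (Valuation.map_add _ _ _).trans (max_le hv1.le (hconst _))
  have hrest : w.v ((1 + b) - xc q' - algebraMap F L x₀) ≤ 1 := by
    refine (Valuation.map_sub _ _ _).trans (max_le ?_ (hconst _))
    refine (Valuation.map_sub _ _ _).trans (max_le ?_ hvx')
    refine (Valuation.map_add _ _ _).trans (max_le ?_ ?_)
    · rw [map_one]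
    · rw [← hb]
      exact hconst _
  have hvY : w.v (yc q' + algebraMap F L y₀) = 1 := by
    have e : yc q' + algebraMap F L y₀ = (yc q' - algebraMap F L y₀) + algebraMap F L (2 * y₀) := by
      rw [map_mul, map_ofNat]
      ring
    have h2 : w.v (algebraMap F L (2 * y₀)) = 1 :=
      w.triv _ (mul_ne_zero two_ne_zero hy)
    rw [e, Valuation.map_add_eq_of_lt_right _ (by rw [h2]; exact hv2), h2]
  have hvl : w.v (((yc q' + algebraMap F L y₀) / (xc q' - algebraMap F L x₀)) ^ 2) =
      ((w.v (xc q' - algebraMap F L x₀))⁻¹) ^ 2 := by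
    rw [map_pow, map_div₀, hvY, one_div]
  have hlt1 : 1 < w.v (((yc q' + algebraMap F L y₀) / (xc q' - algebraMap F L x₀)) ^ 2) := by
    rw [hvl]
    exact one_lt_pow₀ ((one_lt_inv₀ (zero_lt_iff.2 hvne)).2 hv1) two_ne_zero
  have hv : w.v (xc q) = ((w.v (xc q' - algebraMap F L x₀))⁻¹) ^ 2 := by
    rw [hx, Valuation.map_add_eq_of_lt_left _ (lt_of_le_of_lt hrest hlt1), hvl]
  rw [Place.ord, hv, WithZero.log_pow, WithZero.log_inv, hlog]
  norm_num

end AC
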