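import Pool.Agent.H18.AC.Bc

/-!
Module QuadG (project AC, helper18).  Quadratic function fields over ANY field.
exists_quadF: copy Pool/Agent/ZC/Quad.lean (exists_quad); its proof does not use that k is algebraically closed or
of characteristic zero.
cub_not_square: the degree of cub a is 3, odd (natDegree of a square is even).
quad_iso: every element f of L is (A(s) + B(s) y) / C(s) with A B C : F[X], C ≠ 0 (H.gen), unique up to the obvious
equivalence by H.indep and H.sq.  Let R = subring of all A(s) + B(s) y; L is its fraction field.  R ≃ F[X] × F[X] with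
multiplication (A,B)(A',B') = (AA' + BB' h, AB' + A'B).  τ (A(s) + B(s) y) = (σA)(s') + (σB)(s') y'; injective by
H'.indep; extend to fractions.  ALTERNATIVE: define τ as a relation and use choice: τ f = ((σA)(s') + (σB)(s') y')/(σC)(s')
for the chosen A B C and prove independence of the choice by indep; then τ is a ring hom, bijective by symmetry.
ALTERNATIVE: IsFractionRing / AdjoinRoot: both L and L' are isomorphic to AdjoinRoot (X ^ 2 - C h) over RatFunc F.
-/

namespace AC

open ZC WeierstrassCurve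
open scoped Classical

open Polynomial

private theorem quad_irred {F : Type} [Field F] (h : F[X]) (hns : ¬ IsSquare h) :
    Irreducible (X ^ 2 - C (algebraMap F[X] (RatFunc F) h) : (RatFunc F)[X]) := by
  have hm : (X ^ 2 - C (algebraMap F[X] (RatFunc F) h) : (RatFunc F)[X]).Monic :=
    monic_X_pow_sub_C _ (by norm_num)
  have hd : (X ^ 2 - C (algebraMap F[X] (RatFunc F) h) : (RatFunc F)[X]).natDegree = 2 :=
    natDegree_X_pow_sub_C
  rw [hm.irreducible_iff_roots_eq_zero_of_degree_le_three (by rw [hd]) (by rw [hd]; norm_num)]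
  by_contra hne
  obtain ⟨r, hr⟩ := Multiset.exists_mem_of_ne_zero hne
  rw [mem_roots hm.ne_zero, IsRoot.def] at hr
  simp only [eval_sub, eval_pow, eval_X, eval_C] at hr
  have hr2 : r ^ 2 = algebraMap F[X] (RatFunc F) h := by linear_combination hr
  have hint : IsIntegral F[X] r := by
    apply IsIntegral.of_pow (n := 2) (by norm_num)
    rw [hr2]
    exact isIntegral_algebraMap
  obtain ⟨g, hg⟩ := IsIntegrallyClosed.isIntegral_iff.mp hint
  apply hns
  refine ⟨g, ?_⟩
  apply RatFunc.algebraMap_injective F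
  rw [_root_.map_mul, hg, ← hr2, sq]

theorem exists_quadF {F : Type} [Field F] (h : F[X]) (hns : ¬ IsSquare h) :
    ∃ (K : Type) (_ : Field K) (_ : Algebra F K) (s y : K), IsQuad F K h s y := by
  set q : (RatFunc F)[X] := X ^ 2 - C (algebraMap F[X] (RatFunc F) h) with hq
  have : Fact (Irreducible q) := ⟨quad_irred h hns⟩
  have hm : q.Monic := monic_X_pow_sub_C _ (by norm_num)
  have hd : q.natDegree = 2 := natDegree_X_pow_sub_C
  set s : AdjoinRoot q := algebraMap (RatFunc F) (AdjoinRoot q) RatFunc.X with hs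
  have hae : ∀ A : F[X], aeval s A =
      algebraMap (RatFunc F) (AdjoinRoot q) (algebraMap F[X] (RatFunc F) A) := by
    intro A
    rw [hs, aeval_algebraMap_apply, RatFunc.aeval_X_left_eq_algebraMap]
  have hinj : Function.Injective (algebraMap (RatFunc F) (AdjoinRoot q)) :=
    (algebraMap (RatFunc F) (AdjoinRoot q)).injective
  have hne : ∀ A : F[X], A ≠ 0 → aeval s A ≠ 0 := by
    intro A hA h0
    rw [hae] at h0
    apply hA
    apply RatFunc.algebraMap_injective F
    apply hinj
    rw [h0, _root_.map_zero, _root_.map_zero]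
  have hsq : (AdjoinRoot.root q) ^ 2 = aeval s h := by
    rw [hae]
    have h1 := AdjoinRoot.eval₂_root q
    rw [hq] at h1
    simp only [eval₂_sub, eval₂_X_pow, eval₂_C] at h1
    rw [AdjoinRoot.algebraMap_eq]
    exact sub_eq_zero.mp h1
  have hgen : ∀ f : AdjoinRoot q, ∃ A B C : F[X], C ≠ 0 ∧
      f * aeval s C = aeval s A + aeval s B * AdjoinRoot.root q := by
    intro f
    obtain ⟨p, rfl⟩ := AdjoinRoot.mk_surjective f
    have h1 : (p %ₘ q).natDegree < 2 := by
      rw [← hd]
      exact natDegree_modByMonic_lt p hm (by rw [← C_1]; intro h2; rw [h2, natDegree_C] at hd; omega)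
    obtain ⟨v, u, h2⟩ := exists_eq_X_add_C_of_natDegree_le_one (by omega : (p %ₘ q).natDegree ≤ 1)
    have h3 : AdjoinRoot.mk q p = algebraMap (RatFunc F) (AdjoinRoot q) u +
        algebraMap (RatFunc F) (AdjoinRoot q) v * AdjoinRoot.root q := by
      conv_lhs => rw [← modByMonic_add_div p q]
      rw [_root_.map_add, _root_.map_mul, AdjoinRoot.mk_self, zero_mul, add_zero, h2,
        _root_.map_add, _root_.map_mul, AdjoinRoot.mk_X, AdjoinRoot.mk_C, AdjoinRoot.mk_C,
        AdjoinRoot.algebraMap_eq]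
      ring
    refine ⟨u.num * v.denom, v.num * u.denom, u.denom * v.denom,
      mul_ne_zero (RatFunc.denom_ne_zero u) (RatFunc.denom_ne_zero v), ?_⟩
    have hud : ∀ u : RatFunc F,
        u * algebraMap F[X] (RatFunc F) u.denom = algebraMap F[X] (RatFunc F) u.num := by
      intro u
      rw [eq_comm, ← div_eq_iff (RatFunc.algebraMap_ne_zero (RatFunc.denom_ne_zero u))]
      exact RatFunc.num_div_denom u
    have hu := hud u
    have hv := hud v
    rw [h3]
    simp only [hae, _root_.map_mul]
    rw [← hu, ← hv]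
    simp only [_root_.map_mul]
    ring
  refine ⟨AdjoinRoot q, inferInstance, inferInstance, s, AdjoinRoot.root q, ?_, hsq, hgen, ?_⟩
  · -- function field
    refine ⟨s, ?_, ?_⟩
    · rw [hs, transcendental_algebraMap_iff hinj]
      exact RatFunc.transcendental_X
    · have hmem : ∀ A : F[X], aeval s A ∈ IntermediateField.adjoin F {s} := by
        intro A
        exact IntermediateField.algebra_adjoin_le_adjoin F {s}
          (aeval_mem_adjoin_singleton F s)
      refine ⟨⟨{1, AdjoinRoot.root q}, ?_⟩⟩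
      rw [eq_top_iff]
      rintro f -
      obtain ⟨A, B, C', hC, hf⟩ := hgen f
      have hC' := hne C' hC
      rw [Finset.coe_insert, Finset.coe_singleton, Submodule.mem_span_pair]
      refine ⟨⟨aeval s A / aeval s C', div_mem (hmem A) (hmem C')⟩,
        ⟨aeval s B / aeval s C', div_mem (hmem B) (hmem C')⟩, ?_⟩
      rw [IntermediateField.smul_def, IntermediateField.smul_def, smul_eq_mul, smul_eq_mul]
      simp only
      field_simp
      linear_combination -hf
  · -- independence
    intro A B hAB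
    rw [hae, hae] at hAB
    have h1 : AdjoinRoot.mk q (C (algebraMap F[X] (RatFunc F) A) +
        C (algebraMap F[X] (RatFunc F) B) * X) = 0 := by
      rw [_root_.map_add, _root_.map_mul, AdjoinRoot.mk_X, AdjoinRoot.mk_C, AdjoinRoot.mk_C]
      exact hAB
    rw [AdjoinRoot.mk_eq_zero] at h1
    have h2 : C (algebraMap F[X] (RatFunc F) A) + C (algebraMap F[X] (RatFunc F) B) * X = 0 := by
      apply eq_zero_of_dvd_of_natDegree_lt h1
      rw [hd]
      have : (C (algebraMap F[X] (RatFunc F) A) +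
          C (algebraMap F[X] (RatFunc F) B) * X).natDegree ≤ 1 := by
        rw [add_comm]
        exact natDegree_linear_le
      omega
    have h3 := congrArg (fun p => coeff p 0) h2
    have h4 := congrArg (fun p => coeff p 1) h2
    simp at h3 h4
    exact ⟨h3, h4⟩

theorem cub_not_square {F : Type} [Field F] (a : F) : ¬ IsSquare (cub a) := by
  rintro ⟨g, hg⟩
  have h1 : (cub a).natDegree = 3 := by
    unfold cub
    compute_degree!
  rw [hg] at h1
  have h2 : g ≠ 0 := by
    rintro rfl
    simp at h1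
  rw [natDegree_mul h2 h2] at h1
  omega

section Iso

variable {F : Type} [Field F] {L L' : Type} [Field L] [Field L']

private theorem ev_rep (h : F[X]) (x : AdjoinRoot (X ^ 2 - C h : F[X][X])) :
    ∃ A B : F[X], x = AdjoinRoot.mk _ (C A + C B * X) := by
  obtain ⟨p, rfl⟩ := AdjoinRoot.mk_surjective x
  set q : F[X][X] := X ^ 2 - C h with hq
  have hm : q.Monic := monic_X_pow_sub_C _ (by norm_num)
  have hd : q.natDegree = 2 := natDegree_X_pow_sub_C
  have hq1 : q ≠ 1 := by
    intro h2
    rw [h2, natDegree_one] at hd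
    omega
  have h1 : (p %ₘ q).natDegree < 2 := by
    rw [← hd]
    exact natDegree_modByMonic_lt p hm hq1
  obtain ⟨v, u, h2⟩ := exists_eq_X_add_C_of_natDegree_le_one (by omega : (p %ₘ q).natDegree ≤ 1)
  refine ⟨u, v, ?_⟩
  rw [AdjoinRoot.mk_eq_mk, add_comm (C u), ← h2]
  refine ⟨p /ₘ q, ?_⟩
  have h3 := modByMonic_add_div p q
  rw [sub_eq_iff_eq_add, add_comm]
  exact h3.symm

/-- the data: a homomorphism `φ : F[X] → L` and `y` with `y ^ 2 = φ h`, generating -/
private structure Dat (h : F[X]) (φ : F[X] →+* L) (y : L) : Prop where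
  sq : y ^ 2 = φ h
  gen : ∀ f : L, ∃ A B C : F[X], C ≠ 0 ∧ f * φ C = φ A + φ B * y
  indep : ∀ A B : F[X], φ A + φ B * y = 0 → A = 0 ∧ B = 0

private noncomputable def ev {h : F[X]} {φ : F[X] →+* L} {y : L} (D : Dat h φ y) :
    AdjoinRoot (X ^ 2 - C h : F[X][X]) →+* L :=
  AdjoinRoot.lift φ y (by
    simp only [eval₂_sub, eval₂_X_pow, eval₂_C]
    rw [D.sq, sub_self])

private theorem ev_mk {h : F[X]} {φ : F[X] →+* L} {y : L} (D : Dat h φ y) (A B : F[X]) :
    ev D (AdjoinRoot.mk _ (C A + C B * X)) = φ A + φ B * y := by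
  unfold ev
  rw [AdjoinRoot.lift_mk]
  simp

private theorem ev_inj {h : F[X]} {φ : F[X] →+* L} {y : L} (D : Dat h φ y) :
    Function.Injective (ev D) := by
  rw [injective_iff_map_eq_zero]
  intro x hx
  obtain ⟨A, B, rfl⟩ := ev_rep h x
  rw [ev_mk] at hx
  obtain ⟨rfl, rfl⟩ := D.indep A B hx
  simp

private theorem ev_frac {h : F[X]} {φ : F[X] →+* L} {y : L} (D : Dat h φ y) :
    let _ := (ev D).toAlgebra
    IsFractionRing (AdjoinRoot (X ^ 2 - C h : F[X][X])) L := by
  let _ := (ev D).toAlgebra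
  have hnt : Nontrivial (AdjoinRoot (X ^ 2 - C h : F[X][X])) := (ev D).domain_nontrivial
  have hal : ∀ x, algebraMap (AdjoinRoot (X ^ 2 - C h : F[X][X])) L x = ev D x := fun _ => rfl
  refine ⟨?_, ?_, ?_⟩
  · rintro ⟨x, hx⟩
    have hx0 : x ≠ 0 := nonZeroDivisors.ne_zero hx
    change IsUnit (ev D x)
    exact isUnit_iff_ne_zero.2 (fun h0 => hx0 (ev_inj D (by rw [h0, _root_.map_zero])))
  · intro f
    obtain ⟨A, B, C', hC, hf⟩ := D.gen f
    have hc : ev D (AdjoinRoot.mk _ (C C' + C 0 * X)) ≠ 0 := by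
      rw [ev_mk]
      intro h0
      exact hC (D.indep C' 0 h0).1
    have hdom : IsDomain (AdjoinRoot (X ^ 2 - C h : F[X][X])) := (ev_inj D).isDomain (ev D)
    refine ⟨⟨AdjoinRoot.mk _ (C A + C B * X), ⟨AdjoinRoot.mk _ (C C' + C 0 * X), ?_⟩⟩, ?_⟩
    · rw [mem_nonZeroDivisors_iff_ne_zero]
      intro h0
      exact hc ((congrArg (ev D) h0).trans (_root_.map_zero _))
    · change f * ev D (AdjoinRoot.mk _ (C C' + C 0 * X)) = ev D (AdjoinRoot.mk _ (C A + C B * X))
      rw [ev_mk, ev_mk]
      simpa using hf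
  · intro x x' hxx
    exact ⟨1, by rw [ev_inj D hxx]⟩

private theorem dat_iso {h : F[X]} {φ : F[X] →+* L} {y : L} (D : Dat h φ y)
    {φ' : F[X] →+* L'} {y' : L'} (D' : Dat h φ' y') :
    ∃ τ : L ≃+* L', (∀ A : F[X], τ (φ A) = φ' A) ∧ τ y = y' := by
  let _ := (ev D).toAlgebra
  let _ := (ev D').toAlgebra
  have := ev_frac D
  have := ev_frac D'
  let τ := IsLocalization.algEquiv (nonZeroDivisors (AdjoinRoot (X ^ 2 - C h : F[X][X]))) L L'
  have hτ : ∀ A B : F[X], τ (φ A + φ B * y) = φ' A + φ' B * y' := by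
    intro A B
    have h1 := τ.commutes (AdjoinRoot.mk _ (C A + C B * X))
    have hal : ∀ x, algebraMap (AdjoinRoot (X ^ 2 - C h : F[X][X])) L x = ev D x := fun _ => rfl
    have hal' : ∀ x, algebraMap (AdjoinRoot (X ^ 2 - C h : F[X][X])) L' x = ev D' x :=
      fun _ => rfl
    rw [hal, hal', ev_mk, ev_mk] at h1
    exact h1
  refine ⟨τ.toRingEquiv, ?_, ?_⟩
  · intro A
    have := hτ A 0
    simpa using this
  · have := hτ 0 1
    simpa using this

end Iso

theorem quad_iso {F F' L L' : Type} [Field F] [Field F'] [Field L] [Field L'] [Algebra F L]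
    [Algebra F' L'] (σ : F ≃+* F') {h : F[X]} {s y : L} {s' y' : L'} (H : IsQuad F L h s y)
    (H' : IsQuad F' L' (h.map (σ : F →+* F')) s' y') :
    ∃ τ : L ≃+* L', (∀ c : F, τ (algebraMap F L c) = algebraMap F' L' (σ c)) ∧ τ s = s' ∧
      τ y = y' := by
  have D : Dat h ((aeval s : F[X] →ₐ[F] L) : F[X] →+* L) y :=
    ⟨H.sq, H.gen, H.indep⟩
  have hback : ∀ A : F'[X], ∃ A₀ : F[X], A₀.map (σ : F →+* F') = A := by
    intro A
    refine ⟨A.map (σ.symm : F' →+* F), ?_⟩
    rw [Polynomial.map_map]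
    simp
  have hinj : Function.Injective (Polynomial.map (σ : F →+* F')) :=
    Polynomial.map_injective _ σ.injective
  have D' : Dat h (((aeval s' : F'[X] →ₐ[F'] L') : F'[X] →+* L').comp
      (mapRingHom (σ : F →+* F'))) y' := by
    refine ⟨H'.sq, ?_, ?_⟩
    · intro f
      obtain ⟨A, B, C', hC, hf⟩ := H'.gen f
      obtain ⟨A₀, rfl⟩ := hback A
      obtain ⟨B₀, rfl⟩ := hback B
      obtain ⟨C₀, rfl⟩ := hback C'
      refine ⟨A₀, B₀, C₀, ?_, hf⟩
      rintro rfl
      exact hC (Polynomial.map_zero _)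
    · intro A B hAB
      obtain ⟨h1, h2⟩ := H'.indep _ _ hAB
      refine ⟨hinj ?_, hinj ?_⟩
      · rw [Polynomial.map_zero]; exact h1
      · rw [Polynomial.map_zero]; exact h2
  obtain ⟨τ, h1, h2⟩ := dat_iso D D'
  refine ⟨τ, ?_, ?_, h2⟩
  · intro c
    have := h1 (C c)
    simpa using this
  · have := h1 X
    simpa using this

end AC
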