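import Pool.Agent.H18.AC.QuadG

/-!
Module QuadGen (project AC, helper18).  IsQuad in terms of generators, over any field.
PROOF.  quad_of_gen.  ff: t = s, and L is finite over adjoin F {s} because it is generated over it by y, integral (y ^ 2 = h(s)).
indep: if A(s) + B(s) y = 0 then A(s)² = B(s)² h(s), so A² = B² h in F[X] (s transcendental); if B ≠ 0 then h is a square in
F[X]: (A/B)² = h in RatFunc F, A/B is integral over F[X] and F[X] is integrally closed (as in quad_irred of ZC/Quad.lean), so h is
a square, contradiction; so B = 0, A² = 0.  gen: the set of all f with f C(s) = A(s) + B(s) y for some A B C, C ≠ 0, is a subfield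
containing F, s, y (inverse: (A + B y)(A - B y) = A² - B² h ≠ 0 unless f = 0), so it is everything
(IntermediateField.adjoin_le_iff or adjoin_induction).
IsQuad.transc: indep with B = 0 (A(s) = 0 implies A = 0).
translate_quad: q' = q + T, X' = xc q', Y' = yc q'.  The coordinates of q' are in adjoin F {xc q, yc q} = ⊤; conversely the
coordinates of q = q' - T are rational functions of X', Y' and elements of F (addition formulas: if q' and T are points over the
subfield S = adjoin F {X', Y'} of L, i.e. in the image of bc S.val, then so is q' - T; or by the explicit formulas with slopes), so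
adjoin F {X', Y'} = ⊤.  X' is transcendental over F: otherwise L = F(X', Y') is algebraic over F, but xc q is transcendental.
Y'² = cub(X') because q' is affine (q' = 0 would give q = -T with algebraic coordinates).
-/

namespace AC

open ZC WeierstrassCurve
open scoped Classical

open Polynomial

private theorem qg_sq {F : Type} [Field F] {h A B : F[X]} (hns : ¬ IsSquare h)
    (he : A ^ 2 = B ^ 2 * h) : A = 0 ∧ B = 0 := by
  have hB : B = 0 := by
    by_contra hB
    have h1 : B ^ 2 ∣ A ^ 2 := ⟨h, he⟩
    have h2 : B ∣ A := (IsIntegrallyClosed.pow_dvd_pow_iff (two_ne_zero)).1 h1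
    obtain ⟨C, rfl⟩ := h2
    apply hns
    refine ⟨C, ?_⟩
    have h3 : B ^ 2 * h = B ^ 2 * (C * C) := by rw [← he]; ring
    exact mul_left_cancel₀ (pow_ne_zero 2 hB) h3
  subst hB
  refine ⟨?_, rfl⟩
  have : A ^ 2 = 0 := by rw [he]; ring
  exact pow_eq_zero_iff (two_ne_zero) |>.1 this

theorem quad_of_gen {F L : Type} [Field F] [Field L] [Algebra F L] {h : F[X]} (hns : ¬ IsSquare h)
    {s y : L} (hs : Transcendental F s) (hy : y ^ 2 = aeval s h)
    (hg : IntermediateField.adjoin F {s, y} = ⊤) : IsQuad F L h s y := by
  have hinj : Function.Injective (aeval s : F[X] →ₐ[F] L) := transcendental_iff_injective.1 hs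
  have hne : ∀ A : F[X], A ≠ 0 → aeval s A ≠ 0 := by
    intro A hA h0
    exact hA (hinj (by rw [h0, map_zero]))
  have hind : ∀ A B : F[X], aeval s A + aeval s B * y = 0 → A = 0 ∧ B = 0 := by
    intro A B hAB
    apply qg_sq hns
    apply hinj
    have h1 : aeval s A = - (aeval s B * y) := by linear_combination hAB
    rw [map_pow, map_mul, map_pow, ← hy, h1]
    ring
  have hgen : ∀ f : L, ∃ A B C : F[X], C ≠ 0 ∧ f * aeval s C = aeval s A + aeval s B * y := by
    intro f
    have hf : f ∈ IntermediateField.adjoin F {s, y} := by rw [hg]; trivial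
    induction hf using IntermediateField.adjoin_induction with
    | mem x hx =>
      rcases hx with rfl | hx
      · exact ⟨X, 0, 1, one_ne_zero, by simp⟩
      · rw [Set.mem_singleton_iff] at hx
        subst hx
        exact ⟨0, 1, 1, one_ne_zero, by simp⟩
    | algebraMap x => exact ⟨C x, 0, 1, one_ne_zero, by simp⟩
    | add x x' _ _ hx hx' =>
      obtain ⟨A, B, D, hD, he⟩ := hx
      obtain ⟨A', B', D', hD', he'⟩ := hx'
      refine ⟨A * D' + A' * D, B * D' + B' * D, D * D', mul_ne_zero hD hD', ?_⟩
      simp only [map_mul, map_add]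
      linear_combination (aeval s D') * he + (aeval s D) * he'
    | inv x _ hx =>
      obtain ⟨A, B, D, hD, he⟩ := hx
      by_cases hx0 : x = 0
      · subst hx0
        exact ⟨0, 0, 1, one_ne_zero, by simp⟩
      refine ⟨D * A, - (D * B), A ^ 2 - B ^ 2 * h, ?_, ?_⟩
      · intro h0
        have h1 := qg_sq hns (sub_eq_zero.1 h0)
        rw [h1.1, h1.2] at he
        simp only [map_zero, zero_mul, add_zero] at he
        rcases mul_eq_zero.1 he with h2 | h2
        · exact hx0 h2
        · exact hne D hD h2
      · simp only [map_mul, map_sub, map_pow, map_neg]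
        rw [← hy]
        have h3 : x⁻¹ * ((aeval s A + aeval s B * y) * (aeval s A - aeval s B * y)) =
            aeval s D * (aeval s A - aeval s B * y) := by
          rw [← he]
          field_simp
        linear_combination h3
    | mul x x' _ _ hx hx' =>
      obtain ⟨A, B, D, hD, he⟩ := hx
      obtain ⟨A', B', D', hD', he'⟩ := hx'
      refine ⟨A * A' + B * B' * h, A * B' + A' * B, D * D', mul_ne_zero hD hD', ?_⟩
      simp only [map_mul, map_add]
      rw [← hy]
      linear_combination (x' * aeval s D') * he + (aeval s A + aeval s B * y) * he'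
  refine ⟨⟨s, hs, ?_⟩, hy, hgen, hind⟩
  have hmem : ∀ A : F[X], aeval s A ∈ IntermediateField.adjoin F {s} := by
    intro A
    exact IntermediateField.algebra_adjoin_le_adjoin F {s}
      (aeval_mem_adjoin_singleton F s)
  refine ⟨⟨{1, y}, ?_⟩⟩
  rw [eq_top_iff]
  rintro f -
  obtain ⟨A, B, C', hC, hf⟩ := hgen f
  have hC' := hne C' hC
  rw [Finset.coe_insert, Finset.coe_singleton, Submodule.mem_span_pair]
  refine ⟨⟨aeval s A / aeval s C', div_mem (hmem A) (hmem C')⟩,
    ⟨aeval s B / aeval s C', div_mem (hmem B) (hmem C')⟩, ?_⟩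
  rw [IntermediateField.smul_def, IntermediateField.smul_def, smul_eq_mul, smul_eq_mul]
  simp only
  field_simp
  linear_combination -hf

theorem quad_transc {F L : Type} [Field F] [Field L] [Algebra F L] {h : F[X]} {s y : L}
    (H : IsQuad F L h s y) : Transcendental F s := by
  rw [transcendental_iff]
  intro p hp
  exact (H.indep p 0 (by rw [hp, map_zero]; ring)).1

theorem quad_adjoin {F L : Type} [Field F] [Field L] [Algebra F L] {h : F[X]} {s y : L}
    (H : IsQuad F L h s y) : IntermediateField.adjoin F {s, y} = ⊤ := by
  rw [eq_top_iff]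
  rintro f -
  obtain ⟨A, B, C', hC, hf⟩ := H.gen f
  have hs : s ∈ IntermediateField.adjoin F {s, y} :=
    IntermediateField.subset_adjoin F _ (by simp)
  have hy : y ∈ IntermediateField.adjoin F {s, y} :=
    IntermediateField.subset_adjoin F _ (by simp)
  have hmem : ∀ A : F[X], aeval s A ∈ IntermediateField.adjoin F {s, y} := by
    intro A
    have h1 : aeval s A ∈ Algebra.adjoin F {s} := aeval_mem_adjoin_singleton F s
    have h2 : Algebra.adjoin F {s} ≤ (IntermediateField.adjoin F {s, y}).toSubalgebra := by
      rw [Algebra.adjoin_le_iff]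
      intro x hx
      rw [Set.mem_singleton_iff] at hx
      subst hx
      exact hs
    exact h2 h1
  have hC0 : aeval s C' ≠ 0 := by
    intro h0
    exact hC (H.indep C' 0 (by rw [h0, map_zero]; ring)).1
  have : f = (aeval s A + aeval s B * y) / aeval s C' := by
    rw [eq_div_iff hC0]; exact hf
  rw [this]
  exact div_mem (add_mem (hmem A) (mul_mem (hmem B) hy)) (hmem C')

private theorem qg_lift {F L : Type} [Field F] [Field L] [Algebra F L] {c : F}
    (S : IntermediateField F L) (P : Pt (algebraMap F L c)) (hx : xc P ∈ S) (hy : yc P ∈ S) :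
    ∃ Q : Pt (algebraMap F S c), bc (algebraMap S L) (a := algebraMap F S c)
      (b := algebraMap F L c) rfl Q = P := by
  rcases P with _ | ⟨x, y, h⟩
  · exact ⟨0, map_zero _⟩
  · have hx' : x ∈ S := hx
    have hy' : y ∈ S := hy
    have h2 : (leg (algebraMap F S c)).toAffine.Nonsingular (⟨x, hx'⟩ : S) ⟨y, hy'⟩ := by
      have h1 := (WeierstrassCurve.Affine.map_nonsingular
        (W := (leg (algebraMap F S c)).toAffine) (f := algebraMap S L)
        (algebraMap S L).injective (⟨x, hx'⟩ : S) ⟨y, hy'⟩).1
      apply h1
      have h3 : (leg (algebraMap F S c)).toAffine.map (algebraMap S L) =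
        (leg (algebraMap F L c)).toAffine := leg_map _ _
      rw [h3]
      exact h
    exact ⟨.some ⟨x, hx'⟩ ⟨y, hy'⟩ h2, rfl⟩

private theorem qg_sub {F G L : Type} [Field F] [Field G] [Field L] (j : F →+* G) (i : G →+* L)
    (f : F →+* L) (hij : i.comp j = f) {c : F} {b : L} (hb : f c = b) (hb' : i (j c) = b)
    (q : Pt b) (T : Pt c) (Q : Pt (j c)) (hQ : bc i hb' Q = q + bc f hb T) :
    ∃ R : Pt (j c), bc i hb' R = q := by
  subst hij
  refine ⟨Q - bc j rfl T, ?_⟩
  rw [map_sub, hQ, bc_bc j i rfl hb' hb]
  abel

theorem translate_quad {F L : Type} [Field F] [CharZero F] [Field L] [Algebra F L] {c : F}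
    (hc0 : c ≠ 0) (hc1 : c ≠ 1) {b : L} (hb : algebraMap F L c = b) (q : Pt b)
    (H : IsQuad F L (cub c) (xc q) (yc q)) (T : Pt c) :
    IsQuad F L (cub c) (xc (q + bc (algebraMap F L) hb T)) (yc (q + bc (algebraMap F L) hb T)) := by
  subst hb
  set T' : Pt (algebraMap F L c) := bc (algebraMap F L) rfl T with hT'
  set q' := q + T' with hq'
  set S := IntermediateField.adjoin F {xc q', yc q'} with hS
  have hxS : xc q' ∈ S := IntermediateField.subset_adjoin F _ (by simp)
  have hyS : yc q' ∈ S := IntermediateField.subset_adjoin F _ (by simp)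
  have htop : S = ⊤ := by
    obtain ⟨Q, hQ⟩ := qg_lift S q' hxS hyS
    obtain ⟨R, hR⟩ := qg_sub (algebraMap F S) (algebraMap S L) (algebraMap F L) rfl rfl rfl q T Q hQ
    have h1 : xc q ∈ S := by
      rw [← hR, xc_bc]
      exact (xc R).2
    have h2 : yc q ∈ S := by
      rw [← hR, yc_bc]
      exact (yc R).2
    rw [eq_top_iff, ← quad_adjoin H, IntermediateField.adjoin_le_iff]
    intro x hx
    rcases hx with rfl | hx
    · exact h1
    · rw [Set.mem_singleton_iff] at hx
      subst hx
      exact h2
  have hq0 : q' ≠ 0 := by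
    intro h0
    have h1 : q = bc (algebraMap F L) rfl (-T) := by
      rw [map_neg, ← hT']
      exact eq_neg_of_add_eq_zero_left h0
    apply quad_transc H
    rw [h1, xc_bc]
    exact isAlgebraic_algebraMap _
  have hy : yc q' ^ 2 = aeval (xc q') (cub c) := by
    rcases hqq : q' with _ | ⟨x, y, h⟩
    · exact absurd hqq hq0
    · have h1 : y ^ 2 = x * (x - 1) * (x - algebraMap F L c) := (leg_equation _ _ _).1 h.1
      simp only [xc, yc, cub, map_mul, map_sub, aeval_X, map_one, aeval_C]
      exact h1
  have hs : Transcendental F (xc q') := by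
    intro halg
    have h1 : xc q' ∈ algebraicClosure F L := by
      rw [mem_algebraicClosure_iff]; exact halg
    have h2 : yc q' ∈ algebraicClosure F L := by
      rw [mem_algebraicClosure_iff]
      have h3 : IsAlgebraic F (yc q' ^ 2) := by
        rw [hy]
        exact (mem_algebraicClosure_iff.1 (by
          have h4 : aeval (xc q') (cub c) ∈ Algebra.adjoin F {xc q'} :=
            aeval_mem_adjoin_singleton F _
          have h5 : Algebra.adjoin F {xc q'} ≤ (algebraicClosure F L).toSubalgebra := by
            rw [Algebra.adjoin_le_iff]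
            intro x hx
            rw [Set.mem_singleton_iff] at hx
            subst hx
            exact h1
          exact h5 h4))
      exact IsAlgebraic.of_pow (two_pos) h3
    have h6 : S ≤ algebraicClosure F L := by
      rw [hS, IntermediateField.adjoin_le_iff]
      intro x hx
      rcases hx with rfl | hx
      · exact h1
      · rw [Set.mem_singleton_iff] at hx
        subst hx
        exact h2
    have h7 : xc q ∈ algebraicClosure F L := h6 (by rw [htop]; trivial)
    exact quad_transc H (mem_algebraicClosure_iff.1 h7)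
  exact quad_of_gen (cub_not_square c) hs hy htop

end AC
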