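import Pool.Agent.H18.AC.RedA

/-!
Module RedAdd (project AC, helper18).  The value of points at a place is compatible with addition.
PROOF.  It suffices: if P + Q + R = 0 over L and P, Q, R have the values p, q, r then p + q + r = 0 (take
R = -(P + Q), r = its value by exists_red, then -r = p + q and use Red.neg).  If one of P, Q, R is zero the
other two are opposite: Red.neg and Red.uniq.  Otherwise all three are affine, (x_i, y_i), and lie on a line
y = l x + m (NOT vertical): with l = slope one has the identity of polynomials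
  X (X - 1) (X - a) - (l X + m) ^ 2 = (X - x₁)(X - x₂)(X - x₃),   y_i = l x_i + m,
i.e. (e1) x₁+x₂+x₃ = l² + 1 + a, (e2) x₁x₂+x₁x₃+x₂x₃ = a - 2 l m, (e3) x₁x₂x₃ = m².
(Mathlib: Affine.Point.add_some, addX, slope_of_X_ne, slope_of_Y_ne ...)
Case A: l ∈ O and m ∈ O: all x_i ∈ O (roots of a monic polynomial over O), everything reduces, and the same
identity over κ gives p + q + r = 0 (the converse of the above: three affine points on a line with these
symmetric functions; case distinctions when reductions coincide: if x̄₁ ≠ x̄₂ slope is l̄; if x̄₁ = x̄₂ and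
ȳ₁ = -ȳ₂ ≠ 0 impossible? (then l̄ x̄₁ + m̄ = ȳ₁ = ȳ₂, so ȳ₁ = 0) ...).  It may be convenient to prove over any
field of char ≠ 2 the lemma: LINE LEMMA: points (x_i, y_i), i = 1,2,3, of E_b with y_i = l x_i + m and
(e1) (e2) (e3) satisfy P₁ + P₂ + P₃ = 0.  (If x₁ ≠ x₂: chord formula.  If x₁ = x₂: P₁ = P₂ as y₁ = y₂; the
identity differentiated at x₁ gives 2 l y₁ = 3x₁² - 2(1+b)x₁ + b, so if y₁ ≠ 0 the slope is the tangent slope; if
y₁ = 0 the derivative of the cubic vanishes at its root x₁, impossible as the roots 0, 1, b are distinct.)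
Case B: l ∉ O or m ∉ O.
B1: v(m) > v(l) (v(m) > 1): if x_i ∈ O then y_i = l x_i + m has v = v(m) > 1, but y_i² = x_i(x_i-1)(x_i-a) ∈ O,
contradiction; so no x_i is in O and p = q = r = 0.
B2: v(l) ≥ v(m), v(l) > 1: c = -m/l ∈ O, (e1) some x_i ∉ O, say (symmetry) x₃ ∉ O (v(x₃) > 1).  e2: x₁x₂ + x₃ s = a + 2 l² c
with s = x₁ + x₂, e1: x₃ = l² + (1+a) - s.  Show that x₁, x₂ ∈ O: if two of them, say x₂, x₃ ∉ O, then p+q+r:
v(x_i) for a non-integral point: y_i² = x_i³·unit so v(y_i)² = v(x_i)³; y_i = l(x_i - c), v(y_i) = v(l) v(x_i), so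
v(x_i) = v(l)² for EVERY non-integral x_i; and integral x_i give v(x_i - c) ≤ 1/v(l).  Then (e3) x₁x₂x₃ = m² = l²c²
forces: number of non-integral x_i is exactly 1 unless ... (product of two non-integral ones has v = v(l)^4, e2 has
v ≤ v(l)^2: if exactly two are non-integral then v(e2) = v(l)^4 > v(l)^2, contradiction; if all three: v(e3) = v(l)^6).
So exactly x₃ ∉ O, r = 0, x̄₁ = x̄₂ = c̄ and need ȳ₁ + ȳ₂ = 0: y₁+y₂ = l (s - 2c); substituting e1 in e2:
l² (s - 2c) = a - x₁x₂ - (1+a) s + s² ∈ O so l (s - 2c) ∈ l⁻¹ O is in the maximal ideal.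
-/

namespace AC

open ZC WeierstrassCurve
open scoped Classical

/-- Three points on the line `y = l x + m`. -/
private structure RedAdd_Ln {F : Type} [Field F] (a l m x₁ y₁ x₂ y₂ x₃ y₃ : F) : Prop where
  h1 : y₁ = l * x₁ + m
  h2 : y₂ = l * x₂ + m
  h3 : y₃ = l * x₃ + m
  e1 : x₁ + x₂ + x₃ = l ^ 2 + 1 + a
  e2 : x₁ * x₂ + x₁ * x₃ + x₂ * x₃ = a - 2 * l * m
  e3 : x₁ * x₂ * x₃ = m ^ 2

private theorem RedAdd_Ln.swap12 {F : Type} [Field F] {a l m x₁ y₁ x₂ y₂ x₃ y₃ : F}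
    (h : RedAdd_Ln a l m x₁ y₁ x₂ y₂ x₃ y₃) : RedAdd_Ln a l m x₂ y₂ x₁ y₁ x₃ y₃ :=
  ⟨h.h2, h.h1, h.h3, by linear_combination h.e1, by linear_combination h.e2,
    by linear_combination h.e3⟩

private theorem RedAdd_Ln.swap23 {F : Type} [Field F] {a l m x₁ y₁ x₂ y₂ x₃ y₃ : F}
    (h : RedAdd_Ln a l m x₁ y₁ x₂ y₂ x₃ y₃) : RedAdd_Ln a l m x₁ y₁ x₃ y₃ x₂ y₂ :=
  ⟨h.h1, h.h3, h.h2, by linear_combination h.e1, by linear_combination h.e2,
    by linear_combination h.e3⟩

private theorem RedAdd_negY {F : Type} [Field F] (a x y : F) : (leg a).toAffine.negY x y = -y := by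
  simp [Affine.negY, leg]

private theorem RedAdd_addX {F : Type} [Field F] (a x₁ x₂ l : F) :
    (leg a).toAffine.addX x₁ x₂ l = l ^ 2 + (1 + a) - x₁ - x₂ := by
  simp only [Affine.addX, leg]
  ring

private theorem RedAdd_addY {F : Type} [Field F] (a x₁ x₂ y₁ l : F) :
    (leg a).toAffine.addY x₁ x₂ y₁ l = -(l * (l ^ 2 + (1 + a) - x₁ - x₂ - x₁) + y₁) := by
  rw [Affine.addY, RedAdd_negY, Affine.negAddY, RedAdd_addX]

private theorem RedAdd_line {F : Type} [Field F] {a x₁ y₁ x₂ y₂ x₃ y₃ : F}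
    (n₁ : (leg a).toAffine.Nonsingular x₁ y₁) (n₂ : (leg a).toAffine.Nonsingular x₂ y₂)
    (n₃ : (leg a).toAffine.Nonsingular x₃ y₃)
    (h : (Affine.Point.some x₁ y₁ n₁ : Pt a) + Affine.Point.some x₂ y₂ n₂ +
      Affine.Point.some x₃ y₃ n₃ = 0) : ∃ l m, RedAdd_Ln a l m x₁ y₁ x₂ y₂ x₃ y₃ := by
  have q1 := (leg_equation a x₁ y₁).1 n₁.1
  have q2 := (leg_equation a x₂ y₂).1 n₂.1
  have hne : ¬(x₁ = x₂ ∧ y₁ = (leg a).toAffine.negY x₂ y₂) := by
    rintro ⟨h1, h2⟩
    rw [Affine.Point.add_of_Y_eq h1 h2, zero_add] at h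
    exact Affine.Point.some_ne_zero n₃ h
  rw [add_eq_zero_iff_eq_neg, Affine.Point.add_some hne, Affine.Point.neg_some,
    Affine.Point.some.injEq, RedAdd_addX, RedAdd_addY, RedAdd_negY] at h
  obtain ⟨h1, h2⟩ := h
  set l := (leg a).toAffine.slope x₁ x₂ y₁ y₂ with hl
  have hy3 : y₃ = l * (x₃ - x₁) + y₁ := by rw [← h1]; linear_combination h2
  have e1 : x₁ + x₂ + x₃ = l ^ 2 + 1 + a := by linear_combination -h1
  have key : y₂ = l * x₂ + (y₁ - l * x₁) ∧
      x₁ * x₂ + x₁ * x₃ + x₂ * x₃ = a - 2 * l * (y₁ - l * x₁) := by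
    by_cases hx : x₁ = x₂
    · have hyne : y₁ ≠ (leg a).toAffine.negY x₂ y₂ := fun hh => hne ⟨hx, hh⟩
      have hyy : y₁ = y₂ := by
        have h3 : (y₁ - y₂) * (y₁ + y₂) = 0 := by
          subst hx
          linear_combination q1 - q2
        rcases mul_eq_zero.1 h3 with h4 | h4
        · linear_combination h4
        · exfalso
          apply hyne
          rw [RedAdd_negY]
          linear_combination h4
      rw [Affine.slope_of_Y_ne hx hyne, RedAdd_negY] at hl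
      simp only [leg] at hl
      have hden : y₁ - -y₁ ≠ 0 := by
        intro h3
        apply hyne
        rw [RedAdd_negY, ← hyy]
        linear_combination h3
      rw [eq_div_iff hden] at hl
      refine ⟨by rw [← hx, ← hyy]; ring, ?_⟩
      rw [← hx] at e1 ⊢
      linear_combination hl + 2 * x₁ * e1
    · rw [Affine.slope_of_X_ne hx, eq_div_iff (sub_ne_zero.2 hx)] at hl
      have hy2 : y₂ = l * x₂ + (y₁ - l * x₁) := by linear_combination hl
      refine ⟨hy2, ?_⟩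
      have h3 : (x₁ - x₂) * (x₁ * x₂ + x₁ * x₃ + x₂ * x₃) =
          (x₁ - x₂) * (a - 2 * l * (y₁ - l * x₁)) := by
        have q1' : (l * x₁ + (y₁ - l * x₁)) ^ 2 = x₁ * (x₁ - 1) * (x₁ - a) := by
          linear_combination q1
        have q2' : (l * x₂ + (y₁ - l * x₁)) ^ 2 = x₂ * (x₂ - 1) * (x₂ - a) := by
          rw [← hy2]; exact q2
        linear_combination q1' - q2' + (x₁ ^ 2 - x₂ ^ 2) * e1
      exact mul_left_cancel₀ (sub_ne_zero.2 hx) h3
  refine ⟨l, y₁ - l * x₁, ⟨by ring, key.1, by rw [hy3]; ring, e1, key.2, ?_⟩⟩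
  have q1' : (l * x₁ + (y₁ - l * x₁)) ^ 2 = x₁ * (x₁ - 1) * (x₁ - a) := by
    linear_combination q1
  linear_combination -q1' - x₁ ^ 2 * e1 + x₁ * key.2

private theorem RedAdd_sum {F : Type} [Field F] (h2 : (2 : F) ≠ 0) {a l m x₁ y₁ x₂ y₂ x₃ y₃ : F}
    (n₁ : (leg a).toAffine.Nonsingular x₁ y₁) (n₂ : (leg a).toAffine.Nonsingular x₂ y₂)
    (n₃ : (leg a).toAffine.Nonsingular x₃ y₃) (h : RedAdd_Ln a l m x₁ y₁ x₂ y₂ x₃ y₃) :
    (Affine.Point.some x₁ y₁ n₁ : Pt a) + Affine.Point.some x₂ y₂ n₂ +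
      Affine.Point.some x₃ y₃ n₃ = 0 := by
  obtain ⟨g1, g2, g3, e1, e2, e3⟩ := h
  have hd : x₁ = x₂ → 3 * x₁ ^ 2 - 2 * (1 + a) * x₁ + a = 2 * l * y₁ := by
    intro hx
    subst hx
    rw [g1]
    linear_combination -e2 + 2 * x₁ * e1
  have hne : ¬(x₁ = x₂ ∧ y₁ = (leg a).toAffine.negY x₂ y₂) := by
    rintro ⟨hx, hy⟩
    rw [RedAdd_negY] at hy
    have hyy : y₁ = y₂ := by rw [g1, g2, hx]
    rw [← hyy] at hy
    have hy0 : y₁ = 0 := by
      have : 2 * y₁ = 0 := by linear_combination hy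
      exact (mul_eq_zero.1 this).resolve_left h2
    have h3 := (Affine.nonsingular_iff _ _).1 n₁
    simp only [leg] at h3
    have h4 := hd hx
    rw [hy0, mul_zero] at h4
    rcases h3.2 with h5 | h5
    · apply h5
      linear_combination -h4
    · apply h5
      rw [hy0]
      ring
  have hsl : (leg a).toAffine.slope x₁ x₂ y₁ y₂ = l := by
    by_cases hx : x₁ = x₂
    · have hyne : y₁ ≠ (leg a).toAffine.negY x₂ y₂ := fun hh => hne ⟨hx, hh⟩
      rw [Affine.slope_of_Y_ne hx hyne, RedAdd_negY]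
      have hyy : y₁ = y₂ := by rw [g1, g2, hx]
      have hden : y₁ - -y₁ ≠ 0 := by
        intro h3
        apply hyne
        rw [RedAdd_negY, ← hyy]
        linear_combination h3
      rw [div_eq_iff hden]
      simp only [leg]
      linear_combination hd hx
    · rw [Affine.slope_of_X_ne hx, div_eq_iff (sub_ne_zero.2 hx)]
      linear_combination g1 - g2
  rw [add_eq_zero_iff_eq_neg, Affine.Point.add_some hne, Affine.Point.neg_some,
    Affine.Point.some.injEq, RedAdd_addX, RedAdd_addY, RedAdd_negY, hsl]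
  have hx3 : l ^ 2 + (1 + a) - x₁ - x₂ = x₃ := by linear_combination -e1
  refine ⟨hx3, ?_⟩
  rw [hx3, g3]
  linear_combination -g1

section val

variable {L Γ : Type} [Field L] [LinearOrderedCommGroupWithZero Γ] (v : Valuation L Γ)

private theorem RedAdd_v2 : v 2 ≤ 1 := by
  have : (2 : L) = 1 + 1 := by norm_num
  rw [this]
  exact v.map_add_le (by rw [map_one]) (by rw [map_one])

/-- The `x`-coordinate of a non-integral point on a steep line. -/
private theorem RedAdd_big {a l c x y : L} (ha : v a ≤ 1) (hc : v c ≤ 1) (hx : 1 < v x)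
    (h : y = l * (x - c)) (hq : y ^ 2 = x * (x - 1) * (x - a)) : v x = v l ^ 2 := by
  have h1 : v (x - 1) = v x := v.map_sub_eq_of_lt_left (by rw [map_one]; exact hx)
  have h2 : v (x - a) = v x := v.map_sub_eq_of_lt_left (ha.trans_lt hx)
  have h3 : v (x - c) = v x := v.map_sub_eq_of_lt_left (hc.trans_lt hx)
  have h4 : v y = v l * v x := by rw [h, map_mul, h3]
  have h5 : v y ^ 2 = v x * v x * v x := by rw [← map_pow, hq, map_mul, map_mul, h1, h2]
  rw [h4] at h5
  have hx0 : v x ≠ 0 := fun h0 => by rw [h0] at hx; exact absurd hx (not_lt.2 zero_le_one)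
  have h6 : v l ^ 2 * (v x * v x) = v x * (v x * v x) := by
    rw [← mul_assoc (v x), ← h5, mul_pow, pow_two (v x)]
  exact (mul_right_cancel₀ (mul_ne_zero hx0 hx0) h6).symm

/-- Two of the three points on a steep line cannot be non-integral. -/
private theorem RedAdd_two {a l m x₁ y₁ x₂ y₂ x₃ y₃ : L} (ha : v a ≤ 1) (hl : 1 < v l)
    (hlm : v m ≤ v l) (h : RedAdd_Ln a l m x₁ y₁ x₂ y₂ x₃ y₃)
    (q1 : y₁ ^ 2 = x₁ * (x₁ - 1) * (x₁ - a)) (q2 : y₂ ^ 2 = x₂ * (x₂ - 1) * (x₂ - a))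
    (q3 : y₃ ^ 2 = x₃ * (x₃ - 1) * (x₃ - a)) (h1 : 1 < v x₁) (h2 : 1 < v x₂) : False := by
  obtain ⟨g1, g2, g3, e1, e2, e3⟩ := h
  have hl0 : l ≠ 0 := fun h0 => by rw [h0, map_zero] at hl; exact absurd hl (not_lt.2 zero_le_one)
  have hvl0 : v l ≠ 0 := (v.ne_zero_iff).2 hl0
  set c := -(m / l) with hcdef
  have hmc : m = -(l * c) := by rw [hcdef]; field_simp
  have hc : v c ≤ 1 := by
    rw [hcdef, Valuation.map_neg, map_div₀]
    exact div_le_one_of_le₀ hlm zero_le
  have hx1 : v x₁ = v l ^ 2 := RedAdd_big v ha hc h1 (by rw [g1, hmc]; ring) q1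
  have hx2 : v x₂ = v l ^ 2 := RedAdd_big v ha hc h2 (by rw [g2, hmc]; ring) q2
  have hl2 : 1 < v l ^ 2 := one_lt_pow₀ hl (by norm_num)
  have hm2 : v (m ^ 2) ≤ v l ^ 2 := by
    rw [map_pow]
    exact pow_le_pow_left₀ zero_le hlm 2
  by_cases h3 : 1 < v x₃
  · have hx3 : v x₃ = v l ^ 2 := RedAdd_big v ha hc h3 (by rw [g3, hmc]; ring) q3
    have h4 : v (m ^ 2) = v l ^ 2 * v l ^ 2 * v l ^ 2 := by
      rw [← e3, map_mul, map_mul, hx1, hx2, hx3]
    rw [h4] at hm2
    have h5 : v l ^ 2 < v l ^ 2 * v l ^ 2 * v l ^ 2 := by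
      calc v l ^ 2 = v l ^ 2 * 1 := (mul_one _).symm
        _ < v l ^ 2 * (v l ^ 2 * v l ^ 2) := by
            apply mul_lt_mul_of_pos_left _ (zero_lt_one.trans hl2)
            exact one_lt_mul'' hl2 hl2 |> fun h => h
        _ = v l ^ 2 * v l ^ 2 * v l ^ 2 := (mul_assoc _ _ _).symm
    exact absurd hm2 (not_le.2 h5)
  · push Not at h3
    have h4 : x₁ * x₂ = a - 2 * l * m - (x₁ + x₂) * x₃ := by linear_combination e2
    have h5 : v (x₁ * x₂) ≤ v l ^ 2 := by
      rw [h4]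
      refine v.map_sub_le (v.map_sub_le (ha.trans hl2.le) ?_) ?_
      · rw [map_mul, map_mul]
        calc v 2 * v l * v m ≤ 1 * v l * v l :=
              mul_le_mul' (mul_le_mul' (RedAdd_v2 v) le_rfl) hlm
          _ = v l ^ 2 := by rw [one_mul, pow_two]
      · rw [map_mul]
        calc v (x₁ + x₂) * v x₃ ≤ v l ^ 2 * 1 :=
              mul_le_mul' (v.map_add_le hx1.le hx2.le) h3
          _ = v l ^ 2 := mul_one _
    rw [map_mul, hx1, hx2] at h5
    have h6 : v l ^ 2 < v l ^ 2 * v l ^ 2 := by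
      calc v l ^ 2 = v l ^ 2 * 1 := (mul_one _).symm
        _ < v l ^ 2 * v l ^ 2 := mul_lt_mul_of_pos_left hl2 (zero_lt_one.trans hl2)
    exact absurd h5 (not_le.2 h6)

end val

variable {k : Type} [Field k] [CharZero k] {L κ : Type} [Field L] [Field κ] [Algebra k L] [Algebra k κ]

omit [CharZero k] in
private theorem RedAdd_ker (w : KPl k L κ) {x : L} (h : x ∈ w.O) (hx : w.O.valuation x < 1) :
    w.ρ ⟨x, h⟩ = 0 := by
  have h1 : (RingHom.ker w.ρ).IsMaximal := RingHom.ker_isMaximal_of_surjective w.ρ w.surj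
  have h2 := IsLocalRing.eq_maximalIdeal h1
  have h3 : (⟨x, h⟩ : w.O) ∈ IsLocalRing.maximalIdeal w.O :=
    (ValuationSubring.valuation_lt_one_iff w.O ⟨x, h⟩).2 hx
  rw [← h2] at h3
  exact h3

omit [CharZero k] in
/-- The value of an integral point. -/
private theorem RedAdd_int {w : KPl k L κ} {a : L} {b : κ} {X Y : L}
    {n : (leg a).toAffine.Nonsingular X Y} {p : Pt b}
    (h : Red w (Affine.Point.some X Y n : Pt a) p) (hX : X ∈ w.O) :
    ∃ (x y : κ) (n' : (leg b).toAffine.Nonsingular x y) (hY : Y ∈ w.O),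
      p = .some x y n' ∧ w.ρ ⟨X, hX⟩ = x ∧ w.ρ ⟨Y, hY⟩ = y := by
  rcases p with _ | ⟨x, y, n'⟩
  · exact absurd hX h
  · obtain ⟨⟨h1, h2⟩, h3, h4⟩ := h
    exact ⟨x, y, n', h3, rfl, h2, h4⟩

omit [CharZero k] in
/-- The value of a non-integral point. -/
private theorem RedAdd_nint {w : KPl k L κ} {a : L} {b : κ} {X Y : L}
    {n : (leg a).toAffine.Nonsingular X Y} {p : Pt b}
    (h : Red w (Affine.Point.some X Y n : Pt a) p) (hX : X ∉ w.O) : p = 0 := by
  rcases p with _ | ⟨x, y, n'⟩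
  · rfl
  · exact absurd h.1.1 hX

private theorem RedAdd_two_ne (k κ : Type) [Field k] [CharZero k] [Field κ] [Algebra k κ] :
    (2 : κ) ≠ 0 := by
  have : CharZero κ := charZero_of_injective_algebraMap (algebraMap k κ).injective
  norm_num

omit [CharZero k] in
/-- Case B with the third point non-integral. -/
private theorem RedAdd_caseB {w : KPl k L κ} {a : L} {b : κ} (ha : a ∈ w.O)
    {l m x₁ y₁ x₂ y₂ x₃ y₃ : L} (hl : 1 < w.O.valuation l) (hlm : w.O.valuation m ≤ w.O.valuation l)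
    {n₁ : (leg a).toAffine.Nonsingular x₁ y₁} {n₂ : (leg a).toAffine.Nonsingular x₂ y₂}
    {n₃ : (leg a).toAffine.Nonsingular x₃ y₃}
    (h : RedAdd_Ln a l m x₁ y₁ x₂ y₂ x₃ y₃) (h1 : x₁ ∈ w.O) (h2 : x₂ ∈ w.O) (h3 : x₃ ∉ w.O)
    {p q r : Pt b} (hp : Red w (Affine.Point.some x₁ y₁ n₁ : Pt a) p)
    (hq : Red w (Affine.Point.some x₂ y₂ n₂ : Pt a) q)
    (hr : Red w (Affine.Point.some x₃ y₃ n₃ : Pt a) r) : p + q + r = 0 := by
  obtain ⟨g1, g2, g3, e1, e2, e3⟩ := h
  rw [RedAdd_nint hr h3, add_zero]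
  obtain ⟨X1, Y1, N1, hy1, rfl, hX1, hY1⟩ := RedAdd_int hp h1
  obtain ⟨X2, Y2, N2, hy2, rfl, hX2, hY2⟩ := RedAdd_int hq h2
  set v := w.O.valuation with hv
  have hl0 : l ≠ 0 := fun h0 => by rw [h0, map_zero] at hl; exact absurd hl (not_lt.2 zero_le_one)
  have hvl0 : v l ≠ 0 := (v.ne_zero_iff).2 hl0
  set c := -(m / l) with hcdef
  have hmc : m = -(l * c) := by rw [hcdef]; field_simp
  have hc : v c ≤ 1 := by
    rw [hcdef, Valuation.map_neg, map_div₀]
    exact div_le_one_of_le₀ hlm zero_le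
  have hcO : c ∈ w.O := (ValuationSubring.valuation_le_one_iff w.O c).1 hc
  -- the integral points have the same reduction as `c`
  have hxc : ∀ (x y : L), y = l * x + m → y ∈ w.O → v (x - c) < 1 := by
    intro x y hxy hy
    have h4 : y = l * (x - c) := by rw [hxy, hmc]; ring
    have h5 : v l * v (x - c) ≤ 1 := by
      rw [← map_mul, ← h4]
      exact (ValuationSubring.valuation_le_one_iff w.O y).2 hy
    by_contra hcon
    push Not at hcon
    have h6 : 1 < v l * v (x - c) := by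
      calc (1 : w.O.ValueGroup) < v l := hl
        _ = v l * 1 := (mul_one _).symm
        _ ≤ v l * v (x - c) := mul_le_mul' le_rfl hcon
    exact absurd h5 (not_le.2 h6)
  have hred : ∀ (x y : L) (hx : x ∈ w.O), y = l * x + m → y ∈ w.O → w.ρ ⟨x, hx⟩ = w.ρ ⟨c, hcO⟩ := by
    intro x y hx hxy hy
    have h4 := RedAdd_ker w (sub_mem hx hcO) (hxc x y hxy hy)
    have h5 : (⟨x - c, sub_mem hx hcO⟩ : w.O) = ⟨x, hx⟩ - ⟨c, hcO⟩ := rfl
    rw [h5, map_sub, sub_eq_zero] at h4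
    exact h4
  have hXX : X1 = X2 := by
    rw [← hX1, ← hX2, hred x₁ y₁ h1 g1 hy1, hred x₂ y₂ h2 g2 hy2]
  have hYY : Y1 = -Y2 := by
    have h4 : l * (y₁ + y₂) = a - x₁ * x₂ - (1 + a) * (x₁ + x₂) + (x₁ + x₂) ^ 2 := by
      rw [g1, g2]
      linear_combination e2 - (x₁ + x₂) * e1
    have h5 : l * (y₁ + y₂) ∈ w.O := by
      rw [h4]
      have hs := w.O.add_mem _ _ h1 h2
      rw [pow_two]
      exact w.O.add_mem _ _ (sub_mem (sub_mem ha (w.O.mul_mem _ _ h1 h2))
        (w.O.mul_mem _ _ (w.O.add_mem _ _ w.O.one_mem ha) hs)) (w.O.mul_mem _ _ hs hs)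
    have h6 : v (y₁ + y₂) < 1 := by
      have h7 : v l * v (y₁ + y₂) ≤ 1 := by
        rw [← map_mul]
        exact (ValuationSubring.valuation_le_one_iff w.O _).2 h5
      by_contra hcon
      push Not at hcon
      have h6 : 1 < v l * v (y₁ + y₂) := by
        calc (1 : w.O.ValueGroup) < v l := hl
          _ = v l * 1 := (mul_one _).symm
          _ ≤ v l * v (y₁ + y₂) := mul_le_mul' le_rfl hcon
      exact absurd h7 (not_le.2 h6)
    have h8 := RedAdd_ker w (w.O.add_mem _ _ hy1 hy2) h6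
    have h9 : (⟨y₁ + y₂, w.O.add_mem _ _ hy1 hy2⟩ : w.O) = ⟨y₁, hy1⟩ + ⟨y₂, hy2⟩ := rfl
    rw [h9, map_add, hY1, hY2] at h8
    linear_combination h8
  exact Affine.Point.add_of_Y_eq hXX (by rw [RedAdd_negY]; exact hYY)

omit [CharZero k] in
private theorem RedAdd_mem_of_not {w : KPl k L κ} {x : L} : x ∉ w.O ↔ 1 < w.O.valuation x := by
  rw [← ValuationSubring.valuation_le_one_iff, not_le]

/-- The values of three points with sum zero have sum zero. -/
private theorem RedAdd_zero {w : KPl k L κ} {a : L} {b : κ} (hab : ∃ h : a ∈ w.O, w.ρ ⟨a, h⟩ = b)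
    {P Q R : Pt a} {p q r : Pt b} (hP : Red w P p) (hQ : Red w Q q) (hR : Red w R r)
    (h : P + Q + R = 0) : p + q + r = 0 := by
  have hzero : ∀ {p : Pt b}, Red w (0 : Pt a) p → p = 0 := fun h => Red.uniq h (Red.zero w)
  rcases P with _ | ⟨x₁, y₁, n₁⟩
  · have hp : p = 0 := hzero hP
    have h0 : (Affine.Point.zero : Pt a) = 0 := rfl
    rw [h0, zero_add, add_comm, add_eq_zero_iff_eq_neg] at h
    rw [hp, zero_add, add_comm, add_eq_zero_iff_eq_neg]
    rw [h] at hR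
    exact Red.uniq hR hQ.neg
  rcases Q with _ | ⟨x₂, y₂, n₂⟩
  · have hq : q = 0 := hzero hQ
    have h0 : (Affine.Point.zero : Pt a) = 0 := rfl
    rw [h0, add_zero, add_comm, add_eq_zero_iff_eq_neg] at h
    rw [hq, add_zero, add_comm, add_eq_zero_iff_eq_neg]
    rw [h] at hR
    exact Red.uniq hR hP.neg
  rcases R with _ | ⟨x₃, y₃, n₃⟩
  · have hr : r = 0 := hzero hR
    have h0 : (Affine.Point.zero : Pt a) = 0 := rfl
    rw [h0, add_zero, add_comm, add_eq_zero_iff_eq_neg] at h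
    rw [hr, add_zero, add_comm, add_eq_zero_iff_eq_neg]
    rw [h] at hQ
    exact Red.uniq hQ hP.neg
  obtain ⟨l, m, hL⟩ := RedAdd_line n₁ n₂ n₃ h
  obtain ⟨ha, hab'⟩ := hab
  have hva : w.O.valuation a ≤ 1 := (ValuationSubring.valuation_le_one_iff w.O a).2 ha
  have q1 := (leg_equation a x₁ y₁).1 n₁.1
  have q2 := (leg_equation a x₂ y₂).1 n₂.1
  have q3 := (leg_equation a x₃ y₃).1 n₃.1
  have hL' := hL
  obtain ⟨g1, g2, g3, e1, e2, e3⟩ := hL'
  by_cases hlm : l ∈ w.O ∧ m ∈ w.O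
  · -- case A
    obtain ⟨hl, hm⟩ := hlm
    have h2O : (2 : L) ∈ w.O := by
      have : (2 : L) = 1 + 1 := by norm_num
      rw [this]
      exact w.O.add_mem _ _ w.O.one_mem w.O.one_mem
    have hs1 : l ^ 2 + 1 + a ∈ w.O := by
      rw [pow_two]
      exact w.O.add_mem _ _ (w.O.add_mem _ _ (w.O.mul_mem _ _ hl hl) w.O.one_mem) ha
    have hs2 : a - 2 * l * m ∈ w.O :=
      sub_mem ha (w.O.mul_mem _ _ (w.O.mul_mem _ _ h2O hl) hm)
    have hs3 : m ^ 2 ∈ w.O := by rw [pow_two]; exact w.O.mul_mem _ _ hm hm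
    have hint : ∀ x y : L, y = l * x + m → y ^ 2 = x * (x - 1) * (x - a) → x ∈ w.O := by
      intro x y hy hq
      by_contra hx
      have hx0 : x ≠ 0 := fun h0 => hx (h0 ▸ w.O.zero_mem)
      have hxi : x⁻¹ ∈ w.O := (w.O.mem_or_inv_mem x).resolve_left hx
      apply hx
      have h4 : x = (l ^ 2 + 1 + a) - (a - 2 * l * m) * x⁻¹ + m ^ 2 * (x⁻¹ * x⁻¹) := by
        field_simp
        rw [hy] at hq
        linear_combination -hq
      rw [h4]
      exact w.O.add_mem _ _ (sub_mem hs1 (w.O.mul_mem _ _ hs2 hxi))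
        (w.O.mul_mem _ _ hs3 (w.O.mul_mem _ _ hxi hxi))
    have i1 := hint x₁ y₁ g1 q1
    have i2 := hint x₂ y₂ g2 q2
    have i3 := hint x₃ y₃ g3 q3
    obtain ⟨X1, Y1, N1, j1, rfl, hX1, hY1⟩ := RedAdd_int hP i1
    obtain ⟨X2, Y2, N2, j2, rfl, hX2, hY2⟩ := RedAdd_int hQ i2
    obtain ⟨X3, Y3, N3, j3, rfl, hX3, hY3⟩ := RedAdd_int hR i3
    have hsum : RedAdd_Ln b (w.ρ ⟨l, hl⟩) (w.ρ ⟨m, hm⟩) X1 Y1 X2 Y2 X3 Y3 := by
      have hline : ∀ (x y : L) (hx : x ∈ w.O) (hy : y ∈ w.O), y = l * x + m →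
          w.ρ ⟨y, hy⟩ = w.ρ ⟨l, hl⟩ * w.ρ ⟨x, hx⟩ + w.ρ ⟨m, hm⟩ := by
        intro x y hx hy hxy
        rw [← map_mul, ← map_add]
        congr 1
        exact Subtype.ext hxy
      refine ⟨?_, ?_, ?_, ?_, ?_, ?_⟩
      · rw [← hX1, ← hY1]; exact hline _ _ i1 j1 g1
      · rw [← hX2, ← hY2]; exact hline _ _ i2 j2 g2
      · rw [← hX3, ← hY3]; exact hline _ _ i3 j3 g3
      · rw [← hX1, ← hX2, ← hX3, ← hab', ← map_one w.ρ, ← map_pow, ← map_add, ← map_add, ← map_add,
          ← map_add]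
        congr 1
        exact Subtype.ext e1
      · have h5 : (⟨x₁, i1⟩ * ⟨x₂, i2⟩ + ⟨x₁, i1⟩ * ⟨x₃, i3⟩ + ⟨x₂, i2⟩ * ⟨x₃, i3⟩ : w.O) =
            ⟨a, ha⟩ - 2 * ⟨l, hl⟩ * ⟨m, hm⟩ := Subtype.ext e2
        have h6 := congrArg w.ρ h5
        simp only [map_add, map_sub, map_mul, hX1, hX2, hX3, hab', map_ofNat] at h6
        exact h6
      · have h5 : (⟨x₁, i1⟩ * ⟨x₂, i2⟩ * ⟨x₃, i3⟩ : w.O) = ⟨m, hm⟩ ^ 2 := Subtype.ext e3
        have h6 := congrArg w.ρ h5
        simp only [map_mul, map_pow, hX1, hX2, hX3] at h6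
        exact h6
    exact RedAdd_sum (RedAdd_two_ne k κ) N1 N2 N3 hsum
  · by_cases hml : w.O.valuation l < w.O.valuation m
    · -- case B1
      have hm1 : 1 < w.O.valuation m := by
        by_contra hcon
        push Not at hcon
        exact hlm ⟨(ValuationSubring.valuation_le_one_iff w.O l).1 (hml.le.trans hcon),
          (ValuationSubring.valuation_le_one_iff w.O m).1 hcon⟩
      have hnint : ∀ x y : L, y = l * x + m → y ^ 2 = x * (x - 1) * (x - a) → x ∉ w.O := by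
        intro x y hy hq hx
        have hvx := (ValuationSubring.valuation_le_one_iff w.O x).2 hx
        have h4 : w.O.valuation y = w.O.valuation m := by
          rw [hy]
          apply Valuation.map_add_eq_of_lt_right
          rw [map_mul]
          calc w.O.valuation l * w.O.valuation x ≤ w.O.valuation l * 1 := mul_le_mul' le_rfl hvx
            _ = w.O.valuation l := mul_one _
            _ < w.O.valuation m := hml
        have h5 : y ^ 2 ∈ w.O := by
          rw [hq]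
          exact w.O.mul_mem _ _ (w.O.mul_mem _ _ hx (sub_mem hx w.O.one_mem))
            (sub_mem hx ha)
        have h6 := (ValuationSubring.valuation_le_one_iff w.O _).2 h5
        rw [map_pow, h4] at h6
        exact absurd h6 (not_le.2 (one_lt_pow₀ hm1 (by norm_num)))
      rw [RedAdd_nint hP (hnint _ _ g1 q1), RedAdd_nint hQ (hnint _ _ g2 q2),
        RedAdd_nint hR (hnint _ _ g3 q3)]
      simp
    · push Not at hml
      have hl1 : 1 < w.O.valuation l := by
        by_contra hcon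
        push Not at hcon
        exact hlm ⟨(ValuationSubring.valuation_le_one_iff w.O l).1 hcon,
          (ValuationSubring.valuation_le_one_iff w.O m).1 (hml.trans hcon)⟩
      by_cases h3 : x₃ ∈ w.O
      · by_cases h2 : x₂ ∈ w.O
        · by_cases h1 : x₁ ∈ w.O
          · -- all integral: impossible
            exfalso
            have h4 : l ^ 2 = x₁ + x₂ + x₃ - (1 + a) := by linear_combination -e1
            have h5 : l ^ 2 ∈ w.O := by
              rw [h4]
              exact sub_mem (w.O.add_mem _ _ (w.O.add_mem _ _ h1 h2) h3)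
                (w.O.add_mem _ _ w.O.one_mem ha)
            have h6 := (ValuationSubring.valuation_le_one_iff w.O _).2 h5
            rw [map_pow] at h6
            exact absurd h6 (not_le.2 (one_lt_pow₀ hl1 (by norm_num)))
          · -- first point
            have h4 := RedAdd_caseB (b := b) ha hl1 hml (n₁ := n₂) (n₂ := n₃) (n₃ := n₁)
              (hL.swap12.swap23) h2 h3 h1 hQ hR hP
            rw [← h4]; abel
        · have h1 : x₁ ∈ w.O := by
            by_contra hcon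
            exact RedAdd_two w.O.valuation hva hl1 hml hL q1 q2 q3
              (RedAdd_mem_of_not.1 hcon) (RedAdd_mem_of_not.1 h2)
          have h4 := RedAdd_caseB (b := b) ha hl1 hml (n₁ := n₁) (n₂ := n₃) (n₃ := n₂)
            hL.swap23 h1 h3 h2 hP hR hQ
          rw [← h4]; abel
      · have h2 : x₂ ∈ w.O := by
          by_contra hcon
          exact RedAdd_two w.O.valuation hva hl1 hml hL.swap12.swap23 q2 q3 q1
            (RedAdd_mem_of_not.1 hcon) (RedAdd_mem_of_not.1 h3)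
        have h1 : x₁ ∈ w.O := by
          by_contra hcon
          exact RedAdd_two w.O.valuation hva hl1 hml hL.swap23 q1 q3 q2
            (RedAdd_mem_of_not.1 hcon) (RedAdd_mem_of_not.1 h3)
        exact RedAdd_caseB ha hl1 hml hL h1 h2 h3 hP hQ hR

theorem Red.add {w : KPl k L κ} {a : L} {b : κ} (hab : ∃ h : a ∈ w.O, w.ρ ⟨a, h⟩ = b)
    (hb0 : b ≠ 0) (hb1 : b ≠ 1) {P Q : Pt a} {p q : Pt b} (hP : Red w P p) (hQ : Red w Q q) :
    Red w (P + Q) (p + q) := by
  obtain ⟨r, hr⟩ := exists_red w hab hb0 hb1 (-(P + Q))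
  have h1 := RedAdd_zero hab hP hQ hr (add_neg_cancel (P + Q))
  have h2 := hr.neg
  rw [neg_neg] at h2
  have h3 : -r = p + q := by
    rw [add_eq_zero_iff_eq_neg] at h1
    exact h1.symm
  rw [h3] at h2
  exact h2

end AC
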